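import Pool.Agent.BCX.Indep

/-!
# The coordinate ring of the affine curve of a monic polynomial
-/

namespace Pool.Agent.BCX

open Polynomial

variable {F : Type} [Field F]

/-- the coordinate ring of the curve `f = 0` over `Ω` -/
abbrev CR (f : F[X][X]) (Ω : Type) [Field Ω] [Algebra F Ω] : Type :=
  AdjoinRoot (f.map (mapRingHom (algebraMap F Ω)))

section

variable (f : F[X][X]) (Ω : Type) [Field Ω] [Algebra F Ω]

/-- the coordinate `x` -/
noncomputable def CR.x : CR f Ω := AdjoinRoot.of _ X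

/-- the coordinate `y` -/
noncomputable def CR.y : CR f Ω := AdjoinRoot.root _

theorem CR.of_map (g : F[X]) :
    AdjoinRoot.of (f.map (mapRingHom (algebraMap F Ω))) (mapRingHom (algebraMap F Ω) g) =
      aeval (CR.x f Ω) g := by
  have h : ((AdjoinRoot.of (f.map (mapRingHom (algebraMap F Ω)))).comp
      (mapRingHom (algebraMap F Ω))) =
      ((aeval (CR.x f Ω) : F[X] →ₐ[F] CR f Ω) : F[X] →+* CR f Ω) := by
    apply Polynomial.ringHom_ext
    · intro a
      simp only [RingHom.comp_apply, coe_mapRingHom, map_C, RingHom.coe_coe, aeval_C]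
      rw [IsScalarTower.algebraMap_apply F Ω (CR f Ω),
        IsScalarTower.algebraMap_apply Ω (Polynomial Ω) (CR f Ω)]
      rfl
    · simp [CR.x]
  exact congrArg (fun φ : F[X] →+* CR f Ω => φ g) h

variable {f}

theorem CR.rel (hf : f.Monic) :
    CR.y f Ω ^ f.natDegree =
      ∑ t ∈ Finset.range f.natDegree, aeval (CR.x f Ω) (- f.coeff t) * CR.y f Ω ^ t := by
  set g := f.map (mapRingHom (algebraMap F Ω)) with hg
  have hgm : g.Monic := hf.map _
  have hdeg : g.natDegree = f.natDegree := hf.natDegree_map _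
  have h0 : g.eval₂ (AdjoinRoot.of g) (AdjoinRoot.root g) = 0 := AdjoinRoot.eval₂_root g
  rw [eval₂_eq_sum_range, hdeg, Finset.sum_range_succ] at h0
  have h1 : g.coeff f.natDegree = 1 := by rw [← hdeg]; exact hgm
  rw [h1, map_one, one_mul] at h0
  have h2 := eq_neg_of_add_eq_zero_right h0
  change AdjoinRoot.root g ^ f.natDegree = _
  rw [h2, ← Finset.sum_neg_distrib]
  refine Finset.sum_congr rfl fun t _ => ?_
  have h3 : g.coeff t = mapRingHom (algebraMap F Ω) (f.coeff t) := coeff_map _ _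
  rw [map_neg, neg_mul, ← CR.of_map f Ω, h3]
  rfl

theorem CR.span (hf : f.Monic) :
    ⊤ ≤ Submodule.span Ω (Set.range (fun ij : ℕ × Fin f.natDegree =>
      CR.x f Ω ^ ij.1 * CR.y f Ω ^ (ij.2 : ℕ))) := by
  set g := f.map (mapRingHom (algebraMap F Ω)) with hg
  have hgm : g.Monic := hf.map _
  have hdeg : g.natDegree = f.natDegree := hf.natDegree_map _
  rintro z -
  obtain ⟨u, rfl⟩ := AdjoinRoot.mk_surjective z
  have h1 : AdjoinRoot.mk g u = AdjoinRoot.mk g (u %ₘ g) := by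
    rw [AdjoinRoot.mk_eq_mk]
    exact ⟨u /ₘ g, by
      rw [sub_eq_iff_eq_add']
      exact (modByMonic_add_div u g).symm⟩
  rw [h1]
  by_cases hone : g = 1
  · have h2 : u %ₘ g = 0 := by rw [hone, modByMonic_one]
    rw [h2, map_zero]; exact Submodule.zero_mem _
  have hlt : (u %ₘ g).natDegree < f.natDegree := by
    rw [← hdeg]; exact natDegree_modByMonic_lt u hgm hone
  rw [as_sum_range' _ _ hlt, map_sum]
  refine Submodule.sum_mem _ fun j hj => ?_
  rw [← C_mul_X_pow_eq_monomial, map_mul, map_pow, AdjoinRoot.mk_X, AdjoinRoot.mk_C]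
  rw [as_sum_range ((u %ₘ g).coeff j), map_sum, Finset.sum_mul]
  refine Submodule.sum_mem _ fun i _ => ?_
  rw [← C_mul_X_pow_eq_monomial, map_mul, map_pow]
  have h3 : AdjoinRoot.of g (C (((u %ₘ g).coeff j).coeff i)) *
      AdjoinRoot.of g X ^ i * AdjoinRoot.root g ^ j =
      (((u %ₘ g).coeff j).coeff i) • (CR.x f Ω ^ i * CR.y f Ω ^ j) := by
    rw [Algebra.smul_def, IsScalarTower.algebraMap_apply Ω (Polynomial Ω) (CR f Ω), mul_assoc]
    rfl
  rw [h3]
  exact Submodule.smul_mem _ _ (Submodule.subset_span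
    ⟨(i, ⟨j, Finset.mem_range.1 hj⟩), rfl⟩)

end

theorem map_ev2 (f : F[X][X]) (θ : PowerSeries F)
    (hθ : ev2 PowerSeries.X θ f = 0) (Ω : Type) [Field Ω] [Algebra F Ω] :
    (f.map (mapRingHom (algebraMap F Ω))).eval₂
      (Polynomial.coeToPowerSeries.ringHom : Polynomial Ω →+* PowerSeries Ω)
      (PowerSeries.map (algebraMap F Ω) θ) = 0 := by
  have h1 : (Polynomial.coeToPowerSeries.ringHom : Polynomial Ω →+* PowerSeries Ω).comp
      (mapRingHom (algebraMap F Ω)) = (PowerSeries.map (algebraMap F Ω)).comp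
      ((aeval (PowerSeries.X : PowerSeries F) : F[X] →ₐ[F] PowerSeries F) :
        F[X] →+* PowerSeries F) := by
    apply Polynomial.ringHom_ext
    · intro a
      simp
    · simp
  have h2 := congrArg (PowerSeries.map (algebraMap F Ω)) hθ
  rw [ev2, coe_eval₂RingHom, map_zero, hom_eval₂] at h2
  rw [eval₂_map, h1]
  exact h2

/-- ROW S5: the curve of a monic polynomial with a root in the power series ring, for which the
monomials are linearly independent -/
theorem exists_curve (f : F[X][X]) (hf : f.Monic) (hD : 1 ≤ f.natDegree) (θ : PowerSeries F)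
    (hθ : ev2 PowerSeries.X θ f = 0)
    (hind : LinearIndependent F (fun ij : ℕ × Fin f.natDegree =>
      (PowerSeries.X : PowerSeries F) ^ ij.1 * θ ^ (ij.2 : ℕ)))
    (Ω : Type) [Field Ω] [Algebra F Ω] :
    ∃ (c : Curve F Ω (CR f Ω)) (ψ : CR f Ω →+* PowerSeries Ω), IsDomain (CR f Ω) ∧
      c.D = f.natDegree ∧ c.B = (Finset.range f.natDegree).sup (fun t => (f.coeff t).natDegree) ∧
      c.a = (fun t => - f.coeff t) ∧
      Function.Injective ψ ∧ (∀ w : Ω, ψ (algebraMap Ω (CR f Ω) w) = PowerSeries.C w) ∧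
      ψ c.x = PowerSeries.X ∧ ψ c.y = PowerSeries.map (algebraMap F Ω) θ ∧
      ∀ x0 y0 : Ω, ev2 x0 y0 f = 0 → ∃ φ : CR f Ω →ₐ[Ω] Ω, φ c.x = x0 ∧ φ c.y = y0 := by
  set ψ : CR f Ω →+* PowerSeries Ω := AdjoinRoot.lift _ _ (map_ev2 f θ hθ Ω) with hψ
  have hψx : ψ (CR.x f Ω) = PowerSeries.X := by
    rw [hψ, CR.x, AdjoinRoot.lift_of]
    simp
  have hψy : ψ (CR.y f Ω) = PowerSeries.map (algebraMap F Ω) θ := by
    rw [hψ, CR.y, AdjoinRoot.lift_root]
  have hψC : ∀ w : Ω, ψ (algebraMap Ω (CR f Ω) w) = PowerSeries.C w := by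
    intro w
    have h1 : algebraMap Ω (CR f Ω) w = AdjoinRoot.of _ (C w) := by
      rw [IsScalarTower.algebraMap_apply Ω (Polynomial Ω) (CR f Ω)]; rfl
    rw [h1, hψ, AdjoinRoot.lift_of]
    simp
  let L : CR f Ω →ₗ[Ω] PowerSeries Ω :=
    { toFun := ψ
      map_add' := map_add ψ
      map_smul' := fun w z => by
        rw [Algebra.smul_def, map_mul, hψC, RingHom.id_apply, Algebra.smul_def,
          PowerSeries.algebraMap_apply, Algebra.algebraMap_self, RingHom.id_apply] }
  have hLψ : ∀ z, L z = ψ z := fun z => rfl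
  have hLv : ∀ ij : ℕ × Fin f.natDegree, L (CR.x f Ω ^ ij.1 * CR.y f Ω ^ (ij.2 : ℕ)) =
      PowerSeries.map (algebraMap F Ω) (PowerSeries.X ^ ij.1 * θ ^ (ij.2 : ℕ)) := by
    intro ij
    rw [hLψ, map_mul, map_pow, map_pow, hψx, hψy, map_mul, map_pow, map_pow, PowerSeries.map_X]
  have hLi : LinearIndependent Ω (L ∘ fun ij : ℕ × Fin f.natDegree =>
      CR.x f Ω ^ ij.1 * CR.y f Ω ^ (ij.2 : ℕ)) := by
    have h := li_map (Ω := Ω) _ hind
    have h2 : (L ∘ fun ij : ℕ × Fin f.natDegree => CR.x f Ω ^ ij.1 * CR.y f Ω ^ (ij.2 : ℕ)) =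
        fun ij : ℕ × Fin f.natDegree =>
          PowerSeries.map (algebraMap F Ω) (PowerSeries.X ^ ij.1 * θ ^ (ij.2 : ℕ)) :=
      funext hLv
    rw [h2]
    exact h
  have hli : LinearIndependent Ω (fun ij : ℕ × Fin f.natDegree =>
      CR.x f Ω ^ ij.1 * CR.y f Ω ^ (ij.2 : ℕ)) := LinearIndependent.of_comp L hLi
  have hsp := CR.span Ω hf
  have hinj : Function.Injective ψ := by
    rw [injective_iff_map_eq_zero]
    intro z hz
    let b := Module.Basis.mk hli hsp
    have h1 : L z = Finsupp.linearCombination Ω (L ∘ fun ij : ℕ × Fin f.natDegree =>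
        CR.x f Ω ^ ij.1 * CR.y f Ω ^ (ij.2 : ℕ)) (b.repr z) := by
      conv_lhs => rw [← b.linearCombination_repr z]
      rw [Finsupp.apply_linearCombination, show (⇑b) = _ from Module.Basis.coe_mk hli hsp]
    have h2 : b.repr z = 0 := by
      apply hLi
      rw [← h1, map_zero, hLψ]
      exact hz
    exact b.repr.map_eq_zero_iff.1 h2
  have hdom : IsDomain (CR f Ω) := hinj.isDomain ψ
  refine ⟨
    { D := f.natDegree
      B := (Finset.range f.natDegree).sup (fun t => (f.coeff t).natDegree)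
      x := CR.x f Ω
      y := CR.y f Ω
      a := fun t => - f.coeff t
      hD := hD
      rel := CR.rel Ω hf
      deg := fun t ht => by
        rw [natDegree_neg]
        exact Finset.le_sup (f := fun t => (f.coeff t).natDegree) (Finset.mem_range.2 ht)
      li := hli
      span := hsp }, ψ, hdom, rfl, rfl, rfl, hinj, hψC, hψx, hψy, ?_⟩
  intro x0 y0 h0
  have h1 : (f.map (mapRingHom (algebraMap F Ω))).eval₂
      ((aeval x0 : Polynomial Ω →ₐ[Ω] Ω) : Polynomial Ω →+* Ω) y0 = 0 := by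
    rw [eval₂_map, ← h0, ev2, coe_eval₂RingHom]
    congr 1
    apply Polynomial.ringHom_ext
    · intro a; simp
    · simp
  refine ⟨AdjoinRoot.liftAlgHom _ (aeval x0 : Polynomial Ω →ₐ[Ω] Ω) y0 h1, ?_, ?_⟩
  · change AdjoinRoot.liftAlgHom _ (aeval x0 : Polynomial Ω →ₐ[Ω] Ω) y0 h1 (AdjoinRoot.of _ X) = x0
    rw [AdjoinRoot.liftAlgHom_of]
    simp
  · change AdjoinRoot.liftAlgHom _ (aeval x0 : Polynomial Ω →ₐ[Ω] Ω) y0 h1 (AdjoinRoot.root _) = y0
    rw [AdjoinRoot.liftAlgHom_root]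

end Pool.Agent.BCX
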