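import Pool.Agent.BCX.Defs

/-!
# Independence of power series over larger fields and over `P`-th powers
-/

namespace Pool.Agent.BCX

/-- a vector of `Ω` orthogonal to finitely or infinitely many vectors of `F` is zero, if this is so
over `F` -/
theorem eq_zero_of_functionals {F Ω κ ι : Type} [Field F] [Field Ω] [Algebra F Ω]
    (s : Finset κ) (u : ι → κ → F)
    (hu : ∀ w : κ → F, (∀ n, ∑ k ∈ s, w k * u n k = 0) → ∀ k ∈ s, w k = 0) (g : κ → Ω)
    (hg : ∀ n, ∑ k ∈ s, g k * algebraMap F Ω (u n k) = 0) : ∀ k ∈ s, g k = 0 := by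
  intro k hk
  rw [← Module.forall_dual_apply_eq_zero_iff F]
  intro ℓ
  refine hu (fun k => ℓ (g k)) (fun n => ?_) k hk
  have h := congrArg ℓ (hg n)
  rw [map_sum, map_zero] at h
  rw [← h]
  refine Finset.sum_congr rfl fun i _ => ?_
  rw [mul_comm (g i), ← Algebra.smul_def, map_smul, smul_eq_mul, mul_comm]

/-- ROW S1a -/
theorem li_map {F Ω κ : Type} [Field F] [Field Ω] [Algebra F Ω] (v : κ → PowerSeries F)
    (hv : LinearIndependent F v) :
    LinearIndependent Ω (fun k => PowerSeries.map (algebraMap F Ω) (v k)) := by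
  rw [linearIndependent_iff'] at hv ⊢
  intro s g hg
  refine eq_zero_of_functionals s (fun n k => PowerSeries.coeff n (v k)) ?_ g ?_
  · intro w hw
    refine hv s w ?_
    ext n
    rw [map_sum, map_zero, ← hw n]
    refine Finset.sum_congr rfl fun i _ => ?_
    simp
  · intro n
    have h := congrArg (PowerSeries.coeff n) hg
    rw [map_sum, map_zero] at h
    rw [← h]
    refine Finset.sum_congr rfl fun i _ => ?_
    simp

/-- finitely many coefficients see the independence -/
theorem exists_trunc {F κ : Type} [Field F] [Finite F] [Fintype κ] (v : κ → PowerSeries F)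
    (hv : LinearIndependent F v) : ∃ N : ℕ, ∀ w : κ → F,
    (∀ n : Fin N, ∑ k, w k * PowerSeries.coeff (n : ℕ) (v k) = 0) → ∀ k, w k = 0 := by
  classical
  have := Fintype.ofFinite F
  have h1 : ∀ w : κ → F, ∃ n : ℕ, w ≠ 0 → ∑ k, w k * PowerSeries.coeff n (v k) ≠ 0 := by
    intro w
    by_contra hcon
    push Not at hcon
    obtain ⟨hw, -⟩ := hcon 0
    apply hw
    rw [Fintype.linearIndependent_iff] at hv
    ext k
    refine hv w ?_ k
    ext n
    rw [map_sum, map_zero, ← (hcon n).2]
    refine Finset.sum_congr rfl fun i _ => ?_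
    simp
  choose n hn using h1
  refine ⟨Finset.univ.sup n + 1, fun w hw k => ?_⟩
  by_contra hk
  have hw0 : w ≠ 0 := fun h => hk (by rw [h]; rfl)
  exact hn w hw0 (hw ⟨n w, Nat.lt_succ_of_le (Finset.le_sup (f := n) (Finset.mem_univ w))⟩)

theorem coeff_mul_pow {Ω : Type} [Field Ω] (p j : ℕ) [Fact p.Prime] [CharP Ω p]
    (V a : PowerSeries Ω) (n : ℕ) (hn : n < p ^ j) :
    PowerSeries.coeff n (V * a ^ p ^ j) =
      PowerSeries.constantCoeff a ^ p ^ j * PowerSeries.coeff n V := by
  have : CharP (PowerSeries Ω) p :=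
    charP_of_injective_ringHom (f := (PowerSeries.C : Ω →+* PowerSeries Ω))
      (PowerSeries.C_injective) p
  obtain ⟨b, hb⟩ : ∃ b, a = PowerSeries.C (PowerSeries.constantCoeff a) + PowerSeries.X * b := by
    have h : (PowerSeries.X : PowerSeries Ω) ∣ a - PowerSeries.C (PowerSeries.constantCoeff a) := by
      rw [PowerSeries.X_dvd_iff]
      simp
    obtain ⟨b, hb⟩ := h
    exact ⟨b, by rw [← hb]; ring⟩
  have h1 : a ^ p ^ j = PowerSeries.C (PowerSeries.constantCoeff a ^ p ^ j) +
      PowerSeries.X ^ p ^ j * b ^ p ^ j := by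
    conv_lhs => rw [hb]
    rw [add_pow_char_pow, mul_pow, map_pow]
  rw [h1, mul_add, map_add, mul_left_comm, PowerSeries.coeff_X_pow_mul', if_neg (not_le.2 hn),
    add_zero, mul_comm V, PowerSeries.coeff_C_mul]

/-- ROW S1b -/
theorem indep_pow {F κ : Type} [Field F] [Finite F] [Fintype κ] (v : κ → PowerSeries F)
    (hv : LinearIndependent F v) : ∃ M0 : ℕ, ∀ (Ω : Type) [Field Ω] [Algebra F Ω] (p j : ℕ)
    [Fact p.Prime] [CharP Ω p], M0 ≤ p ^ j → ∀ a : κ → PowerSeries Ω,
    ∑ k, PowerSeries.map (algebraMap F Ω) (v k) * a k ^ (p ^ j) = 0 → ∀ k, a k = 0 := by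
  obtain ⟨N, hN⟩ := exists_trunc v hv
  refine ⟨N, ?_⟩
  intro Ω _ _ p j _ _ hle
  have hP : p ^ j ≠ 0 := pow_ne_zero _ (Fact.out : p.Prime).ne_zero
  have key : ∀ m : ℕ, ∀ a : κ → PowerSeries Ω,
      ∑ k, PowerSeries.map (algebraMap F Ω) (v k) * a k ^ (p ^ j) = 0 →
      ∀ k, (PowerSeries.X : PowerSeries Ω) ^ m ∣ a k := by
    intro m
    induction m with
    | zero => intro a _ k; rw [pow_zero]; exact one_dvd _
    | succ m ih =>
      intro a ha
      have h0 : ∀ k ∈ Finset.univ, PowerSeries.constantCoeff (a k) ^ p ^ j = 0 := by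
        refine eq_zero_of_functionals (F := F) Finset.univ
          (fun (n : Fin N) k => PowerSeries.coeff (n : ℕ) (v k)) (fun w hw k _ => hN w hw k)
          (fun k => PowerSeries.constantCoeff (a k) ^ p ^ j) ?_
        intro n
        have h := congrArg (PowerSeries.coeff (n : ℕ)) ha
        rw [map_sum, map_zero] at h
        rw [← h]
        refine Finset.sum_congr rfl fun i _ => ?_
        rw [coeff_mul_pow p j _ _ _ (lt_of_lt_of_le n.2 hle), PowerSeries.coeff_map]
      have h1 : ∀ k, (PowerSeries.X : PowerSeries Ω) ∣ a k := fun k => by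
        rw [PowerSeries.X_dvd_iff]
        exact pow_eq_zero_iff hP |>.1 (h0 k (Finset.mem_univ k))
      choose b hb using h1
      have h2 : ∑ k, PowerSeries.map (algebraMap F Ω) (v k) * b k ^ (p ^ j) = 0 := by
        have h3 : (PowerSeries.X : PowerSeries Ω) ^ p ^ j *
            ∑ k, PowerSeries.map (algebraMap F Ω) (v k) * b k ^ (p ^ j) = 0 := by
          rw [← ha, Finset.mul_sum]
          refine Finset.sum_congr rfl fun i _ => ?_
          rw [hb i, mul_pow]; ring
        exact (mul_eq_zero.1 h3).resolve_left (pow_ne_zero _ PowerSeries.X_ne_zero)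
      intro k
      rw [hb k, pow_succ']
      exact mul_dvd_mul_left _ (ih b h2 k)
  intro a ha k
  ext n
  rw [map_zero]
  exact PowerSeries.X_pow_dvd_iff.1 (key (n + 1) a ha k) n (Nat.lt_succ_self n)

end Pool.Agent.BCX
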