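import Mathlib

/-!
# The degree `m1`
-/

namespace Pool.Agent.BCX

lemma dvd_pow_sub_one {N r : ℕ} (hr : 1 ≤ r) (hc : r.Coprime N) :
    N * (r - 1) ∣ r ^ (N * N.totient) - 1 := by
  have h1 : (N : ℤ) ∣ ∑ i ∈ Finset.range N, ((r : ℤ) ^ N.totient) ^ i := by
    rw [← ZMod.intCast_zmod_eq_zero_iff_dvd]
    have h2 : ((r : ZMod N)) ^ N.totient = 1 := by
      have := (ZMod.natCast_eq_natCast_iff _ _ _).2 (Nat.ModEq.pow_totient hc)
      push_cast at this
      exact this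
    push_cast
    rw [h2]
    simp
  have h3 : (r : ℤ) - 1 ∣ (r : ℤ) ^ N.totient - 1 := sub_one_dvd_pow_sub_one _ _
  have h4 := mul_dvd_mul h1 h3
  rw [geom_sum_mul] at h4
  have h5 : ((N * (r - 1) : ℕ) : ℤ) ∣ ((r ^ (N * N.totient) - 1 : ℕ) : ℤ) := by
    rw [Nat.cast_sub (Nat.one_le_pow _ _ hr), Nat.cast_mul, Nat.cast_sub hr]
    push_cast
    rw [mul_comm N, pow_mul]
    exact h4
  exact Int.natCast_dvd_natCast.1 h5

/-- ROW Q6d (ArithP.lean): the degree `m1`, for instance `N * φ N` with `N = (p - 1)! * (p - 1)` -/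
theorem exists_degree {p : ℕ} (hp : p.Prime) (hp3 : 3 ≤ p) :
    ∃ m1 : ℕ, 1 ≤ m1 ∧ ∀ e s : ℕ, 1 ≤ e → e < p → 1 ≤ s →
      e * (p - 1) * (p ^ s - 1) ∣ (p ^ s) ^ m1 - 1 := by
  have hN : 1 ≤ (p - 1).factorial * (p - 1) := Nat.mul_pos (Nat.factorial_pos _) (by omega)
  refine ⟨(p - 1).factorial * (p - 1) * Nat.totient ((p - 1).factorial * (p - 1)),
    Nat.mul_pos hN (Nat.totient_pos.2 hN), ?_⟩
  intro e s he hep hs
  have hc : (p ^ s).Coprime ((p - 1).factorial * (p - 1)) := by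
    refine Nat.Coprime.pow_left s (Nat.Coprime.mul_right ?_ ?_)
    · exact (Nat.coprime_factorial_iff (by omega)).2 (by
        rw [hp.minFac_eq]; omega)
    · exact (Nat.coprime_self_sub_right (by omega)).2 (Nat.coprime_one_right _)
  refine dvd_trans ?_ (dvd_pow_sub_one (Nat.one_le_pow _ _ hp.pos) hc)
  exact mul_dvd_mul (mul_dvd_mul (Nat.dvd_factorial (by omega) (by omega)) dvd_rfl) dvd_rfl

end Pool.Agent.BCX
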