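import Pool.Agent.BCX.DefsP
import Pool.Agent.BCX.BalG
import Pool.Agent.Helper36.BCH.Balanced

/-!
# Primitive BCH codes over fields of odd order: the balanced set
-/

namespace Pool.Agent.BCX

open Polynomial
open Pool.Agent.Helper36.BCH

/-- ROW Q1 -/
theorem SplitQ.balanced {K L : Type} [Field K] [Field L] [Algebra K L] [DecidableEq L]
    {C : Finset K} (hC : ∀ c ∈ C, c ≠ 0) {n : ℕ} (hn : (n : K) ≠ 0) (h : SplitQ C L n) :
    ∃ S : Finset L, S.card = n * C.card + 1 ∧ Balanced K S := by
  classical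
  obtain ⟨g, α, hgn, hXg, hα, hS⟩ := h
  choose! S hScard hSx using hS
  have hn1 : 1 ≤ n := by
    rcases Nat.eq_zero_or_pos n with rfl | h
    · exact absurd Nat.cast_zero hn
    · exact h
  have hnL : (n : L) ≠ 0 := by
    rw [← map_natCast (algebraMap K L) n]
    exact (_root_.map_ne_zero _).mpr hn
  have hg0 : g ≠ 0 := by
    rintro rfl
    rw [natDegree_zero] at hgn
    omega
  have hl : g.leadingCoeff ≠ 0 := leadingCoeff_ne_zero.mpr hg0
  have hgz : g.eval 0 = 0 := by
    have h1 := congrArg (eval 0) hXg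
    rw [eval_mul, eval_X, zero_mul, eval_mul, eval_natCast] at h1
    exact (mul_eq_zero.mp h1.symm).resolve_left hnL
  have hC' : ∀ c ∈ C, algebraMap K L c ≠ 0 := fun c hc => by
    rw [Ne, map_eq_zero]
    exact hC c hc
  -- the value of `g` at the points of `S c`
  have hev : ∀ c ∈ C, ∀ x ∈ S c, g.eval x = α * (algebraMap K L c)⁻¹ := by
    intro c hc x hx
    rw [← hSx c hc x hx]
    field_simp [hC' c hc]
  have hdisj : ∀ c ∈ C, ∀ c' ∈ C, c ≠ c' → Disjoint (S c) (S c') := by
    intro c hc c' hc' hne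
    rw [Finset.disjoint_left]
    intro x hx hx'
    have h1 := hev c hc x hx
    have h2 := hev c' hc' x hx'
    rw [h1] at h2
    have h3 := mul_left_cancel₀ hα h2
    exact hne ((algebraMap K L).injective (inv_injective h3))
  have hzero : ∀ c ∈ C, (0 : L) ∉ S c := by
    intro c hc h0
    have h1 := hSx c hc 0 h0
    rw [hgz, mul_zero] at h1
    exact hα h1.symm
  have hnod : ∀ c ∈ C, Lagrange.nodal (S c) id =
      Polynomial.C g.leadingCoeff⁻¹ * (g - Polynomial.C (α * (algebraMap K L c)⁻¹)) :=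
    fun c hc => nodal_eq hn1 hgn (hScard c hc) (hev c hc)
  have hz : (0 : L) ∉ C.biUnion S := by
    rw [Finset.mem_biUnion]
    rintro ⟨c, hc, h0⟩
    exact hzero c hc h0
  refine ⟨insert 0 (C.biUnion S), ?_, (α * g.leadingCoeff⁻¹) ^ C.card,
    pow_ne_zero _ (mul_ne_zero hα (inv_ne_zero hl)), ?_⟩
  · rw [Finset.card_insert_of_notMem hz, Finset.card_biUnion hdisj,
      Finset.sum_congr rfl hScard, Finset.sum_const, smul_eq_mul, mul_comm]
  intro s hs
  rw [Finset.mem_insert] at hs
  rcases hs with rfl | hs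
  · refine ⟨∏ c ∈ C, (-c⁻¹), Finset.prod_ne_zero_iff.mpr fun c hc => by simpa using hC c hc, ?_⟩
    rw [Finset.erase_insert hz, Finset.prod_biUnion hdisj, map_prod, ← Finset.prod_const,
      ← Finset.prod_mul_distrib]
    refine Finset.prod_congr rfl fun c hc => ?_
    have h1 : ∏ t ∈ S c, ((0 : L) - t) = (Lagrange.nodal (S c) id).eval 0 := by
      rw [Lagrange.eval_nodal]
      rfl
    rw [h1, hnod c hc, eval_mul, eval_C, eval_sub, eval_C, hgz, map_neg, map_inv₀]
    ring
  · obtain ⟨c, hc, hsc⟩ := Finset.mem_biUnion.mp hs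
    refine ⟨(n : K) * c⁻¹ * ∏ c' ∈ C.erase c, (c⁻¹ - c'⁻¹),
      mul_ne_zero (mul_ne_zero hn (inv_ne_zero (hC c hc)))
      (Finset.prod_ne_zero_iff.mpr fun c' hc' => ?_), ?_⟩
    · rw [sub_ne_zero]
      exact fun h => (Finset.mem_erase.mp hc').1 (inv_injective h).symm
    have hs0 : s ≠ 0 := fun h => hzero c hc (h ▸ hsc)
    have hset : (insert 0 (C.biUnion S)).erase s =
        insert 0 ((S c).erase s ∪ (C.erase c).biUnion S) := by
      ext t
      simp only [Finset.mem_erase, Finset.mem_insert, Finset.mem_union, Finset.mem_biUnion]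
      constructor
      · rintro ⟨hts, rfl | ⟨c', hc', ht⟩⟩
        · exact Or.inl rfl
        · by_cases hcc : c' = c
          · subst hcc
            exact Or.inr (Or.inl ⟨hts, ht⟩)
          · exact Or.inr (Or.inr ⟨c', ⟨hcc, hc'⟩, ht⟩)
      · rintro (rfl | ⟨hts, ht⟩ | ⟨c', ⟨hcc, hc'⟩, ht⟩)
        · exact ⟨hs0.symm, Or.inl rfl⟩
        · exact ⟨hts, Or.inr ⟨c, hc, ht⟩⟩
        · refine ⟨?_, Or.inr ⟨c', hc', ht⟩⟩
          rintro rfl
          exact (Finset.disjoint_left.mp (hdisj c hc c' hc' (Ne.symm hcc)) hsc) ht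
    have hz2 : (0 : L) ∉ (S c).erase s ∪ (C.erase c).biUnion S := by
      simp only [Finset.mem_union, Finset.mem_erase, Finset.mem_biUnion]
      rintro (⟨_, h0⟩ | ⟨c', ⟨_, hc'⟩, h0⟩)
      · exact hzero c hc h0
      · exact hzero c' hc' h0
    have hd2 : Disjoint ((S c).erase s) ((C.erase c).biUnion S) := by
      rw [Finset.disjoint_biUnion_right]
      intro c' hc'
      exact Finset.disjoint_of_subset_left (Finset.erase_subset _ _)
        (hdisj c hc c' (Finset.mem_erase.mp hc').2 (Finset.mem_erase.mp hc').1.symm)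
    rw [hset, Finset.prod_insert hz2, Finset.prod_union hd2, Finset.prod_biUnion (by
      intro a ha b hb hab
      exact hdisj a (Finset.mem_erase.mp ha).2 b (Finset.mem_erase.mp hb).2 hab)]
    have h1 : ∏ t ∈ (S c).erase s, (s - t) = (derivative (Lagrange.nodal (S c) id)).eval s := by
      have := Lagrange.eval_nodal_derivative_eval_node_eq (v := (id : L → L)) hsc
      rw [id_eq] at this
      rw [this, Lagrange.eval_nodal]
      rfl
    have h2 : ∀ c' ∈ C.erase c, ∏ t ∈ S c', (s - t) =
        (α * g.leadingCoeff⁻¹) * algebraMap K L (c⁻¹ - c'⁻¹) := by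
      intro c' hc'
      have h3 : ∏ t ∈ S c', (s - t) = (Lagrange.nodal (S c') id).eval s := by
        rw [Lagrange.eval_nodal]
        rfl
      rw [h3, hnod c' (Finset.mem_erase.mp hc').2, eval_mul, eval_C, eval_sub, eval_C,
        hev c hc s hsc, map_sub, map_inv₀, map_inv₀]
      ring
    have h4 : s * (derivative g).eval s = (n : L) * (α * (algebraMap K L c)⁻¹) := by
      rw [← hev c hc s hsc]
      have h5 := congrArg (eval s) hXg
      rw [eval_mul, eval_X, eval_mul, eval_natCast] at h5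
      exact h5
    rw [h1, hnod c hc, Finset.prod_congr rfl h2, Finset.prod_mul_distrib, Finset.prod_const,
      derivative_C_mul, derivative_sub, derivative_C, eval_mul, eval_C, map_mul, map_mul,
      map_prod, map_inv₀, map_natCast]
    simp only [sub_zero]
    have hcard : C.card = (C.erase c).card + 1 := (Finset.card_erase_add_one hc).symm
    rw [hcard, pow_succ]
    linear_combination (g.leadingCoeff⁻¹ * ((α * g.leadingCoeff⁻¹) ^ (C.erase c).card *
      ∏ c' ∈ C.erase c, algebraMap K L (c⁻¹ - c'⁻¹))) * h4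

end Pool.Agent.BCX
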