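import Pool.Agent.BCX.DefsP

/-!
# Primitive BCH codes over fields of odd order: the base
-/

namespace Pool.Agent.BCX

open Polynomial

/-- ROW Q4 (BaseP.lean): the base `g = X ^ e` -/
theorem SplitP.base {p : ℕ} {K F : Type} [Field K] [Field F] [Algebra K F] {C : Finset K} {e : ℕ}
    (he : 1 ≤ e) {ζ : F} (hζ : IsPrimitiveRoot ζ e) {α : F} (hα : α ≠ 0)
    (h1 : ∀ c ∈ C, ∃ y : F, algebraMap K F c * y ^ e = α) {B Y : F} (hB : B ≠ 0) (hY : Y ≠ 0)
    (h2 : (e : F) * α = B ^ e * Y ^ (p - 1)) : SplitP p C F e := by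
  classical
  refine ⟨X ^ e, α, B, Y, natDegree_X_pow e, ?_, hα, hB, hY, ?_, fun c hc => ?_⟩
  · rw [derivative_X_pow]
    obtain ⟨k, rfl⟩ : ∃ k, e = k + 1 := ⟨e - 1, by omega⟩
    simp only [Nat.add_sub_cancel, map_natCast]
    ring
  · rw [leadingCoeff_X_pow, one_mul, h2]
  · obtain ⟨y, hy⟩ := h1 c hc
    have hy0 : y ≠ 0 := by
      rintro rfl
      rw [zero_pow (by omega), mul_zero] at hy
      exact hα hy.symm
    refine ⟨(Finset.range e).image fun k => y * ζ ^ k, ?_, fun x hx => ?_⟩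
    · rw [Finset.card_image_of_injOn, Finset.card_range]
      intro i hi j hj hij
      exact hζ.pow_inj (Finset.mem_range.1 hi) (Finset.mem_range.1 hj) (mul_left_cancel₀ hy0 hij)
    · obtain ⟨k, -, rfl⟩ := Finset.mem_image.1 hx
      rw [eval_pow, eval_X, mul_pow, ← pow_mul, mul_comm k e, pow_mul, hζ.pow_eq_one, one_pow,
        mul_one, hy]

end Pool.Agent.BCX
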