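import Mathlib

/-!
# `K((X))` as a complete nontrivially normed field
-/

namespace Pool.Agent.BCX

open scoped LaurentSeries WithZero Valued

variable (K : Type) [Field K]

theorem val_single : (Valued.v : Valuation K⸨X⸩ ℤᵐ⁰) (HahnSeries.single 1 1) < 1 := by
  have h := LaurentSeries.valuation_single_zpow K 1
  rw [h]
  decide

theorem nonempty_rankOne : Nonempty (Valued.v : Valuation K⸨X⸩ ℤᵐ⁰).RankOne := by
  have : (Valued.v : Valuation K⸨X⸩ ℤᵐ⁰).IsNontrivial := by
    refine ⟨⟨HahnSeries.single 1 1, ?_, (val_single K).ne⟩⟩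
    rw [Ne, map_eq_zero]
    intro h
    exact one_ne_zero (HahnSeries.single_eq_zero_iff.1 h)
  rw [Valuation.nonempty_rankOne_iff_mulArchimedean]
  infer_instance

/-- a rank one structure on the valuation of `K((X))` -/

noncomputable abbrev rk : (Valued.v : Valuation K⸨X⸩ ℤᵐ⁰).RankOne := (nonempty_rankOne K).some

/-- the norm of `K((X))` -/

noncomputable abbrev nnf : NontriviallyNormedField K⸨X⸩ :=
  @Valued.toNontriviallyNormedField K⸨X⸩ _ ℤᵐ⁰ _ _ (rk K)

theorem complete_nnf : @CompleteSpace K⸨X⸩ (nnf K).toUniformSpace := by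
  exact LaurentSeries.instLaurentSeriesComplete

theorem norm_single : @norm K⸨X⸩ (nnf K).toNorm (HahnSeries.single 1 1) < 1 :=
  (@Valued.toNormedField.norm_lt_one_iff K⸨X⸩ _ ℤᵐ⁰ _ _ (rk K) _).2 (val_single K)

end Pool.Agent.BCX
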