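import Pool.Agent.BCX.Step
import Pool.Agent.BCX.Norm

/-!
# The chain of words and the word over `F_p((t))`
-/

namespace Pool.Agent.BCX

open Polynomial

/-- the Lagrange word -/
theorem lagrange_word {p : ℕ} [Fact p.Prime] {d : ℕ} (hdp : d < p) :
    ∃ c : Fin (d + 1) → ZMod p, (∀ i, c i ≠ 0) ∧
      (∀ l < d, ∑ i, c i * ((i : ℕ) : ZMod p) ^ l = 0) ∧
      ∑ i, c i * ((i : ℕ) : ZMod p) ^ d = 1 := by
  classical
  set v : Fin (d + 1) → ZMod p := fun i => ((i : ℕ) : ZMod p) with hv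
  have hinj : Function.Injective v := by
    intro i j hij
    have h1 : (((i : ℕ) : ZMod p)).val = (((j : ℕ) : ZMod p)).val := by
      simpa [hv] using congrArg ZMod.val hij
    rw [ZMod.val_natCast_of_lt (by omega), ZMod.val_natCast_of_lt (by omega)] at h1
    exact Fin.ext h1
  have key : ∀ l, l ≤ d → ∑ i, (∏ j ∈ Finset.univ.erase i, (v i - v j))⁻¹ * v i ^ l =
      if l = d then 1 else 0 := by
    intro l hl
    have h := Lagrange.coeff_eq_sum (s := (Finset.univ : Finset (Fin (d + 1)))) (v := v)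
      hinj.injOn (P := (X : (ZMod p)[X]) ^ l) (by
        rw [degree_X_pow, Finset.card_univ, Fintype.card_fin]
        exact_mod_cast Nat.lt_succ_of_le hl)
    rw [Finset.card_univ, Fintype.card_fin, Nat.add_sub_cancel, coeff_X_pow] at h
    simp only [eval_pow, eval_X] at h
    rw [show (if l = d then (1 : ZMod p) else 0) = if d = l then 1 else 0 by
      simp only [eq_comm]]
    rw [h]
    exact Finset.sum_congr rfl fun i _ => by rw [div_eq_mul_inv, mul_comm]
  refine ⟨fun i => (∏ j ∈ Finset.univ.erase i, (v i - v j))⁻¹, fun i => ?_, fun l hl => ?_, ?_⟩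
  · refine inv_ne_zero (Finset.prod_ne_zero_iff.2 fun j hj => ?_)
    rw [sub_ne_zero]
    exact fun h => (Finset.ne_of_mem_erase hj) (hinj h).symm
  · have := key l hl.le
    rw [if_neg hl.ne] at this
    exact this
  · have := key d le_rfl
    rw [if_pos rfl] at this
    exact this

/-- ROW A6a -/
theorem good_base {p : ℕ} [Fact p.Prime] {A : Type} [Field A] [Algebra (ZMod p) A] {d : ℕ}
    (_hd : 1 ≤ d) (hdp : d < p) : Good p A d := by
  obtain ⟨c, hc, h1, h2⟩ := lagrange_word (p := p) hdp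
  refine ⟨fun i => algebraMap (ZMod p) A ((i : ℕ) : ZMod p), c, 1, 1, ?_, hc, one_ne_zero,
    one_ne_zero, fun l hl => ?_, ?_⟩
  · intro i j hij
    have h := (algebraMap (ZMod p) A).injective hij
    have h1 := congrArg ZMod.val h
    rw [ZMod.val_natCast_of_lt (by omega), ZMod.val_natCast_of_lt (by omega)] at h1
    exact Fin.ext h1
  · have := congrArg (algebraMap (ZMod p) A) (h1 l hl)
    rw [map_sum, map_zero] at this
    rw [← this]
    exact Finset.sum_congr rfl fun i _ => by rw [map_mul, map_pow]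
  · have := congrArg (algebraMap (ZMod p) A) h2
    rw [map_sum] at this
    rw [one_pow, mul_one, ← this]
    exact Finset.sum_congr rfl fun i _ => by rw [map_mul, map_pow]

theorem good_all {p : ℕ} [Fact p.Prime] {A 𝕜 : Type} [Field A] [Algebra (ZMod p) A]
    [NontriviallyNormedField 𝕜] [CompleteSpace 𝕜] [Algebra (ZMod p) 𝕜] [Algebra A 𝕜]
    [IsScalarTower (ZMod p) A 𝕜]
    (hA : ∀ x : 𝕜, IsSeparable A x → ∃ a : A, algebraMap A 𝕜 a = x)
    (hsmall : ∀ ε : ℝ, 0 < ε → ∃ β : A, β ≠ 0 ∧ ‖algebraMap A 𝕜 β‖ < ε)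
    {d : ℕ} (hpd : ¬ p ∣ d) : Good p A d := by
  induction d using Nat.strong_induction_on with
  | _ d ih =>
    have hd0 : d ≠ 0 := by
      rintro rfl
      exact hpd (dvd_zero p)
    have hp : 0 < p := (Fact.out : p.Prime).pos
    rcases lt_or_ge d p with h | h
    · exact good_base (by omega) h
    · obtain ⟨e, rfl⟩ := Nat.exists_eq_add_of_le' h
      have he : ¬ p ∣ e := fun h' => hpd (Dvd.dvd.add h' dvd_rfl)
      have he0 : e ≠ 0 := by
        rintro rfl
        exact he (dvd_zero p)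
      exact Good.step hA hsmall (by omega) he (ih e (by omega) he)

open scoped LaurentSeries RatFunc

/-- ROW A6b: the word in `F_p((t))` -/
theorem good_laurent (p : ℕ) [Fact p.Prime] {d : ℕ} (hpd : ¬ p ∣ d) :
    ∃ (x : Fin (d + 1) → (ZMod p)⸨X⸩) (c : Fin (d + 1) → ZMod p),
      (∀ i, IsSeparable (RatFunc (ZMod p)) (x i)) ∧ Function.Injective x ∧ (∀ i, c i ≠ 0) ∧
      ∀ l < d, ∑ i, algebraMap (ZMod p) (ZMod p)⸨X⸩ (c i) * x i ^ l = 0 := by
  let _ := nnf (ZMod p)
  have _ := complete_nnf (ZMod p)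
  let A := separableClosure (RatFunc (ZMod p)) (ZMod p)⸨X⸩
  let alg : Algebra (ZMod p) A := ((algebraMap (RatFunc (ZMod p)) A).comp
    (algebraMap (ZMod p) (RatFunc (ZMod p)))).toAlgebra
  have ht := @IsScalarTower.of_algebraMap_eq' (ZMod p) A (ZMod p)⸨X⸩ _ _ _ alg _ _
    (Subsingleton.elim _ _)
  have hA : ∀ x : (ZMod p)⸨X⸩, IsSeparable A x → ∃ a : A, algebraMap A (ZMod p)⸨X⸩ a = x := by
    intro x hx
    have h1 : x ∈ separableClosure A (ZMod p)⸨X⸩ := mem_separableClosure_iff.2 hx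
    rw [separableClosure.separableClosure_eq_bot] at h1
    exact IntermediateField.mem_bot.1 h1
  have hX : (HahnSeries.single 1 1 : (ZMod p)⸨X⸩) ∈ A := by
    rw [← RatFunc.coe_X]
    exact A.algebraMap_mem _
  have hsmall : ∀ ε : ℝ, 0 < ε → ∃ β : A, β ≠ 0 ∧ ‖algebraMap A (ZMod p)⸨X⸩ β‖ < ε := by
    intro ε hε
    obtain ⟨n, hn⟩ := exists_pow_lt_of_lt_one hε (norm_single (ZMod p))
    refine ⟨⟨HahnSeries.single 1 1, hX⟩ ^ n, ?_, ?_⟩
    · refine pow_ne_zero n ?_
      intro h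
      have := congrArg Subtype.val h
      exact one_ne_zero (HahnSeries.single_eq_zero_iff.1 this)
    · rw [map_pow, norm_pow]
      exact hn
  obtain ⟨x, c, cb, rho, hx, hc, -, -, hs, -⟩ :=
    @good_all p _ A (ZMod p)⸨X⸩ _ alg _ _ _ _ ht hA hsmall d hpd
  refine ⟨fun i => (x i : (ZMod p)⸨X⸩), c, fun i => mem_separableClosure_iff.1 (x i).2,
    fun i j hij => hx (Subtype.ext hij), hc, fun l hl => ?_⟩
  have h := congrArg (algebraMap A (ZMod p)⸨X⸩) (hs l hl)
  rw [map_sum, map_zero] at h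
  rw [← h]
  refine Finset.sum_congr rfl fun i _ => ?_
  rw [map_mul, map_pow, ← IsScalarTower.algebraMap_apply]
  rfl

end Pool.Agent.BCX
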