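import Pool.Agent.BCX.Defs

/-!
# Row S7, first part: primitive elements and denominators
-/

namespace Pool.Agent.BCX.Spec

open Polynomial

open scoped LaurentSeries RatFunc

section Hom

variable {p : ℕ} [Fact p.Prime]

/-- a ring homomorphism of algebras over the prime field as an algebra homomorphism -/
def zalg {A B : Type} [CommRing A] [CommRing B] [Algebra (ZMod p) A] [Algebra (ZMod p) B]
    (φ : A →+* B) : A →ₐ[ZMod p] B :=
  { φ with
    commutes' := fun r => RingHom.congr_fun (Subsingleton.elim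
      (φ.comp (algebraMap (ZMod p) A)) (algebraMap (ZMod p) B)) r }

/-- specialisation of elements with a common denominator -/
theorem exists_hom_of_ker {P E L : Type} [CommRing P] [Field E] [Field L] [Algebra (ZMod p) P]
    [Algebra (ZMod p) E] [Algebra (ZMod p) L] (φ : P →+* E) (ψ : P →+* L)
    (hker : ∀ a, φ a = 0 → ψ a = 0) (d : P) (hd : ψ d ≠ 0) (S : Set E)
    (hS : ∀ s ∈ S, ∃ g : P, φ d * s = φ g) :
    Nonempty (Algebra.adjoin (ZMod p) S →ₐ[ZMod p] L) := by
  have hd' : φ d ≠ 0 := fun h => hd (hker d h)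
  let B := Localization.Away d
  let Φ : B →+* E := IsLocalization.Away.lift (S := B) d (g := φ) (isUnit_iff_ne_zero.2 hd')
  let Ψ : B →+* L := IsLocalization.Away.lift (S := B) d (g := ψ) (isUnit_iff_ne_zero.2 hd)
  have hΦ : ∀ a, Φ (algebraMap P B a) = φ a := fun a => IsLocalization.Away.lift_eq d _ a
  have hΨ : ∀ a, Ψ (algebraMap P B a) = ψ a := fun a => IsLocalization.Away.lift_eq d _ a
  have hk : ∀ b, Φ b = 0 → Ψ b = 0 := by
    intro b hb
    obtain ⟨n, a, hab⟩ := IsLocalization.Away.surj d b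
    have h1 : φ a = 0 := by
      rw [← hΦ, ← hab, map_mul, hb, zero_mul]
    have h2 : Ψ b * ψ d ^ n = 0 := by
      rw [← hker a h1, ← hΨ a, ← hab, map_mul, map_pow, hΨ]
    exact (mul_eq_zero.1 h2).resolve_right (pow_ne_zero n hd)
  let Φ' : B →ₐ[ZMod p] E := zalg Φ
  let Ψ' : B →ₐ[ZMod p] L := zalg Ψ
  have hle : Algebra.adjoin (ZMod p) S ≤ Φ'.range := by
    refine Algebra.adjoin_le fun s hs => ?_
    obtain ⟨g, hg⟩ := hS s hs
    refine ⟨algebraMap P B g * IsLocalization.Away.invSelf d, ?_⟩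
    change Φ (algebraMap P B g * IsLocalization.Away.invSelf d) = s
    have h3 : Φ (algebraMap P B d) * Φ (IsLocalization.Away.invSelf d) = 1 := by
      rw [← map_mul, IsLocalization.Away.mul_invSelf, map_one]
    rw [map_mul, hΦ, ← hg, ← hΦ d]
    rw [mul_assoc, mul_comm s, ← mul_assoc, h3, one_mul]
  refine ⟨(AlgHom.liftOfSurjective Φ'.rangeRestrict Φ'.rangeRestrict_surjective Ψ' ?_).comp
    (Subalgebra.inclusion hle)⟩
  intro b hb
  have hb' : Φ'.rangeRestrict b = 0 := hb
  exact hk b (congrArg Subtype.val hb')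

end Hom

section Prim

/-- the primitive element, integral over the ring -/
theorem exists_primitive {R K0 E : Type} [CommRing R] [IsDomain R] [Field K0] [Field E]
    [Algebra R K0] [IsFractionRing R K0] [Algebra K0 E] [Algebra R E] [IsScalarTower R K0 E]
    (S : Finset E) (hS : ∀ s ∈ S, IsSeparable K0 s) :
    ∃ θ : E, IsIntegral R θ ∧ IsSeparable K0 θ ∧
      ∀ s ∈ S, ∃ g : K0[X], aeval θ g = s := by
  let K := IntermediateField.adjoin K0 (S : Set E)
  have hfin : FiniteDimensional K0 K :=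
    IntermediateField.finiteDimensional_adjoin (fun s hs => (hS s hs).isIntegral)
  have hsep : Algebra.IsSeparable K0 K :=
    (IntermediateField.isSeparable_adjoin_iff_isSeparable K0 E).2 hS
  obtain ⟨α, hα⟩ := Field.exists_primitive_element K0 K
  have halg : IsAlgebraic R α :=
    (IsFractionRing.isAlgebraic_iff R K0 K).2 (Algebra.IsAlgebraic.isAlgebraic α)
  obtain ⟨c, hc0, hc⟩ := halg.exists_integral_multiple
  obtain ⟨β, hβ, hβ'⟩ : ∃ β : K, IsIntegral R β ∧ algebraMap R K0 c • α = β :=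
    ⟨c • α, hc, algebraMap_smul K0 c α⟩
  refine ⟨K.val β, ?_, ?_, ?_⟩
  · exact hβ.map (K.val.restrictScalars R)
  · exact (isSeparable_map_iff K.val K.val.injective).2 (Algebra.IsSeparable.isSeparable K0 β)
  · intro s hs
    have hsK : s ∈ K := IntermediateField.subset_adjoin _ _ hs
    have h2 : (⟨s, hsK⟩ : K) ∈ IntermediateField.adjoin K0 {α} := by
      rw [hα]; trivial
    rw [← IntermediateField.mem_toSubalgebra,
      IntermediateField.adjoin_simple_toSubalgebra_of_isAlgebraic
        (Algebra.IsAlgebraic.isAlgebraic α), Algebra.adjoin_singleton_eq_range_aeval] at h2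
    obtain ⟨g, hg⟩ := h2
    have h3 : algebraMap R K0 c ≠ 0 := by
      simpa using hc0
    have h4 : α = (algebraMap R K0 c)⁻¹ • β := by
      rw [← hβ', smul_smul, inv_mul_cancel₀ h3, one_smul]
    refine ⟨g.comp (C (algebraMap R K0 c)⁻¹ * X), ?_⟩
    have h5 : aeval β (g.comp (C (algebraMap R K0 c)⁻¹ * X)) = (⟨s, hsK⟩ : K) := by
      rw [aeval_comp, map_mul, aeval_C, aeval_X, ← Algebra.smul_def, ← h4]
      exact hg
    rw [aeval_algHom_apply, h5]
    rfl

/-- integral elements are power series -/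
theorem exists_powerSeries {F : Type} [Field F] {θ : F⸨X⸩} (hθ : IsIntegral F[X] θ) :
    ∃ t : PowerSeries F, algebraMap (PowerSeries F) F⸨X⸩ t = θ := by
  have ht : IsScalarTower F[X] (PowerSeries F) F⸨X⸩ := IsScalarTower.of_algebraMap_eq fun x => rfl
  have h1 : IsIntegral (PowerSeries F) θ := hθ.tower_top
  exact IsIntegrallyClosed.isIntegral_iff.1 h1

/-- clearing denominators in the separability relation -/
theorem exists_sep {R K0 : Type} [CommRing R] [IsDomain R] [Field K0] [Algebra R K0]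
    [IsFractionRing R K0] (f : R[X]) (hf : (f.map (algebraMap R K0)).Separable) :
    ∃ (r : R) (a b : R[X]), r ≠ 0 ∧ a * f + b * derivative f = C r := by
  obtain ⟨a', b', h⟩ := hf
  obtain ⟨ra, hra, ha⟩ := IsLocalization.integerNormalization_spec (nonZeroDivisors R) a'
  obtain ⟨rb, hrb, hb⟩ := IsLocalization.integerNormalization_spec (nonZeroDivisors R) b'
  set A := IsLocalization.integerNormalization (nonZeroDivisors R) a'
  set B := IsLocalization.integerNormalization (nonZeroDivisors R) b'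
  refine ⟨ra * rb, C rb * A, C ra * B,
    mul_ne_zero (nonZeroDivisors.ne_zero hra) (nonZeroDivisors.ne_zero hrb), ?_⟩
  apply map_injective (algebraMap R K0) (IsFractionRing.injective R K0)
  have ha' : A.map (algebraMap R K0) = C (algebraMap R K0 ra) * a' := by
    rw [ha, ← algebraMap_smul K0 ra a', smul_eq_C_mul]
  have hb' : B.map (algebraMap R K0) = C (algebraMap R K0 rb) * b' := by
    rw [hb, ← algebraMap_smul K0 rb b', smul_eq_C_mul]
  rw [Polynomial.map_add, Polynomial.map_mul, Polynomial.map_mul, Polynomial.map_mul,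
    Polynomial.map_mul, map_C, map_C, map_C, ha', hb', map_mul, C_mul, ← derivative_map]
  linear_combination (C (algebraMap R K0 ra) * C (algebraMap R K0 rb)) * h

/-- a common denominator -/
theorem exists_den {R K0 E : Type} [CommRing R] [IsDomain R] [Field K0] [Field E]
    [Algebra R K0] [IsFractionRing R K0] [Algebra K0 E] [Algebra R E] [IsScalarTower R K0 E]
    (θ : E) (S : Finset E) (hS : ∀ s ∈ S, ∃ g : K0[X], aeval θ g = s) :
    ∃ d : R, d ≠ 0 ∧ ∀ s ∈ S, ∃ G : R[X], algebraMap R E d * s = aeval θ G := by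
  classical
  have h1 : ∀ s ∈ S, ∃ d : R, d ≠ 0 ∧ ∃ G : R[X], algebraMap R E d * s = aeval θ G := by
    intro s hs
    obtain ⟨g, hg⟩ := hS s hs
    obtain ⟨d, hd, hG⟩ := IsLocalization.integerNormalization_spec (nonZeroDivisors R) g
    refine ⟨d, nonZeroDivisors.ne_zero hd,
      IsLocalization.integerNormalization (nonZeroDivisors R) g, ?_⟩
    rw [← aeval_map_algebraMap K0, hG, ← algebraMap_smul K0 d g, map_smul, hg,
      IsScalarTower.algebraMap_smul, Algebra.smul_def]
  choose! d hd G hG using h1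
  refine ⟨∏ s ∈ S, d s, Finset.prod_ne_zero_iff.2 hd, fun s hs =>
    ⟨C (∏ u ∈ S.erase s, d u) * G s, ?_⟩⟩
  rw [← Finset.mul_prod_erase S d hs, map_mul, map_mul, aeval_C, ← hG s hs]
  ring

end Prim

section Ev

variable {F : Type} [Field F]

theorem ev2_map {A B : Type} [CommRing A] [Algebra F A] [CommRing B] [Algebra F B]
    (g : A →ₐ[F] B) (x y : A) (P : F[X][X]) : g (ev2 x y P) = ev2 (g x) (g y) P := by
  have h : (g : A →+* B).comp (ev2 (F := F) x y) = ev2 (g x) (g y) := by
    refine Polynomial.ringHom_ext (fun Q => ?_) ?_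
    · simp only [ev2, RingHom.comp_apply, coe_eval₂RingHom, eval₂_C, RingHom.coe_coe]
      exact (Polynomial.aeval_algHom_apply g x Q).symm
    · simp [ev2]
  exact RingHom.congr_fun h P

theorem ev2_eq_aeval {E : Type} [CommRing E] [Algebra F E] [Algebra F[X] E]
    [IsScalarTower F F[X] E] (θ : E) (P : F[X][X]) :
    ev2 (algebraMap F[X] E X) θ P = aeval θ P := by
  have h : ev2 (F := F) (algebraMap F[X] E X) θ = ((aeval θ : F[X][X] →ₐ[F[X]] E) : _ →+* E) := by
    refine Polynomial.ringHom_ext (fun Q => ?_) ?_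
    · simp only [ev2, coe_eval₂RingHom, eval₂_C, RingHom.coe_coe, aeval_C]
      rw [aeval_algebraMap_apply, aeval_X_left_apply]
    · simp [ev2]
  exact RingHom.congr_fun h P

theorem ev2_C {A : Type} [CommRing A] [Algebra F A] (x y : A) (Q : F[X]) :
    ev2 x y (C Q) = aeval x Q := by
  simp [ev2]

end Ev

section Data

variable {p : ℕ} [Fact p.Prime]

/-- the curve and the denominators of a finite set of separable elements -/
theorem exists_data (S : Finset (ZMod p)⸨X⸩) (hS : ∀ s ∈ S, IsSeparable (RatFunc (ZMod p)) s) :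
    ∃ (f : (ZMod p)[X][X]) (t : PowerSeries (ZMod p)) (r : (ZMod p)[X]) (a b : (ZMod p)[X][X]),
      f.Monic ∧ 1 ≤ f.natDegree ∧ ev2 PowerSeries.X t f = 0 ∧
      LinearIndependent (ZMod p) (fun ij : ℕ × Fin f.natDegree =>
        (PowerSeries.X : PowerSeries (ZMod p)) ^ ij.1 * t ^ (ij.2 : ℕ)) ∧
      r ≠ 0 ∧ a * f + b * derivative f = C r ∧
      ∀ (L : Type) [Field L] [Algebra (ZMod p) L] (x0 y0 : L), ev2 x0 y0 f = 0 →
        aeval x0 r ≠ 0 →
        Nonempty (Algebra.adjoin (ZMod p) (S : Set (ZMod p)⸨X⸩) →ₐ[ZMod p] L) := by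
  obtain ⟨θ, hint, hsep, hgen⟩ := exists_primitive (R := (ZMod p)[X]) S hS
  obtain ⟨t, ht⟩ := exists_powerSeries hint
  obtain ⟨dd, hdd, hden⟩ := exists_den (R := (ZMod p)[X]) θ S hgen
  have htow : @IsScalarTower (ZMod p) (ZMod p)[X] (ZMod p)⸨X⸩ Algebra.toSMul Algebra.toSMul
      Algebra.toSMul :=
    IsScalarTower.of_algebraMap_eq fun x => RingHom.congr_fun (Subsingleton.elim
      (algebraMap (ZMod p) (ZMod p)⸨X⸩)
      ((algebraMap (ZMod p)[X] (ZMod p)⸨X⸩).comp (algebraMap (ZMod p) (ZMod p)[X]))) x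
  set f : (ZMod p)[X][X] := minpoly (ZMod p)[X] θ with hf
  have hfmap : minpoly (RatFunc (ZMod p)) θ = f.map (algebraMap (ZMod p)[X] (RatFunc (ZMod p))) :=
    minpoly.isIntegrallyClosed_eq_field_fractions' (RatFunc (ZMod p)) hint
  have hmonic : f.Monic := minpoly.monic hint
  have hdeg : (minpoly (RatFunc (ZMod p)) θ).natDegree = f.natDegree := by
    rw [hfmap, hmonic.natDegree_map]
  obtain ⟨r0, a0, b0, hr0, hab⟩ := exists_sep (K0 := RatFunc (ZMod p)) f (by
    rw [← hfmap]; exact hsep)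
  let ι : PowerSeries (ZMod p) →ₐ[ZMod p] (ZMod p)⸨X⸩ :=
    zalg (algebraMap (PowerSeries (ZMod p)) (ZMod p)⸨X⸩)
  have hιinj : Function.Injective ι := FaithfulSMul.algebraMap_injective _ _
  have hιX : ι PowerSeries.X = algebraMap (ZMod p)[X] (ZMod p)⸨X⸩ X := by
    change algebraMap (PowerSeries (ZMod p)) (ZMod p)⸨X⸩ PowerSeries.X =
      algebraMap (PowerSeries (ZMod p)) (ZMod p)⸨X⸩ (algebraMap (ZMod p)[X] _ X)
    congr 1
    exact (Polynomial.coe_X).symm
  have hιt : ι t = θ := ht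
  refine ⟨f, t, r0 * dd, C dd * a0, C dd * b0, hmonic, minpoly.natDegree_pos hint, ?_, ?_,
    mul_ne_zero hr0 hdd, ?_, ?_⟩
  · apply hιinj
    rw [ev2_map, hιX, hιt, ev2_eq_aeval, hf, minpoly.aeval, map_zero]
  · have hb : LinearIndependent (ZMod p) (fun i : ℕ => (X : (ZMod p)[X]) ^ i) := by
      have := (Polynomial.basisMonomials (ZMod p)).linearIndependent
      simpa only [Polynomial.coe_basisMonomials, Polynomial.monomial_one_right_eq_X_pow] using this
    have hc0 : LinearIndependent (RatFunc (ZMod p)) (fun j : Fin f.natDegree => θ ^ (j : ℕ)) := by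
      have := (linearIndependent_pow (K := RatFunc (ZMod p)) θ).comp (Fin.cast hdeg.symm)
        (Fin.cast_injective _)
      exact this
    have hc : LinearIndependent (ZMod p)[X] (fun j : Fin f.natDegree => θ ^ (j : ℕ)) :=
      hc0.restrict_scalars (fun x y hxy => by
        simpa [Algebra.smul_def] using hxy)
    have h1 := @linearIndependent_smul (ZMod p) (ZMod p)[X] (ZMod p)⸨X⸩ _ _ _ _ _
      Algebra.toModule htow _ _ _ _ hb hc
    refine @LinearIndependent.of_comp _ (ZMod p) (PowerSeries (ZMod p)) (ZMod p)⸨X⸩ _ _ _ _ _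
      Algebra.toModule ι.toLinearMap ?_
    have h2 : (ι.toLinearMap ∘ fun ij : ℕ × Fin f.natDegree =>
        (PowerSeries.X : PowerSeries (ZMod p)) ^ ij.1 * t ^ (ij.2 : ℕ)) =
        fun ij : ℕ × Fin f.natDegree => ((X : (ZMod p)[X]) ^ ij.1) • θ ^ (ij.2 : ℕ) := by
      funext ij
      change ι (PowerSeries.X ^ ij.1 * t ^ (ij.2 : ℕ)) = _
      rw [map_mul, map_pow, map_pow, hιX, hιt, ← map_pow, Algebra.smul_def]
    rw [h2]
    exact h1
  · rw [C_mul, ← hab]
    ring
  · intro L _ _ x0 y0 hf0 hr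
    rw [map_mul] at hr
    refine exists_hom_of_ker (ev2 (F := ZMod p) (algebraMap (ZMod p)[X] (ZMod p)⸨X⸩ X) θ)
      (ev2 (F := ZMod p) x0 y0) (fun a ha => ?_) (C dd) ?_ _ (fun s hs => ?_)
    · rw [ev2_eq_aeval] at ha
      obtain ⟨q, hq⟩ := minpoly.isIntegrallyClosed_dvd hint ha
      rw [hq, map_mul, ← hf, hf0, zero_mul]
    · rw [ev2_C]
      exact right_ne_zero_of_mul hr
    · obtain ⟨G, hG⟩ := hden s hs
      exact ⟨G, by rw [ev2_eq_aeval, ev2_eq_aeval, aeval_C, hG]⟩

end Data

end Pool.Agent.BCX.Spec
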