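import Pool.Agent.BCX.PointF
import Pool.Agent.BCX.SpecialAux

/-!
# Specialisation of separable elements of `F((t))` for a finite field `F`
-/

namespace Pool.Agent.BCX.OverF

open Polynomial Pool.Agent.BCX.Spec

open scoped LaurentSeries RatFunc

/-- specialisation of elements with a common denominator -/
theorem exists_hom_of_ker {F P E L : Type} [Field F] [CommRing P] [Field E] [Field L] [Algebra F P]
    [Algebra F E] [Algebra F L] (φ : P →ₐ[F] E) (ψ : P →ₐ[F] L)
    (hker : ∀ a, φ a = 0 → ψ a = 0) (d : P) (hd : ψ d ≠ 0) (S : Set E)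
    (hS : ∀ s ∈ S, ∃ g : P, φ d * s = φ g) :
    Nonempty (Algebra.adjoin F S →ₐ[F] L) := by
  have hd' : φ d ≠ 0 := fun h => hd (hker d h)
  let B := Localization.Away d
  let Φ : B →+* E := IsLocalization.Away.lift (S := B) d (g := (φ : P →+* E))
    (isUnit_iff_ne_zero.2 hd')
  let Ψ : B →+* L := IsLocalization.Away.lift (S := B) d (g := (ψ : P →+* L))
    (isUnit_iff_ne_zero.2 hd)
  have hΦ : ∀ a, Φ (algebraMap P B a) = φ a := fun a => IsLocalization.Away.lift_eq d _ a
  have hΨ : ∀ a, Ψ (algebraMap P B a) = ψ a := fun a => IsLocalization.Away.lift_eq d _ a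
  have hk : ∀ b, Φ b = 0 → Ψ b = 0 := by
    intro b hb
    obtain ⟨n, a, hab⟩ := IsLocalization.Away.surj d b
    have h1 : φ a = 0 := by
      rw [← hΦ, ← hab, map_mul, hb, zero_mul]
    have h2 : Ψ b * ψ d ^ n = 0 := by
      rw [← hker a h1, ← hΨ a, ← hab, map_mul, map_pow, hΨ]
    exact (mul_eq_zero.1 h2).resolve_right (pow_ne_zero n hd)
  let Φ' : B →ₐ[F] E :=
    { Φ with
      commutes' := fun r => by
        change Φ (algebraMap F B r) = _
        rw [IsScalarTower.algebraMap_apply F P B, hΦ, AlgHom.commutes] }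
  let Ψ' : B →ₐ[F] L :=
    { Ψ with
      commutes' := fun r => by
        change Ψ (algebraMap F B r) = _
        rw [IsScalarTower.algebraMap_apply F P B, hΨ, AlgHom.commutes] }
  have hle : Algebra.adjoin F S ≤ Φ'.range := by
    refine Algebra.adjoin_le fun s hs => ?_
    obtain ⟨g, hg⟩ := hS s hs
    refine ⟨algebraMap P B g * IsLocalization.Away.invSelf d, ?_⟩
    change Φ (algebraMap P B g * IsLocalization.Away.invSelf d) = s
    have h3 : Φ (algebraMap P B d) * Φ (IsLocalization.Away.invSelf d) = 1 := by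
      rw [← map_mul, IsLocalization.Away.mul_invSelf, map_one]
    rw [map_mul, hΦ, ← hg, ← hΦ d]
    rw [mul_assoc, mul_comm s, ← mul_assoc, h3, one_mul]
  refine ⟨(AlgHom.liftOfSurjective Φ'.rangeRestrict Φ'.rangeRestrict_surjective Ψ' ?_).comp
    (Subalgebra.inclusion hle)⟩
  intro b hb
  have hb' : Φ'.rangeRestrict b = 0 := hb
  exact hk b (congrArg Subtype.val hb')

variable {F : Type} [Field F]

/-- evaluation in two variables as a homomorphism of algebras -/
noncomputable def ev2a {A : Type} [CommRing A] [Algebra F A] (x y : A) : F[X][X] →ₐ[F] A :=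
  { ev2 (F := F) x y with
    commutes' := fun r => by
      change ev2 x y (C (C r)) = _
      rw [ev2_C, aeval_C] }

theorem ev2a_apply {A : Type} [CommRing A] [Algebra F A] (x y : A) (P : F[X][X]) :
    ev2a x y P = ev2 x y P := rfl

/-- the curve and the denominators of a finite set of separable elements -/
theorem exists_data (S : Finset F⸨X⸩) (hS : ∀ s ∈ S, IsSeparable (RatFunc F) s) :
    ∃ (f : F[X][X]) (t : PowerSeries F) (r : F[X]) (a b : F[X][X]),
      f.Monic ∧ 1 ≤ f.natDegree ∧ ev2 PowerSeries.X t f = 0 ∧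
      LinearIndependent F (fun ij : ℕ × Fin f.natDegree =>
        (PowerSeries.X : PowerSeries F) ^ ij.1 * t ^ (ij.2 : ℕ)) ∧
      r ≠ 0 ∧ a * f + b * derivative f = C r ∧
      ∀ (L : Type) [Field L] [Algebra F L] (x0 y0 : L), ev2 x0 y0 f = 0 →
        aeval x0 r ≠ 0 →
        Nonempty (Algebra.adjoin F (S : Set F⸨X⸩) →ₐ[F] L) := by
  obtain ⟨θ, hint, hsep, hgen⟩ := exists_primitive (R := F[X]) S hS
  obtain ⟨t, ht⟩ := exists_powerSeries hint
  obtain ⟨dd, hdd, hden⟩ := exists_den (R := F[X]) θ S hgen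
  have htow : @IsScalarTower F F[X] F⸨X⸩ Algebra.toSMul Algebra.toSMul
      Algebra.toSMul :=
    IsScalarTower.of_algebraMap_eq fun x => by
      change algebraMap (PowerSeries F) F⸨X⸩ (algebraMap F (PowerSeries F) x) =
        algebraMap (PowerSeries F) F⸨X⸩ ((C x : F[X]) : PowerSeries F)
      rw [coe_C]
      rfl
  set f : F[X][X] := minpoly F[X] θ with hf
  have hfmap : minpoly (RatFunc F) θ = f.map (algebraMap F[X] (RatFunc F)) :=
    minpoly.isIntegrallyClosed_eq_field_fractions' (RatFunc F) hint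
  have hmonic : f.Monic := minpoly.monic hint
  have hdeg : (minpoly (RatFunc F) θ).natDegree = f.natDegree := by
    rw [hfmap, hmonic.natDegree_map]
  obtain ⟨r0, a0, b0, hr0, hab⟩ := exists_sep (K0 := RatFunc F) f (by
    rw [← hfmap]; exact hsep)
  let ι : PowerSeries F →ₐ[F] F⸨X⸩ :=
    { algebraMap (PowerSeries F) F⸨X⸩ with
      commutes' := fun r => by
        rfl }
  have hιinj : Function.Injective ι := FaithfulSMul.algebraMap_injective _ _
  have hιX : ι PowerSeries.X = algebraMap F[X] F⸨X⸩ X := by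
    change algebraMap (PowerSeries F) F⸨X⸩ PowerSeries.X =
      algebraMap (PowerSeries F) F⸨X⸩ (algebraMap F[X] _ X)
    congr 1
    exact (Polynomial.coe_X).symm
  have hιt : ι t = θ := ht
  refine ⟨f, t, r0 * dd, C dd * a0, C dd * b0, hmonic, minpoly.natDegree_pos hint, ?_, ?_,
    mul_ne_zero hr0 hdd, ?_, ?_⟩
  · apply hιinj
    rw [Spec.ev2_map, hιX, hιt, ev2_eq_aeval, hf, minpoly.aeval, map_zero]
  · have hb : LinearIndependent F (fun i : ℕ => (X : F[X]) ^ i) := by
      have := (Polynomial.basisMonomials F).linearIndependent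
      simpa only [Polynomial.coe_basisMonomials, Polynomial.monomial_one_right_eq_X_pow] using this
    have hc0 : LinearIndependent (RatFunc F) (fun j : Fin f.natDegree => θ ^ (j : ℕ)) := by
      have := (linearIndependent_pow (K := RatFunc F) θ).comp (Fin.cast hdeg.symm)
        (Fin.cast_injective _)
      exact this
    have hc : LinearIndependent F[X] (fun j : Fin f.natDegree => θ ^ (j : ℕ)) :=
      hc0.restrict_scalars (fun x y hxy => by
        simpa [Algebra.smul_def] using hxy)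
    have h1 := @linearIndependent_smul F F[X] F⸨X⸩ _ _ _ _ _
      Algebra.toModule htow _ _ _ _ hb hc
    refine @LinearIndependent.of_comp _ F (PowerSeries F) F⸨X⸩ _ _ _ _ _
      Algebra.toModule ι.toLinearMap ?_
    have h2 : (ι.toLinearMap ∘ fun ij : ℕ × Fin f.natDegree =>
        (PowerSeries.X : PowerSeries F) ^ ij.1 * t ^ (ij.2 : ℕ)) =
        fun ij : ℕ × Fin f.natDegree => ((X : F[X]) ^ ij.1) • θ ^ (ij.2 : ℕ) := by
      funext ij
      change ι (PowerSeries.X ^ ij.1 * t ^ (ij.2 : ℕ)) = _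
      rw [map_mul, map_pow, map_pow, hιX, hιt, ← map_pow, Algebra.smul_def]
    rw [h2]
    exact h1
  · rw [C_mul, ← hab]
    ring
  · intro L _ _ x0 y0 hf0 hr
    rw [map_mul] at hr
    refine exists_hom_of_ker (ev2a (F := F) (algebraMap F[X] F⸨X⸩ X) θ)
      (ev2a (F := F) x0 y0) (fun a ha => ?_) (C dd) ?_ _ (fun s hs => ?_)
    · rw [ev2a_apply, ev2_eq_aeval] at ha
      obtain ⟨q, hq⟩ := minpoly.isIntegrallyClosed_dvd hint ha
      rw [hq, map_mul, ← hf, ev2a_apply x0 y0 f, hf0, zero_mul]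
    · rw [ev2a_apply, ev2_C]
      exact right_ne_zero_of_mul hr
    · obtain ⟨G, hG⟩ := hden s hs
      exact ⟨G, by rw [ev2a_apply, ev2a_apply, ev2_eq_aeval, ev2_eq_aeval, aeval_C, hG]⟩

/-- specialisation of separable elements of `F((t))` -/
theorem exists_hom (p : ℕ) [Fact p.Prime] [Finite F] [CharP F p] (S : Finset F⸨X⸩)
    (hS : ∀ s ∈ S, IsSeparable (RatFunc F) s) :
    ∃ Q0 : ℕ, ∀ (L : Type) [Field L] [Finite L] [Algebra F L], Q0 ≤ Nat.card L →
      Nonempty (Algebra.adjoin F (S : Set F⸨X⸩) →ₐ[F] L) := by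
  obtain ⟨f, t, r, a, b, hf, hD, ht, hind, hr, hab, hom⟩ := exists_data S hS
  obtain ⟨Q0, hQ⟩ := exists_point p f hf hD t ht hind r hr a b hab
  refine ⟨Q0, fun L _ _ _ hL => ?_⟩
  obtain ⟨x0, y0, h1, h2⟩ := hQ L hL
  exact hom L x0 y0 h1 h2

end Pool.Agent.BCX.OverF

namespace Pool.Agent.BCX

open scoped LaurentSeries RatFunc

/-- ROW H2 -/
theorem exists_homF {F : Type} [Field F] [Finite F] (S : Finset F⸨X⸩)
    (hS : ∀ s ∈ S, IsSeparable (RatFunc F) s) :
    ∃ Q0 : ℕ, ∀ (L : Type) [Field L] [Finite L] [Algebra F L], Q0 ≤ Nat.card L →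
      Nonempty (Algebra.adjoin F (S : Set F⸨X⸩) →ₐ[F] L) := by
  obtain ⟨p, hp⟩ := CharP.exists F
  have hp' : Fact p.Prime := ⟨CharP.char_is_prime F p⟩
  exact OverF.exists_hom p S hS

end Pool.Agent.BCX
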