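import Pool.Agent.BCX.StepG
import Pool.Agent.BCX.Norm
import Pool.Agent.BCX.SpecialF

/-!
# Primitive BCH codes over fields with `2 ^ s` elements: all large finite extensions
-/

namespace Pool.Agent.BCX

open Polynomial

/-- the data of `SplitG` live in a finitely generated algebra and specialise -/
theorem SplitG.spread {K A : Type} [Field K] [Field A] [Algebra K A] {C : Finset K} {n : ℕ}
    (hn : 1 ≤ n) (h : SplitG C A n) :
    ∃ T : Finset A, ∀ (L : Type) [Field L] [Algebra K L]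
      (_ : Algebra.adjoin K (T : Set A) →ₐ[K] L), SplitG C L n := by
  classical
  obtain ⟨g, α, hgn, hgX, hα, hS⟩ := h
  choose! S hcard hroot using hS
  set T1 : Finset A := (Finset.range (n + 1)).image g.coeff with hT1
  set T2 : Finset A := {α, α⁻¹, (g.coeff n)⁻¹} with hT2
  set T3 : Finset A := C.biUnion S with hT3
  set T4 : Finset A := C.biUnion fun c => (S c ×ˢ S c).image fun z => (z.1 - z.2)⁻¹ with hT4
  refine ⟨T1 ∪ T2 ∪ T3 ∪ T4, fun L _ _ φ => ?_⟩
  set B := Algebra.adjoin K ((T1 ∪ T2 ∪ T3 ∪ T4 : Finset A) : Set A) with hB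
  have hmem : ∀ t ∈ T1 ∪ T2 ∪ T3 ∪ T4, t ∈ B := fun t ht =>
    Algebra.subset_adjoin (Finset.mem_coe.2 ht)
  have hm1 : ∀ k, g.coeff k ∈ B := by
    intro k
    rcases le_or_gt k n with hk | hk
    · refine hmem _ ?_
      simp only [Finset.mem_union]
      exact Or.inl (Or.inl (Or.inl (Finset.mem_image_of_mem _ (Finset.mem_range.2 (by omega)))))
    · rw [coeff_eq_zero_of_natDegree_lt (by omega)]
      exact B.zero_mem
  have hm2 : α ∈ B ∧ α⁻¹ ∈ B ∧ (g.coeff n)⁻¹ ∈ B := by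
    refine ⟨hmem _ ?_, hmem _ ?_, hmem _ ?_⟩ <;>
    · simp only [Finset.mem_union]
      exact Or.inl (Or.inl (Or.inr (by simp [hT2])))
  have hm3 : ∀ c ∈ C, ∀ x ∈ S c, x ∈ B := by
    intro c hc x hx
    refine hmem _ ?_
    simp only [Finset.mem_union]
    exact Or.inl (Or.inr (Finset.mem_biUnion.2 ⟨c, hc, hx⟩))
  have hm4 : ∀ c ∈ C, ∀ x ∈ S c, ∀ y ∈ S c, (x - y)⁻¹ ∈ B := by
    intro c hc x hx y hy
    refine hmem _ ?_
    simp only [Finset.mem_union]
    exact Or.inr (Finset.mem_biUnion.2 ⟨c, hc, Finset.mem_image.2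
      ⟨(x, y), Finset.mem_product.2 ⟨hx, hy⟩, rfl⟩⟩)
  have hinj : Function.Injective (algebraMap B A) := Subtype.val_injective
  have hunit : ∀ a b : B, (a : A) * (b : A) = 1 → φ a ≠ 0 := by
    intro a b hab h0
    have h1 : a * b = 1 := Subtype.ext hab
    have h2 := congrArg φ h1
    rw [map_mul, h0, zero_mul, map_one] at h2
    exact one_ne_zero h2.symm
  obtain ⟨g', hg'⟩ : ∃ g' : B[X], g'.map (algebraMap B A) = g := by
    have h1 : g ∈ Polynomial.lifts (algebraMap B A) := by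
      rw [Polynomial.lifts_iff_coeff_lifts]
      intro k
      exact ⟨⟨g.coeff k, hm1 k⟩, rfl⟩
    exact (Polynomial.mem_lifts _).1 h1
  have hgn' : g'.natDegree = n := by
    rw [← hgn, ← hg', natDegree_map_eq_of_injective hinj]
  have hg0 : g.coeff n ≠ 0 := by
    rw [← hgn]
    exact leadingCoeff_ne_zero.2 (by rintro rfl; simp at hgn; omega)
  have hlc : φ (g'.coeff n) ≠ 0 := by
    refine hunit _ ⟨_, hm2.2.2⟩ ?_
    have h1 : ((g'.coeff n : B) : A) = g.coeff n := by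
      rw [← hg', coeff_map]
      rfl
    rw [h1]
    exact mul_inv_cancel₀ hg0
  refine ⟨g'.map (φ : B →+* L), φ ⟨α, hm2.1⟩, ?_, ?_, ?_, ?_⟩
  · rw [← hgn']
    refine natDegree_map_of_leadingCoeff_ne_zero _ ?_
    rw [leadingCoeff, hgn']
    exact hlc
  · rw [derivative_map]
    have h1 : X * derivative g' = g' := by
      refine Polynomial.map_injective _ hinj ?_
      rw [Polynomial.map_mul, map_X, ← derivative_map, hg', hgX]
    conv_rhs => rw [← h1, Polynomial.map_mul, map_X]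
  · exact hunit _ ⟨_, hm2.2.1⟩ (mul_inv_cancel₀ hα)
  · intro c hc
    refine ⟨(S c).attach.image fun x => φ ⟨x.1, hm3 c hc x.1 x.2⟩, ?_, ?_⟩
    · rw [Finset.card_image_of_injective, Finset.card_attach, hcard c hc]
      intro x y hxy
      by_contra hne
      have h1 : (x.1 : A) - y.1 ≠ 0 := sub_ne_zero.2 fun h => hne (Subtype.ext h)
      refine hunit (⟨x.1, hm3 c hc x.1 x.2⟩ - ⟨y.1, hm3 c hc y.1 y.2⟩)
        ⟨_, hm4 c hc x.1 x.2 y.1 y.2⟩ (mul_inv_cancel₀ h1) ?_
      rw [map_sub]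
      exact sub_eq_zero.2 hxy
    · intro x hx
      obtain ⟨x, -, rfl⟩ := Finset.mem_image.1 hx
      have h1 : algebraMap K B c * g'.eval ⟨x.1, hm3 c hc x.1 x.2⟩ = ⟨α, hm2.1⟩ := by
        refine hinj ?_
        have h2 := hroot c hc x.1 x.2
        rw [map_mul, ← IsScalarTower.algebraMap_apply, ← Polynomial.eval₂_at_apply, ← eval_map,
          hg']
        exact h2
      have h3 := congrArg φ h1
      rw [map_mul, AlgHom.commutes] at h3
      rw [← h3, eval_map]
      exact congrArg _ (Polynomial.eval₂_at_apply (φ : B →+* L) _)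

/-- the base of the induction -/
theorem SplitG.base {K A : Type} [Field K] [Field A] [Algebra K A] {C : Finset K}
    (hC : ∀ c ∈ C, c ≠ 0) : SplitG C A 1 := by
  refine ⟨X, 1, natDegree_X, by simp, one_ne_zero, fun c hc => ⟨{algebraMap K A c⁻¹}, by simp,
    fun x hx => ?_⟩⟩
  rw [Finset.mem_singleton.1 hx, eval_X, ← map_mul, mul_inv_cancel₀ (hC c hc), map_one]

theorem SplitG.all {K A 𝕜 : Type} [Field K] [Finite K] [CharP K 2] {s : ℕ}
    (hK : Nat.card K = 2 ^ s) [Field A] [Algebra K A] [NontriviallyNormedField 𝕜]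
    [CompleteSpace 𝕜] [Algebra K 𝕜] [Algebra A 𝕜] [IsScalarTower K A 𝕜]
    (hA : ∀ x : 𝕜, IsSeparable A x → ∃ a : A, algebraMap A 𝕜 a = x)
    (hsmall : ∀ ε : ℝ, 0 < ε → ∃ β : A, β ≠ 0 ∧ ‖algebraMap A 𝕜 β‖ < ε)
    {C : Finset K} (hC : ∀ c ∈ C, ∑ i ∈ Finset.range s, c ^ 2 ^ i = 1) (m : ℕ) :
    SplitG C A (2 * m + 1) := by
  induction m with
  | zero =>
    refine SplitG.base fun c hc h0 => ?_
    have h := hC c hc
    rw [h0, Finset.sum_eq_zero fun i _ => zero_pow (by positivity)] at h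
    exact zero_ne_one h
  | succ m ih => exact SplitG.step (𝕜 := 𝕜) hK hA hsmall hC (by omega) ih

theorem hom_adjoin_image {K A E L : Type} [Field K] [Field A] [Field E] [Algebra K A]
    [Algebra K E] [DecidableEq E] [Field L] [Algebra K L] (f : A →ₐ[K] E) (T : Finset A)
    (ψ : Algebra.adjoin K ((T.image f : Finset E) : Set E) →ₐ[K] L) :
    Nonempty (Algebra.adjoin K (T : Set A) →ₐ[K] L) := by
  refine ⟨ψ.comp ((f.comp (Subalgebra.val _)).codRestrict _ fun x => ?_)⟩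
  rw [Finset.coe_image, Algebra.adjoin_image]
  exact ⟨x.1, x.2, rfl⟩

open scoped LaurentSeries RatFunc

theorem algebraMap_ratFunc_laurent {K : Type} [Field K] (x : K) :
    algebraMap K K⸨X⸩ x = algebraMap (RatFunc K) K⸨X⸩ (algebraMap K (RatFunc K) x) := by
  rw [IsScalarTower.algebraMap_apply K K[X] (RatFunc K),
    ← IsScalarTower.algebraMap_apply K[X] (RatFunc K) K⸨X⸩]
  change algebraMap (PowerSeries K) K⸨X⸩ (algebraMap K (PowerSeries K) x) =
        algebraMap (PowerSeries K) K⸨X⸩ ((C x : K[X]) : PowerSeries K)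
  rw [coe_C]
  rfl

/-- ROW G4: all large finite extensions -/
theorem splitG_large {K : Type} [Field K] [Finite K] [CharP K 2] {s : ℕ}
    (hK : Nat.card K = 2 ^ s) {C : Finset K} (hC : ∀ c ∈ C, ∑ i ∈ Finset.range s, c ^ 2 ^ i = 1)
    (m : ℕ) :
    ∃ Q0 : ℕ, ∀ (L : Type) [Field L] [Finite L] [Algebra K L], Q0 ≤ Nat.card L →
      SplitG C L (2 * m + 1) := by
  classical
  let _ := nnf K
  have _ := complete_nnf K
  let A := separableClosure (RatFunc K) K⸨X⸩
  let alg : Algebra K A := ((algebraMap (RatFunc K) A).comp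
    (algebraMap K (RatFunc K))).toAlgebra
  have ht := @IsScalarTower.of_algebraMap_eq' K A K⸨X⸩ _ _ _ alg _ _
    (RingHom.ext fun x => algebraMap_ratFunc_laurent x)
  have hA : ∀ x : K⸨X⸩, IsSeparable A x → ∃ a : A, algebraMap A K⸨X⸩ a = x := by
    intro x hx
    have h1 : x ∈ separableClosure A K⸨X⸩ := mem_separableClosure_iff.2 hx
    rw [separableClosure.separableClosure_eq_bot] at h1
    exact IntermediateField.mem_bot.1 h1
  have hX : (HahnSeries.single 1 1 : K⸨X⸩) ∈ A := by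
    rw [← RatFunc.coe_X]
    exact A.algebraMap_mem _
  have hsmall : ∀ ε : ℝ, 0 < ε → ∃ β : A, β ≠ 0 ∧ ‖algebraMap A K⸨X⸩ β‖ < ε := by
    intro ε hε
    obtain ⟨n, hn⟩ := exists_pow_lt_of_lt_one hε (norm_single K)
    refine ⟨⟨HahnSeries.single 1 1, hX⟩ ^ n, ?_, ?_⟩
    · refine pow_ne_zero n ?_
      intro h
      have := congrArg Subtype.val h
      exact one_ne_zero (HahnSeries.single_eq_zero_iff.1 this)
    · rw [map_pow, norm_pow]
      exact hn
  have hsp : @SplitG K _ C A _ alg (2 * m + 1) :=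
    @SplitG.all K A K⸨X⸩ _ _ _ s hK _ alg _ _ _ _ ht hA hsmall C hC m
  obtain ⟨T, hT⟩ := @SplitG.spread K A _ _ alg C (2 * m + 1) (by omega) hsp
  let f := @IsScalarTower.toAlgHom K A K⸨X⸩ _ _ _ alg _ _ ht
  obtain ⟨Q0, hQ⟩ := exists_homF (F := K) (T.image f) (by
    intro t ht
    obtain ⟨a, -, rfl⟩ := Finset.mem_image.1 ht
    exact mem_separableClosure_iff.1 (Subtype.mem a))
  refine ⟨Q0, fun L _ _ _ hL => ?_⟩
  obtain ⟨ψ⟩ := hQ L hL
  obtain ⟨φ⟩ := @hom_adjoin_image K A K⸨X⸩ L _ _ _ alg _ _ _ _ f T ψ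
  exact hT L φ

end Pool.Agent.BCX
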