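import Pool.Agent.BCX.StepP
import Pool.Agent.BCX.ChainG

/-!
# Primitive BCH codes over fields of odd order: all large finite extensions
-/

namespace Pool.Agent.BCX

open Polynomial

/-- the data of `SplitQ` live in a finitely generated algebra and specialise -/
theorem SplitQ.spread {K A : Type} [Field K] [Field A] [Algebra K A] {C : Finset K} {n : ℕ}
    (hn : 1 ≤ n) (h : SplitQ C A n) :
    ∃ T : Finset A, ∀ (L : Type) [Field L] [Algebra K L]
      (_ : Algebra.adjoin K (T : Set A) →ₐ[K] L), SplitQ C L n := by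
  classical
  obtain ⟨g, α, hgn, hgX, hα, hS⟩ := h
  choose! S hcard hroot using hS
  set T1 : Finset A := (Finset.range (n + 1)).image g.coeff with hT1
  set T2 : Finset A := {α, α⁻¹, (g.coeff n)⁻¹} with hT2
  set T3 : Finset A := C.biUnion S with hT3
  set T4 : Finset A := C.biUnion fun c => (S c ×ˢ S c).image fun z => (z.1 - z.2)⁻¹ with hT4
  refine ⟨T1 ∪ T2 ∪ T3 ∪ T4, fun L _ _ φ => ?_⟩
  set B := Algebra.adjoin K ((T1 ∪ T2 ∪ T3 ∪ T4 : Finset A) : Set A) with hB
  have hmem : ∀ t ∈ T1 ∪ T2 ∪ T3 ∪ T4, t ∈ B := fun t ht =>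
    Algebra.subset_adjoin (Finset.mem_coe.2 ht)
  have hm1 : ∀ k, g.coeff k ∈ B := by
    intro k
    rcases le_or_gt k n with hk | hk
    · refine hmem _ ?_
      simp only [Finset.mem_union]
      exact Or.inl (Or.inl (Or.inl (Finset.mem_image_of_mem _ (Finset.mem_range.2 (by omega)))))
    · rw [coeff_eq_zero_of_natDegree_lt (by omega)]
      exact B.zero_mem
  have hm2 : α ∈ B ∧ α⁻¹ ∈ B ∧ (g.coeff n)⁻¹ ∈ B := by
    refine ⟨hmem _ ?_, hmem _ ?_, hmem _ ?_⟩ <;>
    · simp only [Finset.mem_union]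
      exact Or.inl (Or.inl (Or.inr (by simp [hT2])))
  have hm3 : ∀ c ∈ C, ∀ x ∈ S c, x ∈ B := by
    intro c hc x hx
    refine hmem _ ?_
    simp only [Finset.mem_union]
    exact Or.inl (Or.inr (Finset.mem_biUnion.2 ⟨c, hc, hx⟩))
  have hm4 : ∀ c ∈ C, ∀ x ∈ S c, ∀ y ∈ S c, (x - y)⁻¹ ∈ B := by
    intro c hc x hx y hy
    refine hmem _ ?_
    simp only [Finset.mem_union]
    exact Or.inr (Finset.mem_biUnion.2 ⟨c, hc, Finset.mem_image.2
      ⟨(x, y), Finset.mem_product.2 ⟨hx, hy⟩, rfl⟩⟩)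
  have hinj : Function.Injective (algebraMap B A) := Subtype.val_injective
  have hunit : ∀ a b : B, (a : A) * (b : A) = 1 → φ a ≠ 0 := by
    intro a b hab h0
    have h1 : a * b = 1 := Subtype.ext hab
    have h2 := congrArg φ h1
    rw [map_mul, h0, zero_mul, map_one] at h2
    exact one_ne_zero h2.symm
  obtain ⟨g', hg'⟩ : ∃ g' : B[X], g'.map (algebraMap B A) = g := by
    have h1 : g ∈ Polynomial.lifts (algebraMap B A) := by
      rw [Polynomial.lifts_iff_coeff_lifts]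
      intro k
      exact ⟨⟨g.coeff k, hm1 k⟩, rfl⟩
    exact (Polynomial.mem_lifts _).1 h1
  have hgn' : g'.natDegree = n := by
    rw [← hgn, ← hg', natDegree_map_eq_of_injective hinj]
  have hg0 : g.coeff n ≠ 0 := by
    rw [← hgn]
    exact leadingCoeff_ne_zero.2 (by rintro rfl; simp at hgn; omega)
  have hlc : φ (g'.coeff n) ≠ 0 := by
    refine hunit _ ⟨_, hm2.2.2⟩ ?_
    have h1 : ((g'.coeff n : B) : A) = g.coeff n := by
      rw [← hg', coeff_map]
      rfl
    rw [h1]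
    exact mul_inv_cancel₀ hg0
  refine ⟨g'.map (φ : B →+* L), φ ⟨α, hm2.1⟩, ?_, ?_, ?_, ?_⟩
  · rw [← hgn']
    refine natDegree_map_of_leadingCoeff_ne_zero _ ?_
    rw [leadingCoeff, hgn']
    exact hlc
  · rw [derivative_map]
    have h1 : X * derivative g' = (n : B[X]) * g' := by
      refine Polynomial.map_injective _ hinj ?_
      rw [Polynomial.map_mul, Polynomial.map_mul, map_X, ← derivative_map, hg', hgX,
        Polynomial.map_natCast]
    have h2 := congrArg (Polynomial.map (φ : B →+* L)) h1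
    rw [Polynomial.map_mul, Polynomial.map_mul, map_X, Polynomial.map_natCast] at h2
    exact h2
  · exact hunit _ ⟨_, hm2.2.1⟩ (mul_inv_cancel₀ hα)
  · intro c hc
    refine ⟨(S c).attach.image fun x => φ ⟨x.1, hm3 c hc x.1 x.2⟩, ?_, ?_⟩
    · rw [Finset.card_image_of_injective, Finset.card_attach, hcard c hc]
      intro x y hxy
      by_contra hne
      have h1 : (x.1 : A) - y.1 ≠ 0 := sub_ne_zero.2 fun h => hne (Subtype.ext h)
      refine hunit (⟨x.1, hm3 c hc x.1 x.2⟩ - ⟨y.1, hm3 c hc y.1 y.2⟩)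
        ⟨_, hm4 c hc x.1 x.2 y.1 y.2⟩ (mul_inv_cancel₀ h1) ?_
      rw [map_sub]
      exact sub_eq_zero.2 hxy
    · intro x hx
      obtain ⟨x, -, rfl⟩ := Finset.mem_image.1 hx
      have h1 : algebraMap K B c * g'.eval ⟨x.1, hm3 c hc x.1 x.2⟩ = ⟨α, hm2.1⟩ := by
        refine hinj ?_
        have h2 := hroot c hc x.1 x.2
        rw [map_mul, ← IsScalarTower.algebraMap_apply, ← Polynomial.eval₂_at_apply, ← eval_map,
          hg']
        exact h2
      have h3 := congrArg φ h1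
      rw [map_mul, AlgHom.commutes] at h3
      rw [← h3, eval_map]
      exact congrArg _ (Polynomial.eval₂_at_apply (φ : B →+* L) _)

theorem SplitP.split {p : ℕ} {K A : Type} [Field K] [Field A] [Algebra K A] {C : Finset K}
    {n : ℕ} (h : SplitP p C A n) : SplitQ C A n := by
  obtain ⟨g, α, B, Y, h1, h2, h3, -, -, -, h4⟩ := h
  exact ⟨g, α, h1, h2, h3, h4⟩

/-- a larger field -/
theorem SplitP.map {p : ℕ} {K F A : Type} [Field K] [Field F] [Field A] [Algebra K F]
    [Algebra K A] {C : Finset K} {n : ℕ} (f : F →ₐ[K] A) (h : SplitP p C F n) :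
    SplitP p C A n := by
  classical
  obtain ⟨g, α, B, Y, h1, h2, h3, hB, hY, h5, h4⟩ := h
  refine ⟨g.map (f : F →+* A), f α, f B, f Y, ?_, ?_, (map_ne_zero f).2 h3, (map_ne_zero f).2 hB,
    (map_ne_zero f).2 hY, ?_, fun c hc => ?_⟩
  · rw [natDegree_map, h1]
  · have h6 := congrArg (Polynomial.map (f : F →+* A)) h2
    rw [Polynomial.map_mul, Polynomial.map_mul, map_X, Polynomial.map_natCast] at h6
    rw [derivative_map]
    exact h6
  · rw [leadingCoeff_map]
    have h6 := congrArg f h5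
    rw [map_mul, map_mul, map_mul, map_pow, map_pow, map_natCast] at h6
    exact h6
  · obtain ⟨S, hS, hr⟩ := h4 c hc
    refine ⟨S.image f, ?_, fun x hx => ?_⟩
    · have hinj : Function.Injective f := RingHom.injective (f : F →+* A)
      rw [Finset.card_image_of_injective S hinj, hS]
    · obtain ⟨y, hy, rfl⟩ := Finset.mem_image.1 hx
      have h6 := congrArg f (hr y hy)
      rw [map_mul, AlgHom.commutes] at h6
      rw [← h6, eval_map]
      exact congrArg _ (Polynomial.eval₂_at_apply (f : F →+* A) _)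

theorem SplitP.all {p : ℕ} [Fact p.Prime] (hp3 : 3 ≤ p) {K A 𝕜 : Type} [Field K] [CharP K p]
    {s : ℕ} (hs : 1 ≤ s) [Field A] [Algebra K A] [NontriviallyNormedField 𝕜]
    [CompleteSpace 𝕜] [Algebra K 𝕜] [Algebra A 𝕜] [IsScalarTower K A 𝕜]
    (hA : ∀ x : 𝕜, IsSeparable A x → ∃ a : A, algebraMap A 𝕜 a = x)
    (hsmall : ∀ ε : ℝ, 0 < ε → ∃ β : A, β ≠ 0 ∧ ‖algebraMap A 𝕜 β‖ < ε)
    (hι : ∃ ι : A, ι ^ (p - 1) = -1)
    {C : Finset K} (hC : ∀ c ∈ C, ∃ d : K, d ≠ 0 ∧ d ^ (p - 1) = c ∧ d ^ p ^ s = d) {e : ℕ}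
    (he : 1 ≤ e) (hep : e < p) (h : SplitP p C A e) (j : ℕ) : SplitP p C A (e + p * j) := by
  induction j with
  | zero => simpa using h
  | succ j ih =>
    have hn : ¬ p ∣ e + p * j := by
      intro h'
      have := (Nat.dvd_add_left (dvd_mul_right p j)).1 h'
      exact absurd (Nat.le_of_dvd (by omega) this) (by omega)
    have h1 := SplitP.step (𝕜 := 𝕜) hp3 hs hA hsmall hι hC hn ih
    rwa [add_assoc, ← Nat.mul_succ] at h1

open scoped LaurentSeries RatFunc

/-- ROW Q5 (ChainP.lean, as ChainG.lean): all large finite extensions -/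
theorem splitQ_large {p : ℕ} [Fact p.Prime] (hp3 : 3 ≤ p) {F : Type} [Field F] [Finite F]
    [CharP F p] {s : ℕ} (hs : 1 ≤ s) {C : Finset F}
    (hC : ∀ c ∈ C, ∃ d : F, d ≠ 0 ∧ d ^ (p - 1) = c ∧ d ^ p ^ s = d)
    (hι : ∃ ι : F, ι ^ (p - 1) = -1) {e : ℕ} (he : 1 ≤ e) (hep : e < p) (h : SplitP p C F e)
    (j : ℕ) :
    ∃ Q0 : ℕ, ∀ (L : Type) [Field L] [Finite L] [Algebra F L], Q0 ≤ Nat.card L →
      SplitQ C L (e + p * j) := by
  classical
  let _ := nnf F
  have _ := complete_nnf F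
  let A := separableClosure (RatFunc F) F⸨X⸩
  let alg : Algebra F A := ((algebraMap (RatFunc F) A).comp
    (algebraMap F (RatFunc F))).toAlgebra
  have ht := @IsScalarTower.of_algebraMap_eq' F A F⸨X⸩ _ _ _ alg _ _
    (RingHom.ext fun x => algebraMap_ratFunc_laurent x)
  have hA : ∀ x : F⸨X⸩, IsSeparable A x → ∃ a : A, algebraMap A F⸨X⸩ a = x := by
    intro x hx
    have h1 : x ∈ separableClosure A F⸨X⸩ := mem_separableClosure_iff.2 hx
    rw [separableClosure.separableClosure_eq_bot] at h1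
    exact IntermediateField.mem_bot.1 h1
  have hX : (HahnSeries.single 1 1 : F⸨X⸩) ∈ A := by
    rw [← RatFunc.coe_X]
    exact A.algebraMap_mem _
  have hsmall : ∀ ε : ℝ, 0 < ε → ∃ β : A, β ≠ 0 ∧ ‖algebraMap A F⸨X⸩ β‖ < ε := by
    intro ε hε
    obtain ⟨n, hn⟩ := exists_pow_lt_of_lt_one hε (norm_single F)
    refine ⟨⟨HahnSeries.single 1 1, hX⟩ ^ n, ?_, ?_⟩
    · refine pow_ne_zero n ?_
      intro h
      have := congrArg Subtype.val h
      exact one_ne_zero (HahnSeries.single_eq_zero_iff.1 this)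
    · rw [map_pow, norm_pow]
      exact hn
  have hιA : ∃ ι : A, ι ^ (p - 1) = -1 := by
    obtain ⟨ι, h1⟩ := hι
    refine ⟨algebraMap F A ι, ?_⟩
    rw [← map_pow, h1, map_neg, map_one]
  have h0 : @SplitP p F _ C A _ alg e := @SplitP.map p F F A _ _ _ _ alg C e
    (@Algebra.ofId F A _ _ alg) h
  have hsp : @SplitP p F _ C A _ alg (e + p * j) :=
    @SplitP.all p _ hp3 F A F⸨X⸩ _ _ s hs _ alg _ _ _ _ ht hA hsmall hιA C hC e he hep h0 j
  obtain ⟨T, hT⟩ := @SplitQ.spread F A _ _ alg C (e + p * j) (by omega)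
    (@SplitP.split p F A _ _ alg C _ hsp)
  let f := @IsScalarTower.toAlgHom F A F⸨X⸩ _ _ _ alg _ _ ht
  obtain ⟨Q0, hQ⟩ := exists_homF (F := F) (T.image f) (by
    intro t ht
    obtain ⟨a, -, rfl⟩ := Finset.mem_image.1 ht
    exact mem_separableClosure_iff.1 (Subtype.mem a))
  refine ⟨Q0, fun L _ _ _ hL => ?_⟩
  obtain ⟨ψ⟩ := hQ L hL
  obtain ⟨φ⟩ := @hom_adjoin_image F A F⸨X⸩ L _ _ _ alg _ _ _ _ f T ψ
  exact hT L φ

end Pool.Agent.BCX
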