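import Pool.Agent.Helper36.BCH.Basic

/-!
# Designed distances divisible by the order of the field
-/

namespace Pool.Agent.BCX

open Polynomial Pool.Agent.Helper36.BCH

/-- the zeros of a polynomial over a field with `q` elements are stable under `x ↦ x ^ q` -/
theorem aeval_pow_card {K L : Type} [Field K] [Finite K] [Field L] [Algebra K L] (g : K[X])
    (x : L) : aeval (x ^ Nat.card K) g = (aeval x g) ^ Nat.card K := by
  have : Fintype K := Fintype.ofFinite K
  rw [Nat.card_eq_fintype_card, ← map_pow, ← FiniteField.expand_card, expand_aeval]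

/-- ROW G6 (ConvG.lean): the converse -/
theorem not_isMinDist_of_dvd {K L : Type} [Field K] [Finite K] [Field L] [Finite L]
    [Algebra K L] {α : L} (hα : IsPrimitiveElement α) {δ : ℕ} (hδ : 2 ≤ δ)
    (hq : Nat.card K ∣ δ) : ¬ IsMinDist K α δ δ := by
  rintro ⟨g, hg, hl⟩
  obtain ⟨e, he⟩ := hq
  have hq1 : 1 < Nat.card K := Finite.one_lt_card
  have he0 : e ≠ 0 := by
    rintro rfl
    omega
  have heδ : e < δ := by
    rw [he]
    exact lt_mul_left (Nat.pos_of_ne_zero he0) hq1
  have hz : aeval (α ^ δ) g = 0 := by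
    rw [he, mul_comm, pow_mul, aeval_pow_card, hg.2.1 e (Nat.pos_of_ne_zero he0) heδ,
      zero_pow (by omega)]
  have hg' : IsGenerator α (δ + 1) g := by
    refine ⟨hg.1, fun j h1 h2 => ?_, fun f hf hf0 => ?_⟩
    · rcases Nat.lt_succ_iff_lt_or_eq.1 h2 with h | h
      · exact hg.2.1 j h1 h
      · rw [h]
        exact hz
    · exact hg.2.2 f hf fun j h1 h2 => hf0 j h1 (by omega)
  have h := le_minDist hα (K := K) (δ := δ + 1) (d := δ) ⟨g, hg', hl⟩
  omega

end Pool.Agent.BCX
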