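import Mathlib

/-!
# Primitive BCH codes of fixed designed distance: definitions of the project
-/

namespace Pool.Agent.BCX

open Polynomial

/-- Evaluation of a polynomial in two variables at `(x, y)`. -/
noncomputable def ev2 {F A : Type} [Field F] [CommRing A] [Algebra F A] (x y : A) :
    F[X][X] →+* A :=
  eval₂RingHom ((aeval x : F[X] →ₐ[F] A) : F[X] →+* A) y

/-- The exponents `(i, j)` with `j < D` and weight `i + B * j ≤ N`. -/
def M (D B N : ℕ) : Finset (ℕ × ℕ) :=
  ((Finset.range (N + 1)) ×ˢ (Finset.range D)).filter fun ij => ij.1 + B * ij.2 ≤ N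

/-- The coordinate ring `R` of a plane curve `y ^ D = a 0 + a 1 * y + ...` over `Ω` whose equation
has coefficients in `F`. -/
structure Curve (F Ω R : Type) [Field F] [Field Ω] [CommRing R] [Algebra F Ω] [Algebra Ω R]
    [Algebra F R] [IsScalarTower F Ω R] where
  /-- the degree in `y` -/
  D : ℕ
  /-- the weight of `y` -/
  B : ℕ
  /-- the coordinate `x` -/
  x : R
  /-- the coordinate `y` -/
  y : R
  /-- the coefficients -/
  a : ℕ → F[X]
  hD : 1 ≤ D
  rel : y ^ D = ∑ t ∈ Finset.range D, aeval x (a t) * y ^ t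
  deg : ∀ t < D, (a t).natDegree ≤ B
  li : LinearIndependent Ω (fun ij : ℕ × Fin D => x ^ ij.1 * y ^ (ij.2 : ℕ))
  span : ⊤ ≤ Submodule.span Ω (Set.range (fun ij : ℕ × Fin D => x ^ ij.1 * y ^ (ij.2 : ℕ)))

/-- The monomials. -/
def Curve.mon {F Ω R : Type} [Field F] [Field Ω] [CommRing R] [Algebra F Ω] [Algebra Ω R]
    [Algebra F R] [IsScalarTower F Ω R] (c : Curve F Ω R) (ij : ℕ × ℕ) : R :=
  c.x ^ ij.1 * c.y ^ ij.2

/-- The monomials of weight at most `N`. -/
def Curve.mons {F Ω R : Type} [Field F] [Field Ω] [CommRing R] [Algebra F Ω] [Algebra Ω R]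
    [Algebra F R] [IsScalarTower F Ω R] (c : Curve F Ω R) (N : ℕ) : Set R :=
  c.mon '' (M c.D c.B N : Set (ℕ × ℕ))

/-- `A` contains `d + 1` distinct elements supporting a word over `ZMod p` whose power sums
`0, ..., d - 1` vanish and whose power sum `d` is a constant times a `(p - 1)`-th power. -/
def Good (p : ℕ) (A : Type) [Fact p.Prime] [Field A] [Algebra (ZMod p) A] (d : ℕ) : Prop :=
  ∃ (x : Fin (d + 1) → A) (c : Fin (d + 1) → ZMod p) (cb : ZMod p) (rho : A),
    Function.Injective x ∧ (∀ i, c i ≠ 0) ∧ cb ≠ 0 ∧ rho ≠ 0 ∧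
    (∀ l < d, ∑ i, algebraMap (ZMod p) A (c i) * x i ^ l = 0) ∧
    ∑ i, algebraMap (ZMod p) A (c i) * x i ^ d = algebraMap (ZMod p) A cb * rho ^ (p - 1)

end Pool.Agent.BCX
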