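import Mathlib

/-!
# Primitive BCH codes over fields with `2 ^ s` elements: definitions
-/

namespace Pool.Agent.BCX

open Polynomial

/-- There are a polynomial `g` of degree `n` with `X * g' = g` and `α ≠ 0` such that `c * g = α`
has `n` solutions in `A` for all `c ∈ C`. -/
def SplitG {K : Type} [Field K] (C : Finset K) (A : Type) [Field A] [Algebra K A] (n : ℕ) :
    Prop :=
  ∃ (g : A[X]) (α : A), g.natDegree = n ∧ X * derivative g = g ∧ α ≠ 0 ∧
    ∀ c ∈ C, ∃ S : Finset A, S.card = n ∧ ∀ x ∈ S, algebraMap K A c * g.eval x = α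

end Pool.Agent.BCX
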