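import Mathlib

/-!
# Primitive BCH codes over fields of odd order: definitions
-/

namespace Pool.Agent.BCX

open Polynomial

/-- There are a polynomial `g` of degree `n` with `X * g' = n * g` and `α ≠ 0` such that `c * g = α`
has `n` solutions in `A` for all `c ∈ C`. -/
def SplitQ {K : Type} [Field K] (C : Finset K) (A : Type) [Field A] [Algebra K A] (n : ℕ) :
    Prop :=
  ∃ (g : A[X]) (α : A), g.natDegree = n ∧ X * derivative g = (n : A[X]) * g ∧ α ≠ 0 ∧
    ∀ c ∈ C, ∃ S : Finset A, S.card = n ∧ ∀ x ∈ S, algebraMap K A c * g.eval x = α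

/-- The same, and `n * α` divided by the leading coefficient of `g` is the product of an `n`-th
power and a `(p - 1)`-th power. -/
def SplitP (p : ℕ) {K : Type} [Field K] (C : Finset K) (A : Type) [Field A] [Algebra K A]
    (n : ℕ) : Prop :=
  ∃ (g : A[X]) (α B Y : A), g.natDegree = n ∧ X * derivative g = (n : A[X]) * g ∧ α ≠ 0 ∧
    B ≠ 0 ∧ Y ≠ 0 ∧ (n : A) * α = g.leadingCoeff * (B ^ n * Y ^ (p - 1)) ∧
    ∀ c ∈ C, ∃ S : Finset A, S.card = n ∧ ∀ x ∈ S, algebraMap K A c * g.eval x = α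

/-- `S(η, u) = ∑ g_k η ^ (n - k) (1 + u ^ p) ^ ((k - e) / p)` -/
noncomputable def bigT {B : Type} [CommRing B] (p e : ℕ) (g : B[X]) (η u : B) : B :=
  ∑ k ∈ Finset.range (g.natDegree + 1),
    g.coeff k * η ^ (g.natDegree - k) * (1 + u ^ p) ^ ((k - e) / p)

/-- the parameter `ϖ` -/
noncomputable def vpi {B : Type} [Field B] (q : ℕ) (d y : B) : B := (d * (y⁻¹ ^ q - y⁻¹))⁻¹

/-- the parameter `ξ` -/
noncomputable def xi {B : Type} [Field B] (p s n : ℕ) (d y : B) : B :=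
  -((n : B)⁻¹ * ∑ i ∈ Finset.range s, (d * y⁻¹) ^ p ^ i)

end Pool.Agent.BCX
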