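import Mathlib

/-!
# Extensions of a finite field
-/

namespace Pool.Agent.BCX

/-- ROW Q6c (ExtP.lean): extensions of a finite field -/
theorem exists_ext (K : Type) [Field K] [Finite K] {m : ℕ} (hm : 1 ≤ m) :
    ∃ (F : Type) (_ : Field F) (_ : Finite F) (_ : Algebra K F), Nat.card F = Nat.card K ^ m ∧
      ∀ (L : Type) [Field L] [Finite L] [Algebra K L], m ∣ Module.finrank K L →
        Nonempty (F →ₐ[K] L) := by
  obtain ⟨p, hp⟩ := CharP.exists K
  have hpr : Fact p.Prime := ⟨CharP.char_is_prime K p⟩
  have hm0 : NeZero m := ⟨by omega⟩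
  refine ⟨FiniteField.Extension K p m, inferInstance, inferInstance, inferInstance,
    FiniteField.natCard_extension K p m, ?_⟩
  intro L _ _ _ h
  refine FiniteField.nonempty_algHom_of_finrank_dvd ?_
  rw [FiniteField.finrank_extension K p m]
  exact h

end Pool.Agent.BCX
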