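import Mathlib

/-!
# Constants in large extensions of a finite field
-/

namespace Pool.Agent.BCX

/-- a generator of the group of units -/
lemma exists_gen (F : Type) [Field F] [Finite F] :
    ∃ g : F, IsPrimitiveRoot g (Nat.card F - 1) ∧ ∀ x : F, x ≠ 0 → ∃ k : ℕ, g ^ k = x := by
  obtain ⟨g, hg⟩ := IsCyclic.exists_generator (α := Fˣ)
  have hcard : Nat.card Fˣ = Nat.card F - 1 := by
    have := Fintype.ofFinite F
    have := Fintype.ofFinite Fˣ
    rw [Nat.card_units]
  refine ⟨g, ?_, ?_⟩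
  · rw [← hcard, ← orderOf_eq_card_of_forall_mem_zpowers hg]
    exact IsPrimitiveRoot.coe_units_iff.2 (IsPrimitiveRoot.orderOf g)
  · intro x hx
    have h1 := hg (Units.mk0 x hx)
    rw [← mem_powers_iff_mem_zpowers] at h1
    obtain ⟨k, hk⟩ := h1
    refine ⟨k, ?_⟩
    have := congrArg Units.val hk
    simpa using this

/-- ROW Q6a (FieldP.lean): constants in large extensions -/
theorem exists_data {p : ℕ} [Fact p.Prime] {K F : Type} [Field K] [Finite K] [CharP K p]
    [Field F] [Finite F] [Algebra K F] {e : ℕ} (he : 1 ≤ e)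
    (hN : e * (p - 1) * (Nat.card K - 1) ∣ Nat.card F - 1) :
    (∃ ζ : F, IsPrimitiveRoot ζ e) ∧
      ∀ c : K, c ≠ 0 → ∃ y : F, y ^ (e * (p - 1)) = algebraMap K F c := by
  have hK : 1 < Nat.card K := Finite.one_lt_card
  have hF : 1 < Nat.card F := Finite.one_lt_card
  obtain ⟨g, hg, hgen⟩ := exists_gen F
  constructor
  · obtain ⟨t, ht⟩ := hN
    refine ⟨g ^ ((p - 1) * (Nat.card K - 1) * t), hg.pow (by omega) ?_⟩
    rw [ht]
    ring
  · intro c hc
    have hc' : algebraMap K F c ≠ 0 := (map_ne_zero _).2 hc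
    obtain ⟨k, hk⟩ := hgen _ hc'
    have h1 : c ^ (Nat.card K - 1) = 1 := by
      have := Fintype.ofFinite K
      rw [Nat.card_eq_fintype_card]
      exact FiniteField.pow_card_sub_one_eq_one c hc
    have h2 : g ^ (k * (Nat.card K - 1)) = 1 := by
      rw [pow_mul, hk, ← map_pow, h1, map_one]
    have h3 := hN.trans (hg.dvd_of_pow_eq_one _ h2)
    obtain ⟨t, ht⟩ := Nat.dvd_of_mul_dvd_mul_right (by omega) h3
    refine ⟨g ^ t, ?_⟩
    rw [← pow_mul, mul_comm t, ← ht, hk]

/-- ROW Q6b (FieldP.lean): constants in fields with a square number of elements -/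
theorem exists_data_sq {p : ℕ} [Fact p.Prime] (hp3 : 3 ≤ p) {F : Type} [Field F] [Finite F]
    [CharP F p] (hF : IsSquare (Nat.card F)) :
    (∃ ι : F, ι ^ (p - 1) = -1) ∧ ∃ b : F, b ^ 2 = 2 := by
  have hp := (Fact.out : p.Prime)
  have hF1 : 1 < Nat.card F := Finite.one_lt_card
  have hodd : p % 2 = 1 := hp.eq_two_or_odd.resolve_left (by omega)
  -- `2 * (p - 1)` divides `|F| - 1`
  have hdiv : 2 * (p - 1) ∣ Nat.card F - 1 := by
    have hc := Fintype.ofFinite F
    obtain ⟨f, -, hf⟩ := FiniteField.card F p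
    rw [Nat.card_eq_fintype_card] at hF ⊢
    rw [hf] at hF ⊢
    obtain ⟨r, hr⟩ := hF
    have hev : ∃ t, (f : ℕ) = 2 * t := by
      have hrd : r ∣ p ^ (f : ℕ) := ⟨r, hr⟩
      obtain ⟨t, -, ht⟩ := (Nat.dvd_prime_pow hp).1 hrd
      refine ⟨t, ?_⟩
      rw [ht, ← pow_add] at hr
      have := Nat.pow_right_injective hp.two_le hr
      omega
    obtain ⟨t, ht⟩ := hev
    rw [ht, pow_mul]
    have h1 : p ^ 2 - 1 ∣ (p ^ 2) ^ t - 1 := by
      simpa using Nat.sub_dvd_pow_sub_pow (p ^ 2) 1 t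
    refine dvd_trans ?_ h1
    have h2 : p ^ 2 - 1 = (p + 1) * (p - 1) := by
      rw [← Nat.sq_sub_sq, one_pow]
    rw [h2]
    exact mul_dvd_mul (by omega) dvd_rfl
  obtain ⟨g, hg, hgen⟩ := exists_gen F
  obtain ⟨t, ht⟩ := hdiv
  have hneg : g ^ ((p - 1) * t) = -1 := by
    have h1 : IsPrimitiveRoot (g ^ ((p - 1) * t)) 2 := hg.pow (by omega) (by rw [ht]; ring)
    exact h1.eq_neg_one_of_two_right
  refine ⟨⟨g ^ t, ?_⟩, ?_⟩
  · rw [← pow_mul, mul_comm t]
    exact hneg
  · have h20 : (2 : F) ≠ 0 := by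
      have := CharP.cast_eq_zero_iff F p 2
      intro h
      have h3 := this.1 (by exact_mod_cast h)
      have := Nat.le_of_dvd (by norm_num) h3
      omega
    obtain ⟨k, hk⟩ := hgen _ h20
    have h3 : (2 : F) ^ (p - 1) = 1 := by
      have h4 : (2 : F) ^ p = 2 := by
        have h5 := ZMod.pow_card (p := p) (2 : ZMod p)
        have h6 := congrArg (ZMod.castHom (dvd_refl p) F) h5
        rw [map_pow, map_ofNat] at h6
        exact h6
      have h7 : (2 : F) ^ (p - 1) * 2 = 1 * 2 := by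
        rw [← pow_succ, Nat.sub_add_cancel hp.one_le, h4, one_mul]
      exact mul_right_cancel₀ h20 h7
    have h8 : g ^ (k * (p - 1)) = 1 := by
      rw [pow_mul, hk, h3]
    have h9 := hg.dvd_of_pow_eq_one _ h8
    rw [ht] at h9
    have h10 : 2 * t ∣ k := by
      have : (2 * t) * (p - 1) ∣ k * (p - 1) := by
        rw [mul_right_comm]
        exact h9
      exact Nat.dvd_of_mul_dvd_mul_right (by omega) this
    obtain ⟨w, hw⟩ := h10
    refine ⟨g ^ (t * w), ?_⟩
    rw [← pow_mul, ← hk, hw]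
    congr 1
    ring

end Pool.Agent.BCX
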