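import Pool.Agent.BCX.Point
import Pool.Agent.BCX.SpecialAux

/-!
# Row S7: specialisation of separable elements of `F_p((t))`
-/

namespace Pool.Agent.BCX

open Polynomial

open scoped LaurentSeries RatFunc

/-- ROW S7: specialisation of separable elements of `F_p((t))` -/
theorem exists_hom (p : ℕ) [Fact p.Prime] (S : Finset (ZMod p)⸨X⸩)
    (hS : ∀ s ∈ S, IsSeparable (RatFunc (ZMod p)) s) :
    ∃ Q0 : ℕ, ∀ (L : Type) [Field L] [Finite L] [Algebra (ZMod p) L], Q0 ≤ Nat.card L →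
      Nonempty (Algebra.adjoin (ZMod p) (S : Set (ZMod p)⸨X⸩) →ₐ[ZMod p] L) := by
  obtain ⟨f, t, r, a, b, hf, hD, ht, hind, hr, hab, hom⟩ := Spec.exists_data S hS
  obtain ⟨Q0, hQ⟩ := exists_point p f hf hD t ht hind r hr a b hab
  refine ⟨Q0, fun L _ _ _ hL => ?_⟩
  obtain ⟨x0, y0, h1, h2⟩ := hQ L hL
  exact hom L x0 y0 h1 h2

end Pool.Agent.BCX
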