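import Pool.Agent.BCX.FinalCore
import Pool.Agent.BCX.Special
import Pool.Agent.BCX.Chain

/-!
# Primitive BCH codes of fixed designed distance: the final theorem
-/

namespace Pool.Agent.BCX

open Polynomial

/-- words over all large finite fields -/
theorem exists_word (p : ℕ) [Fact p.Prime] {d : ℕ} (hpd : ¬ p ∣ d) :
    ∃ Q0 : ℕ, ∀ (L : Type) [Field L] [Finite L] [Algebra (ZMod p) L], Q0 ≤ Nat.card L →
      ∃ (x : Fin (d + 1) → L) (c : Fin (d + 1) → ZMod p), Function.Injective x ∧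
        (∀ i, c i ≠ 0) ∧ ∀ l < d, ∑ i, algebraMap (ZMod p) L (c i) * x i ^ l = 0 :=
  exists_word_of p (exists_hom p) (good_laurent p hpd)

open Pool.Agent.Helper36.BCH in
/-- ROW B1: the theorem -/
theorem main (p : ℕ) [Fact p.Prime] {δ : ℕ} (hδ : 2 ≤ δ) (hpδ : ¬ p ∣ δ) :
    ∃ Q0 : ℕ, ∀ (K L : Type) [Field K] [Field L] [Finite L] [Algebra K L] [CharP K p] (α : L),
      IsPrimitiveElement α → Q0 ≤ Nat.card L → IsMinDist K α δ δ :=
  main_of p hδ (exists_word p hpδ)

end Pool.Agent.BCX
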