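import Pool.Agent.BCX.Defs
import Pool.Agent.Helper36.BCH.Balanced

/-!
# Primitive BCH codes of fixed designed distance: from words over `F_p((t))` to codes
-/

namespace Pool.Agent.BCX

open Polynomial

open scoped LaurentSeries RatFunc in
/-- words over all large finite fields, from the specialisation theorem and a word over
`F_p((t))` -/
theorem exists_word_of (p : ℕ) [Fact p.Prime] {d : ℕ}
    (hhom : ∀ S : Finset (ZMod p)⸨X⸩, (∀ s ∈ S, IsSeparable (RatFunc (ZMod p)) s) →
      ∃ Q0 : ℕ, ∀ (L : Type) [Field L] [Finite L] [Algebra (ZMod p) L], Q0 ≤ Nat.card L →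
        Nonempty (Algebra.adjoin (ZMod p) (S : Set (ZMod p)⸨X⸩) →ₐ[ZMod p] L))
    (hword : ∃ (x : Fin (d + 1) → (ZMod p)⸨X⸩) (c : Fin (d + 1) → ZMod p),
      (∀ i, IsSeparable (RatFunc (ZMod p)) (x i)) ∧ Function.Injective x ∧ (∀ i, c i ≠ 0) ∧
      ∀ l < d, ∑ i, algebraMap (ZMod p) (ZMod p)⸨X⸩ (c i) * x i ^ l = 0) :
    ∃ Q0 : ℕ, ∀ (L : Type) [Field L] [Finite L] [Algebra (ZMod p) L], Q0 ≤ Nat.card L →
      ∃ (x : Fin (d + 1) → L) (c : Fin (d + 1) → ZMod p), Function.Injective x ∧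
        (∀ i, c i ≠ 0) ∧ ∀ l < d, ∑ i, algebraMap (ZMod p) L (c i) * x i ^ l = 0 := by
  classical
  obtain ⟨x, c, hsep, hinj, hc, hsum⟩ := hword
  set S : Finset (ZMod p)⸨X⸩ := Finset.univ.image x ∪
    Finset.univ.image (fun ij : Fin (d + 1) × Fin (d + 1) => (x ij.1 - x ij.2)⁻¹) with hSdef
  have hS : ∀ s ∈ S, IsSeparable (RatFunc (ZMod p)) s := by
    intro s hs
    rcases Finset.mem_union.1 hs with h | h
    · obtain ⟨i, -, rfl⟩ := Finset.mem_image.1 h
      exact hsep i
    · obtain ⟨ij, -, rfl⟩ := Finset.mem_image.1 h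
      exact Field.isSeparable_inv (Field.isSeparable_sub (hsep _) (hsep _))
  obtain ⟨Q0, hQ0⟩ := hhom S hS
  refine ⟨Q0, ?_⟩
  intro L _ _ _ hL
  obtain ⟨φ⟩ := hQ0 L hL
  have hmx : ∀ i, x i ∈ Algebra.adjoin (ZMod p) (S : Set (ZMod p)⸨X⸩) := fun i =>
    Algebra.subset_adjoin (Finset.mem_coe.2 (Finset.mem_union_left _
      (Finset.mem_image_of_mem _ (Finset.mem_univ i))))
  have hmi : ∀ i j, (x i - x j)⁻¹ ∈ Algebra.adjoin (ZMod p) (S : Set (ZMod p)⸨X⸩) := fun i j =>
    Algebra.subset_adjoin (Finset.mem_coe.2 (Finset.mem_union_right _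
      (Finset.mem_image.2 ⟨(i, j), Finset.mem_univ _, rfl⟩)))
  refine ⟨fun i => φ ⟨x i, hmx i⟩, c, ?_, hc, ?_⟩
  · intro i j hij
    by_contra hne
    have hx : x i - x j ≠ 0 := sub_ne_zero.2 fun h => hne (hinj h)
    have h1 : (⟨x i, hmx i⟩ - ⟨x j, hmx j⟩ : Algebra.adjoin (ZMod p) (S : Set (ZMod p)⸨X⸩)) *
        ⟨(x i - x j)⁻¹, hmi i j⟩ = 1 := by
      apply Subtype.ext
      change (x i - x j) * (x i - x j)⁻¹ = 1
      exact mul_inv_cancel₀ hx
    have h2 := congrArg φ h1
    rw [map_mul, map_sub, map_one] at h2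
    have h3 : φ ⟨x i, hmx i⟩ = φ ⟨x j, hmx j⟩ := hij
    rw [h3, sub_self, zero_mul] at h2
    exact zero_ne_one h2
  · intro l hl
    have h1 : ∑ i, algebraMap (ZMod p) (Algebra.adjoin (ZMod p) (S : Set (ZMod p)⸨X⸩)) (c i) *
        (⟨x i, hmx i⟩ : Algebra.adjoin (ZMod p) (S : Set (ZMod p)⸨X⸩)) ^ l = 0 := by
      apply Subtype.ext
      refine Eq.trans ?_ (hsum l hl)
      rw [AddSubmonoidClass.coe_finsetSum]
      rfl
    have h2 := congrArg φ h1
    rw [map_sum, map_zero] at h2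
    rw [← h2]
    refine Finset.sum_congr rfl fun i _ => ?_
    rw [map_mul, map_pow, AlgHom.commutes]

/-- translation of a word -/
theorem sum_translate {p : ℕ} [Fact p.Prime] {L : Type} [Field L] [Algebra (ZMod p) L] {d : ℕ}
    (x : Fin (d + 1) → L) (c : Fin (d + 1) → ZMod p)
    (h : ∀ l < d, ∑ i, algebraMap (ZMod p) L (c i) * x i ^ l = 0) (y : L) (l : ℕ) (hl : l < d) :
    ∑ i, algebraMap (ZMod p) L (c i) * (x i - y) ^ l = 0 := by
  have h1 : ∀ i, algebraMap (ZMod p) L (c i) * (x i - y) ^ l =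
      ∑ m ∈ Finset.range (l + 1), ((-y) ^ (l - m) * (l.choose m : L)) *
        (algebraMap (ZMod p) L (c i) * x i ^ m) := by
    intro i
    rw [sub_eq_add_neg, add_pow, Finset.mul_sum]
    refine Finset.sum_congr rfl fun m _ => ?_
    ring
  simp only [h1]
  rw [Finset.sum_comm]
  refine Finset.sum_eq_zero fun m hm => ?_
  rw [← Finset.mul_sum, h m (by have := Finset.mem_range.1 hm; omega), mul_zero]

open Pool.Agent.Helper36.BCH in
/-- the theorem, from words over all large finite fields -/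
theorem main_of (p : ℕ) [Fact p.Prime] {δ : ℕ} (hδ : 2 ≤ δ)
    (hw : ∃ Q0 : ℕ, ∀ (L : Type) [Field L] [Finite L] [Algebra (ZMod p) L], Q0 ≤ Nat.card L →
      ∃ (x : Fin (δ + 1) → L) (c : Fin (δ + 1) → ZMod p), Function.Injective x ∧
        (∀ i, c i ≠ 0) ∧ ∀ l < δ, ∑ i, algebraMap (ZMod p) L (c i) * x i ^ l = 0) :
    ∃ Q0 : ℕ, ∀ (K L : Type) [Field K] [Field L] [Finite L] [Algebra K L] [CharP K p] (α : L),
      IsPrimitiveElement α → Q0 ≤ Nat.card L → IsMinDist K α δ δ := by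
  classical
  obtain ⟨Q0, hQ0⟩ := hw
  refine ⟨Q0, ?_⟩
  intro K L _ _ _ _ _ α hα hL
  have : CharP L p := charP_of_injective_algebraMap (algebraMap K L).injective p
  let _ : Algebra (ZMod p) K := ZMod.algebra K p
  let _ : Algebra (ZMod p) L := ZMod.algebra L p
  obtain ⟨x, c, hinj, hc, hsum⟩ := hQ0 L hL
  have hKL : ∀ a : ZMod p, algebraMap K L (algebraMap (ZMod p) K a) = algebraMap (ZMod p) L a := by
    intro a
    exact congrArg (fun f : ZMod p →+* L => f a)
      (Subsingleton.elim ((algebraMap K L).comp (algebraMap (ZMod p) K)) (algebraMap (ZMod p) L))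
  have hcard : δ + 1 ≤ Nat.card L := by
    have := Nat.card_le_card_of_injective x hinj
    simpa using this
  obtain ⟨d, hd⟩ := exists_minDist (K := K) hα (δ := δ) (by omega)
  have hyinj : Function.Injective (fun i => x i - x 0) := fun i j h => hinj (by simpa using h)
  obtain ⟨k, hk⟩ : ∃ k : L → ZMod p, ∀ i, k (x i - x 0) = c i := by
    refine ⟨fun y => if h : ∃ i, x i - x 0 = y then c h.choose else 0, fun i => ?_⟩
    have h : ∃ j, x j - x 0 = x i - x 0 := ⟨i, rfl⟩
    have h2 : (if h : ∃ j, x j - x 0 = x i - x 0 then c h.choose else 0) = c h.choose := dif_pos h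
    exact h2.trans (congrArg c (hyinj h.choose_spec))
  have hmain := minDist_le hα hd ((Finset.univ.erase (0 : Fin (δ + 1))).image (fun i => x i - x 0))
    (by
      rw [Finset.image_nonempty, ← Finset.card_pos, Finset.card_erase_of_mem (Finset.mem_univ _),
        Finset.card_univ, Fintype.card_fin]
      omega)
    (by
      rw [Finset.mem_image]
      rintro ⟨i, hi, hi2⟩
      exact (Finset.mem_erase.1 hi).1 (hinj (sub_eq_zero.1 hi2)))
    (fun y => algebraMap (ZMod p) K (k y))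
    (by
      intro y hy
      obtain ⟨i, -, rfl⟩ := Finset.mem_image.1 hy
      rw [hk, Ne, map_eq_zero]
      exact hc i)
    (by
      intro j h1 h2
      rw [Finset.sum_image (fun a _ b _ h => hyinj h)]
      have h3 := sum_translate x c hsum (x 0) j h2
      rw [← Finset.add_sum_erase _ _ (Finset.mem_univ (0 : Fin (δ + 1))), sub_self,
        zero_pow (by omega : j ≠ 0), mul_zero, zero_add] at h3
      rw [← h3]
      refine Finset.sum_congr rfl fun i _ => ?_
      rw [hk, hKL])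
  rw [Finset.card_image_of_injective _ hyinj, Finset.card_erase_of_mem (Finset.mem_univ _),
    Finset.card_univ, Fintype.card_fin] at hmain
  have h2 := le_minDist hα hd
  have h3 : d = δ := by omega
  rwa [h3] at hd

end Pool.Agent.BCX
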