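import Mathlib

/-!
# Primitive BCH codes over fields with `2 ^ s` elements: the absolute trace
-/

namespace Pool.Agent.BCX

open Polynomial

section G2

theorem pow_two_pow_eq {K : Type} [Field K] [Finite K] {s : ℕ} (hK : Nat.card K = 2 ^ s)
    (x : K) : x ^ 2 ^ s = x := by
  have := Fintype.ofFinite K
  rw [← hK, Nat.card_eq_fintype_card]
  exact FiniteField.pow_card x

theorem one_le_of_card {K : Type} [Field K] [Finite K] {s : ℕ} (hK : Nat.card K = 2 ^ s) :
    1 ≤ s := by
  rcases Nat.eq_zero_or_pos s with h | h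
  · subst h
    have : 1 < Nat.card K := Finite.one_lt_card
    rw [hK] at this
    simp at this
  · exact h

theorem trace_sq {K : Type} [Field K] [Finite K] {s : ℕ} (hK : Nat.card K = 2 ^ s) (x : K) :
    ∑ i ∈ Finset.range s, (x ^ 2) ^ 2 ^ i = ∑ i ∈ Finset.range s, x ^ 2 ^ i := by
  have h1 := Finset.sum_range_succ (fun i => x ^ 2 ^ i) s
  have h2 := Finset.sum_range_succ' (fun i => x ^ 2 ^ i) s
  rw [h2] at h1
  simp only [pow_zero, pow_one, pow_two_pow_eq hK x] at h1
  have h3 := add_right_cancel h1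
  rw [← h3]
  refine Finset.sum_congr rfl fun i _ => ?_
  rw [← pow_mul, pow_succ' 2 i]

variable {K : Type} [Field K] [Finite K] [CharP K 2] {s : ℕ}

theorem sq_trace (hK : Nat.card K = 2 ^ s) (x : K) :
    (∑ i ∈ Finset.range s, x ^ 2 ^ i) ^ 2 = ∑ i ∈ Finset.range s, x ^ 2 ^ i := by
  have : Fact (Nat.Prime 2) := ⟨Nat.prime_two⟩
  rw [sum_pow_char 2]
  refine Eq.trans (Finset.sum_congr rfl fun i _ => ?_) (trace_sq hK x)
  rw [← pow_mul, ← pow_mul, mul_comm]

theorem trace_eq_zero_or_one (hK : Nat.card K = 2 ^ s) (x : K) :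
    ∑ i ∈ Finset.range s, x ^ 2 ^ i = 0 ∨ ∑ i ∈ Finset.range s, x ^ 2 ^ i = 1 := by
  have h := sq_trace hK x
  set t := ∑ i ∈ Finset.range s, x ^ 2 ^ i with ht
  have h2 : t * (t - 1) = 0 := by linear_combination h
  rcases mul_eq_zero.1 h2 with h3 | h3
  · exact Or.inl h3
  · exact Or.inr (sub_eq_zero.1 h3)

theorem trace_artin (hK : Nat.card K = 2 ^ s) (y : K) :
    ∑ i ∈ Finset.range s, (y ^ 2 + y) ^ 2 ^ i = 0 := by
  have : Fact (Nat.Prime 2) := ⟨Nat.prime_two⟩
  have h1 : ∀ i ∈ Finset.range s, (y ^ 2 + y) ^ 2 ^ i = (y ^ 2) ^ 2 ^ i + y ^ 2 ^ i :=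
    fun i _ => add_pow_char_pow _ _ _ _
  rw [Finset.sum_congr rfl h1, Finset.sum_add_distrib, trace_sq hK]
  exact CharTwo.add_self_eq_zero _

/-- the elements of trace zero are few -/
theorem card_trace_zero {K : Type} [Field K] [Finite K] {s : ℕ} (hK : Nat.card K = 2 ^ s) (Z : Finset K)
    (hZ : ∀ x ∈ Z, ∑ i ∈ Finset.range s, x ^ 2 ^ i = 0) : Z.card ≤ 2 ^ (s - 1) := by
  have hs := one_le_of_card hK
  set P : K[X] := ∑ i ∈ Finset.range s, X ^ 2 ^ i with hP
  have hcoeff : P.coeff 1 = 1 := by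
    rw [hP, finsetSum_coeff]
    rw [Finset.sum_eq_single 0]
    · simp
    · intro i _ hi
      rw [coeff_X_pow, if_neg]
      intro h
      have : 1 < 2 ^ i := Nat.one_lt_two_pow hi
      omega
    · intro h
      exact absurd (Finset.mem_range.2 (by omega)) h
  have hP0 : P ≠ 0 := by
    intro h
    rw [h] at hcoeff
    simp at hcoeff
  have hdeg : P.natDegree ≤ 2 ^ (s - 1) := by
    refine natDegree_sum_le_of_forall_le _ _ fun i hi => ?_
    rw [natDegree_X_pow]
    exact Nat.pow_le_pow_right (by norm_num) (by have := Finset.mem_range.1 hi; omega)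
  refine le_trans (card_le_degree_of_subset_roots (Z := Z) (p := P) ?_) hdeg
  intro x hx
  rw [mem_roots hP0, IsRoot.def, hP, eval_finsetSum]
  simpa using hZ x (by simpa using hx)

/-- ROW G2a -/
theorem exists_trace_set (hK : Nat.card K = 2 ^ s) {v : ℕ} (hv : v < s) :
    ∃ C : Finset K, C.card = 2 ^ v ∧ ∀ c ∈ C, ∑ i ∈ Finset.range s, c ^ 2 ^ i = 1 := by
  classical
  have := Fintype.ofFinite K
  set Z : Finset K := Finset.univ.filter fun x => ∑ i ∈ Finset.range s, x ^ 2 ^ i = 0 with hZ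
  have h1 := card_trace_zero hK Z fun x hx => (Finset.mem_filter.1 hx).2
  have h2 : (Finset.univ \ Z).card = 2 ^ s - Z.card := by
    rw [Finset.card_sdiff_of_subset (Finset.subset_univ Z), Finset.card_univ, ← hK,
      Nat.card_eq_fintype_card]
  have h3 : 2 ^ s = 2 * 2 ^ (s - 1) := by
    rw [← pow_succ', Nat.sub_add_cancel (by omega)]
  have h4 : 2 ^ v ≤ 2 ^ (s - 1) := Nat.pow_le_pow_right (by norm_num) (by omega)
  have h5 : 2 ^ v ≤ (Finset.univ \ Z).card := by
    rw [h2]
    generalize 2 ^ (s - 1) = t at *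
    generalize 2 ^ s = t' at *
    generalize 2 ^ v = w at *
    omega
  obtain ⟨C, hC, hcard⟩ := Finset.exists_subset_card_eq h5
  refine ⟨C, hcard, fun c hc => ?_⟩
  rcases trace_eq_zero_or_one hK c with h | h
  · have h6 := (Finset.mem_sdiff.1 (hC hc)).2
    have h7 : c ∈ Z := Finset.mem_filter.2 ⟨Finset.mem_univ _, h⟩
    exact absurd h7 h6
  · exact h

/-- ROW G2b -/
theorem exists_artin_schreier (hK : Nat.card K = 2 ^ s) {x : K}
    (hx : ∑ i ∈ Finset.range s, x ^ 2 ^ i = 0) : ∃ ν : K, ν ^ 2 + ν = x := by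
  classical
  have := Fintype.ofFinite K
  have hs := one_le_of_card hK
  set Z : Finset K := Finset.univ.filter fun x => ∑ i ∈ Finset.range s, x ^ 2 ^ i = 0 with hZ
  have h1 := card_trace_zero hK Z fun x hx => (Finset.mem_filter.1 hx).2
  set I : Finset K := Finset.univ.image fun y : K => y ^ 2 + y with hI
  have h2 : (Finset.univ : Finset K).card ≤ 2 * I.card := by
    refine Finset.card_le_mul_card_image _ _ fun a _ => ?_
    set P : K[X] := X ^ 2 + X - C a with hP
    have hPm : P.natDegree = 2 := by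
      rw [hP]
      compute_degree!
    have hP0 : P ≠ 0 := by
      intro h
      rw [h] at hPm
      simp at hPm
    refine le_trans (card_le_degree_of_subset_roots (p := P) ?_) hPm.le
    intro y hy
    rw [mem_roots hP0, IsRoot.def, hP]
    have h5 := (Finset.mem_filter.1 hy).2
    simp [h5]
  have h3 : 2 ^ s = 2 * 2 ^ (s - 1) := by
    rw [← pow_succ', Nat.sub_add_cancel hs]
  rw [Finset.card_univ, ← Nat.card_eq_fintype_card, hK] at h2
  have h4 : I ⊆ Z := by
    intro a ha
    obtain ⟨y, _, rfl⟩ := Finset.mem_image.1 ha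
    exact Finset.mem_filter.2 ⟨Finset.mem_univ _, trace_artin hK y⟩
  have h5 : I = Z := Finset.eq_of_subset_of_card_le h4 (by omega)
  have h6 : x ∈ I := by
    rw [h5]
    exact Finset.mem_filter.2 ⟨Finset.mem_univ _, hx⟩
  obtain ⟨y, _, hy⟩ := Finset.mem_image.1 h6
  exact ⟨y, hy⟩

end G2

end Pool.Agent.BCX
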