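import Pool.Agent.BCX.FinalGCore
import Pool.Agent.BCX.BalG
import Pool.Agent.BCX.TraceG
import Pool.Agent.BCX.ChainG

/-!
# Primitive BCH codes over fields with `2 ^ s` elements: the final theorem
-/

namespace Pool.Agent.BCX

open Pool.Agent.Helper36.BCH in
/-- ROW G5 -/
theorem mainG (K : Type) [Field K] [Finite K] [CharP K 2] {δ : ℕ} (hδ : 2 ≤ δ)
    (hq : ¬ Nat.card K ∣ δ) :
    ∃ Q0 : ℕ, ∀ (L : Type) [Field L] [Finite L] [Algebra K L] (α : L),
      IsPrimitiveElement α → Q0 ≤ Nat.card L → IsMinDist K α δ δ :=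
  mainG_of K hδ hq (fun hK _ hv => exists_trace_set hK hv)
    (fun hK _ hC m => splitG_large hK hC m) (fun hC _ hn h => h.balanced hC hn)

end Pool.Agent.BCX
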