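import Pool.Agent.BCX.DefsG
import Pool.Agent.Helper36.BCH.Balanced

/-!
# Primitive BCH codes over fields with `2 ^ s` elements: the theorem from its parts
-/

namespace Pool.Agent.BCX

open Polynomial

open Pool.Agent.Helper36.BCH in
/-- the theorem, from the set of elements of trace one, the splitting over all large finite
extensions and the balanced set -/
theorem mainG_of (K : Type) [Field K] [Finite K] [CharP K 2] {δ : ℕ} (hδ : 2 ≤ δ)
    (hq : ¬ Nat.card K ∣ δ)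
    (htrace : ∀ {s : ℕ}, Nat.card K = 2 ^ s → ∀ {v : ℕ}, v < s →
      ∃ C : Finset K, C.card = 2 ^ v ∧ ∀ c ∈ C, ∑ i ∈ Finset.range s, c ^ 2 ^ i = 1)
    (hsplit : ∀ {s : ℕ}, Nat.card K = 2 ^ s → ∀ {C : Finset K},
      (∀ c ∈ C, ∑ i ∈ Finset.range s, c ^ 2 ^ i = 1) → ∀ m : ℕ,
      ∃ Q0 : ℕ, ∀ (L : Type) [Field L] [Finite L] [Algebra K L], Q0 ≤ Nat.card L →
        SplitG C L (2 * m + 1))
    (hbal : ∀ {L : Type} [Field L] [Algebra K L] [DecidableEq L] {C : Finset K},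
      (∀ c ∈ C, c ≠ 0) → ∀ {n : ℕ}, 1 ≤ n → SplitG C L n →
      ∃ S : Finset L, S.card = n * C.card + 1 ∧ Balanced K S) :
    ∃ Q0 : ℕ, ∀ (L : Type) [Field L] [Finite L] [Algebra K L] (α : L),
      IsPrimitiveElement α → Q0 ≤ Nat.card L → IsMinDist K α δ δ := by
  classical
  have : Fintype K := Fintype.ofFinite K
  obtain ⟨s, -, hs⟩ := FiniteField.card K 2
  have hK : Nat.card K = 2 ^ (s : ℕ) := by rw [Nat.card_eq_fintype_card, hs]
  obtain ⟨v, n, ⟨m, rfl⟩, rfl⟩ := Nat.exists_eq_two_pow_mul_odd (n := δ) (by omega)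
  have hv : v < s := by
    by_contra h
    exact hq (hK ▸ (pow_dvd_pow 2 (not_lt.1 h)).mul_right _)
  obtain ⟨C, hCcard, hC⟩ := htrace hK hv
  have hC0 : ∀ c ∈ C, c ≠ 0 := by
    rintro c hc rfl
    have h1 := hC 0 hc
    rw [Finset.sum_eq_zero fun i _ => zero_pow (pow_ne_zero i two_ne_zero)] at h1
    exact zero_ne_one h1
  obtain ⟨Q0, hQ0⟩ := hsplit hK hC m
  refine ⟨Q0, fun L _ _ _ α hα hL => ?_⟩
  obtain ⟨S, hS, hb⟩ := hbal hC0 (by omega : 1 ≤ 2 * m + 1) (hQ0 L hL)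
  refine hb.isMinDist hα (by omega) ?_
  rw [hS, hCcard, mul_comm]

end Pool.Agent.BCX
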