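import Mathlib

/-!
# Primitive BCH codes over fields of odd order: many powers
-/

namespace Pool.Agent.BCX

open Polynomial

/-- ROW Q2: there are `(q - 1) / (p - 1) ≥ p ^ (s - 1)` powers -/
theorem exists_pow_set {p : ℕ} [Fact p.Prime] {K : Type} [Field K] [Finite K] {s : ℕ}
    (hK : Nat.card K = p ^ s) {v : ℕ} (hv : v < s) :
    ∃ C : Finset K, C.card = p ^ v ∧ ∀ c ∈ C, ∃ d : K, d ≠ 0 ∧ d ^ (p - 1) = c := by
  classical
  have := Fintype.ofFinite K
  have hp : 2 ≤ p := (Fact.out : p.Prime).two_le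
  set U : Finset K := Finset.univ.erase 0 with hU
  set I : Finset K := U.image fun d : K => d ^ (p - 1) with hI
  have h1 : U.card = p ^ s - 1 := by
    rw [hU, Finset.card_erase_of_mem (Finset.mem_univ _), Finset.card_univ,
      ← Nat.card_eq_fintype_card, hK]
  have h2 : U.card ≤ (p - 1) * I.card := by
    refine Finset.card_le_mul_card_image _ _ fun a _ => ?_
    set P : K[X] := X ^ (p - 1) - C a with hP
    have hPm : P.natDegree = p - 1 := natDegree_X_pow_sub_C
    have hP0 : P ≠ 0 := by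
      intro h
      rw [h] at hPm
      simp at hPm
      omega
    refine le_trans (card_le_degree_of_subset_roots (p := P) ?_) hPm.le
    intro y hy
    rw [mem_roots hP0, IsRoot.def, hP]
    have h5 := (Finset.mem_filter.1 hy).2
    simp [h5]
  have h3 : p ^ s = p * p ^ (s - 1) := by
    rw [← pow_succ', Nat.sub_add_cancel (by omega)]
  have h4 : p ^ v ≤ p ^ (s - 1) := Nat.pow_le_pow_right (by omega) (by omega)
  have h6 : p ^ (s - 1) ≤ I.card := by
    by_contra h
    push Not at h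
    have h7 : 1 ≤ p ^ (s - 1) := Nat.one_le_pow _ _ (by omega)
    rw [h1, h3] at h2
    obtain ⟨r, rfl⟩ : ∃ r, p = r + 2 := ⟨p - 2, by omega⟩
    obtain ⟨t, ht⟩ : ∃ t, (r + 2) ^ (s - 1) = I.card + 1 + t := 
      Nat.exists_eq_add_of_le (by omega)
    rw [ht] at h2
    have h8 : (r + 2) * (I.card + 1 + t) ≤ (r + 2 - 1) * I.card + 1 := by omega
    have h9 : (r + 2 - 1) * I.card = (r + 1) * I.card := rfl
    rw [h9] at h8
    nlinarith [Nat.zero_le r, Nat.zero_le t, Nat.zero_le I.card, Nat.zero_le (r * t)]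
  obtain ⟨C, hC, hcard⟩ := Finset.exists_subset_card_eq (h4.trans h6)
  refine ⟨C, hcard, fun c hc => ?_⟩
  obtain ⟨d, hd, hdc⟩ := Finset.mem_image.1 (hC hc)
  exact ⟨d, (Finset.mem_erase.1 hd).1, hdc⟩

end Pool.Agent.BCX
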