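import Pool.Agent.BCX.BalP
import Pool.Agent.BCX.PowP
import Pool.Agent.BCX.BaseP
import Pool.Agent.BCX.ChainP

/-!
# Primitive BCH codes over fields of odd order: the theorem for a field of constants
-/

namespace Pool.Agent.BCX

open Polynomial

/-- the splitting over an extension of the field of constants -/
theorem SplitQ.of_algHom {K F L : Type} [Field K] [Field F] [Algebra K F] [DecidableEq F]
    [Field L] [Algebra K L] [Algebra F L] (f : F →ₐ[K] L) (hf : ∀ x : F, algebraMap F L x = f x)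
    {C : Finset K} {n : ℕ} (h : SplitQ (C.image (algebraMap K F)) L n) : SplitQ C L n := by
  obtain ⟨g, α, h1, h2, h3, h4⟩ := h
  refine ⟨g, α, h1, h2, h3, fun c hc => ?_⟩
  obtain ⟨S, hS, hS'⟩ := h4 (algebraMap K F c) (Finset.mem_image_of_mem _ hc)
  refine ⟨S, hS, fun x hx => ?_⟩
  have := hS' x hx
  rwa [hf, f.commutes] at this

open Pool.Agent.Helper36.BCH

/-- ROW Q7a (FinalP.lean): the theorem for a field of constants `F` -/
theorem mainP_of {p : ℕ} [Fact p.Prime] (hp3 : 3 ≤ p) {K F : Type} [Field K] [Finite K]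
    [CharP K p] [Field F] [Finite F] [Algebra K F] {s : ℕ} (hK : Nat.card K = p ^ s)
    (hι : ∃ ι : F, ι ^ (p - 1) = -1) {e v j δ : ℕ} (he : 1 ≤ e) (hep : e < p) (hv : v < s)
    (hδ : 2 ≤ δ) (hδ' : δ = p ^ v * (e + p * j)) {ζ : F} (hζ : IsPrimitiveRoot ζ e)
    (hc : ∀ d : K, d ≠ 0 → ∃ y : F, y ^ e = algebraMap K F (d ^ (p - 1))) {B Y : F} (hB : B ≠ 0)
    (hY : Y ≠ 0) (h2 : (e : F) = B ^ e * Y ^ (p - 1)) :
    ∃ Q0 : ℕ, ∀ (L : Type) [Field L] [Finite L] [Algebra K L] (α : L), IsPrimitiveElement α →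
      Nonempty (F →ₐ[K] L) → Q0 ≤ Nat.card L → IsMinDist K α δ δ := by
  classical
  have hchF : CharP F p := charP_of_injective_algebraMap (algebraMap K F).injective p
  obtain ⟨C, hCcard, hC⟩ := exists_pow_set hK hv
  have hC0 : ∀ c ∈ C, c ≠ 0 := by
    rintro c hc rfl
    obtain ⟨d, hd, hd'⟩ := hC 0 hc
    exact hd (pow_eq_zero_iff (by omega : p - 1 ≠ 0) |>.1 hd')
  have hCF : ∀ c ∈ C.image (algebraMap K F), ∃ d : F, d ≠ 0 ∧ d ^ (p - 1) = c ∧ d ^ p ^ s = d := by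
    intro c hc
    obtain ⟨c', hc', rfl⟩ := Finset.mem_image.1 hc
    obtain ⟨d, hd, hd'⟩ := hC c' hc'
    refine ⟨algebraMap K F d, (_root_.map_ne_zero _).2 hd, by rw [← map_pow, hd'], ?_⟩
    have hfin := Fintype.ofFinite K
    rw [← map_pow, ← hK, Nat.card_eq_fintype_card, FiniteField.pow_card]
  have hbase : SplitP p (C.image (algebraMap K F)) F e := by
    refine SplitP.base he hζ one_ne_zero ?_ hB hY (by rw [mul_one]; exact h2)
    intro c hcF
    obtain ⟨c', hc', rfl⟩ := Finset.mem_image.1 hcF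
    obtain ⟨d, hd, hd'⟩ := hC c' hc'
    obtain ⟨y, hy⟩ := hc d⁻¹ (inv_ne_zero hd)
    refine ⟨y, ?_⟩
    rw [hy, Algebra.algebraMap_self_apply, ← map_mul, inv_pow, hd', mul_inv_cancel₀ (hC0 c' hc'),
      map_one]
  obtain ⟨Q0, hQ0⟩ := splitQ_large hp3 (by omega : 1 ≤ s) hCF hι he hep hbase j
  refine ⟨Q0, fun L _ _ _ α hα ⟨f⟩ hL => ?_⟩
  let _ : Algebra F L := f.toRingHom.toAlgebra
  have hsplit : SplitQ C L (e + p * j) := (hQ0 L hL).of_algHom f fun x => rfl
  have hn : ((e + p * j : ℕ) : K) ≠ 0 := by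
    rw [Ne, CharP.cast_eq_zero_iff K p, Nat.dvd_add_left (dvd_mul_right p j)]
    exact fun h => absurd (Nat.le_of_dvd (by omega) h) (by omega)
  obtain ⟨S, hS, hb⟩ := hsplit.balanced hC0 hn
  refine hb.isMinDist hα (by omega) ?_
  rw [hS, hCcard, hδ', mul_comm]

end Pool.Agent.BCX
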