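import Pool.Agent.BCX.FinalP
import Pool.Agent.BCX.FieldP
import Pool.Agent.BCX.ExtP

/-!
# Primitive BCH codes over fields of odd order: fields with a square number of elements
-/

namespace Pool.Agent.BCX

/-- a power of a prime is a square if and only if the exponent is even -/
lemma isSquare_prime_pow {p : ℕ} (hp : p.Prime) {k : ℕ} : IsSquare (p ^ k) ↔ 2 ∣ k := by
  constructor
  · rintro ⟨r, hr⟩
    have hrd : r ∣ p ^ k := ⟨r, hr⟩
    obtain ⟨t, -, rfl⟩ := (Nat.dvd_prime_pow hp).1 hrd
    rw [← pow_add] at hr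
    have := Nat.pow_right_injective hp.two_le hr
    omega
  · rintro ⟨t, rfl⟩
    exact ⟨p ^ t, by rw [← pow_add, two_mul]⟩

/-- the smallest extension with a square number of elements -/
lemma exists_ext_sq (K : Type) [Field K] [Finite K] :
    ∃ (F : Type) (_ : Field F) (_ : Finite F) (_ : Algebra K F), IsSquare (Nat.card F) ∧
      ∀ (L : Type) [Field L] [Finite L] [Algebra K L], IsSquare (Nat.card L) →
        Nonempty (F →ₐ[K] L) := by
  by_cases h : IsSquare (Nat.card K)
  · exact ⟨K, inferInstance, inferInstance, inferInstance, h,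
      fun L _ _ _ _ => ⟨Algebra.ofId K L⟩⟩
  · obtain ⟨F, _, _, _, hF, hF'⟩ := exists_ext K (m := 2) (by norm_num)
    refine ⟨F, inferInstance, inferInstance, inferInstance, ?_, fun L _ _ _ hL => hF' L ?_⟩
    · rw [hF]
      exact IsSquare.sq _
    · obtain ⟨p, hp⟩ := CharP.exists K
      have hpr : p.Prime := CharP.char_is_prime K p
      have hfin := Fintype.ofFinite K
      obtain ⟨s, -, hs⟩ := FiniteField.card K p
      have hK : Nat.card K = p ^ (s : ℕ) := by rw [Nat.card_eq_fintype_card, hs]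
      rw [Module.natCard_eq_pow_finrank (K := K) (V := L), hK, ← pow_mul,
        isSquare_prime_pow hpr] at hL
      rw [hK, isSquare_prime_pow hpr] at h
      exact (Nat.Prime.dvd_mul Nat.prime_two).1 hL |>.resolve_left h

open Pool.Agent.Helper36.BCH

/-- ROW Q7b (FinalPa.lean): fields with a square number of elements -/
theorem mainP_sq {p : ℕ} [Fact p.Prime] (hp3 : 3 ≤ p) (K : Type) [Field K] [Finite K]
    [CharP K p] {v n δ : ℕ} (hδ : 2 ≤ δ) (hδ' : δ = p ^ v * n) (hv : p ^ v < Nat.card K)
    (hn : n % p = 1 ∨ n % p = 2) :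
    ∃ Q0 : ℕ, ∀ (L : Type) [Field L] [Finite L] [Algebra K L] (α : L), IsPrimitiveElement α →
      IsSquare (Nat.card L) → Q0 ≤ Nat.card L → IsMinDist K α δ δ := by
  have hp := (Fact.out : p.Prime)
  have hodd : p % 2 = 1 := hp.eq_two_or_odd.resolve_left (by omega)
  have hfin := Fintype.ofFinite K
  obtain ⟨s, -, hs⟩ := FiniteField.card K p
  have hK : Nat.card K = p ^ (s : ℕ) := by rw [Nat.card_eq_fintype_card, hs]
  rw [hK] at hv
  have hvs : v < s := (Nat.pow_lt_pow_iff_right hp.one_lt).1 hv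
  obtain ⟨F, _, _, _, hF, hF'⟩ := exists_ext_sq K
  have hchF : CharP F p := charP_of_injective_algebraMap (algebraMap K F).injective p
  obtain ⟨hι, b, hb⟩ := exists_data_sq hp3 hF
  have h20 : (2 : F) ≠ 0 := by
    intro h
    have h3 := (CharP.cast_eq_zero_iff F p 2).1 (by exact_mod_cast h)
    have := Nat.le_of_dvd (by norm_num) h3
    omega
  have hn' : n = n % p + p * (n / p) := (Nat.mod_add_div n p).symm
  have key : ∃ Q0 : ℕ, ∀ (L : Type) [Field L] [Finite L] [Algebra K L] (α : L),
      IsPrimitiveElement α → Nonempty (F →ₐ[K] L) → Q0 ≤ Nat.card L → IsMinDist K α δ δ := by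
    rcases hn with h | h
    · refine mainP_of (F := F) hp3 hK hι (e := 1) (v := v) (j := n / p) le_rfl hp.one_lt hvs hδ
        (by rw [hδ', ← h, ← hn']) (ζ := 1) (IsPrimitiveRoot.one) ?_ (B := 1) (Y := 1) one_ne_zero
        one_ne_zero (by simp)
      intro d _
      exact ⟨algebraMap K F (d ^ (p - 1)), pow_one _⟩
    · refine mainP_of (F := F) hp3 hK hι (e := 2) (v := v) (j := n / p) (by norm_num) (by omega) hvs
        hδ (by rw [hδ', ← h, ← hn']) (ζ := -1) (IsPrimitiveRoot.neg_one p (by omega)) ?_ (B := b)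
        (Y := 1) ?_ one_ne_zero (by rw [hb]; simp)
      · intro d _
        refine ⟨algebraMap K F (d ^ ((p - 1) / 2)), ?_⟩
        rw [← map_pow, ← pow_mul]
        congr 2
        omega
      · rintro rfl
        apply h20
        rw [← hb]
        simp
  obtain ⟨Q0, hQ0⟩ := key
  exact ⟨Q0, fun L _ _ _ α hα hsq hL => hQ0 L α hα (hF' L hsq) hL⟩

end Pool.Agent.BCX
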