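import Pool.Agent.BCX.FinalP
import Pool.Agent.BCX.FieldP
import Pool.Agent.BCX.ExtP
import Pool.Agent.BCX.ArithP

/-!
# Primitive BCH codes over fields of odd order: degrees divisible by a fixed number
-/

namespace Pool.Agent.BCX

open Pool.Agent.Helper36.BCH

/-- ROW Q7c (FinalPb.lean): all fields of characteristic `p`, all large degrees divisible by
`m1` -/
theorem mainP_all {p : ℕ} [Fact p.Prime] (hp3 : 3 ≤ p) :
    ∃ m1 : ℕ, 1 ≤ m1 ∧ ∀ (K : Type) [Field K] [Finite K] [CharP K p] (δ : ℕ), 2 ≤ δ →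
      ¬ Nat.card K ∣ δ → ∃ Q0 : ℕ, ∀ (L : Type) [Field L] [Finite L] [Algebra K L] (α : L),
      IsPrimitiveElement α → m1 ∣ Module.finrank K L → Q0 ≤ Nat.card L → IsMinDist K α δ δ := by
  have hp := (Fact.out : p.Prime)
  obtain ⟨m1, hm1, hdiv⟩ := exists_degree hp hp3
  refine ⟨m1, hm1, fun K _ _ _ δ hδ hq => ?_⟩
  have hfin := Fintype.ofFinite K
  obtain ⟨s, -, hs⟩ := FiniteField.card K p
  have hK : Nat.card K = p ^ (s : ℕ) := by rw [Nat.card_eq_fintype_card, hs]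
  obtain ⟨v, n, hpn, hδ'⟩ := Nat.exists_eq_pow_mul_and_not_dvd (n := δ) (by omega) p hp.ne_one
  have hvs : v < s := by
    by_contra h
    exact hq (by rw [hK, hδ']; exact (pow_dvd_pow p (not_lt.1 h)).mul_right _)
  have he : 1 ≤ n % p := Nat.pos_of_ne_zero fun h => hpn (Nat.dvd_of_mod_eq_zero h)
  have hep : n % p < p := Nat.mod_lt _ hp.pos
  have hn' : n = n % p + p * (n / p) := (Nat.mod_add_div n p).symm
  obtain ⟨F, _, _, _, hF, hF'⟩ := exists_ext K hm1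
  have hN : n % p * (p - 1) * (Nat.card K - 1) ∣ Nat.card F - 1 := by
    rw [hF, hK]
    exact hdiv _ _ he hep s.pos
  obtain ⟨⟨ζ, hζ⟩, hroot⟩ := exists_data (p := p) he hN
  have hι : ∃ ι : F, ι ^ (p - 1) = -1 := by
    obtain ⟨y, hy⟩ := hroot (-1) (neg_ne_zero.2 one_ne_zero)
    refine ⟨y ^ (n % p), ?_⟩
    rw [← pow_mul, hy, map_neg, map_one]
  have hc : ∀ d : K, d ≠ 0 → ∃ y : F, y ^ (n % p) = algebraMap K F (d ^ (p - 1)) := by
    intro d hd
    obtain ⟨y, hy⟩ := hroot (d ^ (p - 1)) (pow_ne_zero _ hd)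
    refine ⟨y ^ (p - 1), ?_⟩
    rw [← pow_mul, mul_comm (p - 1), hy]
  have he0 : ((n % p : ℕ) : K) ≠ 0 := by
    rw [Ne, CharP.cast_eq_zero_iff K p]
    exact fun h => absurd (Nat.le_of_dvd he h) (by omega)
  obtain ⟨y, hy⟩ := hroot _ he0
  have hy0 : y ≠ 0 := by
    rintro rfl
    rw [zero_pow (Nat.mul_ne_zero (by omega) (by omega))] at hy
    exact he0 ((map_eq_zero _).1 hy.symm)
  obtain ⟨Q0, hQ0⟩ := mainP_of (F := F) hp3 hK hι (e := n % p) (v := v) (j := n / p) he hep hvs hδ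
    (by rw [hδ', ← hn']) hζ hc (B := y ^ (p - 1)) (Y := 1) (pow_ne_zero _ hy0) one_ne_zero (by
      rw [← pow_mul, mul_comm (p - 1), hy, map_natCast, one_pow, mul_one])
  exact ⟨Q0, fun L _ _ _ α hα hm hL => hQ0 L α hα (hF' L hm) hL⟩

end Pool.Agent.BCX
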