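import Pool.Agent.BCX.Defs

/-!
# The inverse function theorem for polynomial maps
-/

namespace Pool.Agent.BCX

open scoped Topology

section

variable {𝕜 A σ : Type} [NontriviallyNormedField 𝕜] [Field A] [Algebra A 𝕜] [Fintype σ]
  [DecidableEq σ]

/-- the linear form with coefficients `a` -/
noncomputable def lf (a : σ → 𝕜) : (σ → 𝕜) →L[𝕜] 𝕜 where
  toFun v := ∑ j, a j * v j
  map_add' v w := by
    rw [← Finset.sum_add_distrib]
    exact Finset.sum_congr rfl fun j _ => by simp [mul_add]
  map_smul' r v := by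
    simp only [Pi.smul_apply, smul_eq_mul, RingHom.id_apply, Finset.mul_sum]
    exact Finset.sum_congr rfl fun j _ => by ring
  cont := by fun_prop

omit [DecidableEq σ] in
theorem lf_apply (a v : σ → 𝕜) : lf a v = ∑ j, a j * v j := rfl

/-- the derivative of a polynomial function -/
theorem aeval_hasStrictFDerivAt (p : MvPolynomial σ A) (v0 : σ → 𝕜) :
    HasStrictFDerivAt (fun v : σ → 𝕜 => MvPolynomial.aeval v p)
      (lf fun j => MvPolynomial.aeval v0 (MvPolynomial.pderiv j p)) v0 := by
  induction p using MvPolynomial.induction_on with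
  | C a =>
    have h : (lf fun j => MvPolynomial.aeval v0
        (MvPolynomial.pderiv j (MvPolynomial.C a : MvPolynomial σ A))) = 0 := by
      ext v
      simp [lf_apply]
    rw [h]
    simp only [MvPolynomial.aeval_C]
    exact hasStrictFDerivAt_const _ _
  | add p q hp hq =>
    have h : (lf fun j => MvPolynomial.aeval v0 (MvPolynomial.pderiv j (p + q))) =
        (lf fun j => MvPolynomial.aeval v0 (MvPolynomial.pderiv j p)) +
        lf fun j => MvPolynomial.aeval v0 (MvPolynomial.pderiv j q) := by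
      ext v
      rw [add_apply, lf_apply, lf_apply, lf_apply, ← Finset.sum_add_distrib]
      refine Finset.sum_congr rfl fun j _ => ?_
      rw [map_add, map_add, add_mul]
    rw [h]
    simp only [map_add]
    exact hp.add hq
  | mul_X p i hp =>
    have hX : HasStrictFDerivAt (fun v : σ → 𝕜 => v i)
        (ContinuousLinearMap.proj i : (σ → 𝕜) →L[𝕜] 𝕜) v0 :=
      (ContinuousLinearMap.proj i : (σ → 𝕜) →L[𝕜] 𝕜).hasStrictFDerivAt
    have h2 := hp.mul hX
    simp only [map_mul, MvPolynomial.aeval_X]
    refine h2.congr_fderiv ?_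
    ext v
    simp only [add_apply, smul_apply, lf_apply,
      ContinuousLinearMap.proj_apply, smul_eq_mul]
    have h3 : ∀ j, MvPolynomial.aeval v0 (MvPolynomial.pderiv j (p * MvPolynomial.X i)) * v j =
        (if j = i then MvPolynomial.aeval v0 p * v i else 0) +
        v0 i * (MvPolynomial.aeval v0 (MvPolynomial.pderiv j p) * v j) := by
      intro j
      rw [Derivation.leibniz, MvPolynomial.pderiv_X]
      by_cases hj : j = i
      · subst hj
        simp
        ring
      · simp [hj]
        ring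
    rw [Finset.sum_congr rfl fun j _ => h3 j, Finset.sum_add_distrib, Finset.sum_ite_eq',
      if_pos (Finset.mem_univ i), Finset.mul_sum]

/-- the Jacobian matrix as derivative -/
theorem aeval_hasStrictFDerivAt_pi (f : σ → MvPolynomial σ A) (v0 : σ → 𝕜) :
    HasStrictFDerivAt (fun (v : σ → 𝕜) (i : σ) => MvPolynomial.aeval v (f i))
      (ContinuousLinearMap.pi fun i =>
        lf fun j => MvPolynomial.aeval v0 (MvPolynomial.pderiv j (f i))) v0 :=
  hasStrictFDerivAt_pi.2 fun i => aeval_hasStrictFDerivAt (f i) v0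

end

/-- ROW A1: inverse function theorem for polynomial maps -/
theorem poly_inverse {𝕜 A σ : Type} [NontriviallyNormedField 𝕜] [CompleteSpace 𝕜] [Field A]
    [Algebra A 𝕜] [Fintype σ] [DecidableEq σ] (f : σ → MvPolynomial σ A) (v0 : σ → 𝕜)
    (hJ : (Matrix.of fun i j => MvPolynomial.aeval v0 (MvPolynomial.pderiv j (f i))).det ≠ 0)
    {U : Set (σ → 𝕜)} (hU : U ∈ 𝓝 v0) :
    ∀ᶠ w in 𝓝 (fun i => MvPolynomial.aeval v0 (f i)),
      ∃ v ∈ U, ∀ i, MvPolynomial.aeval v (f i) = w i := by
  have hF := aeval_hasStrictFDerivAt_pi f v0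
  have hsurj : (ContinuousLinearMap.pi fun i =>
        lf fun j => MvPolynomial.aeval v0 (MvPolynomial.pderiv j (f i))).range = ⊤ := by
    rw [LinearMap.range_eq_top]
    intro w
    set Jm : Matrix σ σ 𝕜 :=
      Matrix.of fun i j => MvPolynomial.aeval v0 (MvPolynomial.pderiv j (f i)) with hJm
    refine ⟨Jm⁻¹.mulVec w, ?_⟩
    have h1 : Jm.mulVec (Jm⁻¹.mulVec w) = w := by
      rw [Matrix.mulVec_mulVec, Matrix.mul_nonsing_inv _ (isUnit_iff_ne_zero.2 hJ),
        Matrix.one_mulVec]
    conv_rhs => rw [← h1]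
    rfl
  have hmap := hF.map_nhds_eq_of_surj hsurj
  rw [← hmap]
  have himg := Filter.image_mem_map (m := fun (v : σ → 𝕜) (i : σ) => MvPolynomial.aeval v (f i)) hU
  filter_upwards [himg] with w hw
  obtain ⟨v, hv, rfl⟩ := hw
  exact ⟨v, hv, fun i => rfl⟩

/-- continuity of the determinant of the Jacobian matrix -/
theorem eventually_jac {𝕜 A σ : Type} [NontriviallyNormedField 𝕜] [Field A]
    [Algebra A 𝕜] [Fintype σ] [DecidableEq σ] (f : σ → MvPolynomial σ A) (v0 : σ → 𝕜)
    (hJ : (Matrix.of fun i j => MvPolynomial.aeval v0 (MvPolynomial.pderiv j (f i))).det ≠ 0) :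
    ∀ᶠ v in 𝓝 v0,
      (Matrix.of fun i j => MvPolynomial.aeval v (MvPolynomial.pderiv j (f i))).det ≠ 0 := by
  have hc : Continuous fun v : σ → 𝕜 =>
      (Matrix.of fun i j => MvPolynomial.aeval v (MvPolynomial.pderiv j (f i))).det := by
    refine Continuous.matrix_det ?_
    refine continuous_matrix fun i j => ?_
    exact continuous_iff_continuousAt.2 fun v =>
      (aeval_hasStrictFDerivAt (MvPolynomial.pderiv j (f i)) v).continuousAt
  exact hc.continuousAt.eventually_ne hJ

end Pool.Agent.BCX
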