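import Mathlib

/-!
# The Jacobian criterion for separability
-/

namespace Pool.Agent.BCX

/-- the chain rule -/
theorem deriv_aeval {A K M σ : Type} [Field A] [Field K] [Algebra A K] [AddCommGroup M]
    [Module K M] [Module A M] [IsScalarTower A K M] [Fintype σ] [DecidableEq σ]
    (D : Derivation A K M) (v : σ → K) (g : MvPolynomial σ A) :
    D (MvPolynomial.aeval v g) =
      ∑ j, MvPolynomial.aeval v (MvPolynomial.pderiv j g) • D (v j) := by
  induction g using MvPolynomial.induction_on with
  | C a => simp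
  | add p q hp hq => simp only [map_add, hp, hq, add_smul, Finset.sum_add_distrib]
  | mul_X p i hp =>
    rw [map_mul, MvPolynomial.aeval_X, Derivation.leibniz, hp]
    have h : ∀ j, MvPolynomial.aeval v (MvPolynomial.pderiv j (p * MvPolynomial.X i)) • D (v j) =
        v i • (MvPolynomial.aeval v (MvPolynomial.pderiv j p) • D (v j)) +
          if i = j then MvPolynomial.aeval v p • D (v j) else 0 := by
      intro j
      rw [Derivation.leibniz, MvPolynomial.pderiv_X, map_add, smul_eq_mul, smul_eq_mul, map_mul,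
        map_mul, MvPolynomial.aeval_X, add_smul, mul_smul, mul_smul, add_comm]
      congr 1
      split_ifs with hij
      · subst hij; simp
      · rw [Pi.single_eq_of_ne hij, map_zero, zero_smul, smul_zero]
    rw [Finset.sum_congr rfl fun j _ => h j, Finset.sum_add_distrib, ← Finset.smul_sum,
      Finset.sum_ite_eq, if_pos (Finset.mem_univ _), add_comm]

/-- ROW A2: the Jacobian criterion -/
theorem jac_separable {𝕜 A σ : Type} [Field 𝕜] [Field A] [Algebra A 𝕜] [Fintype σ]
    [DecidableEq σ] (f : σ → MvPolynomial σ A) (v : σ → 𝕜)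
    (hv : ∀ i, ∃ w : A, MvPolynomial.aeval v (f i) = algebraMap A 𝕜 w)
    (hJ : (Matrix.of fun i j => MvPolynomial.aeval v (MvPolynomial.pderiv j (f i))).det ≠ 0) :
    ∀ i, IsSeparable A (v i) := by
  classical
  let K : IntermediateField A 𝕜 := IntermediateField.adjoin A (Set.range v)
  have hmem : ∀ i, v i ∈ K := fun i => IntermediateField.subset_adjoin _ _ ⟨i, rfl⟩
  let v' : σ → K := fun i => ⟨v i, hmem i⟩
  have hae : ∀ g : MvPolynomial σ A, algebraMap K 𝕜 (MvPolynomial.aeval v' g) =
      MvPolynomial.aeval v g := by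
    intro g
    rw [← MvPolynomial.aeval_algebraMap_apply]
    rfl
  have hf : ∀ i, ∃ w : A, MvPolynomial.aeval v' (f i) = algebraMap A K w := by
    intro i
    obtain ⟨w, hw⟩ := hv i
    refine ⟨w, (algebraMap K 𝕜).injective ?_⟩
    rw [hae, hw, ← IsScalarTower.algebraMap_apply]
  let J : Matrix σ σ K :=
    Matrix.of fun i j => MvPolynomial.aeval v' (MvPolynomial.pderiv j (f i))
  have hJ' : J.det ≠ 0 := by
    intro h0
    apply hJ
    have h1 : (Matrix.of fun i j => MvPolynomial.aeval v (MvPolynomial.pderiv j (f i))) =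
        (algebraMap K 𝕜).mapMatrix J := by
      ext i j
      simp only [Matrix.of_apply, RingHom.mapMatrix_apply, Matrix.map_apply, J]
      exact (hae _).symm
    rw [h1, ← RingHom.map_det, h0, map_zero]
  have hunit : IsUnit J.det := isUnit_iff_ne_zero.2 hJ'
  let D := KaehlerDifferential.D A K
  have hD0 : ∀ i, ∑ j, J i j • D (v' j) = 0 := by
    intro i
    obtain ⟨w, hw⟩ := hf i
    have h1 := deriv_aeval D v' (f i)
    rw [hw, Derivation.map_algebraMap] at h1
    exact h1.symm
  have hDv : ∀ k, D (v' k) = 0 := by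
    intro k
    have h1 : D (v' k) = ∑ j, (J⁻¹ * J) k j • D (v' j) := by
      rw [Matrix.nonsing_inv_mul J hunit]
      simp [Matrix.one_apply]
    rw [h1]
    have h2 : ∀ j, (J⁻¹ * J) k j • D (v' j) = ∑ i, J⁻¹ k i • (J i j • D (v' j)) := by
      intro j
      rw [Matrix.mul_apply, Finset.sum_smul]
      exact Finset.sum_congr rfl fun i _ => mul_smul _ _ _
    rw [Finset.sum_congr rfl fun j _ => h2 j, Finset.sum_comm]
    refine Finset.sum_eq_zero fun i _ => ?_
    rw [← Finset.smul_sum, hD0, smul_zero]
  have hDK : ∀ k : K, D k = 0 := by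
    rintro ⟨k, hk⟩
    refine IntermediateField.adjoin_induction A (p := fun k hk => D ⟨k, hk⟩ = 0)
      ?_ ?_ ?_ ?_ ?_ hk
    · rintro _ ⟨i, rfl⟩
      exact hDv i
    · intro a
      exact D.map_algebraMap a
    · intro x y hx hy h1 h2
      have h3 : (⟨x + y, add_mem hx hy⟩ : K) = ⟨x, hx⟩ + ⟨y, hy⟩ := rfl
      rw [h3, map_add, h1, h2, add_zero]
    · intro x hx h1
      have h3 : (⟨x⁻¹, inv_mem hx⟩ : K) = (⟨x, hx⟩ : K)⁻¹ := rfl
      rw [h3]
      rw [Derivation.leibniz_inv, h1, smul_zero]
    · intro x y hx hy h1 h2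
      have h3 : (⟨x * y, mul_mem hx hy⟩ : K) = ⟨x, hx⟩ * ⟨y, hy⟩ := rfl
      rw [h3, Derivation.leibniz, h1, h2, smul_zero, smul_zero, add_zero]
  have hsub : Subsingleton (KaehlerDifferential A K) := by
    rw [← Submodule.subsingleton_iff K]
    rw [← subsingleton_iff_bot_eq_top]
    rw [← KaehlerDifferential.span_range_derivation A K]
    symm
    rw [Submodule.span_eq_bot]
    rintro _ ⟨k, rfl⟩
    exact hDK k
  have hunr : Algebra.FormallyUnramified A K := ⟨hsub⟩
  have hess : Algebra.EssFiniteType A K :=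
    IntermediateField.essFiniteType_iff.2 (IntermediateField.fg_adjoin_of_finite
      (Set.finite_range v))
  have hsep : Algebra.IsSeparable A K := Algebra.FormallyUnramified.isSeparable A K
  intro i
  have h1 : IsSeparable A (v' i) := hsep.isSeparable' (v' i)
  unfold IsSeparable at h1 ⊢
  rwa [IntermediateField.minpoly_eq] at h1

end Pool.Agent.BCX
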