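import Pool.Agent.BCX.Weight

/-!
# The pigeonhole principle for the auxiliary function (row S4)
-/

namespace Pool.Agent.BCX

open Polynomial

section S4

variable {F L Ω R : Type} [Field F] [Field L] [Field Ω] [CommRing R] [Algebra F L] [Algebra F Ω]
  [Algebra L Ω] [Algebra Ω R] [Algebra F R] [Algebra L R] [IsScalarTower F Ω R]
  [IsScalarTower F L R] [IsScalarTower L Ω R] [IsScalarTower F L Ω]

/-- the function of weight `l` with coefficients `C ij` -/
noncomputable def Curve.nu (c : Curve F Ω R) (l : ℕ) (C : ℕ × ℕ → ℕ × ℕ → L) (ij : ℕ × ℕ) : R :=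
  ∑ k ∈ M c.D c.B l, algebraMap L R (C ij k) * c.mon k

omit [IsScalarTower F L R] [IsScalarTower L Ω R] [IsScalarTower F L Ω] [Algebra F L]
  [Algebra L Ω] in
theorem Curve.nu_sub (c : Curve F Ω R) (l : ℕ) (C C' : ℕ × ℕ → ℕ × ℕ → L) (ij : ℕ × ℕ) :
    c.nu l (fun a b => C a b - C' a b) ij = c.nu l C ij - c.nu l C' ij := by
  simp only [Curve.nu, map_sub, sub_mul, Finset.sum_sub_distrib]

omit [IsScalarTower F L R] [IsScalarTower L Ω R] [IsScalarTower F L Ω] [Algebra F L]
  [Algebra L Ω] in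
theorem Curve.nu_mem (c : Curve F Ω R) (l : ℕ) (C : ℕ × ℕ → ℕ × ℕ → L) (ij : ℕ × ℕ) :
    c.nu l C ij ∈ Submodule.span L (c.mons l) := by
  refine Submodule.sum_mem _ fun k hk => ?_
  rw [← Algebra.smul_def]
  exact Submodule.smul_mem _ _ (c.mon_mem hk)

omit [IsScalarTower F L R] [IsScalarTower L Ω R] [IsScalarTower F L Ω] [Algebra F L]
  [Algebra L Ω] in
/-- the number of elements of a space of functions of given weight -/
theorem Curve.card_span [Finite L] (c : Curve F Ω R) (N : ℕ) :
    Finite (Submodule.span L (c.mons N)) ∧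
      Nat.card (Submodule.span L (c.mons N)) ≤ Nat.card L ^ (M c.D c.B N).card := by
  classical
  have hfd : FiniteDimensional L (Submodule.span L (c.mons N)) :=
    FiniteDimensional.span_of_finite L ((M c.D c.B N).finite_toSet.image _)
  have hfin : Finite (Submodule.span L (c.mons N)) := Module.finite_of_finite L
  refine ⟨hfin, ?_⟩
  have := Fintype.ofFinite L
  have := Fintype.ofFinite (Submodule.span L (c.mons N))
  rw [Nat.card_eq_fintype_card, Nat.card_eq_fintype_card, Module.card_eq_pow_finrank (K := L)]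
  refine Nat.pow_le_pow_right Fintype.card_pos ?_
  have h1 := finrank_span_finset_le_card (R := L) ((M c.D c.B N).image c.mon)
  rw [Finset.coe_image] at h1
  exact h1.trans Finset.card_image_le

/-- ROW S4: the pigeonhole principle -/
theorem Curve.exists_kernel [Finite L] (c : Curve F Ω R) (p e l n : ℕ) [Fact p.Prime]
    [CharP R p] (φ : ℕ → R)
    (hφ : ∀ r < c.D - 1, φ r ∈ Submodule.span F (c.mons (c.B * (c.D - 1 - r))))
    (hcard : (c.D - 1) * (M c.D c.B (l * p ^ e + n)).card <
      (M c.D c.B n).card * (M c.D c.B l).card) :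
    ∃ C : ℕ × ℕ → ℕ × ℕ → L,
      (∃ ij ∈ M c.D c.B n, ∃ k ∈ M c.D c.B l, C ij k ≠ 0) ∧
      ∀ r < c.D - 1,
        ∑ ij ∈ (M c.D c.B n).filter (fun ij => ij.2 = r), c.nu l C ij ^ p ^ e * c.x ^ ij.1 =
        φ r * ∑ ij ∈ (M c.D c.B n).filter (fun ij => ij.2 = c.D - 1),
          c.nu l C ij ^ p ^ e * c.x ^ ij.1 := by
  classical
  -- the additive map
  let T : (ℕ × ℕ → ℕ × ℕ → L) → ℕ → R := fun C r =>
    ∑ ij ∈ (M c.D c.B n).filter (fun ij => ij.2 = r), c.nu l C ij ^ p ^ e * c.x ^ ij.1 -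
      φ r * ∑ ij ∈ (M c.D c.B n).filter (fun ij => ij.2 = c.D - 1),
        c.nu l C ij ^ p ^ e * c.x ^ ij.1
  have hTsub : ∀ C C' r, T (fun a b => C a b - C' a b) r = T C r - T C' r := by
    intro C C' r
    simp only [T, c.nu_sub, sub_pow_char_pow, sub_mul, Finset.sum_sub_distrib, mul_sub]
    ring
  have hx : ∀ {i m : ℕ}, i ≤ m → c.x ^ i ∈ Submodule.span L (c.mons m) := by
    intro i m him
    have h := c.pow_mem (N := m) (i := i) (j := 0) (by simpa using him)
    rw [pow_zero, mul_one] at h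
    exact Submodule.span_subset_span F L _ h
  have hTmem : ∀ C, ∀ r < c.D - 1, T C r ∈ Submodule.span L (c.mons (l * p ^ e + n)) := by
    intro C r hr
    refine Submodule.sub_mem _ (Submodule.sum_mem _ fun ij hij => ?_) ?_
    · rw [Finset.mem_filter, mem_M] at hij
      rw [mul_comm l]
      exact c.mul_mem (c.pow_mem' (c.nu_mem l C ij) _) (hx (by omega))
    · rw [Finset.mul_sum]
      refine Submodule.sum_mem _ fun ij hij => ?_
      rw [Finset.mem_filter, mem_M] at hij
      have h1 := c.mul_mem (Submodule.span_subset_span F L _ (hφ r hr))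
        (c.mul_mem (c.pow_mem' (c.nu_mem l C ij) (p ^ e)) (hx (le_refl ij.1)))
      refine c.mono ?_ h1
      have h2 : c.B * (c.D - 1 - r) ≤ c.B * ij.2 := Nat.mul_le_mul_left _ (by omega)
      rw [mul_comm l]
      omega
  -- extension by zero
  let ext : ((M c.D c.B n) → (M c.D c.B l) → L) → ℕ × ℕ → ℕ × ℕ → L := fun g ij k =>
    if h : ij ∈ M c.D c.B n then if h' : k ∈ M c.D c.B l then g ⟨ij, h⟩ ⟨k, h'⟩ else 0 else 0
  obtain ⟨hfin, hcW⟩ := c.card_span (L := L) (l * p ^ e + n)
  let G : ((M c.D c.B n) → (M c.D c.B l) → L) →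
      (Fin (c.D - 1) → Submodule.span L (c.mons (l * p ^ e + n))) :=
    fun g r => ⟨T (ext g) r, hTmem _ r r.2⟩
  have hnot : ¬ Function.Injective G := by
    intro hinj
    have h1 := Nat.card_le_card_of_injective G hinj
    rw [Nat.card_fun, Nat.card_fun, Nat.card_fun, Nat.card_eq_fintype_card (α := Fin _),
      Fintype.card_fin, Nat.card_eq_fintype_card (α := M c.D c.B n),
      Nat.card_eq_fintype_card (α := M c.D c.B l), Fintype.card_coe, Fintype.card_coe,
      ← pow_mul] at h1
    have h2 := h1.trans (Nat.pow_le_pow_left hcW _)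
    rw [← pow_mul] at h2
    have h3 := (Nat.pow_le_pow_iff_right (Finite.one_lt_card (α := L))).1 h2
    rw [mul_comm (M c.D c.B l).card, mul_comm _ (c.D - 1)] at h3
    omega
  rw [Function.Injective] at hnot
  push Not at hnot
  obtain ⟨g, g', hgg, hne⟩ := hnot
  refine ⟨fun a b => ext g a b - ext g' a b, ?_, ?_⟩
  · by_contra hcon
    push Not at hcon
    apply hne
    funext ij k
    have h1 := hcon ij.1 ij.2 k.1 k.2
    simp only [ext, ij.2, k.2, dif_pos] at h1
    exact sub_eq_zero.1 h1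
  · intro r hr
    have h1 := hTsub (ext g) (ext g') r
    have h2 : T (ext g) r = T (ext g') r :=
      congrArg (fun t : Submodule.span L (c.mons (l * p ^ e + n)) => (t : R))
        (congrFun hgg ⟨r, hr⟩)
    rw [h2, sub_self] at h1
    exact sub_eq_zero.1 h1

end S4

end Pool.Agent.BCX
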