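import Pool.Agent.BCX.DefsP

/-!
# Primitive BCH codes over fields of odd order: the parameters
-/

namespace Pool.Agent.BCX

open Polynomial

section

open scoped Topology

theorem vpi_mul_pow {𝕜 : Type} [Field 𝕜] {q k : ℕ} (hk : k < q) (d : 𝕜) {y : 𝕜} (hy : y ≠ 0) :
    vpi q d y * y⁻¹ ^ k = y ^ (q - k) * (d * (1 - y ^ (q - 1)))⁻¹ := by
  have h1 : y⁻¹ ^ q - y⁻¹ = y⁻¹ ^ q * (1 - y ^ (q - 1)) := by
    obtain ⟨r, rfl⟩ : ∃ r, q = r + 1 := ⟨q - 1, by omega⟩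
    have h2 : y⁻¹ ^ r * y ^ r = 1 := by rw [← mul_pow, inv_mul_cancel₀ hy, one_pow]
    rw [Nat.add_sub_cancel, mul_sub, mul_one, pow_succ]
    linear_combination y⁻¹ * h2
  have h3 : y⁻¹ ^ q = y⁻¹ ^ (q - k) * y⁻¹ ^ k := by
    rw [← pow_add, Nat.sub_add_cancel hk.le]
  have h4 : (y⁻¹ ^ k)⁻¹ * y⁻¹ ^ k = 1 := inv_mul_cancel₀ (pow_ne_zero _ (inv_ne_zero hy))
  have h5 : (y⁻¹ ^ (q - k))⁻¹ = y ^ (q - k) := by rw [inv_pow, inv_inv]
  rw [vpi, h1, h3, mul_inv, mul_inv, mul_inv, mul_inv, h5]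
  linear_combination (d⁻¹ * y ^ (q - k) * (1 - y ^ (q - 1))⁻¹) * h4

theorem tendsto_vpi_mul_pow {𝕜 : Type} [NontriviallyNormedField 𝕜] {q k : ℕ} (hk : k < q)
    (hq : 2 ≤ q) {d : 𝕜} (hd : d ≠ 0) :
    Filter.Tendsto (fun y : 𝕜 => vpi q d y * y⁻¹ ^ k) (𝓝[≠] 0) (𝓝 0) := by
  have h1 : (fun y : 𝕜 => y ^ (q - k) * (d * (1 - y ^ (q - 1)))⁻¹) =ᶠ[𝓝[≠] 0]
      fun y => vpi q d y * y⁻¹ ^ k := by
    filter_upwards [self_mem_nhdsWithin] with y hy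
    exact (vpi_mul_pow hk d hy).symm
  refine Filter.Tendsto.congr' h1 ?_
  refine Filter.Tendsto.mono_left ?_ nhdsWithin_le_nhds
  have h2 : ContinuousAt (fun y : 𝕜 => y ^ (q - k) * (d * (1 - y ^ (q - 1)))⁻¹) 0 := by
    refine ContinuousAt.mul (by fun_prop) (ContinuousAt.inv₀ (by fun_prop) ?_)
    rw [zero_pow (by omega), sub_zero, mul_one]
    exact hd
  have h3 := h2.tendsto
  rwa [zero_pow (by omega), zero_mul] at h3

/-- ROW Q3e (ParP.lean): the parameters `ϖ`, `τ = ϖ ξ`, `σ = ϖ ξ ^ 2` are small -/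
theorem vpi_tendsto {p : ℕ} (hp3 : 3 ≤ p) {𝕜 : Type} [NontriviallyNormedField 𝕜] {s n : ℕ}
    (hs : 1 ≤ s) {d : 𝕜} (hd : d ≠ 0) :
    Filter.Tendsto (fun y : 𝕜 => (vpi (p ^ s) d y, vpi (p ^ s) d y * xi p s n d y,
      vpi (p ^ s) d y * xi p s n d y ^ 2)) (𝓝[≠] 0) (𝓝 (0, 0, 0)) := by
  have hs' : p ^ s = p * p ^ (s - 1) := by rw [← pow_succ', Nat.sub_add_cancel hs]
  have h1 : 1 ≤ p ^ (s - 1) := Nat.one_le_pow _ _ (by omega)
  have h3s : 3 * p ^ (s - 1) ≤ p ^ s := by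
    rw [hs']
    exact Nat.mul_le_mul_right _ hp3
  have hle : ∀ i ∈ Finset.range s, p ^ i ≤ p ^ (s - 1) := fun i hi =>
    Nat.pow_le_pow_right (by omega) (by have := Finset.mem_range.1 hi; omega)
  have key : ∀ k, k < p ^ s →
      Filter.Tendsto (fun y : 𝕜 => vpi (p ^ s) d y * y⁻¹ ^ k) (𝓝[≠] 0) (𝓝 0) := fun k hk =>
    tendsto_vpi_mul_pow hk (by omega) hd
  refine Filter.Tendsto.prodMk_nhds ?_ (Filter.Tendsto.prodMk_nhds ?_ ?_)
  · have h := key 0 (by omega)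
    simpa using h
  · have h : Filter.Tendsto (fun y : 𝕜 => -((n : 𝕜)⁻¹ * ∑ i ∈ Finset.range s,
        d ^ p ^ i * (vpi (p ^ s) d y * y⁻¹ ^ p ^ i))) (𝓝[≠] 0)
        (𝓝 (-((n : 𝕜)⁻¹ * ∑ i ∈ Finset.range s, d ^ p ^ i * 0))) := by
      refine (Filter.Tendsto.const_mul _ (tendsto_finsetSum _ fun i hi => ?_)).neg
      exact (key _ (by have := hle i hi; omega)).const_mul _
    simp only [mul_zero, Finset.sum_const_zero, neg_zero] at h
    refine h.congr fun y => ?_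
    rw [xi, Finset.mul_sum, Finset.mul_sum, ← Finset.sum_neg_distrib, ← Finset.sum_neg_distrib,
      Finset.mul_sum]
    refine Finset.sum_congr rfl fun i _ => ?_
    rw [mul_pow]
    ring
  · have h : Filter.Tendsto (fun y : 𝕜 => (n : 𝕜)⁻¹ ^ 2 * ∑ i ∈ Finset.range s,
        ∑ j ∈ Finset.range s, d ^ p ^ i * d ^ p ^ j *
          (vpi (p ^ s) d y * y⁻¹ ^ (p ^ i + p ^ j))) (𝓝[≠] 0)
        (𝓝 ((n : 𝕜)⁻¹ ^ 2 * ∑ i ∈ Finset.range s, ∑ j ∈ Finset.range s,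
          d ^ p ^ i * d ^ p ^ j * 0)) := by
      refine Filter.Tendsto.const_mul _ (tendsto_finsetSum _ fun i hi =>
        tendsto_finsetSum _ fun j hj => ?_)
      exact (key _ (by have := hle i hi; have := hle j hj; omega)).const_mul _
    simp only [mul_zero, Finset.sum_const_zero] at h
    refine h.congr fun y => ?_
    rw [xi, neg_sq, mul_pow, sq (∑ i ∈ Finset.range s, (d * y⁻¹) ^ p ^ i), Finset.sum_mul_sum,
      mul_left_comm, Finset.mul_sum (a := vpi (p ^ s) d y)]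
    congr 1
    refine Finset.sum_congr rfl fun i _ => ?_
    rw [Finset.mul_sum]
    refine Finset.sum_congr rfl fun j _ => ?_
    rw [mul_pow, mul_pow, pow_add]
    ring

/-- ROW Q3e (ParP.lean): the equation -/
theorem vpi_rel {p : ℕ} [Fact p.Prime] {B : Type} [Field B] [CharP B p] {s n : ℕ}
    (hn : (n : B) ≠ 0) {d y : B} (hd : d ≠ 0) (hdq : d ^ p ^ s = d)
    (hD : y⁻¹ ^ p ^ s - y⁻¹ ≠ 0) (ν : B) :
    d ^ (p - 1) * (n * (y⁻¹ ^ p ^ s - y⁻¹) ^ (p - 1)) *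
      (vpi (p ^ s) d y * xi p s n d y + vpi (p ^ s) d y * ν) ^ p =
      n * (vpi (p ^ s) d y * xi p s n d y + vpi (p ^ s) d y * ν) - 1 +
        n * vpi (p ^ s) d y * (ν ^ p - ν) := by
  have hp : 1 ≤ p := (Fact.out : p.Prime).one_le
  set D := y⁻¹ ^ p ^ s - y⁻¹ with hDdef
  set ϖ := vpi (p ^ s) d y with hϖ
  set S := ∑ i ∈ Finset.range s, (d * y⁻¹) ^ p ^ i with hS
  have hdD : d * D * ϖ = 1 := by
    rw [hϖ, vpi]
    exact mul_inv_cancel₀ (mul_ne_zero hd hD)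
  have hS1 : S ^ p = S + ((d * y⁻¹) ^ p ^ s - d * y⁻¹) := by
    have h1 := Finset.sum_range_succ (fun i => (d * y⁻¹) ^ p ^ i) s
    have h2 := Finset.sum_range_succ' (fun i => (d * y⁻¹) ^ p ^ i) s
    rw [h2] at h1
    have h3 : S ^ p = ∑ i ∈ Finset.range s, (d * y⁻¹) ^ p ^ (i + 1) := by
      rw [hS, sum_pow_char p]
      refine Finset.sum_congr rfl fun i _ => ?_
      rw [← pow_mul, pow_succ]
    rw [h3]
    simp only [pow_zero, pow_one] at h1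
    linear_combination h1
  have hS2 : (d * y⁻¹) ^ p ^ s - d * y⁻¹ = d * D := by
    rw [mul_pow, hdq, hDdef]
    ring
  have hnp : (n : B)⁻¹ ^ p = (n : B)⁻¹ := by
    rw [inv_pow]
    congr 1
    exact map_natCast (frobenius B p) n
  have hxi : xi p s n d y = -((n : B)⁻¹ * S) := rfl
  have hxp : (xi p s n d y) ^ p = xi p s n d y - (n : B)⁻¹ * (d * D) := by
    have h1 : (-((n : B)⁻¹ * S)) ^ p = -(((n : B)⁻¹ * S) ^ p) := by
      have h2 := map_neg (frobenius B p) ((n : B)⁻¹ * S)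
      exact h2
    rw [hxi, h1, mul_pow, hnp, hS1, hS2]
    ring
  have hpow : d ^ (p - 1) * D ^ (p - 1) * ϖ ^ p = ϖ := by
    obtain ⟨r, rfl⟩ : ∃ r, p = r + 1 := ⟨p - 1, by omega⟩
    rw [Nat.add_sub_cancel, pow_succ, ← mul_assoc, ← mul_pow, ← mul_pow, hdD, one_pow, one_mul]
  have hadd : (xi p s n d y + ν) ^ p = xi p s n d y ^ p + ν ^ p := add_pow_char _ _ _
  have hn1 : (n : B) * (n : B)⁻¹ = 1 := mul_inv_cancel₀ hn
  calc d ^ (p - 1) * (n * D ^ (p - 1)) * (ϖ * xi p s n d y + ϖ * ν) ^ p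
      = n * (d ^ (p - 1) * D ^ (p - 1) * ϖ ^ p) * (xi p s n d y + ν) ^ p := by
        rw [← mul_add, mul_pow]; ring
    _ = n * ϖ * (xi p s n d y - (n : B)⁻¹ * (d * D) + ν ^ p) := by rw [hpow, hadd, hxp]
    _ = _ := by linear_combination (-(d * D * ϖ)) * hn1 - hdD

end

end Pool.Agent.BCX
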