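import Pool.Agent.BCX.PointNe
import Pool.Agent.BCX.Affine
import Pool.Agent.BCX.Indep

/-!
# Points over all large finite fields
-/

namespace Pool.Agent.BCX
open Polynomial

theorem exists_point (p : ℕ) [Fact p.Prime] (f : (ZMod p)[X][X]) (hf : f.Monic)
    (hD : 1 ≤ f.natDegree) (θ : PowerSeries (ZMod p)) (hθ : ev2 PowerSeries.X θ f = 0)
    (hind : LinearIndependent (ZMod p) (fun ij : ℕ × Fin f.natDegree =>
      (PowerSeries.X : PowerSeries (ZMod p)) ^ ij.1 * θ ^ (ij.2 : ℕ)))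
    (r : (ZMod p)[X]) (hr : r ≠ 0) (a b : (ZMod p)[X][X])
    (hsep : a * f + b * derivative f = C r) :
    ∃ Q0 : ℕ, ∀ (L : Type) [Field L] [Finite L] [Algebra (ZMod p) L], Q0 ≤ Nat.card L →
      ∃ x0 y0 : L, ev2 x0 y0 f = 0 ∧ aeval x0 r ≠ 0 := by
  classical
  set D := f.natDegree with hDdef
  set B := (Finset.range f.natDegree).sup (fun t => (f.coeff t).natDegree) with hBdef
  set l' := (D - 1) * (B * D + 1) + 1 with hl'
  set l := B * D + l' with hl
  set g0 := r.natDegree with hg0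
  set aa := l + g0 + 1 with haa
  let v : {k // k ∈ M D B l} → PowerSeries (ZMod p) := fun k => PowerSeries.X ^ k.1.1 * θ ^ k.1.2
  have hMlt : ∀ {N : ℕ} {k : ℕ × ℕ}, k ∈ M D B N → k.2 < D := by
    intro N k hk
    unfold M at hk
    rw [Finset.mem_filter, Finset.mem_product] at hk
    exact Finset.mem_range.1 hk.1.2
  have hv : LinearIndependent (ZMod p) v := by
    have := hind.comp (fun k : {k // k ∈ M D B l} => (k.1.1, (⟨k.1.2, hMlt k.2⟩ : Fin D))) (by
      rintro ⟨⟨i, j⟩, hk⟩ ⟨⟨i', j'⟩, hk'⟩ h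
      simp only [Prod.mk.injEq, Fin.mk.injEq] at h
      simp only [Subtype.mk.injEq, Prod.mk.injEq]
      exact h)
    exact this
  obtain ⟨M0, hM0⟩ := indep_pow v hv
  have hp1 : 1 < p := (Fact.out : p.Prime).one_lt
  obtain ⟨j, hj⟩ : ∃ j, M0 ≤ p ^ j := ⟨M0, (Nat.lt_pow_self hp1).le⟩
  refine ⟨p ^ j * (D * l' * (aa + B * D) + 1) + g0, ?_⟩
  intro L _ _ _ hQ
  by_contra hcon
  push Not at hcon
  obtain ⟨e0, he0⟩ := exists_card p L
  have hpj : 0 < p ^ j := pow_pos (Fact.out : p.Prime).pos _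
  obtain ⟨e, he⟩ : ∃ e, e0 = j + e := by
    have : p ^ j ≤ p ^ e0 := by
      rw [← he0]
      refine le_trans ?_ hQ
      refine le_trans ?_ (Nat.le_add_right _ _)
      exact Nat.le_mul_of_pos_right _ (Nat.succ_pos _)
    exact ⟨e0 - j, by have := (Nat.pow_le_pow_iff_right hp1).1 this; omega⟩
  subst he
  set P := p ^ e with hP
  have hQP : Nat.card L = p ^ j * P := by rw [he0, pow_add]
  have hPbig : D * l' * (aa + B * D) < P := by
    by_contra h
    push Not at h
    have h1 : p ^ j * P ≤ p ^ j * (D * l' * (aa + B * D)) := Nat.mul_le_mul_left _ h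
    rw [hQP] at hQ
    rw [mul_add, mul_one] at hQ
    omega
  set n := P - aa with hn
  -- the curve
  let Ω := AlgebraicClosure L
  have hchL : CharP L p := charP_of_injective_algebraMap (algebraMap (ZMod p) L).injective p
  have hchΩ : CharP Ω p := charP_of_injective_algebraMap (algebraMap (ZMod p) Ω).injective p
  have hexΩ : ExpChar Ω p := ExpChar.prime Fact.out
  obtain ⟨c, ψ, hdom, hcD, hcB, hca, hψ, hψC, hψx, hψy, hpt⟩ :=
    exists_curve f hf hD θ hθ hind Ω
  have hchR : CharP (CR f Ω) p :=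
    charP_of_injective_algebraMap (algebraMap Ω (CR f Ω)).injective p
  have hexR : ExpChar (CR f Ω) p := ExpChar.prime Fact.out
  have hcB' : c.B = B := hcB
  have hcD' : c.D = D := hcD
  have hfD : f.coeff c.D = 1 := by rw [hcD', hDdef, hf.coeff_natDegree]
  have hfB : ∀ t < c.D, (f.coeff t).natDegree ≤ c.B := by
    intro t ht
    rw [hcB', hBdef]
    exact Finset.le_sup (f := fun t => (f.coeff t).natDegree)
      (Finset.mem_range.2 (by rw [hcD'] at ht; exact ht))
  have haPn : P - aa - B * D ≤ n - B * D := le_of_eq rfl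
  have hcard : (c.D - 1) * (M c.D c.B (l * p ^ e + n)).card <
      (M c.D c.B n).card * (M c.D c.B l).card := by
    rw [hcD', hcB', ← hP]
    have h1 := numeric (B := B) hD (by omega : 1 ≤ aa) hl' hPbig
    have h2 := card_M_le D B (l * P + n)
    have h3 := le_card_M D B n
    have h4 := le_card_M D B l
    have h5 : l - B * D = l' := by omega
    rw [h5] at h4
    calc (D - 1) * (M D B (l * P + n)).card
        ≤ (D - 1) * (D * (l * P + n + 1)) := Nat.mul_le_mul_left _ h2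
      _ < D * (P - aa - B * D) * (D * l') := h1
      _ ≤ (M D B n).card * (M D B l).card := Nat.mul_le_mul h3 h4
  obtain ⟨C, ⟨ij0, hij0, k0, hk0, hC0⟩, hC⟩ := c.exists_kernel (L := L) p e l n (c.dd f)
    (fun r hr => c.dd_mem f hfD hfB hr) hcard
  set h : CR f Ω := ∑ ij ∈ M c.D c.B n, c.nu l C ij * c.mon ij ^ p ^ j with hh
  -- weight
  have hmem : h ∈ Submodule.span Ω (c.mons (l + p ^ j * n)) := by
    refine Submodule.sum_mem _ fun ij hij => ?_
    refine c.mul_mem ?_ ?_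
    · unfold Curve.nu
      refine Submodule.sum_mem _ fun k hk => ?_
      rw [IsScalarTower.algebraMap_apply L Ω (CR f Ω)]
      exact c.smul_mons _ hk
    · exact c.pow_mem' (Submodule.subset_span ⟨ij, hij, rfl⟩) _
  -- nonvanishing
  have hne : h ≠ 0 := by
    have hM1 : ∀ a : {k // k ∈ M c.D c.B l} → PowerSeries Ω,
        ∑ k : {k // k ∈ M c.D c.B l}, PowerSeries.map (algebraMap (ZMod p) Ω)
          (PowerSeries.X ^ k.1.1 * θ ^ k.1.2) * a k ^ p ^ j = 0 → ∀ k, a k = 0 := by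
      rw [hcD', hcB']
      exact hM0 Ω p j hj
    exact c.nonzero θ ψ hψ hψx hψy l n j C hM1 hij0 hk0 hC0
  -- the points
  have hfib : ∀ x0 : L, aeval x0 r ≠ 0 → ∃ S : Finset Ω, S.card = D ∧
      ∀ y0 ∈ S, ev2 (algebraMap L Ω x0) y0 f = 0 := by
    intro x0 hx0
    refine exists_fibre f hf r a b hsep (algebraMap L Ω x0) ?_
    rw [aeval_algebraMap_apply]
    exact fun h => hx0 ((map_eq_zero _).1 h)
  choose! S hScard hS using hfib
  set G : Finset L := (Set.toFinite {x0 : L | aeval x0 r ≠ 0}).toFinset with hG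
  have hGmem : ∀ x0, x0 ∈ G ↔ aeval x0 r ≠ 0 := by
    intro x0
    rw [hG, Set.Finite.mem_toFinset, Set.mem_ofPred_eq]
  have hGcard : Nat.card L ≤ G.card + g0 := card_good r hr
  obtain ⟨φ0⟩ : Nonempty (CR f Ω →ₐ[Ω] Ω) := by
    have h1 : 0 < G.card := by
      have h3 : 0 < p ^ j * (D * l' * (aa + B * D) + 1) := Nat.mul_pos hpj (Nat.succ_pos _)
      omega
    obtain ⟨x1, hx1⟩ := Finset.card_pos.1 h1
    have h2 : 0 < (S x1).card := by rw [hScard x1 ((hGmem x1).1 hx1)]; exact hD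
    obtain ⟨y1, hy1⟩ := Finset.card_pos.1 h2
    obtain ⟨φ, -⟩ := hpt _ _ (hS x1 ((hGmem x1).1 hx1) y1 hy1)
    exact ⟨φ⟩
  have hpt' : ∀ (x0 : L) (y0 : Ω), ∃ φ : CR f Ω →ₐ[Ω] Ω, aeval x0 r ≠ 0 → y0 ∈ S x0 →
      φ c.x = algebraMap L Ω x0 ∧ φ c.y = y0 := by
    intro x0 y0
    by_cases h : aeval x0 r ≠ 0 ∧ y0 ∈ S x0
    · obtain ⟨φ, hφ⟩ := hpt _ _ (hS x0 h.1 y0 h.2)
      exact ⟨φ, fun _ _ => hφ⟩
    · exact ⟨φ0, fun h1 h2 => absurd ⟨h1, h2⟩ h⟩
  choose φ hφ using hpt'
  set Z : Finset (CR f Ω →ₐ[Ω] Ω) := (G.sigma S).image (fun q => φ q.1 q.2) with hZ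
  have hZcard : Z.card = G.card * D := by
    rw [hZ, Finset.card_image_of_injOn, Finset.card_sigma, Finset.sum_const_nat (m := D)]
    · intro x0 hx0
      exact hScard x0 ((hGmem x0).1 hx0)
    · rintro ⟨x0, y0⟩ hq ⟨x1, y1⟩ hq1 heq
      rw [Finset.mem_coe, Finset.mem_sigma] at hq hq1
      have h1 := hφ x0 y0 ((hGmem x0).1 hq.1) hq.2
      have h2 := hφ x1 y1 ((hGmem x1).1 hq1.1) hq1.2
      simp only at heq
      rw [heq] at h1
      have h3 : x0 = x1 := (algebraMap L Ω).injective (h1.1.symm.trans h2.1)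
      have h4 : y0 = y1 := h1.2.symm.trans h2.2
      subst h3 h4
      rfl
  have hzero : ∀ χ ∈ Z, χ h = 0 := by
    intro χ hχ
    rw [hZ, Finset.mem_image] at hχ
    obtain ⟨⟨x0, y0⟩, hq, rfl⟩ := hχ
    rw [Finset.mem_sigma] at hq
    have h1 := (hGmem x0).1 hq.1
    obtain ⟨hx1, hy1⟩ := hφ x0 y0 h1 hq.2
    have h2 := hS x0 h1 y0 hq.2
    refine c.kill f hcD.symm hf l n e j C hC _ ?_ ?_ ?_
    · rw [hx1, hy1]; exact h2
    · rw [hx1, ← map_pow, ← he0]
      congr 1
      have := Fintype.ofFinite L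
      rw [Nat.card_eq_fintype_card]
      exact FiniteField.pow_card x0
    · rw [hy1]
      intro h3
      rw [← he0] at h3
      obtain ⟨y1, hy⟩ := mem_range_of_pow h3
      apply h1
      refine hcon x0 y1 ?_
      apply (algebraMap L Ω).injective
      have := ev2_map (F := ZMod p) (IsScalarTower.toAlgHom (ZMod p) L Ω) x0 y1 f
      rw [map_zero, ← h2, ← hy]
      exact this
  have hfin := c.card_zeros hmem hne Z hzero
  rw [hZcard, hcD', mul_comm] at hfin
  have h1 : G.card ≤ l + p ^ j * n := Nat.le_of_mul_le_mul_left hfin hD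
  have h2 : p ^ j * n + p ^ j * aa = p ^ j * P := by
    rw [← mul_add]
    congr 1
    have : aa ≤ D * l' * (aa + B * D) := by
      refine le_trans (Nat.le_add_right aa (B * D)) ?_
      apply Nat.le_mul_of_pos_left
      rw [hl']
      positivity
    omega
  have h3 : aa ≤ p ^ j * aa := Nat.le_mul_of_pos_left _ hpj
  omega

end Pool.Agent.BCX
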