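import Pool.Agent.BCX.Defs

/-!
# Preparations for the existence of points
-/

namespace Pool.Agent.BCX

open Polynomial

theorem ev2_eq_sum {F A : Type} [Field F] [CommRing A] [Algebra F A] (x y : A) (f : F[X][X]) :
    ev2 x y f = ∑ t ∈ Finset.range (f.natDegree + 1), aeval x (f.coeff t) * y ^ t := by
  unfold ev2
  rw [coe_eval₂RingHom, eval₂_eq_sum_range]
  rfl

theorem ev2_map {F A A' : Type} [Field F] [CommRing A] [Algebra F A] [CommRing A'] [Algebra F A']
    (g : A →ₐ[F] A') (x y : A) (f : F[X][X]) : g (ev2 x y f) = ev2 (g x) (g y) f := by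
  rw [ev2_eq_sum, ev2_eq_sum, map_sum]
  refine Finset.sum_congr rfl fun t _ => ?_
  rw [map_mul, map_pow, ← Polynomial.aeval_algHom_apply]

/-- the polynomial in one variable obtained by fixing the first variable -/
theorem eval_map_aeval {F A : Type} [Field F] [CommRing A] [Algebra F A] (x y : A) (f : F[X][X]) :
    (f.map ((aeval x : F[X] →ₐ[F] A) : F[X] →+* A)).eval y = ev2 x y f := by
  unfold ev2
  rw [coe_eval₂RingHom, eval_map]

/-- the divided difference -/
theorem divided_difference {A : Type} [CommRing A] [IsDomain A] (D : ℕ) (a : ℕ → A) {s y : A}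
    (hne : s ≠ y) (hs : ∑ t ∈ Finset.range (D + 1), a t * s ^ t = 0)
    (hy : ∑ t ∈ Finset.range (D + 1), a t * y ^ t = 0) :
    ∑ r ∈ Finset.range D, (∑ t ∈ Finset.Ico (r + 1) (D + 1), a t * y ^ (t - 1 - r)) * s ^ r = 0 := by
  have h1 : (∑ t ∈ Finset.range (D + 1), a t * ∑ i ∈ Finset.range t, s ^ i * y ^ (t - 1 - i)) *
      (s - y) = 0 := by
    rw [Finset.sum_mul]
    have : ∀ t ∈ Finset.range (D + 1), a t * (∑ i ∈ Finset.range t, s ^ i * y ^ (t - 1 - i)) *
        (s - y) = a t * s ^ t - a t * y ^ t := by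
      intro t _
      rw [mul_assoc, geom_sum₂_mul, mul_sub]
    rw [Finset.sum_congr rfl this, Finset.sum_sub_distrib, hs, hy, sub_zero]
  have h2 := (mul_eq_zero.1 h1).resolve_right (sub_ne_zero.2 hne)
  rw [← h2]
  simp only [Finset.sum_mul, Finset.mul_sum]
  rw [Finset.sum_sigma', Finset.sum_sigma']
  refine Finset.sum_bij' (fun p _ => ⟨p.2, p.1⟩) (fun p _ => ⟨p.2, p.1⟩) ?_ ?_ ?_ ?_ ?_
  · rintro ⟨r, t⟩ h
    simp only [Finset.mem_sigma, Finset.mem_range, Finset.mem_Ico] at h ⊢
    omega
  · rintro ⟨t, r⟩ h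
    simp only [Finset.mem_sigma, Finset.mem_range, Finset.mem_Ico] at h ⊢
    omega
  · rintro ⟨r, t⟩ _
    rfl
  · rintro ⟨r, t⟩ _
    rfl
  · rintro ⟨r, t⟩ _
    simp only
    ring

/-- elements of an extension fixed by the `|L|`-power map lie in `L` -/
theorem mem_range_of_pow {L Ω : Type} [Field L] [Finite L] [Field Ω] [Algebra L Ω] {z : Ω}
    (hz : z ^ Nat.card L = z) : ∃ w : L, algebraMap L Ω w = z := by
  classical
  have : Fintype L := Fintype.ofFinite L
  rw [Nat.card_eq_fintype_card] at hz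
  by_contra hcon
  have hinj : Function.Injective (algebraMap L Ω) := (algebraMap L Ω).injective
  set S : Finset Ω := insert z (Finset.univ.image (algebraMap L Ω)) with hS
  have hcard : S.card = Fintype.card L + 1 := by
    rw [hS, Finset.card_insert_of_notMem, Finset.card_image_of_injective _ hinj, Finset.card_univ]
    intro h
    obtain ⟨w, _, hw⟩ := Finset.mem_image.1 h
    exact hcon ⟨w, hw⟩
  have h1 : 1 < Fintype.card L := Fintype.one_lt_card
  have hne : (X ^ Fintype.card L - X : Polynomial Ω) ≠ 0 := FiniteField.X_pow_card_sub_X_ne_zero Ω h1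
  have hsub : S.val ⊆ (X ^ Fintype.card L - X : Polynomial Ω).roots := by
    intro w hw
    rw [mem_roots hne, IsRoot.def, eval_sub, eval_pow, eval_X, sub_eq_zero]
    have hw' : w ∈ S := hw
    rw [hS, Finset.mem_insert] at hw'
    rcases hw' with rfl | hw'
    · exact hz
    · obtain ⟨u, _, rfl⟩ := Finset.mem_image.1 hw'
      rw [← map_pow, FiniteField.pow_card]
  have h2 := card_le_degree_of_subset_roots hsub
  rw [FiniteField.X_pow_card_sub_X_natDegree_eq Ω h1, hcard] at h2
  omega

/-- the size of a finite field of characteristic `p` -/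
theorem exists_card (p : ℕ) [Fact p.Prime] (L : Type) [Field L] [Finite L] [Algebra (ZMod p) L] :
    ∃ e, Nat.card L = p ^ e := by
  refine ⟨Module.finrank (ZMod p) L, ?_⟩
  rw [Module.natCard_eq_pow_finrank (K := ZMod p), Nat.card_zmod]

/-- the power map `z ↦ z ^ (p ^ e)` fixes the prime field -/
theorem frob_ev2 (p : ℕ) [Fact p.Prime] {Ω : Type} [Field Ω] [Algebra (ZMod p) Ω] (e : ℕ)
    (x y : Ω) (f : (ZMod p)[X][X]) :
    (ev2 x y f) ^ p ^ e = ev2 (x ^ p ^ e) (y ^ p ^ e) f := by
  have : CharP Ω p := charP_of_injective_algebraMap (algebraMap (ZMod p) Ω).injective p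
  have : ExpChar Ω p := ExpChar.prime Fact.out
  let g : Ω →ₐ[ZMod p] Ω :=
    { iterateFrobenius Ω p e with
      commutes' := by
        intro a
        change iterateFrobenius Ω p e (algebraMap (ZMod p) Ω a) = _
        rw [iterateFrobenius_def, ← map_pow, ZMod.pow_card_pow] }
  have hg : ∀ z, g z = z ^ p ^ e := fun z => iterateFrobenius_def p e z
  have := ev2_map g x y f
  rw [hg, hg, hg] at this
  exact this

end Pool.Agent.BCX
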