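import Pool.Agent.BCX.Zeros
import Pool.Agent.BCX.Kernel
import Pool.Agent.BCX.PointPre

/-!
# The auxiliary function vanishes at the points not defined over the finite field
-/

namespace Pool.Agent.BCX
open Polynomial

section coeffs
variable {F Ω R : Type} [Field F] [Field Ω] [CommRing R] [Algebra F Ω] [Algebra Ω R]
    [Algebra F R] [IsScalarTower F Ω R]

/-- the coefficients of the divided difference -/
noncomputable def Curve.dd (c : Curve F Ω R) (f : F[X][X]) (r : ℕ) : R :=
  ∑ t ∈ Finset.Ico (r + 1) (c.D + 1), aeval c.x (f.coeff t) * c.y ^ (t - 1 - r)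

theorem Curve.dd_mem (c : Curve F Ω R) (f : F[X][X]) (hf : f.coeff c.D = 1)
    (hB : ∀ t < c.D, (f.coeff t).natDegree ≤ c.B) {r : ℕ} (hr : r < c.D - 1) :
    c.dd f r ∈ Submodule.span F (c.mons (c.B * (c.D - 1 - r))) := by
  unfold Curve.dd
  refine Submodule.sum_mem _ fun t ht => ?_
  rw [Finset.mem_Ico] at ht
  rcases Nat.lt_or_ge t c.D with h | h
  · rw [aeval_eq_sum_range, Finset.sum_mul]
    refine Submodule.sum_mem _ fun i hi => ?_
    rw [smul_mul_assoc]
    refine Submodule.smul_mem _ _ (c.pow_mem ?_)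
    have h1 : i ≤ c.B := by
      have := hB t h
      rw [Finset.mem_range] at hi
      omega
    have h2 : c.B * (c.D - 1 - r) = c.B + c.B * (c.D - 2 - r) := by
      have : c.D - 1 - r = 1 + (c.D - 2 - r) := by omega
      rw [this, mul_add, mul_one]
    have h3 : c.B * (t - 1 - r) ≤ c.B * (c.D - 2 - r) := Nat.mul_le_mul_left _ (by omega)
    omega
  · have ht' : t = c.D := by omega
    subst ht'
    rw [hf, map_one]
    have := c.pow_mem (N := c.B * (c.D - 1 - r)) (i := 0) (j := c.D - 1 - r) (by omega)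
    simpa using this

theorem Curve.smul_mons {S : Type} [CommRing S] [Algebra S R] (c : Curve F Ω R) (s : S) {N : ℕ}
    {ij : ℕ × ℕ} (h : ij ∈ M c.D c.B N) :
    algebraMap S R s * c.mon ij ∈ Submodule.span S (c.mons N) := by
  rw [← Algebra.smul_def]
  exact Submodule.smul_mem _ _ (Submodule.subset_span ⟨ij, h, rfl⟩)

end coeffs

theorem Curve.kill {p : ℕ} [Fact p.Prime] {L Ω R : Type} [Field L] [Field Ω] [CommRing R]
    [Algebra (ZMod p) L] [Algebra (ZMod p) Ω] [Algebra L Ω] [Algebra Ω R] [Algebra (ZMod p) R]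
    [Algebra L R] [IsScalarTower (ZMod p) Ω R] [IsScalarTower L Ω R]
    (c : Curve (ZMod p) Ω R) (f : (ZMod p)[X][X]) (hf : f.natDegree = c.D) (hmon : f.Monic)
    (l n e j : ℕ) (C : ℕ × ℕ → ℕ × ℕ → L)
    (hC : ∀ r < c.D - 1,
        ∑ ij ∈ (M c.D c.B n).filter (fun ij => ij.2 = r), c.nu l C ij ^ p ^ e * c.x ^ ij.1 =
        c.dd f r * ∑ ij ∈ (M c.D c.B n).filter (fun ij => ij.2 = c.D - 1),
          c.nu l C ij ^ p ^ e * c.x ^ ij.1)
    (φ : R →ₐ[Ω] Ω) (h0 : ev2 (φ c.x) (φ c.y) f = 0)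
    (hx : (φ c.x) ^ p ^ (j + e) = φ c.x) (hy : (φ c.y) ^ p ^ (j + e) ≠ φ c.y) :
    φ (∑ ij ∈ M c.D c.B n, c.nu l C ij * c.mon ij ^ p ^ j) = 0 := by
  classical
  have hch : CharP Ω p := charP_of_injective_algebraMap (algebraMap (ZMod p) Ω).injective p
  have hex : ExpChar Ω p := ExpChar.prime Fact.out
  set x0 := φ c.x with hx0
  set y0 := φ c.y with hy0
  set s0 := y0 ^ p ^ (j + e) with hs0
  -- the point with the Frobenius image
  have hs : ev2 x0 s0 f = 0 := by
    have h1 := frob_ev2 p (j + e) x0 y0 f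
    rw [h0, zero_pow (pow_pos (Fact.out : p.Prime).pos _).ne', hx] at h1
    exact h1.symm
  have hD := c.hD
  rw [ev2_eq_sum, hf] at h0 hs
  have hdd := divided_difference c.D (fun t => aeval x0 (f.coeff t)) hy hs h0
  -- the values of the coefficients
  have hφdd : ∀ r, φ (c.dd f r) =
      ∑ t ∈ Finset.Ico (r + 1) (c.D + 1), aeval x0 (f.coeff t) * y0 ^ (t - 1 - r) := by
    intro r
    unfold Curve.dd
    rw [map_sum]
    refine Finset.sum_congr rfl fun t _ => ?_
    rw [map_mul, map_pow]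
    congr 1
    have := Polynomial.aeval_algHom_apply (φ.restrictScalars (ZMod p)) c.x (f.coeff t)
    simpa using this.symm
  have hone : φ (c.dd f (c.D - 1)) = 1 := by
    rw [hφdd]
    have : Finset.Ico (c.D - 1 + 1) (c.D + 1) = {c.D} := by
      rw [Nat.sub_add_cancel hD]
      ext t
      simp only [Finset.mem_Ico, Finset.mem_singleton]
      omega
    rw [this, Finset.sum_singleton, ← hf, hmon.coeff_natDegree, map_one, hf]
    simp
  -- the sums over the rows
  set A : ℕ → Ω := fun r => ∑ ij ∈ (M c.D c.B n).filter (fun ij => ij.2 = r),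
    φ (c.nu l C ij) ^ p ^ e * x0 ^ ij.1 with hA
  have hA2 : ∀ r < c.D, A r = φ (c.dd f r) * A (c.D - 1) := by
    intro r hr
    rcases Nat.lt_or_ge r (c.D - 1) with h | h
    · have h2 := congrArg φ (hC r h)
      rw [map_mul, map_sum, map_sum] at h2
      simp only [map_mul, map_pow] at h2
      exact h2
    · have : r = c.D - 1 := by omega
      rw [this, hone, one_mul]
  -- the value of the function
  have hpow : (φ (∑ ij ∈ M c.D c.B n, c.nu l C ij * c.mon ij ^ p ^ j)) ^ p ^ e = 0 := by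
    rw [map_sum, sum_pow_char_pow]
    have h3 : ∀ ij ∈ M c.D c.B n, (φ (c.nu l C ij * c.mon ij ^ p ^ j)) ^ p ^ e =
        φ (c.nu l C ij) ^ p ^ e * x0 ^ ij.1 * s0 ^ ij.2 := by
      intro ij _
      rw [map_mul, map_pow, mul_pow, ← pow_mul, ← pow_add]
      unfold Curve.mon
      rw [map_mul, map_pow, map_pow, mul_pow, ← hx0, ← hy0, ← pow_mul, ← pow_mul,
        mul_comm ij.1, mul_comm ij.2, pow_mul, pow_mul, hx, ← hs0, mul_assoc]
    rw [Finset.sum_congr rfl h3]
    have h4 : ∑ ij ∈ M c.D c.B n, φ (c.nu l C ij) ^ p ^ e * x0 ^ ij.1 * s0 ^ ij.2 =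
        ∑ r ∈ Finset.range c.D, A r * s0 ^ r := by
      rw [← Finset.sum_fiberwise_of_maps_to (s := M c.D c.B n) (t := Finset.range c.D)
        (g := fun ij => ij.2)]
      · refine Finset.sum_congr rfl fun r _ => ?_
        rw [hA, Finset.sum_mul]
        refine Finset.sum_congr rfl fun ij hij => ?_
        rw [(Finset.mem_filter.1 hij).2]
      · intro ij hij
        unfold M at hij
        rw [Finset.mem_filter, Finset.mem_product] at hij
        exact hij.1.2
    rw [h4]
    have h5 : ∀ r ∈ Finset.range c.D, A r * s0 ^ r =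
        A (c.D - 1) * ((∑ t ∈ Finset.Ico (r + 1) (c.D + 1),
          aeval x0 (f.coeff t) * y0 ^ (t - 1 - r)) * s0 ^ r) := by
      intro r hr
      rw [hA2 r (Finset.mem_range.1 hr), hφdd]
      ring
    rw [Finset.sum_congr rfl h5, ← Finset.mul_sum, hdd, mul_zero]
  exact (pow_eq_zero_iff (pow_pos (Fact.out : p.Prime).pos _).ne').1 hpow

theorem numeric {D B l' a P : ℕ} (hD : 1 ≤ D) (ha : 1 ≤ a) (hl' : l' = (D - 1) * (B * D + 1) + 1)
    (hP : D * l' * (a + B * D) < P) :
    (D - 1) * (D * ((B * D + l') * P + (P - a) + 1)) < D * (P - a - B * D) * (D * l') := by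
  have h1 : a + B * D ≤ D * l' * (a + B * D) := by
    apply Nat.le_mul_of_pos_left
    rw [hl']
    positivity
  obtain ⟨w, hw⟩ : ∃ w, P = a + B * D + w := ⟨P - (a + B * D), by omega⟩
  obtain ⟨m, hm⟩ : ∃ m, D = m + 1 := ⟨D - 1, by omega⟩
  obtain ⟨a', ha'⟩ : ∃ a', a = a' + 1 := ⟨a - 1, by omega⟩
  have e1 : D - 1 = m := by omega
  have e2 : P - a = B * D + w := by omega
  have e3 : P - a - B * D = w := by omega
  rw [e3, e2, e1]
  rw [e1] at hl'
  have h2 : m * (B * D + 1) = l' - 1 := by omega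
  have h3 : l' = m * (B * D + 1) + 1 := hl'
  have key : m * ((B * D + l') * P + (B * D + w) + 1) < w * (D * l') := by
    have : m * ((B * D + l') * P + (B * D + w) + 1) + m * a' + P = D * l' * P := by
      subst hm
      rw [hw, h3, ha']
      ring
    have h5 : D * l' * P = D * l' * (a + B * D) + w * (D * l') := by
      rw [hw]; ring
    have h6 : 0 ≤ m * a' := Nat.zero_le _
    omega
  calc m * (D * ((B * D + l') * P + (B * D + w) + 1))
      = D * (m * ((B * D + l') * P + (B * D + w) + 1)) := by ring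
    _ < D * (w * (D * l')) := Nat.mul_lt_mul_of_pos_left key (by omega)
    _ = D * w * (D * l') := by ring

end Pool.Agent.BCX
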