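import Pool.Agent.BCX.PointKill

/-!
# The auxiliary function is not zero; the good fibres
-/

namespace Pool.Agent.BCX
open Polynomial

theorem Curve.nonzero {p : ℕ} [Fact p.Prime] {L Ω R : Type} [Field L] [Field Ω] [CommRing R]
    [Algebra (ZMod p) L] [Algebra (ZMod p) Ω] [Algebra L Ω] [Algebra Ω R] [Algebra (ZMod p) R]
    [Algebra L R] [IsScalarTower (ZMod p) Ω R] [IsScalarTower L Ω R] [IsAlgClosed Ω]
    (c : Curve (ZMod p) Ω R) (θ : PowerSeries (ZMod p)) (ψ : R →+* PowerSeries Ω)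
    (hψ : Function.Injective ψ) (hψx : ψ c.x = PowerSeries.X)
    (hψy : ψ c.y = PowerSeries.map (algebraMap (ZMod p) Ω) θ)
    (l n j : ℕ) (C : ℕ × ℕ → ℕ × ℕ → L)
    (hM0 : ∀ a : {k // k ∈ M c.D c.B l} → PowerSeries Ω,
      ∑ k : {k // k ∈ M c.D c.B l}, PowerSeries.map (algebraMap (ZMod p) Ω)
        (PowerSeries.X ^ k.1.1 * θ ^ k.1.2) * a k ^ p ^ j = 0 → ∀ k, a k = 0)
    {ij0 k0 : ℕ × ℕ} (hij0 : ij0 ∈ M c.D c.B n) (hk0 : k0 ∈ M c.D c.B l) (hC0 : C ij0 k0 ≠ 0) :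
    ∑ ij ∈ M c.D c.B n, c.nu l C ij * c.mon ij ^ p ^ j ≠ 0 := by
  classical
  intro h0
  have hchΩ : CharP Ω p := charP_of_injective_algebraMap (algebraMap (ZMod p) Ω).injective p
  have hchP : CharP (PowerSeries Ω) p :=
    charP_of_injective_algebraMap (algebraMap Ω (PowerSeries Ω)).injective p
  have hexP : ExpChar (PowerSeries Ω) p := ExpChar.prime Fact.out
  have hpj : 0 < p ^ j := pow_pos (Fact.out : p.Prime).pos _
  have hroot : ∀ ij k : ℕ × ℕ, ∃ w : Ω, w ^ p ^ j = algebraMap L Ω (C ij k) := fun ij k =>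
    IsAlgClosed.exists_pow_nat_eq _ hpj
  choose c' hc' using hroot
  have hmon : ∀ k : ℕ × ℕ, PowerSeries.map (algebraMap (ZMod p) Ω)
      (PowerSeries.X ^ k.1 * θ ^ k.2) = ψ (c.mon k) := by
    intro k
    have h1 : ψ (c.mon k) = ψ c.x ^ k.1 * ψ c.y ^ k.2 := by
      unfold Curve.mon
      rw [map_mul ψ, map_pow ψ, map_pow ψ]
    rw [h1, hψx, hψy, map_mul, map_pow, map_pow, PowerSeries.map_X]
  have hk : ∀ k : {k // k ∈ M c.D c.B l}, PowerSeries.map (algebraMap (ZMod p) Ω)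
        (PowerSeries.X ^ k.1.1 * θ ^ k.1.2) *
        (ψ (∑ ij ∈ M c.D c.B n, algebraMap Ω R (c' ij k.1) * c.mon ij)) ^ p ^ j =
        ∑ ij ∈ M c.D c.B n, ψ (algebraMap L R (C ij k.1) * c.mon k.1 * c.mon ij ^ p ^ j) := by
    intro k
    rw [hmon, map_sum, sum_pow_char_pow, Finset.mul_sum]
    refine Finset.sum_congr rfl fun ij _ => ?_
    have h4 : algebraMap L R (C ij k.1) = algebraMap Ω R (c' ij k.1) ^ p ^ j := by
      rw [← map_pow, hc', ← IsScalarTower.algebraMap_apply]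
    rw [h4, ← map_pow, ← map_mul]
    congr 1
    ring
  have h1 : ∑ k : {k // k ∈ M c.D c.B l}, PowerSeries.map (algebraMap (ZMod p) Ω)
        (PowerSeries.X ^ k.1.1 * θ ^ k.1.2) *
        (ψ (∑ ij ∈ M c.D c.B n, algebraMap Ω R (c' ij k.1) * c.mon ij)) ^ p ^ j = 0 := by
    rw [Finset.sum_congr rfl fun k _ => hk k, Finset.sum_comm]
    have h2 : ∀ ij ∈ M c.D c.B n, ∑ k : {k // k ∈ M c.D c.B l},
        ψ (algebraMap L R (C ij k.1) * c.mon k.1 * c.mon ij ^ p ^ j) =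
        ψ (c.nu l C ij * c.mon ij ^ p ^ j) := by
      intro ij _
      rw [← map_sum]
      congr 1
      unfold Curve.nu
      rw [Finset.sum_mul]
      exact Finset.sum_coe_sort (M c.D c.B l) (fun k => algebraMap L R (C ij k) * c.mon k *
            c.mon ij ^ p ^ j)
    rw [Finset.sum_congr rfl h2, ← map_sum, h0, map_zero]
  have h6 := hM0 _ h1 ⟨k0, hk0⟩
  have h7 : ∑ ij ∈ M c.D c.B n, algebraMap Ω R (c' ij k0) * c.mon ij = 0 := by
    apply hψ
    rw [map_zero]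
    exact h6
  have h8 := c.coeff_eq_zero n (fun ij => c' ij k0) h7 ij0 hij0
  have h9 := hc' ij0 k0
  have h8' : c' ij0 k0 = 0 := h8
  rw [h8', zero_pow hpj.ne'] at h9
  exact hC0 ((algebraMap L Ω).injective (by rw [← h9, map_zero]))

/-- a fibre without multiple points -/
theorem exists_fibre {F Ω : Type} [Field F] [Field Ω] [IsAlgClosed Ω] [Algebra F Ω] (f : F[X][X])
    (hf : f.Monic) (r : F[X]) (a b : F[X][X]) (hsep : a * f + b * derivative f = C r) (x0 : Ω)
    (hx : aeval x0 r ≠ 0) :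
    ∃ S : Finset Ω, S.card = f.natDegree ∧ ∀ y0 ∈ S, ev2 x0 y0 f = 0 := by
  classical
  set g : Polynomial Ω := f.map ((aeval x0 : F[X] →ₐ[F] Ω) : F[X] →+* Ω) with hg
  have hgm : g.Monic := hf.map _
  have hsepg : g.Separable := by
    have h1 := congrArg (Polynomial.map ((aeval x0 : F[X] →ₐ[F] Ω) : F[X] →+* Ω)) hsep
    rw [Polynomial.map_add, Polynomial.map_mul, Polynomial.map_mul, Polynomial.map_C,
      ← Polynomial.derivative_map, ← hg] at h1
    refine ⟨C (aeval x0 r)⁻¹ * a.map ((aeval x0 : F[X] →ₐ[F] Ω) : F[X] →+* Ω),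
      C (aeval x0 r)⁻¹ * b.map ((aeval x0 : F[X] →ₐ[F] Ω) : F[X] →+* Ω), ?_⟩
    rw [mul_assoc, mul_assoc, ← mul_add, h1]
    simp only [RingHom.coe_coe]
    rw [← C_mul, inv_mul_cancel₀ hx, C_1]
  refine ⟨g.roots.toFinset, ?_, ?_⟩
  · rw [Multiset.toFinset_card_of_nodup (nodup_roots hsepg),
      IsAlgClosed.card_roots_eq_natDegree, hg, hf.natDegree_map]
  · intro y0 hy
    rw [Multiset.mem_toFinset, mem_roots hgm.ne_zero, IsRoot.def, hg, eval_map] at hy
    exact hy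

theorem card_good {F L : Type} [Field F] [Field L] [Finite L] [Algebra F L] (r : F[X])
    (hr : r ≠ 0) :
    Nat.card L ≤ (Set.toFinite {x0 : L | aeval x0 r ≠ 0}).toFinset.card + r.natDegree := by
  classical
  have := Fintype.ofFinite L
  have hr' : r.map (algebraMap F L) ≠ 0 := (Polynomial.map_ne_zero_iff (algebraMap F L).injective).2 hr
  have h1 : (Finset.univ : Finset L) ⊆ (Set.toFinite {x0 : L | aeval x0 r ≠ 0}).toFinset ∪
      (r.map (algebraMap F L)).roots.toFinset := by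
    intro x0 _
    rw [Finset.mem_union, Set.Finite.mem_toFinset, Set.mem_ofPred_eq, Multiset.mem_toFinset,
      mem_roots hr', IsRoot.def, eval_map_algebraMap]
    tauto
  have h2 := Finset.card_le_card h1
  rw [Finset.card_univ, ← Nat.card_eq_fintype_card] at h2
  refine h2.trans ((Finset.card_union_le _ _).trans ?_)
  refine Nat.add_le_add_left ?_ _
  refine (Multiset.toFinset_card_le _).trans ((card_roots' _).trans ?_)
  rw [natDegree_map]

end Pool.Agent.BCX
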