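import Pool.Agent.BCX.Sums

/-!
# The square system of the cluster (row A4)
-/

namespace Pool.Agent.BCX

open MvPolynomial Finset

lemma sum_derivation_apply {R A M ι : Type*} [CommSemiring R] [CommSemiring A] [AddCommMonoid M] [Algebra R A]
    [Module A M] [Module R M] (s : Finset ι) (D : ι → Derivation R A M) (a : A) :
    (∑ j ∈ s, D j) a = ∑ j ∈ s, D j a := by
  have h := congrFun (map_sum (Derivation.coeFnAddMonoidHom (R := R) (A := A) (M := M)) D s) a
  rw [Finset.sum_apply] at h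
  exact h

/-- the determinant of the Jacobian matrix by directional derivatives -/
theorem det_ne_zero_of_derivation {A σ : Type} [Field A] [Fintype σ] [DecidableEq σ]
    (f : σ → MvPolynomial σ A) (v0 : σ → A)
    (h : ∀ w : σ → A, (∀ i, eval v0 (mkDerivation A (fun j => (C (w j) : MvPolynomial σ A)) (f i)) = 0) →
      w = 0) :
    (Matrix.of fun i j => eval v0 (pderiv j (f i))).det ≠ 0 := by
  intro h0
  obtain ⟨w, hw, hMw⟩ := Matrix.exists_mulVec_eq_zero_iff.mpr h0
  refine hw (h w fun i => ?_)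
  have h1 : mkDerivation A (fun j => (C (w j) : MvPolynomial σ A)) =
      ∑ j, (C (w j) : MvPolynomial σ A) • pderiv j := by
    refine derivation_ext fun k => ?_
    rw [mkDerivation_X, sum_derivation_apply]
    simp [pderiv_X, Pi.single_apply]
  rw [h1, sum_derivation_apply]
  have h2 := congrFun hMw i
  simp only [Matrix.mulVec, dotProduct, Matrix.of_apply, Pi.zero_apply] at h2
  rw [← h2]
  simp [mul_comm]

/-- triangular systems -/
theorem exists_triangular {A : Type} [CommRing A] (p : ℕ) (hp : 0 < p) (a rhs : ℕ → A) (ha : a 0 = 1) :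
    ∃ q : ℕ → A, ∀ r, 1 ≤ r → r ≤ p - 1 → ∑ j ∈ range (p - r), a j * q (j + r) = rhs r := by
  have key : ∀ n, n ≤ p - 1 → ∃ q : ℕ → A, ∀ r, p - n ≤ r → r ≤ p - 1 →
      ∑ j ∈ range (p - r), a j * q (j + r) = rhs r := by
    intro n
    induction n with
    | zero =>
      intro _
      exact ⟨fun _ => 0, fun r h1 h2 => by omega⟩
    | succ n ih =>
      intro hn
      obtain ⟨q, hq⟩ := ih (by omega)
      set s := p - (n + 1) with hs
      refine ⟨Function.update q s (rhs s - ∑ j ∈ range (p - s - 1), a (j + 1) * q (j + 1 + s)), ?_⟩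
      intro r h1 h2
      rcases Nat.lt_or_ge s r with h3 | h3
      · rw [← hq r (by omega) h2]
        refine sum_congr rfl fun j _ => ?_
        rw [Function.update_of_ne (by omega)]
      · have h4 : r = s := by omega
        subst h4
        have h5 : p - s = (p - s - 1) + 1 := by omega
        rw [h5, sum_range_succ']
        simp only [Nat.zero_add, Function.update_self, ha, one_mul, Nat.add_sub_cancel]
        have h6 : ∀ t : A, ∑ j ∈ range (p - s - 1), a (j + 1) * Function.update q s t (j + 1 + s) =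
            ∑ j ∈ range (p - s - 1), a (j + 1) * q (j + 1 + s) := by
          intro t
          refine sum_congr rfl fun j _ => ?_
          rw [Function.update_of_ne (by omega)]
        rw [h6]
        ring
  obtain ⟨q, hq⟩ := key (p - 1) le_rfl
  exact ⟨q, fun r h1 h2 => hq r (by omega) h2⟩

/-! ### The polynomials -/

section Poly

variable {R : Type} [CommRing R]

/-- the equation (I) -/
def eqI (p d : ℕ) (β : R) (x : Fin (d + 1) → R) (z : Fin (p - 1) → R) (c : Fin (d + 1) → R) (cb ρ : R) (l : ℕ) : R :=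
  ∑ i, c i * x i ^ l - β ^ ((p - 1) * p) * ∑ i, c i * x i ^ (l + p) -
    β ^ (p * d - (p - 1) * l) * (cb * ρ ^ p * ∑ a, (1 + ρ * β ^ d * z a) ^ l * z a ^ p)

/-- the gauge -/
def eqG (d : ℕ) (x x0 c : Fin (d + 1) → R) (e : ℕ) : R := ∑ i, c i * x0 i ^ e * (x i - x0 i)

/-- the equation (II) -/
def eqII (p d : ℕ) (β : R) (z : Fin (p - 1) → R) (q : ℕ → R) (ρ : R) (k : ℕ) : R :=
  ∑ a, z a ^ k - (ρ * β ^ d) ^ (p - 1 - k) * q k

/-- the equation (III) -/
def eqIII (p d : ℕ) (β : R) (x : Fin (d + 1) → R) (z : Fin (p - 1) → R) (q : ℕ → R) (c : Fin (d + 1) → R)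
    (ρ μ : R) (r : ℕ) : R :=
  ∑ j ∈ range (p - r), (d.choose j : R) * q (j + r) +
    ∑ j ∈ Ico (p - r) (d + 1), (ρ * β ^ d) ^ (j + r - (p - 1)) * ((d.choose j : R) * ∑ a, z a ^ (j + r)) +
    μ * ∑ i, c i * x i ^ d * (x i * β ^ (p - 1) - 1) ^ r

variable {R' F : Type} [CommRing R'] [FunLike F R R'] [RingHomClass F R R'] (φ : F)

lemma map_eqI (p d : ℕ) (β : R) (x : Fin (d + 1) → R) (z : Fin (p - 1) → R) (c : Fin (d + 1) → R) (cb ρ : R)
    (l : ℕ) : φ (eqI p d β x z c cb ρ l) =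
      eqI p d (φ β) (fun i => φ (x i)) (fun i => φ (z i)) (fun i => φ (c i)) (φ cb) (φ ρ) l := by
  simp [eqI]

lemma map_eqG (d : ℕ) (x x0 c : Fin (d + 1) → R) (e : ℕ) :
    φ (eqG d x x0 c e) = eqG d (fun i => φ (x i)) (fun i => φ (x0 i)) (fun i => φ (c i)) e := by
  simp [eqG]

lemma map_eqII (p d : ℕ) (β : R) (z : Fin (p - 1) → R) (q : ℕ → R) (ρ : R) (k : ℕ) :
    φ (eqII p d β z q ρ k) = eqII p d (φ β) (fun i => φ (z i)) (fun i => φ (q i)) (φ ρ) k := by
  simp [eqII]

lemma map_eqIII (p d : ℕ) (β : R) (x : Fin (d + 1) → R) (z : Fin (p - 1) → R) (q : ℕ → R) (c : Fin (d + 1) → R)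
    (ρ μ : R) (r : ℕ) : φ (eqIII p d β x z q c ρ μ r) =
      eqIII p d (φ β) (fun i => φ (x i)) (fun i => φ (z i)) (fun i => φ (q i)) (fun i => φ (c i)) (φ ρ) (φ μ) r := by
  simp [eqIII]

end Poly

/-! ### The variables -/

/-- the index of the variable `q k` -/
def idxQ (p d : ℕ) (k : ℕ) : Unit ⊕ Fin (d + 1) ⊕ Fin (p - 1) ⊕ Fin (p - 1) :=
  if h : k - 1 < p - 1 then Sum.inr (Sum.inr (Sum.inr ⟨k - 1, h⟩)) else Sum.inl ()

/-- derivations of multiples of `t ^ n` -/
lemma eval_derivation {A σ : Type} [Field A] (v0 : σ → A)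
    (D : Derivation A (MvPolynomial σ A) (MvPolynomial σ A)) {t : MvPolynomial σ A} (ht : D t = 0)
    (ht' : eval v0 t = 0) {n : ℕ} (hn : 1 ≤ n) (s : MvPolynomial σ A) : eval v0 (D (t ^ n * s)) = 0 := by
  rw [Derivation.leibniz, Derivation.leibniz_pow, ht]
  simp [ht', show n ≠ 0 by omega]

section Jac

variable {A σ : Type} [Field A] (v0 : σ → A) (D : Derivation A (MvPolynomial σ A) (MvPolynomial σ A))
  {p d : ℕ} {β : MvPolynomial σ A} {x : Fin (d + 1) → MvPolynomial σ A} {z : Fin (p - 1) → MvPolynomial σ A}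
  {q : ℕ → MvPolynomial σ A}

lemma jac_eqI (hp : 2 ≤ p) (hβ : D β = 0) (hβ' : eval v0 β = 0) (c : Fin (d + 1) → A) (cb ρ : A) {l : ℕ}
    (hl : l < d) :
    eval v0 (D (eqI p d β x z (fun i => C (c i)) (C cb) (C ρ) l)) =
      l * ∑ i, c i * eval v0 (x i) ^ (l - 1) * eval v0 (D (x i)) := by
  have h1 : 1 ≤ p * d - (p - 1) * l := by
    obtain ⟨p, rfl⟩ : ∃ k, p = k + 2 := ⟨p - 2, by omega⟩
    have : (p + 2 - 1) * l < (p + 2) * d := by
      calc (p + 2 - 1) * l ≤ (p + 2) * l := Nat.mul_le_mul_right _ (by omega)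
        _ < (p + 2) * d := Nat.mul_lt_mul_of_pos_left hl (by omega)
    omega
  have h2 : 1 ≤ (p - 1) * p := Nat.mul_pos (by omega) (by omega)
  unfold eqI
  rw [map_sub, map_sub, map_sub, map_sub, eval_derivation v0 D hβ hβ' h1, eval_derivation v0 D hβ hβ' h2, sub_zero,
    sub_zero, map_sum, map_sum, mul_sum]
  refine sum_congr rfl fun i _ => ?_
  rw [Derivation.leibniz, Derivation.leibniz_pow, derivation_C]
  simp
  ring

lemma jac_eqG (x0 c : Fin (d + 1) → A) (e : ℕ) :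
    eval v0 (D (eqG d x (fun i => C (x0 i)) (fun i => C (c i)) e)) =
      ∑ i, c i * x0 i ^ e * eval v0 (D (x i)) := by
  unfold eqG
  rw [map_sum, map_sum]
  refine sum_congr rfl fun i _ => ?_
  rw [← C_pow, ← C_mul, Derivation.leibniz, map_sub, derivation_C, derivation_C]
  simp

lemma jac_eqII (hβ : D β = 0) (ρ : A) {k : ℕ} (hq : D (q k) = 0) :
    eval v0 (D (eqII p d β z q (C ρ) k)) = k * ∑ a, eval v0 (z a) ^ (k - 1) * eval v0 (D (z a)) := by
  have h1 : D (C ρ * β ^ d) = 0 := by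
    rw [Derivation.leibniz, Derivation.leibniz_pow, hβ, derivation_C]
    simp
  unfold eqII
  rw [map_sub, map_sub, Derivation.leibniz, Derivation.leibniz_pow, h1, hq, map_sum, map_sum, mul_sum]
  simp only [smul_zero, add_zero, map_zero, sub_zero]
  refine sum_congr rfl fun a _ => ?_
  rw [Derivation.leibniz_pow]
  simp

lemma jac_eqIII (hd : 1 ≤ d) (hβ : D β = 0) (hβ' : eval v0 β = 0) (hx : ∀ i, D (x i) = 0) (c : Fin (d + 1) → A)
    (ρ μ : A) {r : ℕ} (hr : 1 ≤ r) :
    eval v0 (D (eqIII p d β x z q (fun i => C (c i)) (C ρ) (C μ) r)) =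
      ∑ j ∈ range (p - r), (d.choose j : A) * eval v0 (D (q (j + r))) := by
  have h1 : D (C ρ * β ^ d) = 0 := by
    rw [Derivation.leibniz, Derivation.leibniz_pow, hβ, derivation_C]
    simp
  have h1' : eval v0 (C ρ * β ^ d) = 0 := by
    rw [map_mul, map_pow, hβ', zero_pow (by omega), mul_zero]
  have h2 : eval v0 (D (∑ j ∈ Ico (p - r) (d + 1), (C ρ * β ^ d) ^ (j + r - (p - 1)) *
      ((d.choose j : MvPolynomial σ A) * ∑ a, z a ^ (j + r)))) = 0 := by
    rw [map_sum, map_sum]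
    refine sum_eq_zero fun j hj => ?_
    rw [mem_Ico] at hj
    exact eval_derivation v0 D h1 h1' (by omega) _
  have h3 : D (C μ * ∑ i, C (c i) * x i ^ d * (x i * β ^ (p - 1) - 1) ^ r) = 0 := by
    rw [Derivation.leibniz, derivation_C, smul_zero, add_zero, map_sum]
    rw [sum_eq_zero, smul_zero]
    intro i _
    rw [Derivation.leibniz, Derivation.leibniz_pow, map_sub, Derivation.leibniz, Derivation.leibniz_pow,
      Derivation.leibniz, Derivation.leibniz_pow, hβ, hx, derivation_C, Derivation.map_one_eq_zero]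
    simp
  unfold eqIII
  rw [map_add, map_add, map_add, map_add, h2, h3, map_zero, add_zero, add_zero, map_sum, map_sum]
  refine sum_congr rfl fun j _ => ?_
  rw [Derivation.leibniz, Derivation.map_natCast]
  simp

end Jac

section Main

variable {p : ℕ} {A : Type} [Field A] {d : ℕ}

/-- the index type -/
abbrev Idx (p d : ℕ) : Type := Unit ⊕ Fin (d + 1) ⊕ Fin (p - 1) ⊕ Fin (p - 1)

/-- the system -/
noncomputable def system (p d : ℕ) (x : Fin (d + 1) → A) (c : Fin (d + 1) → A) (cb ρ μ : A) :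
    Idx p d → MvPolynomial (Idx p d) A
  | Sum.inl _ => X (Sum.inl ())
  | Sum.inr (Sum.inl e) =>
    if ¬ p ∣ (e : ℕ) + 1 ∧ (e : ℕ) + 1 < d then
      eqI p d (X (Sum.inl ())) (fun i => X (Sum.inr (Sum.inl i))) (fun a => X (Sum.inr (Sum.inr (Sum.inl a))))
        (fun i => C (c i)) (C cb) (C ρ) ((e : ℕ) + 1)
    else
      eqG d (fun i => X (Sum.inr (Sum.inl i))) (fun i => C (x i)) (fun i => C (c i)) (e : ℕ)
  | Sum.inr (Sum.inr (Sum.inl a)) =>
    eqII p d (X (Sum.inl ())) (fun a => X (Sum.inr (Sum.inr (Sum.inl a)))) (fun k => X (idxQ p d k)) (C ρ)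
      ((a : ℕ) + 1)
  | Sum.inr (Sum.inr (Sum.inr a)) =>
    eqIII p d (X (Sum.inl ())) (fun i => X (Sum.inr (Sum.inl i))) (fun a => X (Sum.inr (Sum.inr (Sum.inl a))))
      (fun k => X (idxQ p d k)) (fun i => C (c i)) (C ρ) (C μ) ((a : ℕ) + 1)

lemma system_B (x : Fin (d + 1) → A) (c : Fin (d + 1) → A) (cb ρ μ : A) :
    system p d x c cb ρ μ (Sum.inl ()) = X (Sum.inl ()) := rfl

lemma system_X (x : Fin (d + 1) → A) (c : Fin (d + 1) → A) (cb ρ μ : A) (e : Fin (d + 1)) :
    system p d x c cb ρ μ (Sum.inr (Sum.inl e)) =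
    if ¬ p ∣ (e : ℕ) + 1 ∧ (e : ℕ) + 1 < d then
      eqI p d (X (Sum.inl ())) (fun i => X (Sum.inr (Sum.inl i))) (fun a => X (Sum.inr (Sum.inr (Sum.inl a))))
        (fun i => C (c i)) (C cb) (C ρ) ((e : ℕ) + 1)
    else
      eqG d (fun i => X (Sum.inr (Sum.inl i))) (fun i => C (x i)) (fun i => C (c i)) (e : ℕ) := rfl

lemma system_Z (x : Fin (d + 1) → A) (c : Fin (d + 1) → A) (cb ρ μ : A) (a : Fin (p - 1)) :
    system p d x c cb ρ μ (Sum.inr (Sum.inr (Sum.inl a))) =
    eqII p d (X (Sum.inl ())) (fun a => X (Sum.inr (Sum.inr (Sum.inl a)))) (fun k => X (idxQ p d k)) (C ρ)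
      ((a : ℕ) + 1) := rfl

lemma system_Q (x : Fin (d + 1) → A) (c : Fin (d + 1) → A) (cb ρ μ : A) (a : Fin (p - 1)) :
    system p d x c cb ρ μ (Sum.inr (Sum.inr (Sum.inr a))) =
    eqIII p d (X (Sum.inl ())) (fun i => X (Sum.inr (Sum.inl i))) (fun a => X (Sum.inr (Sum.inr (Sum.inl a))))
      (fun k => X (idxQ p d k)) (fun i => C (c i)) (C ρ) (C μ) ((a : ℕ) + 1) := rfl

/-- the base point -/
def basePoint (p d : ℕ) (x : Fin (d + 1) → A) (q : ℕ → A) : Idx p d → A
  | Sum.inl _ => 0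
  | Sum.inr (Sum.inl i) => x i
  | Sum.inr (Sum.inr (Sum.inl a)) => ((a : ℕ) : A) + 1
  | Sum.inr (Sum.inr (Sum.inr k)) => q ((k : ℕ) + 1)

lemma idxQ_eq {k : ℕ} (h1 : 1 ≤ k) (h2 : k ≤ p - 1) :
    idxQ p d k = Sum.inr (Sum.inr (Sum.inr ⟨k - 1, by omega⟩)) := by
  unfold idxQ
  rw [dif_pos (by omega)]

lemma idxQ_succ (k : Fin (p - 1)) : idxQ p d ((k : ℕ) + 1) = Sum.inr (Sum.inr (Sum.inr k)) := by
  rw [idxQ_eq (by omega) (by omega)]
  simp

lemma basePoint_B (x : Fin (d + 1) → A) (q : ℕ → A) : basePoint p d x q (Sum.inl ()) = 0 := rfl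

lemma basePoint_X (x : Fin (d + 1) → A) (q : ℕ → A) (i : Fin (d + 1)) :
    basePoint p d x q (Sum.inr (Sum.inl i)) = x i := rfl

lemma basePoint_Z (x : Fin (d + 1) → A) (q : ℕ → A) (a : Fin (p - 1)) :
    basePoint p d x q (Sum.inr (Sum.inr (Sum.inl a))) = ((a : ℕ) : A) + 1 := rfl

lemma basePoint_Q (x : Fin (d + 1) → A) (q : ℕ → A) {k : ℕ} (h1 : 1 ≤ k) (h2 : k ≤ p - 1) :
    basePoint p d x q (idxQ p d k) = q k := by
  rw [idxQ_eq h1 h2]
  change q (k - 1 + 1) = q k
  rw [Nat.sub_add_cancel h1]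

lemma cast_add_one_ne_zero [Fact p.Prime] [CharP A p] (a : Fin (p - 1)) : ((a : ℕ) : A) + 1 ≠ 0 := by
  intro h
  have h1 : (((a : ℕ) + 1 : ℕ) : A) = 0 := by push_cast; exact h
  rw [CharP.cast_eq_zero_iff A p] at h1
  have := Nat.le_of_dvd (by omega) h1
  omega

lemma cast_injective [Fact p.Prime] [CharP A p] : Function.Injective fun a : Fin (p - 1) => ((a : ℕ) : A) + 1 := by
  intro a b h
  have h1 : ((a : ℕ) : A) = ((b : ℕ) : A) := add_right_cancel h
  exact Fin.ext (CharP.natCast_injOn_Iio A p (Set.mem_Iio.mpr (by omega)) (Set.mem_Iio.mpr (by omega)) h1)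

/-- power sums of `1, ..., p - 1` -/
lemma sum_pow_base [Fact p.Prime] [CharP A p] {k : ℕ} (h1 : 1 ≤ k) (h2 : k ≤ p - 1) :
    ∑ a : Fin (p - 1), (((a : ℕ) : A) + 1) ^ k = if k = p - 1 then -1 else 0 := by
  have hp := (Fact.out : p.Prime)
  have hp2 : 2 ≤ p := hp.two_le
  let φ : ZMod p →+* A := ZMod.castHom (dvd_refl p) A
  split_ifs with hk
  · have h3 : ∀ a : Fin (p - 1), (((a : ℕ) : A) + 1) ^ k = 1 := by
      intro a
      have h4 : ((a : ℕ) : A) + 1 = φ (((a : ℕ) + 1 : ℕ) : ZMod p) := by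
        rw [map_natCast]
        push_cast
        rfl
      have h5 : (((a : ℕ) + 1 : ℕ) : ZMod p) ≠ 0 := by
        intro h0
        apply cast_add_one_ne_zero (A := A) a
        rw [h4, h0, map_zero]
      rw [h4, hk, ← map_pow, ZMod.pow_card_sub_one_eq_one h5, map_one]
    rw [sum_congr rfl fun a _ => h3 a, sum_const, card_univ, Fintype.card_fin, nsmul_eq_mul, mul_one,
      Nat.cast_sub (by omega), CharP.cast_eq_zero A p, Nat.cast_one, zero_sub]
  · have h3 : ∑ x : ZMod p, x ^ k = 0 := by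
      refine FiniteField.sum_pow_lt_card_sub_one (ZMod p) k ?_
      rw [ZMod.card]
      omega
    have h4 : ∑ x : ZMod p, x ^ k = ∑ i ∈ range p, ((i : ℕ) : ZMod p) ^ k := by
      refine sum_nbij' ZMod.val (fun i => ((i : ℕ) : ZMod p)) ?_ ?_ ?_ ?_ ?_
      · intro x _
        rw [mem_range]
        exact ZMod.val_lt x
      · intro i _
        exact mem_univ _
      · intro x _
        exact ZMod.natCast_zmod_val x
      · intro i hi
        exact ZMod.val_cast_of_lt (mem_range.mp hi)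
      · intro x _
        rw [ZMod.natCast_zmod_val]
    have h5 : ∑ i ∈ range p, ((i : ℕ) : ZMod p) ^ k = ∑ i ∈ range (p - 1), (((i : ℕ) : ZMod p) + 1) ^ k := by
      obtain ⟨n, rfl⟩ : ∃ n, p = n + 1 := ⟨p - 1, by omega⟩
      rw [sum_range_succ', Nat.add_sub_cancel]
      push_cast
      rw [zero_pow (by omega), add_zero]
    have h6 := congrArg φ (h5.symm.trans (h4.symm.trans h3))
    rw [map_sum, map_zero, sum_range] at h6
    rw [← h6]
    refine sum_congr rfl fun a _ => ?_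
    rw [map_pow, map_add, map_natCast, map_one]

section Kernel

variable [Fact p.Prime] [CharP A p] {x c : Fin (d + 1) → A} {cb ρ μ : A} {w v0 : Idx p d → A}
  {D : Derivation A (MvPolynomial (Idx p d) A) (MvPolynomial (Idx p d) A)}

omit [Fact p.Prime] [CharP A p] in
lemma kernel_B (hDX : ∀ j, D (X j) = C (w j)) (hw : ∀ i, eval v0 (D (system p d x c cb ρ μ i)) = 0) :
    w (Sum.inl ()) = 0 := by
  have h := hw (Sum.inl ())
  rw [system_B, hDX, eval_C] at h
  exact h

lemma kernel_X (hx : Function.Injective x) (hc : ∀ i, c i ≠ 0) (hβ : D (X (Sum.inl ())) = 0)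
    (hβ' : eval v0 (X (Sum.inl ())) = 0) (hv : ∀ i, v0 (Sum.inr (Sum.inl i)) = x i)
    (hDX : ∀ j, D (X j) = C (w j)) (hw : ∀ i, eval v0 (D (system p d x c cb ρ μ i)) = 0) (i : Fin (d + 1)) :
    w (Sum.inr (Sum.inl i)) = 0 := by
  have hp : 2 ≤ p := (Fact.out : p.Prime).two_le
  have h1 : ∀ e : Fin (d + 1), ∑ i, (c i * w (Sum.inr (Sum.inl i))) * x i ^ (e : ℕ) = 0 := by
    intro e
    have h := hw (Sum.inr (Sum.inl e))
    rw [system_X] at h
    split_ifs at h with he
    · rw [jac_eqI v0 D hp hβ hβ' c cb ρ he.2] at h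
      have h2 : (((e : ℕ) + 1 : ℕ) : A) ≠ 0 := fun h0 => he.1 ((CharP.cast_eq_zero_iff A p _).mp h0)
      have h3 := (mul_eq_zero.mp h).resolve_left h2
      rw [← h3]
      refine sum_congr rfl fun i _ => ?_
      rw [hDX, eval_C, eval_X, Nat.add_sub_cancel, hv]
      ring
    · rw [jac_eqG v0 D x c e] at h
      rw [← h]
      refine sum_congr rfl fun i _ => ?_
      rw [hDX, eval_C]
      ring
  have h2 := congrFun (Matrix.eq_zero_of_forall_pow_sum_mul_pow_eq_zero hx h1) i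
  exact (mul_eq_zero.mp h2).resolve_left (hc i)

omit [Fact p.Prime] [CharP A p] in
lemma kernel_Q (hd : 1 ≤ d) (hβ : D (X (Sum.inl ())) = 0)
    (hβ' : eval v0 (X (Sum.inl ())) = 0) (hx : ∀ i, D (X (Sum.inr (Sum.inl i))) = 0)
    (hDX : ∀ j, D (X j) = C (w j)) (hw : ∀ i, eval v0 (D (system p d x c cb ρ μ i)) = 0) {r : ℕ}
    (hr1 : 1 ≤ r) (hr2 : r ≤ p - 1) : w (idxQ p d r) = 0 := by
  have hIII : ∀ r, 1 ≤ r → r ≤ p - 1 → ∑ j ∈ range (p - r), (d.choose j : A) * w (idxQ p d (j + r)) = 0 := by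
    intro r hr1 hr2
    obtain ⟨k, rfl⟩ : ∃ k : Fin (p - 1), (k : ℕ) + 1 = r := ⟨⟨r - 1, by omega⟩, by simp; omega⟩
    have h := hw (Sum.inr (Sum.inr (Sum.inr k)))
    rw [system_Q, jac_eqIII v0 D hd hβ hβ' hx c ρ μ hr1] at h
    rw [← h]
    refine sum_congr rfl fun j _ => ?_
    rw [hDX, eval_C]
  have hQ' : ∀ n, ∀ r, 1 ≤ r → r ≤ p - 1 → p - 1 - n ≤ r → w (idxQ p d r) = 0 := by
    intro n
    induction n with
    | zero =>
      intro r hr1 hr2 hr3
      have h := hIII r hr1 hr2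
      rw [show p - r = 1 by omega, sum_range_one, Nat.choose_zero_right, Nat.cast_one, one_mul, zero_add] at h
      exact h
    | succ n ih =>
      intro r hr1 hr2 hr3
      have h := hIII r hr1 hr2
      rw [show p - r = (p - r - 1) + 1 by omega, sum_range_succ', Nat.choose_zero_right,
        Nat.cast_one, one_mul, zero_add, sum_eq_zero, zero_add] at h
      · exact h
      · intro j hj
        rw [mem_range] at hj
        rw [ih (j + 1 + r) (by omega) (by omega) (by omega), mul_zero]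
  exact hQ' (p - 1) r hr1 hr2 (by omega)

lemma kernel_Z (hβ : D (X (Sum.inl ())) = 0) (hq : ∀ k, 1 ≤ k → k ≤ p - 1 → D (X (idxQ p d k)) = 0)
    (hv : ∀ a : Fin (p - 1), v0 (Sum.inr (Sum.inr (Sum.inl a))) = ((a : ℕ) : A) + 1)
    (hDX : ∀ j, D (X j) = C (w j)) (hw : ∀ i, eval v0 (D (system p d x c cb ρ μ i)) = 0) (a : Fin (p - 1)) :
    w (Sum.inr (Sum.inr (Sum.inl a))) = 0 := by
  have h1 : ∀ e : Fin (p - 1), ∑ a : Fin (p - 1), w (Sum.inr (Sum.inr (Sum.inl a))) *
      (((a : ℕ) : A) + 1) ^ (e : ℕ) = 0 := by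
    intro e
    have h := hw (Sum.inr (Sum.inr (Sum.inl e)))
    rw [system_Z, jac_eqII v0 D hβ ρ (hq _ (by omega) (by omega))] at h
    have h2 : (((e : ℕ) + 1 : ℕ) : A) ≠ 0 := by
      push_cast
      exact cast_add_one_ne_zero e
    have h3 := (mul_eq_zero.mp h).resolve_left h2
    rw [← h3]
    refine sum_congr rfl fun a _ => ?_
    rw [hDX, eval_C, eval_X, Nat.add_sub_cancel, hv]
    ring
  exact congrFun (Matrix.eq_zero_of_forall_pow_sum_mul_pow_eq_zero cast_injective h1) a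

end Kernel

/-- the Jacobian determinant -/
theorem det_system [Fact p.Prime] [CharP A p] (hd : 1 ≤ d) (x : Fin (d + 1) → A) (c : Fin (d + 1) → A)
    (cb ρ μ : A) (hx : Function.Injective x) (hc : ∀ i, c i ≠ 0) (v0 : Idx p d → A) (hv0 : v0 (Sum.inl ()) = 0)
    (hv1 : ∀ i, v0 (Sum.inr (Sum.inl i)) = x i)
    (hv2 : ∀ a : Fin (p - 1), v0 (Sum.inr (Sum.inr (Sum.inl a))) = ((a : ℕ) : A) + 1) :
    (Matrix.of fun i j => eval v0 (pderiv j (system p d x c cb ρ μ i))).det ≠ 0 := by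
  refine det_ne_zero_of_derivation _ _ fun w hw => ?_
  generalize hD : mkDerivation A (fun j => (C (w j) : MvPolynomial (Idx p d) A)) = D at hw
  have hDX : ∀ j, D (X j) = C (w j) := fun j => by
    rw [← hD]
    exact mkDerivation_X _ _ _
  have hβ : D (X (Sum.inl ())) = 0 := by rw [hDX, kernel_B hDX hw, C_0]
  have hβ' : eval v0 (X (Sum.inl ())) = 0 := by rw [eval_X, hv0]
  have hX := kernel_X hx hc hβ hβ' hv1 hDX hw
  have hQ := fun r (h1 : 1 ≤ r) (h2 : r ≤ p - 1) =>
    kernel_Q hd hβ hβ' (fun i => by rw [hDX, hX, C_0]) hDX hw h1 h2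
  have hZ := kernel_Z hβ (fun k h1 h2 => by rw [hDX, hQ k h1 h2, C_0]) hv2 hDX hw
  funext j
  rcases j with ⟨⟩ | i | a | k
  · exact kernel_B hDX hw
  · exact hX i
  · exact hZ a
  · have h := hQ ((k : ℕ) + 1) (by omega) (by omega)
    rw [idxQ_succ] at h
    exact h

/-- the base point is on the system -/
theorem eval_system [Fact p.Prime] [CharP A p] (hd : 1 ≤ d) (x : Fin (d + 1) → A) (c : Fin (d + 1) → A)
    (cb ρ μ : A) (q : ℕ → A) (hsum : ∀ l < d, ∑ i, c i * x i ^ l = 0) (htop : μ * ∑ i, c i * x i ^ d = 1)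
    (hq : ∀ r, 1 ≤ r → r ≤ p - 1 → ∑ j ∈ range (p - r), (d.choose j : A) * q (j + r) = -(-1) ^ r)
    (i : Idx p d) : eval (basePoint p d x q) (system p d x c cb ρ μ i) = 0 := by
  have hp : 2 ≤ p := (Fact.out : p.Prime).two_le
  rcases i with ⟨⟩ | e | a | k
  · rw [system_B, eval_X]
    rfl
  · rw [system_X]
    split_ifs with he
    · rw [map_eqI]
      simp only [eval_X, eval_C]
      have h1 : 1 ≤ p * d - (p - 1) * ((e : ℕ) + 1) := by
        obtain ⟨p, rfl⟩ : ∃ k, p = k + 2 := ⟨p - 2, by omega⟩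
        have : (p + 2 - 1) * ((e : ℕ) + 1) < (p + 2) * d := by
          calc (p + 2 - 1) * ((e : ℕ) + 1) ≤ (p + 2) * ((e : ℕ) + 1) := Nat.mul_le_mul_right _ (by omega)
            _ < (p + 2) * d := Nat.mul_lt_mul_of_pos_left he.2 (by omega)
        omega
      have h2 : 1 ≤ (p - 1) * p := Nat.mul_pos (by omega) (by omega)
      simp only [eqI, basePoint_B, basePoint_X]
      rw [hsum _ he.2, zero_pow (by omega), zero_pow (by omega)]
      ring
    · rw [map_eqG]
      simp only [eval_X, eval_C]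
      simp [eqG, basePoint_X]
  · rw [system_Z, map_eqII]
    simp only [eval_X, eval_C, eqII, basePoint_B, basePoint_Z]
    rw [basePoint_Q x q (by omega) (by omega), sum_pow_base (by omega) (by omega), zero_pow (by omega : d ≠ 0),
      mul_zero]
    split_ifs with ha
    · have h2 := hq (p - 1) (by omega) le_rfl
      rw [show p - (p - 1) = 1 by omega, sum_range_one, Nat.choose_zero_right, Nat.cast_one, one_mul, zero_add] at h2
      rw [show p - 1 - ((a : ℕ) + 1) = 0 by omega, pow_zero, one_mul, ha, h2]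
      have h3 : (-1 : A) ^ (p - 1) = 1 := by
        have h4 : (-1 : ZMod p) ^ (p - 1) = 1 := ZMod.pow_card_sub_one_eq_one (neg_ne_zero.mpr one_ne_zero)
        have h5 := congrArg (ZMod.castHom (dvd_refl p) A) h4
        rwa [map_pow, map_neg, map_one] at h5
      rw [h3]
      ring
    · rw [zero_pow (by omega), zero_mul, sub_zero]
  · rw [system_Q, map_eqIII]
    simp only [eval_X, eval_C, eqIII, basePoint_B, basePoint_X, basePoint_Z]
    rw [zero_pow (by omega : d ≠ 0), mul_zero]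
    have h1 : ∑ j ∈ range (p - ((k : ℕ) + 1)), (d.choose j : A) * basePoint p d x q (idxQ p d (j + ((k : ℕ) + 1))) =
        -(-1) ^ ((k : ℕ) + 1) := by
      rw [← hq ((k : ℕ) + 1) (by omega) (by omega)]
      refine sum_congr rfl fun j hj => ?_
      rw [mem_range] at hj
      rw [basePoint_Q x q (by omega) (by omega)]
    have h2 : ∑ j ∈ Ico (p - ((k : ℕ) + 1)) (d + 1), (0 : A) ^ (j + ((k : ℕ) + 1) - (p - 1)) *
        ((d.choose j : A) * ∑ a : Fin (p - 1), (((a : ℕ) : A) + 1) ^ (j + ((k : ℕ) + 1))) = 0 := by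
      refine sum_eq_zero fun j hj => ?_
      rw [mem_Ico] at hj
      rw [zero_pow (by omega), zero_mul]
    have h3 : ∑ i, c i * x i ^ d * (x i * (0 : A) ^ (p - 1) - 1) ^ ((k : ℕ) + 1) =
        (∑ i, c i * x i ^ d) * (-1) ^ ((k : ℕ) + 1) := by
      rw [sum_mul]
      refine sum_congr rfl fun i _ => ?_
      rw [zero_pow (by omega), mul_zero, zero_sub]
    rw [h1, h2, h3, ← mul_assoc, htop]
    ring

end Main

set_option linter.unusedVariables false in
/-- ROW A4: the square system -/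
theorem exists_system {p : ℕ} [Fact p.Prime] {A : Type} [Field A] [Algebra (ZMod p) A] {d : ℕ}
    (hd : 1 ≤ d) (hpd : ¬ p ∣ d) (x : Fin (d + 1) → A) (c : Fin (d + 1) → ZMod p) (cb : ZMod p)
    (rho : A) (hx : Function.Injective x) (hc : ∀ i, c i ≠ 0) (hcb : cb ≠ 0) (hrho : rho ≠ 0)
    (hsum : ∀ l < d, ∑ i, algebraMap (ZMod p) A (c i) * x i ^ l = 0)
    (htop : ∑ i, algebraMap (ZMod p) A (c i) * x i ^ d =
      algebraMap (ZMod p) A cb * rho ^ (p - 1)) :
    ∃ (σ : Type) (_ : Fintype σ) (_ : DecidableEq σ) (f : σ → MvPolynomial σ A) (v0 : σ → A)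
      (iB : σ) (iX : Fin (d + 1) → σ) (iZ : Fin (p - 1) → σ) (iQ : ℕ → σ),
      f iB = MvPolynomial.X iB ∧ v0 iB = 0 ∧ (∀ i, v0 (iX i) = x i) ∧
      (∀ a, v0 (iZ a) = ((a : ℕ) : A) + 1) ∧
      (∀ i, MvPolynomial.eval v0 (f i) = 0) ∧
      (Matrix.of fun i j => MvPolynomial.eval v0 (MvPolynomial.pderiv j (f i))).det ≠ 0 ∧
      ∀ (K : Type) [Field K] [Algebra (ZMod p) K] [Algebra A K] [IsScalarTower (ZMod p) A K]
        (v : σ → K), v iB ≠ 0 → (∀ i, i ≠ iB → MvPolynomial.aeval v (f i) = 0) →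
        Eqs d (fun i => v (iX i)) c cb (v iB ^ (p - 1))⁻¹ (algebraMap A K rho * v iB ^ d)
          (algebraMap (ZMod p) K cb * algebraMap A K rho ^ (p - 1)) (fun a => v (iZ a))
          (fun k => v (iQ k)) := by
  classical
  have hp : 2 ≤ p := (Fact.out : p.Prime).two_le
  have hA : CharP A p := (Algebra.charP_iff (ZMod p) A p).mp inferInstance
  set cA : Fin (d + 1) → A := fun i => algebraMap (ZMod p) A (c i) with hcA
  set cbA : A := algebraMap (ZMod p) A cb with hcbA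
  have hcA0 : ∀ i, cA i ≠ 0 := fun i => by
    rw [hcA]
    simpa using hc i
  have hcbA0 : cbA ≠ 0 := by
    rw [hcbA]
    simpa using hcb
  have hlam : cbA * rho ^ (p - 1) ≠ 0 := mul_ne_zero hcbA0 (pow_ne_zero _ hrho)
  obtain ⟨q, hq⟩ := exists_triangular p (by omega) (fun j => (d.choose j : A)) (fun r => -(-1) ^ r) (by simp)
  refine ⟨Idx p d, inferInstance, inferInstance, system p d x cA cbA rho (cbA * rho ^ (p - 1))⁻¹,
    basePoint p d x q, Sum.inl (), fun i => Sum.inr (Sum.inl i), fun a => Sum.inr (Sum.inr (Sum.inl a)),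
    idxQ p d, rfl, rfl, fun _ => rfl, fun _ => rfl, ?_, ?_, ?_⟩
  · exact eval_system hd x cA cbA rho _ q hsum (by rw [htop]; exact inv_mul_cancel₀ hlam) hq
  · exact det_system hd x cA cbA rho _ hx hcA0 _ rfl (fun _ => rfl) fun _ => rfl
  · intro K _ _ _ _ v hv h
    have hcK : ∀ i, algebraMap A K (cA i) = algebraMap (ZMod p) K (c i) := fun i =>
      (IsScalarTower.algebraMap_apply (ZMod p) A K (c i)).symm
    have hcbK : algebraMap A K cbA = algebraMap (ZMod p) K cb :=
      (IsScalarTower.algebraMap_apply (ZMod p) A K cb).symm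
    have hrhoK : algebraMap A K rho ≠ 0 := by simpa using hrho
    have hcbK0 : algebraMap (ZMod p) K cb ≠ 0 := by simpa using hcb
    have hX : ∀ i, aeval v (X i : MvPolynomial (Idx p d) A) = v i := fun i => aeval_X _ _
    have hC : ∀ a : A, aeval v (C a : MvPolynomial (Idx p d) A) = algebraMap A K a := fun a => aeval_C _ _
    set β := v (Sum.inl ()) with hβ
    refine ⟨inv_ne_zero (pow_ne_zero _ hv), mul_ne_zero hcbK0 (pow_ne_zero _ hrhoK), ?_, ?_, ?_, ?_, ?_⟩
    · rw [mul_pow, ← pow_mul, inv_pow, ← pow_mul, mul_comm d (p - 1)]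
      have h1 : β ^ ((p - 1) * d) ≠ 0 := pow_ne_zero _ hv
      field_simp
    · have h1 := congrArg (algebraMap A K) (hsum 0 (by omega))
      rw [map_sum, map_zero] at h1
      rw [← h1]
      refine sum_congr rfl fun i _ => ?_
      rw [pow_zero, mul_one, ← hcK]
    · intro l hl1 hl2 hpl
      have h1 := h (Sum.inr (Sum.inl ⟨l - 1, by omega⟩)) (by simp)
      rw [system_X] at h1
      simp only [Nat.sub_add_cancel hl1] at h1
      rw [if_pos ⟨hpl, hl2⟩, map_eqI] at h1
      simp only [hX, hC, hcK, hcbK] at h1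
      unfold eqI at h1
      rw [← h1]
      have h2 : ∀ i, algebraMap (ZMod p) K (c i) * v (Sum.inr (Sum.inl i)) ^ l *
          (1 - (v (Sum.inr (Sum.inl i)) / (β ^ (p - 1))⁻¹) ^ p) =
          algebraMap (ZMod p) K (c i) * v (Sum.inr (Sum.inl i)) ^ l -
            β ^ ((p - 1) * p) * (algebraMap (ZMod p) K (c i) * v (Sum.inr (Sum.inl i)) ^ (l + p)) := by
        intro i
        rw [div_inv_eq_mul, mul_pow, ← pow_mul, pow_add]
        ring
      rw [sum_congr rfl fun i _ => h2 i, sum_sub_distrib, ← mul_sum]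
      have h3 : (p - 1) * l ≤ p * d := Nat.mul_le_mul (by omega) hl2.le
      have h4 : (β ^ (p - 1))⁻¹ ^ l * β ^ (p * d) = β ^ (p * d - (p - 1) * l) := by
        rw [pow_sub₀ β hv h3, inv_pow, ← pow_mul]
        ring
      have h5 : algebraMap (ZMod p) K cb * (β ^ (p - 1))⁻¹ ^ l * (algebraMap A K rho * β ^ d) ^ p =
          β ^ (p * d - (p - 1) * l) * (algebraMap (ZMod p) K cb * algebraMap A K rho ^ p) := by
        rw [← h4, mul_pow, ← pow_mul, mul_comm d p]
        ring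
      rw [h5]
      ring
    · intro k hk1 hk2
      have h1 := h (Sum.inr (Sum.inr (Sum.inl ⟨k - 1, by omega⟩))) (by simp)
      rw [system_Z, map_eqII] at h1
      simp only [Nat.sub_add_cancel hk1, hX, hC, eqII] at h1
      exact sub_eq_zero.mp h1
    · intro r hr1 hr2
      have h1 := h (Sum.inr (Sum.inr (Sum.inr ⟨r - 1, by omega⟩))) (by simp)
      rw [system_Q, map_eqIII] at h1
      simp only [Nat.sub_add_cancel hr1, hX, hC, hcK, eqIII] at h1
      rw [← h1, map_inv₀, map_mul, map_pow, hcbK]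
      congr 1
      · congr 1
        refine sum_congr rfl fun j _ => ?_
        ring
      · simp only [div_inv_eq_mul]
        rfl

end Pool.Agent.BCX
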