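import Pool.Agent.BCX.Inverse
import Pool.Agent.BCX.Jac
import Pool.Agent.BCX.System

/-!
# Adding a cluster of `p` points
-/

namespace Pool.Agent.BCX

open Polynomial
open scoped Topology

/-- The property `Good` from any index type. -/
lemma good_of_fintype {p : ℕ} [Fact p.Prime] {A ι : Type} [Field A] [Algebra (ZMod p) A]
    [Fintype ι] {d : ℕ} (hι : Fintype.card ι = d + 1) (x : ι → A) (c : ι → ZMod p) (cb : ZMod p)
    (rho : A) (hx : Function.Injective x) (hc : ∀ i, c i ≠ 0) (hcb : cb ≠ 0) (hrho : rho ≠ 0)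
    (hsum : ∀ l < d, ∑ i, algebraMap (ZMod p) A (c i) * x i ^ l = 0)
    (htop : ∑ i, algebraMap (ZMod p) A (c i) * x i ^ d =
      algebraMap (ZMod p) A cb * rho ^ (p - 1)) : Good p A d := by
  let e : Fin (d + 1) ≃ ι := (Fintype.equivFinOfCardEq hι).symm
  have key : ∀ l, ∑ i, algebraMap (ZMod p) A (c (e i)) * x (e i) ^ l =
      ∑ i, algebraMap (ZMod p) A (c i) * x i ^ l := fun l =>
    Equiv.sum_comp e (fun i => algebraMap (ZMod p) A (c i) * x i ^ l)
  exact ⟨x ∘ e, c ∘ e, cb, rho, hx.comp e.injective, fun i => hc _, hcb, hrho,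
    fun l hl => (key l).trans (hsum l hl), (key d).trans htop⟩

lemma cast_pred {p : ℕ} [Fact p.Prime] (K : Type) [Field K] [Algebra (ZMod p) K] :
    ((p - 1 : ℕ) : K) = -1 := by
  have hp := (Fact.out : p.Prime).one_lt
  have : CharP K p := charP_of_injective_algebraMap' (ZMod p) p
  have h1 : ((p - 1 : ℕ) : K) + 1 = 0 := by
    have h2 : (((p - 1) + 1 : ℕ) : K) = 0 := by
      rw [Nat.sub_add_cancel hp.le]
      exact CharP.cast_eq_zero K p
    rw [← h2]; push_cast; ring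
  exact eq_neg_of_add_eq_zero_left h1

/-- Elements near `1` are `(p - 1)`-th powers. -/
lemma eventually_root {p : ℕ} [Fact p.Prime] {𝕜 : Type} [NontriviallyNormedField 𝕜]
    [CompleteSpace 𝕜] [Algebra (ZMod p) 𝕜] :
    ∀ᶠ u in 𝓝 (1 : 𝕜), ∃ η : 𝕜, η ^ (p - 1) = u := by
  have h1 := hasStrictDerivAt_pow (p - 1) (1 : 𝕜)
  have h2 : (((p - 1 : ℕ) : 𝕜) * 1 ^ (p - 1 - 1)) ≠ 0 := by
    rw [cast_pred, one_pow, mul_one]
    exact neg_ne_zero.2 one_ne_zero
  have h3 := h1.map_nhds_eq h2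
  rw [one_pow] at h3
  rw [← h3, Filter.eventually_map]
  exact Filter.Eventually.of_forall fun y => ⟨y, rfl⟩

lemma separable_root {p : ℕ} [Fact p.Prime] {A 𝕜 : Type} [Field A] [Algebra (ZMod p) A]
    [Field 𝕜] [Algebra A 𝕜] {η : 𝕜} {u : A} (hu : u ≠ 0)
    (h : η ^ (p - 1) = algebraMap A 𝕜 u) : IsSeparable A η := by
  have h1 : (X ^ (p - 1) - C u : A[X]).Separable := by
    apply separable_X_pow_sub_C u _ hu
    rw [cast_pred]
    exact neg_ne_zero.2 one_ne_zero
  apply h1.of_dvd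
  apply minpoly.dvd
  rw [map_sub, map_pow, aeval_X, aeval_C, h, sub_self]

/-- The power sums are compatible with field extensions. -/
lemma psum_map {p : ℕ} [Fact p.Prime] {A K : Type} [Field A] [Algebra (ZMod p) A] [Field K]
    [Algebra (ZMod p) K] [Algebra A K] [IsScalarTower (ZMod p) A K] {ι : Type} [Fintype ι]
    (x : ι → A) (c : ι → ZMod p) (cb : ZMod p) (b θ : A) (z : Fin (p - 1) → A) (l : ℕ) :
    algebraMap A K (psum x c cb b θ z l) = psum (fun i => algebraMap A K (x i)) c cb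
      (algebraMap A K b) (algebraMap A K θ) (fun a => algebraMap A K (z a)) l := by
  unfold psum
  simp only [map_add, map_mul, map_sum, map_pow, map_one, ← IsScalarTower.algebraMap_apply]


section

variable {p : ℕ} [Fact p.Prime] {K : Type} [Field K] [Algebra (ZMod p) K]

/-- the expression of `tau` -/
noncomputable def tauE {σ ι : Type} [Fintype ι] (d : ℕ) (c : ι → ZMod p) (lam rho : K) (iB : σ)
    (iX : ι → σ) (iZ : Fin (p - 1) → σ) (iQ : ℕ → σ) (v : σ → K) : K :=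
  ∑ i, algebraMap (ZMod p) K (c i) * v (iX i) ^ d +
      lam * (∑ j ∈ Finset.Ico 1 p, (d.choose j : K) * v (iQ j) +
        ∑ j ∈ Finset.Ico p (d + 1), (d.choose j : K) * (rho * v iB ^ d) ^ (j - (p - 1)) *
          ∑ a, v (iZ a) ^ j)

/-- the expression of the top sum -/
noncomputable def topE {σ ι : Type} [Fintype ι] (d : ℕ) (c : ι → ZMod p) (lam rho : K) (iB : σ)
    (iX : ι → σ) (iZ : Fin (p - 1) → σ) (v : σ → K) : K :=
  ∑ i, algebraMap (ZMod p) K (c i) * v (iX i) ^ d * (v (iX i) * v iB ^ (p - 1) - 1) ^ p +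
    lam * (rho * v iB ^ d) * ∑ a, (1 + (rho * v iB ^ d) * v (iZ a)) ^ d * v (iZ a) ^ p

end

lemma continuous_tauE {p : ℕ} [Fact p.Prime] {𝕜 : Type} [NontriviallyNormedField 𝕜]
    [Algebra (ZMod p) 𝕜] {σ ι : Type} [Fintype ι] (d : ℕ) (c : ι → ZMod p) (lam rho : 𝕜) (iB : σ)
    (iX : ι → σ) (iZ : Fin (p - 1) → σ) (iQ : ℕ → σ) :
    Continuous (tauE d c lam rho iB iX iZ iQ) := by
  unfold tauE
  fun_prop

lemma continuous_topE {p : ℕ} [Fact p.Prime] {𝕜 : Type} [NontriviallyNormedField 𝕜]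
    [Algebra (ZMod p) 𝕜] {σ ι : Type} [Fintype ι] (d : ℕ) (c : ι → ZMod p) (lam rho : 𝕜) (iB : σ)
    (iX : ι → σ) (iZ : Fin (p - 1) → σ) :
    Continuous (topE d c lam rho iB iX iZ) := by
  unfold topE
  fun_prop

/-- The open conditions around the base point. -/
lemma exists_open {p : ℕ} [Fact p.Prime] {𝕜 σ : Type}
    [NontriviallyNormedField 𝕜] [CompleteSpace 𝕜] [Algebra (ZMod p) 𝕜]
    {d : ℕ} (hd : 1 ≤ d) (c : Fin (d + 1) → ZMod p) (lam rho : 𝕜) (hlam : lam ≠ 0)
    (w0 : σ → 𝕜) (iB : σ) (iX : Fin (d + 1) → σ) (iZ : Fin (p - 1) → σ) (iQ : ℕ → σ)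
    (hB : w0 iB = 0) (hX : Function.Injective fun i => w0 (iX i))
    (hZ : ∀ a, w0 (iZ a) = ((a : ℕ) : 𝕜) + 1)
    (htop : ∑ i, algebraMap (ZMod p) 𝕜 (c i) * w0 (iX i) ^ d = lam) :
    ∀ᶠ v in 𝓝 w0, (∀ i j, i ≠ j → v (iX i) ≠ v (iX j)) ∧
      (∀ i, ‖v iB‖ ^ (p - 1) * (2 * ‖v (iX i)‖) < 1) ∧
      (∀ a a', a ≠ a' → v (iZ a) ≠ v (iZ a')) ∧ (∀ a, v (iZ a) ≠ 0) ∧
      (∀ a, 1 / 2 < ‖1 + rho * v iB ^ d * v (iZ a)‖) ∧
      (‖v iB‖ ^ (p - 1)) ^ d * ‖tauE d c lam rho iB iX iZ iQ v‖ < 1 ∧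
      topE d c lam rho iB iX iZ v ≠ 0 ∧
      ∃ η : 𝕜, η ^ (p - 1) = topE d c lam rho iB iX iZ v / (-lam) := by
  have hp := (Fact.out : p.Prime).two_le
  have hchar : CharP 𝕜 p := charP_of_injective_algebraMap' (ZMod p) p
  have hcast : ∀ a a' : Fin (p - 1), ((a : ℕ) : 𝕜) + 1 = ((a' : ℕ) : 𝕜) + 1 → a = a' := by
    intro a a' h
    have h1 : ((a : ℕ) : 𝕜) = ((a' : ℕ) : 𝕜) := add_right_cancel h
    have h2 := (CharP.natCast_eq_natCast 𝕜 p).1 h1
    have h3 : (a : ℕ) = (a' : ℕ) := Nat.ModEq.eq_of_lt_of_lt h2 (by have := a.2; omega)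
      (by have := a'.2; omega)
    exact Fin.ext h3
  have hcast0 : ∀ a : Fin (p - 1), ((a : ℕ) : 𝕜) + 1 ≠ 0 := by
    intro a h
    have h1 : (((a : ℕ) + 1 : ℕ) : 𝕜) = 0 := by push_cast; exact h
    rw [CharP.cast_eq_zero_iff 𝕜 p] at h1
    have h2 := Nat.le_of_dvd (by omega) h1
    have := a.2
    omega
  have hp1 : p - 1 ≠ 0 := by omega
  have hd0 : d ≠ 0 := by omega
  have htop0 : topE d c lam rho iB iX iZ w0 = -lam := by
    unfold topE
    rw [hB, zero_pow hp1, zero_pow hd0]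
    simp only [mul_zero, zero_sub, zero_mul, add_zero]
    rw [← Finset.sum_mul, htop]
    have h1 : (-1 : 𝕜) ^ p = -1 := by
      rcases Nat.Prime.eq_two_or_odd' (Fact.out : p.Prime) with h2 | h2
      · have h3 : (2 : 𝕜) = 0 := by
          have := CharP.cast_eq_zero 𝕜 p
          rw [h2] at this
          exact_mod_cast this
        rw [h2]
        have h4 : (1 : 𝕜) + 1 = 0 := by rw [one_add_one_eq_two, h3]
        have h5 : (-1 : 𝕜) = 1 := by
          rw [eq_comm, eq_neg_iff_add_eq_zero]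
          exact h4
        rw [h5, one_pow]
      · exact h2.neg_one_pow
    rw [h1]; ring
  have cv : ∀ i : σ, Filter.Tendsto (fun v : σ → 𝕜 => v i) (𝓝 w0) (𝓝 (w0 i)) := fun i =>
    (continuous_apply i).continuousAt
  refine Filter.Eventually.and ?_ (Filter.Eventually.and ?_ (Filter.Eventually.and ?_
    (Filter.Eventually.and ?_ (Filter.Eventually.and ?_ (Filter.Eventually.and ?_
      (Filter.Eventually.and ?_ ?_))))))
  · rw [Filter.eventually_all]; intro i
    rw [Filter.eventually_all]; intro j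
    by_cases hij : i = j
    · exact Filter.Eventually.of_forall fun v h => absurd hij h
    · have h1 : Continuous fun v : σ → 𝕜 => v (iX i) - v (iX j) := by fun_prop
      have h2 : w0 (iX i) - w0 (iX j) ≠ 0 := sub_ne_zero.2 fun h => hij (hX h)
      exact (h1.continuousAt.eventually_ne h2).mono fun v hv _ => sub_ne_zero.1 hv
  · rw [Filter.eventually_all]; intro i
    have h1 : Continuous fun v : σ → 𝕜 => ‖v iB‖ ^ (p - 1) * (2 * ‖v (iX i)‖) := by fun_prop
    refine (h1.tendsto w0).eventually_lt_const ?_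
    rw [hB, norm_zero, zero_pow hp1, zero_mul]
    exact one_pos
  · rw [Filter.eventually_all]; intro a
    rw [Filter.eventually_all]; intro a'
    by_cases hij : a = a'
    · exact Filter.Eventually.of_forall fun v h => absurd hij h
    · have h1 : Continuous fun v : σ → 𝕜 => v (iZ a) - v (iZ a') := by fun_prop
      have h2 : w0 (iZ a) - w0 (iZ a') ≠ 0 := by
        rw [hZ, hZ]
        exact sub_ne_zero.2 fun h => hij (hcast _ _ h)
      exact (h1.continuousAt.eventually_ne h2).mono fun v hv _ => sub_ne_zero.1 hv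
  · rw [Filter.eventually_all]; intro a
    have h1 : Continuous fun v : σ → 𝕜 => v (iZ a) := by fun_prop
    exact h1.continuousAt.eventually_ne (by rw [hZ]; exact hcast0 a)
  · rw [Filter.eventually_all]; intro a
    have h1 : Continuous fun v : σ → 𝕜 => ‖1 + rho * v iB ^ d * v (iZ a)‖ := by fun_prop
    refine (h1.tendsto w0).eventually_const_lt ?_
    rw [hB, zero_pow hd0, mul_zero, zero_mul, add_zero, norm_one]
    norm_num
  · have h1 : Continuous fun v : σ → 𝕜 =>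
        (‖v iB‖ ^ (p - 1)) ^ d * ‖tauE d c lam rho iB iX iZ iQ v‖ := by
      have := continuous_tauE d c lam rho iB iX iZ iQ
      fun_prop
    refine (h1.tendsto w0).eventually_lt_const ?_
    rw [hB, norm_zero, zero_pow hp1, zero_pow hd0, zero_mul]
    exact one_pos
  · exact (continuous_topE d c lam rho iB iX iZ).continuousAt.eventually_ne
      (by rw [htop0]; exact neg_ne_zero.2 hlam)
  · have h1 : Continuous fun v : σ → 𝕜 => topE d c lam rho iB iX iZ v / (-lam) := by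
      have := continuous_topE d c lam rho iB iX iZ
      fun_prop
    have h2 := h1.tendsto w0
    rw [htop0, div_self (neg_ne_zero.2 hlam)] at h2
    exact h2.eventually eventually_root

/-- ROW A5: adding a cluster -/
theorem Good.step {p : ℕ} [Fact p.Prime] {A 𝕜 : Type} [Field A] [Algebra (ZMod p) A]
    [NontriviallyNormedField 𝕜] [CompleteSpace 𝕜] [Algebra (ZMod p) 𝕜] [Algebra A 𝕜]
    [IsScalarTower (ZMod p) A 𝕜]
    (hA : ∀ x : 𝕜, IsSeparable A x → ∃ a : A, algebraMap A 𝕜 a = x)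
    (hsmall : ∀ ε : ℝ, 0 < ε → ∃ β : A, β ≠ 0 ∧ ‖algebraMap A 𝕜 β‖ < ε)
    {d : ℕ} (hd : 1 ≤ d) (hpd : ¬ p ∣ d) (h : Good p A d) : Good p A (d + p) := by
  have hp := (Fact.out : p.Prime).two_le
  have hp1 : p - 1 ≠ 0 := by omega
  obtain ⟨x, c, cb, rho, hx, hc, hcb, hrho, hsum, htop⟩ := h
  obtain ⟨σ, hfin, hdec, f, v0, iB, iX, iZ, iQ, hfB, hv0B, hv0X, hv0Z, hf0, hJ0, hE⟩ :=
    exists_system hd hpd x c cb rho hx hc hcb hrho hsum htop
  have hinj : Function.Injective (algebraMap A 𝕜) := (algebraMap A 𝕜).injective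
  set w0 : σ → 𝕜 := fun i => algebraMap A 𝕜 (v0 i) with hw0
  have haev : ∀ (u : σ → A) (g : MvPolynomial σ A),
      MvPolynomial.aeval (fun i => algebraMap A 𝕜 (u i)) g = algebraMap A 𝕜 (MvPolynomial.eval u g) :=
    fun u g => MvPolynomial.aeval_algebraMap_apply 𝕜 u g
  have hJ : (Matrix.of fun i j =>
      MvPolynomial.aeval w0 (MvPolynomial.pderiv j (f i))).det ≠ 0 := by
    have h1 : (Matrix.of fun i j => MvPolynomial.aeval w0 (MvPolynomial.pderiv j (f i))) =
        (algebraMap A 𝕜).mapMatrix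
          (Matrix.of fun i j => MvPolynomial.eval v0 (MvPolynomial.pderiv j (f i))) := by
      ext i j
      rw [Matrix.of_apply, haev]
      rfl
    rw [h1, ← RingHom.map_det]
    exact fun h => hJ0 (hinj (by rw [h, map_zero]))
  set lamA : A := algebraMap (ZMod p) A cb * rho ^ (p - 1) with hlamA
  set lam : 𝕜 := algebraMap (ZMod p) 𝕜 cb * algebraMap A 𝕜 rho ^ (p - 1) with hlam
  have hcbA : algebraMap (ZMod p) A cb ≠ 0 := by
    rw [Ne, map_eq_zero]; exact hcb
  have hcb𝕜 : algebraMap (ZMod p) 𝕜 cb ≠ 0 := by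
    rw [Ne, map_eq_zero]; exact hcb
  have hrho𝕜 : algebraMap A 𝕜 rho ≠ 0 := by
    rw [Ne, map_eq_zero]; exact hrho
  have hlam0 : lam ≠ 0 := mul_ne_zero hcb𝕜 (pow_ne_zero _ hrho𝕜)
  have hlamA0 : lamA ≠ 0 := mul_ne_zero hcbA (pow_ne_zero _ hrho)
  have hlammap : algebraMap A 𝕜 lamA = lam := by
    rw [hlamA, hlam, map_mul, map_pow, ← IsScalarTower.algebraMap_apply]
  have hopen := exists_open hd c lam (algebraMap A 𝕜 rho) hlam0 w0 iB iX iZ iQ
    (by rw [hw0]; simp only; rw [hv0B, map_zero])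
    (by
      intro i j hij
      simp only [hw0, hv0X] at hij
      exact hx (hinj hij))
    (by
      intro a
      simp only [hw0]
      rw [hv0Z, map_add, map_natCast, map_one])
    (by
      rw [← hlammap, ← htop, map_sum]
      apply Finset.sum_congr rfl
      intro i _
      simp only [hw0]
      rw [hv0X, map_mul, map_pow, ← IsScalarTower.algebraMap_apply])
  have hU := (eventually_jac f w0 hJ).and hopen
  have hinv := poly_inverse f w0 hJ hU
  have hbase : (fun i => MvPolynomial.aeval w0 (f i)) = 0 := by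
    funext i
    rw [haev, hf0, map_zero]; rfl
  rw [hbase] at hinv
  have hcont : Filter.Tendsto (fun β : 𝕜 => (Pi.single iB β : σ → 𝕜)) (𝓝 0) (𝓝 0) := by
    have h1 : Continuous (fun β : 𝕜 => (Pi.single iB β : σ → 𝕜)) :=
      continuous_single (A := fun _ : σ => 𝕜) iB
    have h2 := h1.tendsto 0
    rwa [Pi.single_zero] at h2
  have hev := hcont.eventually hinv
  rw [Metric.eventually_nhds_iff] at hev
  obtain ⟨ε, hε, hev⟩ := hev
  obtain ⟨β, hβ0, hβ⟩ := hsmall ε hε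
  obtain ⟨v, hvU, hv⟩ := hev (y := algebraMap A 𝕜 β) (by rw [dist_zero_right]; exact hβ)
  obtain ⟨hvJ, c1, c2, c3, c4, c4', c5, c6, η, hη⟩ := hvU
  have hvB : v iB = algebraMap A 𝕜 β := by
    have h1 := hv iB
    rwa [hfB, MvPolynomial.aeval_X, Pi.single_eq_same] at h1
  have hv0 : ∀ i, i ≠ iB → MvPolynomial.aeval v (f i) = 0 := by
    intro i hi
    rw [hv i, Pi.single_eq_of_ne hi]
  have hsep := jac_separable f v (by
    intro i
    by_cases hi : i = iB
    · subst hi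
      exact ⟨β, by rw [hv, Pi.single_eq_same]⟩
    · exact ⟨0, by rw [hv0 i hi, map_zero]⟩) hvJ
  choose u hu using fun i => hA (v i) (hsep i)
  have hvu : v = fun i => algebraMap A 𝕜 (u i) := funext fun i => (hu i).symm
  have huB : u iB = β := hinj (by rw [hu, hvB])
  have hβ𝕜 : algebraMap A 𝕜 β ≠ 0 := by rw [Ne, map_eq_zero]; exact hβ0
  have hE𝕜 := hE 𝕜 v (by rw [hvB]; exact hβ𝕜) hv0
  set b : 𝕜 := (v iB ^ (p - 1))⁻¹ with hb
  set θ : 𝕜 := algebraMap A 𝕜 rho * v iB ^ d with hθ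
  have hvB0 : v iB ≠ 0 := by rw [hvB]; exact hβ𝕜
  have hb0 : b ≠ 0 := inv_ne_zero (pow_ne_zero _ hvB0)
  have hθ0 : θ ≠ 0 := mul_ne_zero hrho𝕜 (pow_ne_zero _ hvB0)
  have hnb : ‖v iB‖ ^ (p - 1) * ‖b‖ = 1 := by
    rw [hb, norm_inv, norm_pow]
    exact mul_inv_cancel₀ (pow_ne_zero _ (norm_ne_zero_iff.2 hvB0))
  -- tau vanishes
  have hτ : psum (fun i => v (iX i)) c cb b θ (fun a => v (iZ a)) d = 0 := by
    by_contra hne
    obtain ⟨P, hP, hpow⟩ := hE𝕜.tau_pow hd hpd
    have h1 := hE𝕜.tau_eq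
    have h2 : psum (fun i => v (iX i)) c cb b θ (fun a => v (iZ a)) d =
      tauE d c lam (algebraMap A 𝕜 rho) iB iX iZ iQ v := h1
    set τ := psum (fun i => v (iX i)) c cb b θ (fun a => v (iZ a)) d with hτdef
    have h3 : τ ^ (P - 1) = b ^ (d * (P - 1)) := by
      have h4 : τ ^ (P - 1) * τ = b ^ (d * (P - 1)) * τ := by
        rw [← pow_succ, Nat.sub_add_cancel (by omega)]
        exact hpow
      exact mul_right_cancel₀ hne h4
    have h5 : ‖τ‖ ^ (P - 1) = (‖b‖ ^ d) ^ (P - 1) := by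
      rw [← norm_pow, h3, norm_pow, pow_mul]
    have h6 : ‖τ‖ = ‖b‖ ^ d :=
      (pow_left_inj₀ (norm_nonneg _) (by positivity) (by omega)).1 h5
    rw [← h2, h6, ← mul_pow, hnb, one_pow] at c5
    exact lt_irrefl _ c5
  have hzero : ∀ l < d + p, psum (fun i => v (iX i)) c cb b θ (fun a => v (iZ a)) l = 0 :=
    fun l hl => hE𝕜.psum_eq_zero hd hpd hτ hl
  have htopeq := hE𝕜.top_eq hτ
  -- everything in `A`
  set bA : A := (β ^ (p - 1))⁻¹ with hbA
  set θA : A := rho * β ^ d with hθA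
  have hbmap : algebraMap A 𝕜 bA = b := by
    rw [hbA, hb, map_inv₀, map_pow, hvB]
  have hθmap : algebraMap A 𝕜 θA = θ := by
    rw [hθA, hθ, map_mul, map_pow, hvB]
  have hpsum : ∀ l, algebraMap A 𝕜 (psum (fun i => u (iX i)) c cb bA θA (fun a => u (iZ a)) l) =
      psum (fun i => v (iX i)) c cb b θ (fun a => v (iZ a)) l := by
    intro l
    rw [psum_map, hbmap, hθmap]
    simp only [hu]
  let X' : Fin (d + 1) ⊕ Option (Fin (p - 1)) → A :=
    Sum.elim (fun i => u (iX i)) (fun o => o.elim bA (fun a => bA * (1 + θA * u (iZ a))))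
  let C' : Fin (d + 1) ⊕ Option (Fin (p - 1)) → ZMod p := Sum.elim c (fun _ => cb)
  have hsumX : ∀ l, ∑ i, algebraMap (ZMod p) A (C' i) * X' i ^ l =
      psum (fun i => u (iX i)) c cb bA θA (fun a => u (iZ a)) l := by
    intro l
    unfold psum
    rw [Fintype.sum_sum_type, Fintype.sum_option, mul_add, Finset.mul_sum]
    rfl
  -- the top sum
  have htop2 : psum (fun i => v (iX i)) c cb b θ (fun a => v (iZ a)) (d + p) =
      b ^ p * topE d c lam (algebraMap A 𝕜 rho) iB iX iZ v := by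
    rw [htopeq]
    unfold topE
    congr 2
    apply Finset.sum_congr rfl
    intro i _
    rw [hb, div_inv_eq_mul]
  have htop3 : topE d c lam (algebraMap A 𝕜 rho) iB iX iZ v = -lam * η ^ (p - 1) := by
    rw [hη, mul_div_cancel₀ _ (neg_ne_zero.2 hlam0)]
  have hη0 : η ≠ 0 := by
    intro h
    apply c6
    rw [htop3, h, zero_pow hp1, mul_zero]
  have hbA0 : bA ≠ 0 := inv_ne_zero (pow_ne_zero _ hβ0)
  set U : A := psum (fun i => u (iX i)) c cb bA θA (fun a => u (iZ a)) (d + p) /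
    (bA ^ p * -lamA) with hU'
  have hUη : η ^ (p - 1) = algebraMap A 𝕜 U := by
    rw [hU', map_div₀, hpsum, htop2, htop3, map_mul, map_pow, hbmap, map_neg, hlammap,
      ← mul_assoc]
    rw [mul_div_cancel_left₀]
    exact mul_ne_zero (pow_ne_zero _ hb0) (neg_ne_zero.2 hlam0)
  have hU0 : U ≠ 0 := by
    intro h
    rw [h, map_zero] at hUη
    exact pow_ne_zero _ hη0 hUη
  obtain ⟨ηA, hηA⟩ := hA η (separable_root hU0 hUη)
  have hηA0 : ηA ≠ 0 := by
    intro h
    apply hη0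
    rw [← hηA, h, map_zero]
  have hUA : U = ηA ^ (p - 1) := hinj (by rw [← hUη, map_pow, hηA])
  have hcX : ∀ i, algebraMap A 𝕜 (X' (Sum.inl i)) = v (iX i) := fun i => hu _
  have hcN : algebraMap A 𝕜 (X' (Sum.inr none)) = b := hbmap
  have hcS : ∀ a, algebraMap A 𝕜 (X' (Sum.inr (some a))) = b * (1 + θ * v (iZ a)) := by
    intro a
    show algebraMap A 𝕜 (bA * (1 + θA * u (iZ a))) = _
    rw [map_mul, map_add, map_mul, map_one, hbmap, hθmap, hu]
  have hXN : ∀ i, v (iX i) ≠ b := by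
    intro i h
    have h1 := c2 i
    rw [h, ← mul_assoc, mul_comm _ (2 : ℝ), mul_assoc, hnb] at h1
    norm_num at h1
  have hXS : ∀ i a, v (iX i) ≠ b * (1 + θ * v (iZ a)) := by
    intro i a h
    have h1 := c2 i
    have h2 := c4' a
    have h3 : ‖v iB‖ ^ (p - 1) * (2 * (‖b‖ * ‖1 + θ * v (iZ a)‖)) =
        2 * ‖1 + θ * v (iZ a)‖ := by
      calc ‖v iB‖ ^ (p - 1) * (2 * (‖b‖ * ‖1 + θ * v (iZ a)‖))
          = (‖v iB‖ ^ (p - 1) * ‖b‖) * (2 * ‖1 + θ * v (iZ a)‖) := by ring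
        _ = 2 * ‖1 + θ * v (iZ a)‖ := by rw [hnb, one_mul]
    rw [h, norm_mul, h3] at h1
    linarith
  have hNS : ∀ a, b ≠ b * (1 + θ * v (iZ a)) := by
    intro a h
    have h1 : b * (θ * v (iZ a)) = 0 := by
      have : b * (1 + θ * v (iZ a)) = b + b * (θ * v (iZ a)) := by ring
      rw [this] at h
      exact left_eq_add.1 h
    exact mul_ne_zero hb0 (mul_ne_zero hθ0 (c4 a)) h1
  have hSS : ∀ a a', b * (1 + θ * v (iZ a)) = b * (1 + θ * v (iZ a')) → a = a' := by
    intro a a' h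
    by_contra hne
    have h1 := mul_left_cancel₀ hb0 h
    have h2 := mul_left_cancel₀ hθ0 (add_left_cancel h1)
    exact c3 a a' hne h2
  have hXinj : Function.Injective X' := by
    rintro (i | _ | a) (j | _ | a') hij
    · have h1 := congrArg (algebraMap A 𝕜) hij
      rw [hcX, hcX] at h1
      by_cases h2 : i = j
      · rw [h2]
      · exact absurd h1 (c1 i j h2)
    · have h1 := congrArg (algebraMap A 𝕜) hij
      rw [hcX, hcN] at h1
      exact absurd h1 (hXN i)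
    · have h1 := congrArg (algebraMap A 𝕜) hij
      rw [hcX, hcS] at h1
      exact absurd h1 (hXS i a')
    · have h1 := congrArg (algebraMap A 𝕜) hij
      rw [hcX, hcN] at h1
      exact absurd h1.symm (hXN j)
    · rfl
    · have h1 := congrArg (algebraMap A 𝕜) hij
      rw [hcN, hcS] at h1
      exact absurd h1 (hNS a')
    · have h1 := congrArg (algebraMap A 𝕜) hij
      rw [hcX, hcS] at h1
      exact absurd h1.symm (hXS j a)
    · have h1 := congrArg (algebraMap A 𝕜) hij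
      rw [hcN, hcS] at h1
      exact absurd h1.symm (hNS a)
    · have h1 := congrArg (algebraMap A 𝕜) hij
      rw [hcS, hcS] at h1
      rw [hSS a a' h1]
  apply good_of_fintype (ι := Fin (d + 1) ⊕ Option (Fin (p - 1))) (by
    rw [Fintype.card_sum, Fintype.card_option, Fintype.card_fin, Fintype.card_fin]; omega)
    X' C' (-cb) (rho * (β ^ p)⁻¹ * ηA) hXinj
  · rintro (i | o)
    · exact hc i
    · exact hcb
  · exact neg_ne_zero.2 hcb
  · exact mul_ne_zero (mul_ne_zero hrho (inv_ne_zero (pow_ne_zero _ hβ0))) hηA0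
  · intro l hl
    rw [hsumX]
    apply hinj
    rw [hpsum, hzero l hl, map_zero]
  · rw [hsumX]
    have h1 : psum (fun i => u (iX i)) c cb bA θA (fun a => u (iZ a)) (d + p) =
        U * (bA ^ p * -lamA) := by
      rw [hU', div_mul_cancel₀]
      exact mul_ne_zero (pow_ne_zero _ hbA0) (neg_ne_zero.2 hlamA0)
    have h2 : bA ^ p = ((β ^ p)⁻¹) ^ (p - 1) := by
      rw [hbA, inv_pow, inv_pow, ← pow_mul, ← pow_mul, mul_comm]
    rw [h1, hUA, h2, hlamA, map_neg]
    ring

end Pool.Agent.BCX
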