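import Pool.Agent.BCX.Inverse

/-!
# Primitive BCH codes over fields with `2 ^ s` elements: the old roots
-/

namespace Pool.Agent.BCX

open Polynomial
open scoped Topology

/-- a polynomial in the variable `i` -/
lemma aeval_aeval_X {A 𝕜 σ : Type} [Field A] [Field 𝕜] [Algebra A 𝕜] (v : σ → 𝕜) (i : σ)
    (g : A[X]) : MvPolynomial.aeval v (aeval (MvPolynomial.X i : MvPolynomial σ A) g) =
      aeval (v i) g := by
  rw [← Polynomial.aeval_algHom_apply, MvPolynomial.aeval_X]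

/-- ROW G3a (StepGa.lean): the old roots move a little -/
theorem old_root {A 𝕜 : Type} [Field A] [NontriviallyNormedField 𝕜] [CompleteSpace 𝕜]
    [Algebra A 𝕜] (g : A[X]) (x0 : A) (hx : (derivative g).eval x0 ≠ 0)
    {U : Set 𝕜} (hU : U ∈ 𝓝 (algebraMap A 𝕜 x0)) :
    ∀ᶠ w : 𝕜 × 𝕜 in 𝓝 (0, algebraMap A 𝕜 (g.eval x0)), ∃ x ∈ U,
      aeval x g * (1 + w.1 ^ 2 * x ^ 2) = w.2 := by
  let P : MvPolynomial (Fin 2) A := aeval (MvPolynomial.X 0 : MvPolynomial (Fin 2) A) g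
  let f : Fin 2 → MvPolynomial (Fin 2) A :=
    ![P * (1 + MvPolynomial.X 1 ^ 2 * MvPolynomial.X 0 ^ 2), MvPolynomial.X 1]
  let v0 : Fin 2 → 𝕜 := ![algebraMap A 𝕜 x0, 0]
  have hP : ∀ v : Fin 2 → 𝕜, MvPolynomial.aeval v P = aeval (v 0) g := fun v => aeval_aeval_X v 0 g
  have hdP : ∀ (v : Fin 2 → 𝕜) (i : Fin 2), MvPolynomial.aeval v (MvPolynomial.pderiv i P) =
      aeval (v 0) (derivative g) * MvPolynomial.aeval v
        (MvPolynomial.pderiv i (MvPolynomial.X 0 : MvPolynomial (Fin 2) A)) := by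
    intro v i
    rw [Derivation.map_aeval, smul_eq_mul, map_mul, aeval_aeval_X]
  have hg' : aeval (algebraMap A 𝕜 x0) (derivative g) ≠ 0 := by
    rw [aeval_algebraMap_apply, Ne, map_eq_zero]
    exact hx
  have hJ : (Matrix.of fun i j => MvPolynomial.aeval v0 (MvPolynomial.pderiv j (f i))).det ≠ 0 := by
    rw [Matrix.det_fin_two]
    simp only [Matrix.of_apply, f, Matrix.cons_val_zero, Matrix.cons_val_one,
      Derivation.leibniz, map_add, smul_eq_mul, map_mul, hdP, hP, MvPolynomial.pderiv_X]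
    simp [v0, hg']
  have hU' : {v : Fin 2 → 𝕜 | v 0 ∈ U} ∈ 𝓝 v0 :=
    (continuous_apply 0).continuousAt.preimage_mem_nhds hU
  have h1 := poly_inverse f v0 hJ hU'
  have h2 : (fun i => MvPolynomial.aeval v0 (f i)) = ![algebraMap A 𝕜 (g.eval x0), 0] := by
    funext i
    fin_cases i
    · simp [f, hP, v0, aeval_algebraMap_apply]
    · simp [f, v0]
  rw [h2] at h1
  have h3 : Filter.Tendsto (fun w : 𝕜 × 𝕜 => (![w.2, w.1] : Fin 2 → 𝕜))
      (𝓝 (0, algebraMap A 𝕜 (g.eval x0))) (𝓝 ![algebraMap A 𝕜 (g.eval x0), 0]) := by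
    have : Continuous (fun w : 𝕜 × 𝕜 => (![w.2, w.1] : Fin 2 → 𝕜)) := by
      refine continuous_pi fun i => ?_
      fin_cases i
      · exact continuous_snd
      · exact continuous_fst
    exact this.tendsto' _ _ rfl
  filter_upwards [h3.eventually h1] with w hw
  obtain ⟨v, hv, hvw⟩ := hw
  have e0 := hvw 0
  have e1 := hvw 1
  simp only [f, Matrix.cons_val_zero, Matrix.cons_val_one, map_mul, map_add, map_one, map_pow,
    MvPolynomial.aeval_X, hP] at e0 e1
  refine ⟨v 0, hv, ?_⟩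
  rw [← e0, e1]

end Pool.Agent.BCX
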