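import Mathlib

/-!
# Primitive BCH codes over fields with `2 ^ s` elements: the polynomial `S(η, u)`
-/

namespace Pool.Agent.BCX

open Polynomial

/-- `S(η, u) = ∑ g_k η ^ (n - k) (1 + u ^ 2) ^ ((k - 1) / 2)` -/
noncomputable def bigS {B : Type} [CommRing B] (g : B[X]) (η u : B) : B :=
  ∑ k ∈ Finset.range (g.natDegree + 1),
    g.coeff k * η ^ (g.natDegree - k) * (1 + u ^ 2) ^ ((k - 1) / 2)

/-- ROW G3b (StepGb.lean): `g(b (1 + u)) = b ^ n (1 + u) S(1 / b, u)` in characteristic two -/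
theorem eval_bigS {B : Type} [Field B] [CharP B 2] (g : B[X]) (hg : X * derivative g = g)
    {η : B} (hη : η ≠ 0) (u : B) :
    g.eval (η⁻¹ * (1 + u)) = η⁻¹ ^ g.natDegree * (1 + u) * bigS g η u := by
  rw [eval_eq_sum_range, bigS, Finset.mul_sum]
  refine Finset.sum_congr rfl fun k hk => ?_
  have hk1 : k ≤ g.natDegree := Nat.lt_succ_iff.mp (Finset.mem_range.mp hk)
  rcases Nat.even_or_odd k with he | ho
  · have h0 : g.coeff k = 0 := by
      have h1 := congrArg (fun p => p.coeff k) hg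
      rcases k with _ | k
      · simp only [mul_coeff_zero, coeff_X_zero, zero_mul] at h1
        exact h1.symm
      · simp only [coeff_X_mul, coeff_derivative] at h1
        have h2 : ((k : B) + 1) = 0 := by
          have := (CharP.cast_eq_zero_iff B 2 (k + 1)).mpr he.two_dvd
          exact_mod_cast this
        rw [h2, mul_zero] at h1
        exact h1.symm
    rw [h0]
    simp
  · obtain ⟨j, rfl⟩ := ho
    have h1 : (2 * j + 1 - 1) / 2 = j := by omega
    have h2 : (1 + u ^ 2 : B) = (1 + u) ^ 2 := by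
      have : (2 : B) = 0 := CharTwo.two_eq_zero
      linear_combination (-u) * this
    have h3 : η⁻¹ ^ g.natDegree * η ^ (g.natDegree - (2 * j + 1)) = η⁻¹ ^ (2 * j + 1) := by
      obtain ⟨d, hd⟩ := Nat.exists_eq_add_of_le hk1
      rw [hd, Nat.add_sub_cancel_left, pow_add, mul_assoc, ← mul_pow, inv_mul_cancel₀ hη, one_pow,
        mul_one]
    rw [h1, h2, ← pow_mul, mul_pow]
    calc g.coeff (2 * j + 1) * (η⁻¹ ^ (2 * j + 1) * (1 + u) ^ (2 * j + 1)) =
        (η⁻¹ ^ (2 * j + 1)) * (g.coeff (2 * j + 1) * (1 + u) ^ (2 * j + 1)) := by ring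
      _ = (η⁻¹ ^ g.natDegree * η ^ (g.natDegree - (2 * j + 1))) *
        (g.coeff (2 * j + 1) * (1 + u) ^ (2 * j + 1)) := by rw [h3]
      _ = _ := by ring

end Pool.Agent.BCX
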