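import Pool.Agent.BCX.Inverse
import Pool.Agent.BCX.StepGb

/-!
# The new roots in characteristic two
-/

namespace Pool.Agent.BCX

open Polynomial

open scoped Topology

namespace StepGc

section

variable {A : Type} [Field A] (g : A[X])

/-- the polynomial `S(η, 0)`; the variables are `ν`, `u`, `η`, `τ` -/
noncomputable def S0 : MvPolynomial (Fin 4) A :=
  ∑ k ∈ Finset.range (g.natDegree + 1),
    MvPolynomial.C (g.coeff k) * MvPolynomial.X 2 ^ (g.natDegree - k)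

/-- the polynomial `(S(η, u) - S(η, 0)) / u ^ 2` -/
noncomputable def S1 : MvPolynomial (Fin 4) A :=
  ∑ k ∈ Finset.range (g.natDegree + 1),
    MvPolynomial.C (g.coeff k) * MvPolynomial.X 2 ^ (g.natDegree - k) *
      ∑ i ∈ Finset.range ((k - 1) / 2), (1 + MvPolynomial.X 1 ^ 2) ^ i

/-- the equation for `ν` -/
noncomputable def FF (c : A) : MvPolynomial (Fin 4) A :=
  S0 g * (MvPolynomial.X 0 ^ 2 + MvPolynomial.X 3 * MvPolynomial.X 0 ^ 3 + MvPolynomial.X 0 + 1 +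
    MvPolynomial.C c * (1 + MvPolynomial.X 3 * MvPolynomial.X 0 + MvPolynomial.X 3)) *
      (1 + MvPolynomial.X 3 * MvPolynomial.X 0) ^ 2 +
  (1 + MvPolynomial.X 3 + MvPolynomial.C c * MvPolynomial.X 3 ^ 2) *
    (1 + MvPolynomial.X 3 * MvPolynomial.X 0 + MvPolynomial.X 3) * S1 g

/-- the four polynomials -/
noncomputable def ff (c : A) : Fin 4 → MvPolynomial (Fin 4) A :=
  ![MvPolynomial.X 1 * (1 + MvPolynomial.X 3 * MvPolynomial.X 0) - MvPolynomial.X 3, FF g c,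
    MvPolynomial.X 2, MvPolynomial.X 3]

lemma pderiv_S0 : MvPolynomial.pderiv 0 (S0 g) = 0 := by
  unfold S0
  rw [map_sum]
  refine Finset.sum_eq_zero fun k _ => ?_
  rw [Derivation.leibniz, MvPolynomial.pderiv_C, Derivation.leibniz_pow,
    MvPolynomial.pderiv_X_of_ne (by decide)]
  simp

lemma pderiv_S1 : MvPolynomial.pderiv 0 (S1 g) = 0 := by
  unfold S1
  rw [map_sum]
  refine Finset.sum_eq_zero fun k _ => ?_
  have h1 : MvPolynomial.pderiv 0 (MvPolynomial.C (g.coeff k) *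
      (MvPolynomial.X 2 : MvPolynomial (Fin 4) A) ^ (g.natDegree - k)) = 0 := by
    rw [Derivation.leibniz, MvPolynomial.pderiv_C, Derivation.leibniz_pow,
      MvPolynomial.pderiv_X_of_ne (by decide)]
    simp
  have h2 : MvPolynomial.pderiv 0 (∑ i ∈ Finset.range ((k - 1) / 2),
      (1 + (MvPolynomial.X 1 : MvPolynomial (Fin 4) A) ^ 2) ^ i) = 0 := by
    rw [map_sum]
    refine Finset.sum_eq_zero fun i _ => ?_
    rw [Derivation.leibniz_pow, map_add, Derivation.leibniz_pow,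
      MvPolynomial.pderiv_X_of_ne (by decide)]
    simp
  rw [Derivation.leibniz, h1, h2]
  simp

end

section

variable {A 𝕜 : Type} [Field A] [NontriviallyNormedField 𝕜] [Algebra A 𝕜] (g : A[X])

lemma aeval_S0 (v : Fin 4 → 𝕜) :
    MvPolynomial.aeval v (S0 g) = bigS (g.map (algebraMap A 𝕜)) (v 2) 0 := by
  unfold S0 bigS
  rw [map_sum, natDegree_map]
  refine Finset.sum_congr rfl fun k _ => ?_
  rw [coeff_map, map_mul, map_pow, MvPolynomial.aeval_C, MvPolynomial.aeval_X]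
  simp

lemma bigS_eq (v : Fin 4 → 𝕜) :
    bigS (g.map (algebraMap A 𝕜)) (v 2) (v 1) =
      MvPolynomial.aeval v (S0 g) + v 1 ^ 2 * MvPolynomial.aeval v (S1 g) := by
  unfold S0 S1 bigS
  rw [map_sum, map_sum, natDegree_map, Finset.mul_sum, ← Finset.sum_add_distrib]
  refine Finset.sum_congr rfl fun k _ => ?_
  rw [coeff_map, map_mul, map_pow, MvPolynomial.aeval_C, MvPolynomial.aeval_X, map_mul, map_mul,
    map_pow, MvPolynomial.aeval_C, MvPolynomial.aeval_X, map_sum]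
  have h1 : ∑ i ∈ Finset.range ((k - 1) / 2),
      MvPolynomial.aeval v ((1 + (MvPolynomial.X 1 : MvPolynomial (Fin 4) A) ^ 2) ^ i) =
      ∑ i ∈ Finset.range ((k - 1) / 2), (1 + v 1 ^ 2) ^ i := by
    refine Finset.sum_congr rfl fun i _ => ?_
    rw [map_pow, map_add, map_one, map_pow, MvPolynomial.aeval_X]
  have h2 := mul_geom_sum (1 + v 1 ^ 2) ((k - 1) / 2)
  rw [h1]
  linear_combination (-(algebraMap A 𝕜 (g.coeff k) * v 2 ^ (g.natDegree - k))) * h2

/-- the point -/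
noncomputable def pt (ν0 : A) : Fin 4 → 𝕜 := ![algebraMap A 𝕜 ν0, 0, 0, 0]

lemma aeval_S0_pt (ν0 : A) :
    MvPolynomial.aeval (pt ν0 : Fin 4 → 𝕜) (S0 g) = algebraMap A 𝕜 g.leadingCoeff := by
  unfold S0
  rw [map_sum, Finset.sum_eq_single g.natDegree]
  · rw [map_mul, MvPolynomial.aeval_C, Nat.sub_self, pow_zero, map_one, mul_one]
    rfl
  · intro k hk hne
    rw [map_mul, map_pow, MvPolynomial.aeval_X]
    have h1 : (pt ν0 : Fin 4 → 𝕜) 2 = 0 := rfl
    have h2 : g.natDegree - k ≠ 0 := by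
      rw [Finset.mem_range] at hk
      omega
    rw [h1, zero_pow h2, mul_zero]
  · intro h
    exact absurd (Finset.mem_range.mpr (Nat.lt_succ_self _)) h

lemma aeval_S1_pt {m : ℕ} (hm : g.natDegree = 2 * m + 1) (ν0 : A) :
    MvPolynomial.aeval (pt ν0 : Fin 4 → 𝕜) (S1 g) = algebraMap A 𝕜 g.leadingCoeff * m := by
  unfold S1
  rw [map_sum, Finset.sum_eq_single g.natDegree]
  · have h3 : (g.natDegree - 1) / 2 = m := by omega
    rw [map_mul, map_mul, MvPolynomial.aeval_C, Nat.sub_self, pow_zero, map_one, mul_one, h3,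
      map_sum]
    congr 1
    have h4 : ∀ i ∈ Finset.range m, MvPolynomial.aeval (pt ν0 : Fin 4 → 𝕜)
        ((1 + (MvPolynomial.X 1 : MvPolynomial (Fin 4) A) ^ 2) ^ i) = 1 := by
      intro i _
      rw [map_pow, map_add, map_one, map_pow, MvPolynomial.aeval_X]
      have h1 : (pt ν0 : Fin 4 → 𝕜) 1 = 0 := rfl
      rw [h1]
      simp
    rw [Finset.sum_congr rfl h4]
    simp
  · intro k hk hne
    rw [map_mul, map_mul, map_pow, MvPolynomial.aeval_X]
    have h1 : (pt ν0 : Fin 4 → 𝕜) 2 = 0 := rfl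
    have h2 : g.natDegree - k ≠ 0 := by
      rw [Finset.mem_range] at hk
      omega
    rw [h1, zero_pow h2, mul_zero, zero_mul]
  · intro h
    exact absurd (Finset.mem_range.mpr (Nat.lt_succ_self _)) h

lemma aeval_FF (c : A) (v : Fin 4 → 𝕜) :
    MvPolynomial.aeval v (FF g c) =
      MvPolynomial.aeval v (S0 g) * (v 0 ^ 2 + v 3 * v 0 ^ 3 + v 0 + 1 +
        algebraMap A 𝕜 c * (1 + v 3 * v 0 + v 3)) * (1 + v 3 * v 0) ^ 2 +
      (1 + v 3 + algebraMap A 𝕜 c * v 3 ^ 2) * (1 + v 3 * v 0 + v 3) *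
        MvPolynomial.aeval v (S1 g) := by
  unfold FF
  simp only [map_add, map_mul, map_pow, map_one, MvPolynomial.aeval_X, MvPolynomial.aeval_C]

lemma pderiv_FF [CharP A 2] (c ν0 : A) :
    MvPolynomial.aeval (pt ν0 : Fin 4 → 𝕜) (MvPolynomial.pderiv 0 (FF g c)) =
      algebraMap A 𝕜 g.leadingCoeff := by
  have h2 : (2 : 𝕜) = 0 := by
    have : CharP 𝕜 2 := charP_of_injective_algebraMap (algebraMap A 𝕜).injective 2
    exact_mod_cast CharP.cast_eq_zero 𝕜 2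
  have e0 : (pt ν0 : Fin 4 → 𝕜) 0 = algebraMap A 𝕜 ν0 := rfl
  have e3 : (pt ν0 : Fin 4 → 𝕜) 3 = 0 := rfl
  have d3 : MvPolynomial.pderiv 0 (MvPolynomial.X 3 : MvPolynomial (Fin 4) A) = 0 :=
    MvPolynomial.pderiv_X_of_ne (by decide)
  unfold FF
  simp only [map_add, Derivation.leibniz, Derivation.leibniz_pow, pderiv_S0, pderiv_S1,
    MvPolynomial.pderiv_X_self, d3, MvPolynomial.pderiv_C, MvPolynomial.pderiv_one, smul_eq_mul,
    map_mul, map_pow, map_one, map_zero, MvPolynomial.aeval_X, e0, e3, aeval_S0_pt, map_nsmul]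
  simp
  linear_combination (algebraMap A 𝕜 g.leadingCoeff * algebraMap A 𝕜 ν0) * h2

end

end StepGc

open StepGc in
/-- ROW G3c: the new roots. Here `n = 2 m + 1`, `θ0` and `c` are constants and `ν0`
is a root of `ν ^ 2 + ν = 1 + m + c θ0`. -/
theorem new_root {A 𝕜 : Type} [Field A] [CharP A 2] [NontriviallyNormedField 𝕜]
    [CompleteSpace 𝕜] [Algebra A 𝕜] (g : A[X]) (hg : X * derivative g = g) {m : ℕ}
    (hm : g.natDegree = 2 * m + 1) (c θ0 ν0 : A) (hν : ν0 ^ 2 + ν0 = 1 + m + c * θ0)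
    {U : Set 𝕜} (hU : U ∈ 𝓝 (algebraMap A 𝕜 ν0)) :
    ∀ᶠ w : 𝕜 × 𝕜 in 𝓝 (0, 0), ∃ ν ∈ U, ∃ u : 𝕜, ‖u‖ < 1 / 2 ∧ u * (1 + w.2 * ν) = w.2 ∧
      (1 + w.2 + algebraMap A 𝕜 (c * θ0) * w.2 ^ 2) * (1 + u) * u ^ 2 *
        bigS (g.map (algebraMap A 𝕜)) w.1 u = w.2 ^ 2 * bigS (g.map (algebraMap A 𝕜)) w.1 0 := by
  have h2 : (2 : 𝕜) = 0 := by
    have : CharP 𝕜 2 := charP_of_injective_algebraMap (algebraMap A 𝕜).injective 2
    exact_mod_cast CharP.cast_eq_zero 𝕜 2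
  have hl : algebraMap A 𝕜 g.leadingCoeff ≠ 0 := by
    rw [Ne, map_eq_zero, leadingCoeff_eq_zero]
    rintro rfl
    rw [natDegree_zero] at hm
    omega
  set γ : A := c * θ0 with hγ
  -- the value
  have hval : (fun i => MvPolynomial.aeval (pt ν0 : Fin 4 → 𝕜) (ff g γ i)) = ![0, 0, 0, 0] := by
    funext i
    fin_cases i
    · simp [ff, pt]
    · show MvPolynomial.aeval (pt ν0 : Fin 4 → 𝕜) (FF g γ) = 0
      rw [aeval_FF, aeval_S0_pt, aeval_S1_pt g hm]
      have e0 : (pt ν0 : Fin 4 → 𝕜) 0 = algebraMap A 𝕜 ν0 := rfl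
      have e3 : (pt ν0 : Fin 4 → 𝕜) 3 = 0 := rfl
      have hν' : algebraMap A 𝕜 ν0 ^ 2 + algebraMap A 𝕜 ν0 = 1 + m + algebraMap A 𝕜 γ := by
        have := congrArg (algebraMap A 𝕜) hν
        simpa using this
      rw [e0, e3]
      linear_combination (algebraMap A 𝕜 g.leadingCoeff) * hν' +
        (algebraMap A 𝕜 g.leadingCoeff) * (1 + m + algebraMap A 𝕜 γ) * h2
    · simp [ff, pt]
    · simp [ff, pt]
  have hJ : (Matrix.of fun i j => MvPolynomial.aeval (pt ν0 : Fin 4 → 𝕜)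
      (MvPolynomial.pderiv j (ff g γ i))).det ≠ 0 := by
    have e : (Matrix.of fun i j => MvPolynomial.aeval (pt ν0 : Fin 4 → 𝕜)
        (MvPolynomial.pderiv j (ff g γ i))) =
        !![0, 1, 0, -1; algebraMap A 𝕜 g.leadingCoeff,
          MvPolynomial.aeval (pt ν0 : Fin 4 → 𝕜) (MvPolynomial.pderiv 1 (FF g γ)),
          MvPolynomial.aeval (pt ν0 : Fin 4 → 𝕜) (MvPolynomial.pderiv 2 (FF g γ)),
          MvPolynomial.aeval (pt ν0 : Fin 4 → 𝕜) (MvPolynomial.pderiv 3 (FF g γ));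
          0, 0, 1, 0; 0, 0, 0, 1] := by
      ext i j
      fin_cases i
      · fin_cases j <;> simp [ff, pt, MvPolynomial.pderiv_X]
      · fin_cases j
        · exact pderiv_FF g γ ν0
        · rfl
        · rfl
        · rfl
      · fin_cases j <;> simp [ff, pt, MvPolynomial.pderiv_X]
      · fin_cases j <;> simp [ff, pt, MvPolynomial.pderiv_X]
    rw [e]
    simp [Matrix.det_succ_row_zero, Fin.sum_univ_succ, Fin.succAbove]
    rintro rfl
    simp at hl
  have hU' : {v : Fin 4 → 𝕜 | v 0 ∈ U ∧ ‖v 1‖ < 1 / 2} ∈ 𝓝 (pt ν0 : Fin 4 → 𝕜) := by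
    have c0 : Filter.Tendsto (fun v : Fin 4 → 𝕜 => v 0) (𝓝 (pt ν0)) (𝓝 (algebraMap A 𝕜 ν0)) :=
      (continuous_apply 0).tendsto _
    have c1 : Filter.Tendsto (fun v : Fin 4 → 𝕜 => ‖v 1‖) (𝓝 (pt ν0)) (𝓝 ‖(0 : 𝕜)‖) :=
      ((continuous_apply 1).norm).tendsto _
    rw [norm_zero] at c1
    exact Filter.inter_mem (c0 hU) (c1.eventually (gt_mem_nhds (by norm_num)))
  have hmain := poly_inverse (ff g γ) (pt ν0 : Fin 4 → 𝕜) hJ hU'
  rw [hval] at hmain
  have hcont : Filter.Tendsto (fun w : 𝕜 × 𝕜 => (![0, 0, w.1, w.2] : Fin 4 → 𝕜)) (𝓝 (0, 0))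
      (𝓝 ![0, 0, 0, 0]) := by
    have hc : Continuous (fun w : 𝕜 × 𝕜 => (![0, 0, w.1, w.2] : Fin 4 → 𝕜)) := by
      refine continuous_pi fun i => ?_
      fin_cases i
      · exact continuous_const
      · exact continuous_const
      · exact continuous_fst
      · exact continuous_snd
    exact hc.tendsto' _ _ rfl
  filter_upwards [hcont.eventually hmain] with w hw
  obtain ⟨v, ⟨hv0, hv1⟩, hv⟩ := hw
  have r0 : v 1 * (1 + v 3 * v 0) - v 3 = 0 := by
    have := hv 0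
    simpa [ff] using this
  have r1 : MvPolynomial.aeval v (FF g γ) = 0 := hv 1
  have r2 : v 2 = w.1 := by
    have := hv 2
    simpa [ff] using this
  have r3 : v 3 = w.2 := by
    have := hv 3
    simpa [ff] using this
  refine ⟨v 0, hv0, v 1, hv1, ?_, ?_⟩
  · rw [← r3]
    linear_combination r0
  · rw [← r2, ← r3, bigS_eq, ← aeval_S0]
    rw [aeval_FF] at r1
    generalize MvPolynomial.aeval v (S0 g) = s0 at r1 ⊢
    generalize MvPolynomial.aeval v (S1 g) = s1 at r1 ⊢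
    generalize algebraMap A 𝕜 γ = κ at r1 ⊢
    generalize v 0 = ν at r0 r1 ⊢
    generalize v 1 = u at r0 r1 ⊢
    generalize hτ : v 3 = τ at r0 r1 ⊢
    obtain ⟨a, ha⟩ : ∃ a, a = 1 + τ * ν := ⟨_, rfl⟩
    rw [← ha] at r0 r1
    have hτ' : τ = u * a := by linear_combination -r0
    have ha0 : a ≠ 0 := by
      rintro rfl
      rw [mul_zero] at hτ'
      rw [hτ'] at ha
      simp at ha
    rw [hτ'] at ha r1 ⊢
    have hν2 : u * a * ν = a - 1 := by linear_combination -ha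
    have k1 : u ^ 2 * a ^ 2 * ν ^ 2 = (a - 1) ^ 2 := by rw [← hν2]; ring
    have k3 : u ^ 3 * a ^ 3 * ν ^ 3 = (a - 1) ^ 3 := by rw [← hν2]; ring
    have k2 : u ^ 2 * a ^ 2 * ν = u * a * (a - 1) := by rw [← hν2]; ring
    refine mul_left_cancel₀ ha0 ?_
    linear_combination u ^ 4 * r1 - u ^ 2 * s0 * k1 - u ^ 2 * s0 * k3 - u ^ 2 * s0 * k2 +
      u ^ 2 * s0 * (u * a - a ^ 3 + a ^ 2) * h2

end Pool.Agent.BCX
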