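import Pool.Agent.BCX.DefsG
import Pool.Agent.BCX.StepGa
import Pool.Agent.BCX.StepGc
import Pool.Agent.BCX.TraceG

/-!
# The step `n → n + 2`
-/

namespace Pool.Agent.BCX

open Polynomial

open scoped Topology

namespace StepG

/-- a root with nonzero derivative is separable -/
theorem isSeparable_of_root {A E : Type} [Field A] [Field E] [Algebra A E] (h : A[X]) (x : E)
    (h0 : aeval x h = 0) (h1 : aeval x (derivative h) ≠ 0) : IsSeparable A x := by
  have hh : h ≠ 0 := by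
    rintro rfl
    simp at h1
  have hint : IsIntegral A x := isAlgebraic_iff_isIntegral.1 ⟨h, hh, h0⟩
  rw [IsSeparable, separable_iff_derivative_ne_zero (minpoly.irreducible hint)]
  intro hd
  obtain ⟨k, hk⟩ := minpoly.dvd A x h0
  apply h1
  rw [hk, derivative_mul, hd, zero_mul, zero_add, map_mul, minpoly.aeval, zero_mul]

/-- telescoping -/
theorem sum_pow_two {B : Type} [CommRing B] [CharP B 2] (t : B) (s : ℕ) :
    (∑ i ∈ Finset.range s, t ^ 2 ^ i) ^ 2 + ∑ i ∈ Finset.range s, t ^ 2 ^ i = t ^ 2 ^ s + t := by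
  induction s with
  | zero =>
    simp only [Finset.range_zero, Finset.sum_empty, pow_zero, pow_one]
    rw [CharTwo.add_self_eq_zero]
    ring
  | succ s ih =>
    rw [Finset.sum_range_succ, CharTwo.add_sq, pow_succ 2 s, pow_mul]
    have h : t ^ 2 ^ s + t ^ 2 ^ s = 0 := CharTwo.add_self_eq_zero _
    linear_combination ih + h

/-- natural numbers in characteristic two -/
theorem natCast_pow_two {B : Type} [CommRing B] [CharP B 2] (N i : ℕ) :
    ((N : B)) ^ 2 ^ i = N := by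
  rcases Nat.even_or_odd' N with ⟨k, rfl | rfl⟩
  · have : ((2 * k : ℕ) : B) = 0 := by
      rw [Nat.cast_mul, Nat.cast_two, CharTwo.two_eq_zero, zero_mul]
    rw [this, zero_pow (by positivity)]
  · have : ((2 * k + 1 : ℕ) : B) = 1 := by
      rw [Nat.cast_add, Nat.cast_mul, Nat.cast_two, CharTwo.two_eq_zero, zero_mul, zero_add,
        Nat.cast_one]
    rw [this, one_pow]

theorem trace_add {B : Type} [CommRing B] [CharP B 2] (x y : B) (s : ℕ) :
    ∑ i ∈ Finset.range s, (x + y) ^ 2 ^ i =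
      ∑ i ∈ Finset.range s, x ^ 2 ^ i + ∑ i ∈ Finset.range s, y ^ 2 ^ i := by
  rw [← Finset.sum_add_distrib]
  have : ExpChar B 2 := ExpChar.prime Nat.prime_two
  exact Finset.sum_congr rfl fun i _ => add_pow_expChar_pow x y 2 i

/-- the constant -/
theorem exists_nu {K : Type} [Field K] [Finite K] [CharP K 2] {s : ℕ} (hK : Nat.card K = 2 ^ s)
    (m : ℕ) {c : K} (hc : ∑ i ∈ Finset.range s, c ^ 2 ^ i = 1) :
    ∃ ν : K, ν ^ 2 + ν = 1 + m + c * ((s * (1 + m) : ℕ) : K) := by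
  refine exists_artin_schreier hK ?_
  rw [trace_add]
  have h1 : ∀ i ∈ Finset.range s, (1 + (m : K)) ^ 2 ^ i = 1 + (m : K) := by
    intro i _
    have := natCast_pow_two (B := K) (1 + m) i
    push_cast at this
    exact this
  have h2 : ∀ i ∈ Finset.range s, (c * ((s * (1 + m) : ℕ) : K)) ^ 2 ^ i =
      c ^ 2 ^ i * ((s * (1 + m) : ℕ) : K) := by
    intro i _
    rw [mul_pow, natCast_pow_two]
  rw [Finset.sum_congr rfl h1, Finset.sum_congr rfl h2, ← Finset.sum_mul, hc, one_mul,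
    Finset.sum_const, Finset.card_range, nsmul_eq_mul]
  push_cast
  exact CharTwo.add_self_eq_zero _

section Eq

variable {𝕜 : Type} [Field 𝕜] [CharP 𝕜 2]

/-- `1 / w` for `w = ∑ (c / Y) ^ (2 ^ i)` -/
noncomputable def ta (s : ℕ) (c Y : 𝕜) : 𝕜 :=
  Y ^ 2 ^ (s - 1) / ∑ i ∈ Finset.range s, c ^ 2 ^ i * Y ^ (2 ^ (s - 1) - 2 ^ i)

omit [CharP 𝕜 2] in
theorem ta_eq {s : ℕ} {c Y : 𝕜} (hY : Y ≠ 0) :
    ta s c Y = (∑ i ∈ Finset.range s, (c / Y) ^ 2 ^ i)⁻¹ := by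
  unfold ta
  have h : ∑ i ∈ Finset.range s, c ^ 2 ^ i * Y ^ (2 ^ (s - 1) - 2 ^ i) =
      Y ^ 2 ^ (s - 1) * ∑ i ∈ Finset.range s, (c / Y) ^ 2 ^ i := by
    rw [Finset.mul_sum]
    refine Finset.sum_congr rfl fun i hi => ?_
    have h2 : 2 ^ i ≤ 2 ^ (s - 1) :=
      Nat.pow_le_pow_right (by norm_num) (by have := Finset.mem_range.1 hi; omega)
    rw [div_pow, pow_sub₀ Y hY h2]
    field_simp
  rw [h, div_mul_eq_div_div, div_self (pow_ne_zero _ hY), one_div]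

/-- the identity for `c Θ` -/
theorem ta_rel {s : ℕ} {c Y θ0 : 𝕜} (hY : Y ≠ 0) (hc : c ^ 2 ^ s = c) (hta : ta s c Y ≠ 0) :
    1 + ta s c Y + c * θ0 * ta s c Y ^ 2 =
      ta s c Y ^ 2 * (c * (Y⁻¹ ^ 2 ^ s + Y⁻¹ + θ0)) := by
  have h := sum_pow_two (c / Y) s
  rw [ta_eq hY] at hta ⊢
  set w := ∑ i ∈ Finset.range s, (c / Y) ^ 2 ^ i with hw
  have hw0 : w ≠ 0 := fun h0 => hta (by rw [h0, inv_zero])
  have h2 : c * (Y⁻¹ ^ 2 ^ s + Y⁻¹ + θ0) = w ^ 2 + w + c * θ0 := by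
    rw [h, div_eq_mul_inv, mul_pow, hc]
    ring
  rw [h2]
  field_simp

/-- the equation at the new points -/
theorem new_point {g : 𝕜[X]} (hg : X * derivative g = g) {s : ℕ} {c θ0 Y η r u ta0 : 𝕜}
    (hη : η ≠ 0) (hta0 : ta0 ≠ 0)
    (hrel : 1 + ta0 + c * θ0 * ta0 ^ 2 = ta0 ^ 2 * (c * (Y⁻¹ ^ 2 ^ s + Y⁻¹ + θ0)))
    (hYη : η⁻¹ ^ g.natDegree * r = Y⁻¹ ^ 2 ^ s) (hY : Y ≠ 0) (hr : r ≠ 0)
    (hq : 1 + Y ^ (2 ^ s - 1) + θ0 * Y ^ 2 ^ s ≠ 0)
    (h : (1 + ta0 + c * θ0 * ta0 ^ 2) * (1 + u) * u ^ 2 * bigS g η u = ta0 ^ 2 * bigS g η 0) :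
    c * (g.eval (η⁻¹ * (1 + u)) * (1 + η ^ 2 * (η⁻¹ * (1 + u)) ^ 2)) =
      r⁻¹ * bigS g η 0 / (1 + Y ^ (2 ^ s - 1) + θ0 * Y ^ 2 ^ s) := by
  have h1 : 1 + η ^ 2 * (η⁻¹ * (1 + u)) ^ 2 = u ^ 2 := by
    rw [mul_pow, ← mul_assoc, ← mul_pow, mul_inv_cancel₀ hη, one_pow, one_mul, CharTwo.add_sq,
      one_pow, ← add_assoc, CharTwo.add_self_eq_zero, zero_add]
  rw [h1, eval_bigS g hg hη]
  rw [hrel] at h
  have h2 : c * (Y⁻¹ ^ 2 ^ s + Y⁻¹ + θ0) * (1 + u) * u ^ 2 * bigS g η u = bigS g η 0 := by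
    have h3 : ta0 ^ 2 ≠ 0 := pow_ne_zero _ hta0
    apply mul_left_cancel₀ h3
    linear_combination h
  rw [eq_div_iff hq]
  have h4 : Y⁻¹ ^ 2 ^ s + Y⁻¹ + θ0 = Y⁻¹ ^ 2 ^ s * (1 + Y ^ (2 ^ s - 1) + θ0 * Y ^ 2 ^ s) := by
    have h5 : Y⁻¹ ^ 2 ^ s * Y ^ 2 ^ s = 1 := by
      rw [← mul_pow, inv_mul_cancel₀ hY, one_pow]
    have h6 : Y ^ 2 ^ s = Y ^ (2 ^ s - 1) * Y := by
      rw [← pow_succ, Nat.sub_add_cancel (Nat.one_le_two_pow)]
    have h7 : Y⁻¹ ^ 2 ^ s * Y ^ (2 ^ s - 1) = Y⁻¹ := by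
      have h8 : Y⁻¹ ^ 2 ^ s * Y ^ (2 ^ s - 1) * Y = 1 := by rw [mul_assoc, ← h6, h5]
      exact eq_inv_of_mul_eq_one_left h8
    linear_combination -h7 - θ0 * h5
  rw [h4, ← hYη] at h2
  rw [← h2]
  field_simp

end Eq

section Ev

variable {𝕜 : Type} [NontriviallyNormedField 𝕜]

theorem continuous_bigS (g : 𝕜[X]) : Continuous (fun η : 𝕜 => bigS g η 0) := by
  unfold bigS
  fun_prop

theorem bigS_zero (g : 𝕜[X]) : bigS g 0 0 = g.leadingCoeff := by
  unfold bigS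
  rw [Finset.sum_eq_single g.natDegree]
  · simp
  · intro k hk hk'
    have : g.natDegree - k ≠ 0 := by
      have := Finset.mem_range.1 hk
      omega
    rw [zero_pow this]
    simp
  · simp

/-- the denominator of `ta` -/
noncomputable def den (s : ℕ) (c Y : 𝕜) : 𝕜 :=
  ∑ i ∈ Finset.range s, c ^ 2 ^ i * Y ^ (2 ^ (s - 1) - 2 ^ i)

theorem continuous_den (s : ℕ) (c : 𝕜) : Continuous (den s c) := by
  unfold den
  fun_prop

theorem den_zero {s : ℕ} (hs : 1 ≤ s) (c : 𝕜) : den s c 0 = c ^ 2 ^ (s - 1) := by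
  unfold den
  rw [Finset.sum_eq_single (s - 1)]
  · simp
  · intro i hi hi'
    have h1 : i < s - 1 := by
      have := Finset.mem_range.1 hi
      omega
    have h2 : 2 ^ i < 2 ^ (s - 1) := Nat.pow_lt_pow_right (by norm_num) h1
    rw [zero_pow (by omega), mul_zero]
  · intro h
    exact absurd (Finset.mem_range.2 (by omega)) h

theorem ta_tendsto {s : ℕ} (hs : 1 ≤ s) {c : 𝕜} (hc : c ≠ 0) :
    Filter.Tendsto (ta s c) (𝓝 0) (𝓝 0) := by
  have h0 : den s c 0 ≠ 0 := by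
    rw [den_zero hs]
    exact pow_ne_zero _ hc
  have h : ContinuousAt (ta s c) 0 := by
    have h1 : ContinuousAt (fun Y : 𝕜 => Y ^ 2 ^ (s - 1)) 0 := by fun_prop
    exact h1.div (continuous_den s c).continuousAt h0
  have h2 : ta s c 0 = 0 := by
    unfold ta
    rw [zero_pow (by positivity), zero_div]
  rw [ContinuousAt, h2] at h
  exact h

theorem ta_ne {s : ℕ} (hs : 1 ≤ s) {c : 𝕜} (hc : c ≠ 0) :
    ∀ᶠ Y in 𝓝 (0 : 𝕜), Y ≠ 0 → ta s c Y ≠ 0 := by
  have h0 : den s c 0 ≠ 0 := by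
    rw [den_zero hs]
    exact pow_ne_zero _ hc
  filter_upwards [(continuous_den s c).continuousAt.eventually_ne h0] with Y hY hY0
  exact div_ne_zero (pow_ne_zero _ hY0) hY

end Ev

section Main

variable {A 𝕜 : Type} [Field A] [CharP A 2] [NontriviallyNormedField 𝕜] [CompleteSpace 𝕜]
  [Algebra A 𝕜]

/-- `η` as a function of the parameter -/
noncomputable def et (r : 𝕜) (i q : ℕ) (β : 𝕜) : 𝕜 := r ^ i * β ^ q

/-- `α'` as a function of the parameter -/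
noncomputable def al (g : 𝕜[X]) (r θ0 : 𝕜) (i j q n : ℕ) (β : 𝕜) : 𝕜 :=
  r⁻¹ * bigS g (et r i q β) 0 / (1 + et r j n β ^ (q - 1) + θ0 * et r j n β ^ q)

omit [CompleteSpace 𝕜] in
theorem et_tendsto (r : 𝕜) (i : ℕ) {q : ℕ} (hq : q ≠ 0) :
    Filter.Tendsto (et r i q) (𝓝 0) (𝓝 0) := by
  have h : Continuous (et r i q) := by
    unfold et
    fun_prop
  have h2 := h.tendsto 0
  have h3 : et r i q 0 = 0 := by
    unfold et
    rw [zero_pow hq, mul_zero]
  rwa [h3] at h2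

omit [CompleteSpace 𝕜] in
theorem al_tendsto (g : 𝕜[X]) (r θ0 : 𝕜) (i j : ℕ) {q n : ℕ} (hq : 2 ≤ q) (hn : n ≠ 0) :
    Filter.Tendsto (al g r θ0 i j q n) (𝓝 0) (𝓝 (r⁻¹ * g.leadingCoeff)) := by
  have h1 : Filter.Tendsto (fun β => r⁻¹ * bigS g (et r i q β) 0) (𝓝 0)
      (𝓝 (r⁻¹ * bigS g 0 0)) :=
    (((continuous_bigS g).tendsto 0).comp (et_tendsto r i (by omega))).const_mul _
  have h2 : Filter.Tendsto (fun β => 1 + et r j n β ^ (q - 1) + θ0 * et r j n β ^ q) (𝓝 0)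
      (𝓝 (1 + (0 : 𝕜) ^ (q - 1) + θ0 * 0 ^ q)) :=
    (((et_tendsto r j hn).pow (q - 1)).const_add 1).add (((et_tendsto r j hn).pow q).const_mul θ0)
  rw [zero_pow (by omega : q - 1 ≠ 0), zero_pow (by omega : q ≠ 0), mul_zero, add_zero,
    add_zero] at h2
  rw [bigS_zero] at h1
  have h3 := h1.div h2 one_ne_zero
  rw [div_one] at h3
  exact h3

/-- all roots, for small parameters -/
theorem eventually_roots {s : ℕ} (hs : 1 ≤ s) (g : A[X]) (hg : X * derivative g = g) {m : ℕ}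
    (hm : g.natDegree = 2 * m + 1) {c θ0 ν0 α r : A} (hν : ν0 ^ 2 + ν0 = 1 + m + c * θ0)
    (hc : c ^ 2 ^ s = c) (hc0 : c ≠ 0) (hα : α ≠ 0) (hr : r * α = g.leadingCoeff) {i j : ℕ}
    (hij : (2 * m + 1) * i = 1 + j * 2 ^ s) (S : Finset A) (hS : S.card = 2 * m + 1)
    (hSx : ∀ x ∈ S, c * g.eval x = α) :
    ∀ᶠ β in 𝓝 (0 : 𝕜), β ≠ 0 → ∃ T : Finset 𝕜, T.card = 2 * m + 1 + 2 ∧ ∀ x ∈ T,
      algebraMap A 𝕜 c * ((g.map (algebraMap A 𝕜)).eval x *
        (1 + et (algebraMap A 𝕜 r) i (2 ^ s) β ^ 2 * x ^ 2)) =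
      al (g.map (algebraMap A 𝕜)) (algebraMap A 𝕜 r) (algebraMap A 𝕜 θ0) i j (2 ^ s)
        (2 * m + 1) β := by
  classical
  set L := algebraMap A 𝕜 with hL
  have hLinj : Function.Injective L := L.injective
  have hch : CharP 𝕜 2 := charP_of_injective_algebraMap hLinj 2
  set gk := g.map L with hgk
  have hgk' : X * derivative gk = gk := by
    rw [hgk, derivative_map, ← Polynomial.map_X L, ← Polynomial.map_mul, hg]
  have hgkn : gk.natDegree = 2 * m + 1 := by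
    rw [hgk, natDegree_map_eq_of_injective hLinj, hm]
  have hgkl : gk.leadingCoeff = L g.leadingCoeff := leadingCoeff_map_of_injective hLinj g
  have hg0 : g ≠ 0 := by
    rintro rfl
    simp at hm
  have hr0 : r ≠ 0 := by
    rintro rfl
    rw [zero_mul] at hr
    exact hg0 (leadingCoeff_eq_zero.1 hr.symm)
  have hLr : L r ≠ 0 := (map_ne_zero L).2 hr0
  have hLc : L c ≠ 0 := (map_ne_zero L).2 hc0
  have hLα : L α ≠ 0 := (map_ne_zero L).2 hα
  have hq2 : 2 ≤ 2 ^ s := by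
    calc 2 = 2 ^ 1 := rfl
      _ ≤ 2 ^ s := Nat.pow_le_pow_right (by norm_num) hs
  have hal := al_tendsto gk (L r) (L θ0) i j hq2 (by omega : 2 * m + 1 ≠ 0)
  have hrl : (L r)⁻¹ * gk.leadingCoeff = L α := by
    rw [hgkl, ← hr, map_mul, ← mul_assoc, inv_mul_cancel₀ hLr, one_mul]
  rw [hrl] at hal
  -- the derivative at the old roots
  have hder : ∀ x ∈ S, (derivative g).eval x ≠ 0 := by
    intro x hx h0
    have h1 := congrArg (eval x) hg
    rw [eval_mul, h0, mul_zero] at h1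
    have h2 := hSx x hx
    rw [← h1, mul_zero] at h2
    exact hα h2.symm
  -- neighbourhoods
  obtain ⟨U, hU1, hU2⟩ := (S.image L).finite_toSet.t2_separation
  set R : ℝ := ∑ x ∈ S, (‖L x‖ + 1) with hR
  have hRx : ∀ x ∈ S, ‖L x‖ < R := by
    intro x hx
    have : ‖L x‖ + 1 ≤ R := Finset.single_le_sum (f := fun x => ‖L x‖ + 1)
      (fun y _ => by positivity) hx
    linarith
  have hnb : ∀ x ∈ S, U (L x) ∩ {z | ‖z‖ < R} ∈ 𝓝 (L x) := by
    intro x hx
    refine Filter.inter_mem ((hU1 _).2.mem_nhds (hU1 _).1) ?_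
    exact (isOpen_lt continuous_norm continuous_const).mem_nhds (hRx x hx)
  have hold : ∀ x ∈ S, ∀ᶠ β in 𝓝 (0 : 𝕜), ∃ z ∈ U (L x) ∩ {z | ‖z‖ < R},
      aeval z g * (1 + et (L r) i (2 ^ s) β ^ 2 * z ^ 2) =
        (L c)⁻¹ * al gk (L r) (L θ0) i j (2 ^ s) (2 * m + 1) β := by
    intro x hx
    have h1 := old_root g x (hder x hx) (hnb x hx)
    have h2 : L (g.eval x) = (L c)⁻¹ * L α := by
      rw [← hSx x hx, map_mul, ← mul_assoc, inv_mul_cancel₀ hLc, one_mul]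
    rw [← hL, h2] at h1
    have h3 : Filter.Tendsto (fun β => (et (L r) i (2 ^ s) β,
        (L c)⁻¹ * al gk (L r) (L θ0) i j (2 ^ s) (2 * m + 1) β)) (𝓝 0)
        (𝓝 (0, (L c)⁻¹ * L α)) :=
      (et_tendsto (L r) i (by omega)).prodMk_nhds (hal.const_mul _)
    exact h3.eventually h1
  have hold' := (Finset.eventually_all S).2 hold
  -- the new roots
  have hYt := et_tendsto (L r) j (by omega : 2 * m + 1 ≠ 0)
  have hta := (ta_tendsto hs hLc).comp hYt
  have hw : Filter.Tendsto (fun β => (et (L r) i (2 ^ s) β,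
      ta s (L c) (et (L r) j (2 * m + 1) β))) (𝓝 0) (𝓝 (0, 0)) :=
    (et_tendsto (L r) i (by omega)).prodMk_nhds hta
  have hνne : L ν0 ≠ L (ν0 + 1) := by
    intro h
    have h1 := hLinj h
    exact one_ne_zero (α := A) (by linear_combination -h1)
  obtain ⟨V1, V2, hV1o, hV2o, hV1, hV2, hV⟩ := t2_separation hνne
  have hν' : (ν0 + 1) ^ 2 + (ν0 + 1) = 1 + m + c * θ0 := by
    rw [← hν, CharTwo.add_sq]
    have h2 : (1 : A) + 1 = 0 := CharTwo.add_self_eq_zero _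
    linear_combination h2
  have hn1 := hw.eventually (new_root (𝕜 := 𝕜) g hg hm c θ0 ν0 hν (hV1o.mem_nhds hV1))
  have hn2 := hw.eventually (new_root (𝕜 := 𝕜) g hg hm c θ0 (ν0 + 1) hν' (hV2o.mem_nhds hV2))
  have hsm : ∀ᶠ β in 𝓝 (0 : 𝕜), ‖et (L r) i (2 ^ s) β‖ * (2 * R) < 1 := by
    have h1 : Filter.Tendsto (fun β => ‖et (L r) i (2 ^ s) β‖ * (2 * R)) (𝓝 0)
        (𝓝 (‖(0 : 𝕜)‖ * (2 * R))) := ((et_tendsto (L r) i (by omega)).norm).mul_const _
    rw [norm_zero, zero_mul] at h1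
    exact h1.eventually (gt_mem_nhds one_pos)
  have hden : ∀ᶠ β in 𝓝 (0 : 𝕜), 1 + et (L r) j (2 * m + 1) β ^ (2 ^ s - 1) +
      L θ0 * et (L r) j (2 * m + 1) β ^ 2 ^ s ≠ 0 := by
    have h2 : Filter.Tendsto (fun β => 1 + et (L r) j (2 * m + 1) β ^ (2 ^ s - 1) +
        L θ0 * et (L r) j (2 * m + 1) β ^ 2 ^ s) (𝓝 0)
        (𝓝 (1 + (0 : 𝕜) ^ (2 ^ s - 1) + L θ0 * 0 ^ 2 ^ s)) :=
      ((hYt.pow (2 ^ s - 1)).const_add 1).add ((hYt.pow (2 ^ s)).const_mul (L θ0))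
    rw [zero_pow (by omega : 2 ^ s - 1 ≠ 0), zero_pow (by omega : 2 ^ s ≠ 0), mul_zero, add_zero,
      add_zero] at h2
    exact h2.eventually_ne one_ne_zero
  filter_upwards [hold', hn1, hn2, hsm, hden, hYt.eventually (ta_ne hs hLc)] with β h1 h2 h3 h4 h5
    h6 hβ
  have hη : et (L r) i (2 ^ s) β ≠ 0 := mul_ne_zero (pow_ne_zero _ hLr) (pow_ne_zero _ hβ)
  have hY : et (L r) j (2 * m + 1) β ≠ 0 := mul_ne_zero (pow_ne_zero _ hLr) (pow_ne_zero _ hβ)
  have hta0 := h6 hY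
  set η := et (L r) i (2 ^ s) β with hηdef
  set Y := et (L r) j (2 * m + 1) β with hYdef
  set τ := ta s (L c) Y with hτ
  have hYη : η⁻¹ ^ gk.natDegree * L r = Y⁻¹ ^ 2 ^ s := by
    have h7 : η ^ (2 * m + 1) = L r * Y ^ 2 ^ s := by
      rw [hηdef, hYdef]
      unfold et
      rw [mul_pow, mul_pow, ← pow_mul, ← pow_mul, ← pow_mul, ← pow_mul, mul_comm i, hij, pow_add,
        pow_one, mul_comm (2 * m + 1) (2 ^ s)]
      ring
    rw [hgkn, inv_pow, inv_pow, h7]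
    field_simp
  have hcs : (L c) ^ 2 ^ s = L c := by rw [← map_pow, hc]
  have hrel := ta_rel (θ0 := L θ0) hY hcs hta0
  have hpt : ∀ u : 𝕜, (1 + τ + L (c * θ0) * τ ^ 2) * (1 + u) * u ^ 2 * bigS gk η u =
      τ ^ 2 * bigS gk η 0 → L c * (gk.eval (η⁻¹ * (1 + u)) *
        (1 + η ^ 2 * (η⁻¹ * (1 + u)) ^ 2)) =
      al gk (L r) (L θ0) i j (2 ^ s) (2 * m + 1) β := by
    intro u hu
    rw [map_mul] at hu
    exact new_point hgk' hη hta0 hrel hYη hY hLr h5 hu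
  obtain ⟨ν1, hν1, u1, hu1, hu1', he1⟩ := h2
  obtain ⟨ν2, hν2, u2, hu2, hu2', he2⟩ := h3
  choose! z hz using h1
  have hbig : ∀ u : 𝕜, ‖u‖ < 1 / 2 → R ≤ ‖η⁻¹ * (1 + u)‖ := by
    intro u hu
    have h7 : 1 / 2 ≤ ‖1 + u‖ := by
      have := norm_sub_norm_le (1 : 𝕜) (-u)
      rw [norm_neg, norm_one, sub_neg_eq_add] at this
      linarith
    rw [norm_mul, norm_inv]
    have h8 : 0 < ‖η‖ := norm_pos_iff.2 hη
    rw [le_inv_mul_iff₀ h8]
    nlinarith
  have hzinj : Set.InjOn z (S : Set A) := by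
    intro x hx y hy hxy
    by_contra hne
    have h7 := hU2 (Finset.mem_coe.2 (Finset.mem_image_of_mem L hx))
      (Finset.mem_coe.2 (Finset.mem_image_of_mem L hy)) (fun h => hne (hLinj h))
    have h8 := (hz x hx).1.1
    have h9 := (hz y hy).1.1
    rw [← hxy] at h9
    exact Set.disjoint_left.1 h7 h8 h9
  have hx12 : η⁻¹ * (1 + u1) ≠ η⁻¹ * (1 + u2) := by
    intro h
    have h7 : u1 = u2 := by
      have := mul_left_cancel₀ (inv_ne_zero hη) h
      exact add_left_cancel this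
    rw [← h7, ← hu1'] at hu2'
    have h8 : u1 ≠ 0 := by
      rintro rfl
      rw [zero_mul] at hu1'
      exact hta0 hu1'.symm
    have h9 := mul_left_cancel₀ h8 hu2'
    have h10 : ν1 = ν2 := by
      have h11 := add_left_cancel h9
      have h12 : u1 * (1 + τ * ν1) ≠ 0 := by
        rw [hu1']
        exact hta0
      rw [hu1'] at h11
      exact (mul_left_cancel₀ hta0 h11).symm
    rw [h10] at hν1
    exact Set.disjoint_left.1 hV hν1 hν2
  refine ⟨S.image z ∪ {η⁻¹ * (1 + u1), η⁻¹ * (1 + u2)}, ?_, ?_⟩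
  · rw [Finset.card_union_of_disjoint, Finset.card_image_of_injOn hzinj, hS,
      Finset.card_pair hx12]
    rw [Finset.disjoint_left]
    intro x hx hx'
    obtain ⟨y, hy, rfl⟩ := Finset.mem_image.1 hx
    have h7 : ‖z y‖ < R := (hz y hy).1.2
    rcases Finset.mem_insert.1 hx' with h | h
    · rw [h] at h7
      exact absurd (hbig u1 hu1) (not_le.2 h7)
    · rw [Finset.mem_singleton.1 h] at h7
      exact absurd (hbig u2 hu2) (not_le.2 h7)
  · intro x hx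
    rcases Finset.mem_union.1 hx with h | h
    · obtain ⟨y, hy, rfl⟩ := Finset.mem_image.1 h
      have h7 := (hz y hy).2
      have h8 : gk.eval (z y) = aeval (z y) g := by
        rw [hgk, eval_map_algebraMap]
      rw [h8, h7, ← mul_assoc, mul_inv_cancel₀ hLc, one_mul]
    · rcases Finset.mem_insert.1 h with h | h
      · rw [h]
        exact hpt u1 he1
      · rw [Finset.mem_singleton.1 h]
        exact hpt u2 he2

end Main

end StepG

theorem StepG.map_bigS {A E : Type} [Field A] [Field E] (L : A →+* E) (g : A[X]) (η u : A) :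
    bigS (g.map L) (L η) (L u) = L (bigS g η u) := by
  unfold bigS
  rw [natDegree_map_eq_of_injective L.injective, map_sum]
  refine Finset.sum_congr rfl fun k _ => ?_
  simp only [coeff_map, map_mul, map_pow, map_add, map_one]

theorem StepG.exists_bezout (m s : ℕ) : ∃ i j : ℕ, (2 * m + 1) * i = 1 + j * 2 ^ s := by
  rcases Nat.eq_zero_or_pos s with rfl | hs
  · exact ⟨1, 2 * m, by ring⟩
  · have hco : Nat.Coprime (2 * m + 1) (2 ^ s) := by
      apply Nat.Coprime.pow_right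
      rw [Nat.coprime_two_right]
      exact ⟨m, rfl⟩
    have h1 : 1 < 2 ^ s := Nat.one_lt_two_pow hs.ne'
    obtain ⟨i, -, hi⟩ := Nat.exists_mul_mod_eq_one_of_coprime hco h1
    refine ⟨i, (2 * m + 1) * i / 2 ^ s, ?_⟩
    have := Nat.mod_add_div ((2 * m + 1) * i) (2 ^ s)
    rw [hi] at this
    rw [mul_comm _ (2 ^ s)]
    exact this.symm

/-- ROW G3d: the step -/
theorem SplitG.step {K A 𝕜 : Type} [Field K] [Finite K] [CharP K 2] {s : ℕ}
    (hK : Nat.card K = 2 ^ s) [Field A] [Algebra K A] [NontriviallyNormedField 𝕜]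
    [CompleteSpace 𝕜] [Algebra K 𝕜] [Algebra A 𝕜] [IsScalarTower K A 𝕜]
    (hA : ∀ x : 𝕜, IsSeparable A x → ∃ a : A, algebraMap A 𝕜 a = x)
    (hsmall : ∀ ε : ℝ, 0 < ε → ∃ β : A, β ≠ 0 ∧ ‖algebraMap A 𝕜 β‖ < ε)
    {C : Finset K} (hC : ∀ c ∈ C, ∑ i ∈ Finset.range s, c ^ 2 ^ i = 1) {n : ℕ} (hn : 1 ≤ n)
    (h : SplitG C A n) : SplitG C A (n + 2) := by
  classical
  obtain ⟨g, α, hgn, hg, hα, hS⟩ := h
  have hch : CharP A 2 := charP_of_injective_algebraMap (algebraMap K A).injective 2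
  have hchk : CharP 𝕜 2 := charP_of_injective_algebraMap (algebraMap A 𝕜).injective 2
  set L := algebraMap A 𝕜 with hL
  have hs : 1 ≤ s := by
    rcases Nat.eq_zero_or_pos s with rfl | h
    · have : 1 < Nat.card K := Finite.one_lt_card
      rw [hK, pow_zero] at this
      exact absurd this (lt_irrefl _)
    · exact h
  have hg0 : g ≠ 0 := by
    rintro rfl
    rw [natDegree_zero] at hgn
    omega
  have hl : g.leadingCoeff ≠ 0 := leadingCoeff_ne_zero.2 hg0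
  obtain ⟨m, rfl⟩ : ∃ m, n = 2 * m + 1 := by
    have h1 := congrArg (fun P : A[X] => P.coeff n) hg
    obtain ⟨n', rfl⟩ : ∃ n', n = n' + 1 := ⟨n - 1, by omega⟩
    simp only [coeff_X_mul, coeff_derivative] at h1
    rcases Nat.even_or_odd' n' with ⟨k, rfl | rfl⟩
    · exact ⟨k, rfl⟩
    · exfalso
      apply hl
      rw [leadingCoeff, hgn, ← h1]
      push_cast
      have h2 : (2 : A) = 0 := CharTwo.two_eq_zero
      linear_combination (g.coeff (2 * k + 1 + 1) * (k + 1)) * h2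
  obtain ⟨i, j, hij⟩ := StepG.exists_bezout m s
  obtain ⟨r, hrdef⟩ : ∃ r, r = g.leadingCoeff / α := ⟨_, rfl⟩
  have hr : r * α = g.leadingCoeff := by rw [hrdef, div_mul_cancel₀ _ hα]
  have hr0 : r ≠ 0 := by
    rw [hrdef]
    exact div_ne_zero hl hα
  have hLr : L r ≠ 0 := (map_ne_zero L).2 hr0
  have hq2 : 2 ≤ 2 ^ s := by
    calc 2 = 2 ^ 1 := rfl
      _ ≤ 2 ^ s := Nat.pow_le_pow_right (by norm_num) hs
  obtain ⟨θ0, hθ0⟩ : ∃ θ0 : A, θ0 = ((s * (1 + m) : ℕ) : A) := ⟨_, rfl⟩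
  have hcc : ∀ c ∈ C, c ≠ 0 := by
    rintro c hc rfl
    have h1 := hC 0 hc
    rw [Finset.sum_eq_zero (fun i _ => zero_pow (by positivity))] at h1
    exact zero_ne_one h1
  have hev : ∀ c ∈ C, ∀ᶠ β in 𝓝 (0 : 𝕜), β ≠ 0 → ∃ T : Finset 𝕜, T.card = 2 * m + 1 + 2 ∧
      ∀ x ∈ T, L (algebraMap K A c) * ((g.map L).eval x *
        (1 + StepG.et (L r) i (2 ^ s) β ^ 2 * x ^ 2)) =
      StepG.al (g.map L) (L r) (L θ0) i j (2 ^ s) (2 * m + 1) β := by
    intro c hc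
    obtain ⟨ν, hν⟩ := StepG.exists_nu hK m (hC c hc)
    obtain ⟨S, hScard, hSx⟩ := hS c hc
    refine StepG.eventually_roots hs g hg hgn (c := algebraMap K A c) (θ0 := θ0)
      (ν0 := algebraMap K A ν) ?_ ?_ ?_ hα hr hij S hScard hSx
    · have h1 := congrArg (algebraMap K A) hν
      rw [hθ0]
      simpa using h1
    · have := Fintype.ofFinite K
      rw [← map_pow]
      congr 1
      rw [← hK, Nat.card_eq_fintype_card]
      exact FiniteField.pow_card c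
    · exact (_root_.map_ne_zero _).2 (hcc c hc)
  have hal := StepG.al_tendsto (g.map L) (L r) (L θ0) i j hq2 (by omega : 2 * m + 1 ≠ 0)
  have hrl : (L r)⁻¹ * (g.map L).leadingCoeff = L α := by
    rw [leadingCoeff_map_of_injective L.injective, ← hr, map_mul, ← mul_assoc,
      inv_mul_cancel₀ hLr, one_mul]
  rw [hrl] at hal
  have hal0 := hal.eventually_ne ((map_ne_zero L).2 hα)
  have hall := ((Finset.eventually_all C).2 hev).and hal0
  obtain ⟨ε, hε, hball⟩ := Metric.eventually_nhds_iff.1 hall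
  obtain ⟨β, hβ0, hβ⟩ := hsmall ε hε
  have hLβ : L β ≠ 0 := (map_ne_zero L).2 hβ0
  obtain ⟨hroots, hαne⟩ := hball (y := L β) (by rwa [dist_zero_right])
  obtain ⟨η, hη⟩ : ∃ η : A, η = r ^ i * β ^ 2 ^ s := ⟨_, rfl⟩
  obtain ⟨Y, hY⟩ : ∃ Y : A, Y = r ^ j * β ^ (2 * m + 1) := ⟨_, rfl⟩
  have hη0 : η ≠ 0 := by
    rw [hη]
    exact mul_ne_zero (pow_ne_zero _ hr0) (pow_ne_zero _ hβ0)
  have hLη : StepG.et (L r) i (2 ^ s) (L β) = L η := by
    unfold StepG.et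
    rw [hη, map_mul, map_pow, map_pow]
  have hLY : StepG.et (L r) j (2 * m + 1) (L β) = L Y := by
    unfold StepG.et
    rw [hY, map_mul, map_pow, map_pow]
  obtain ⟨α', hα'⟩ : ∃ α' : A,
      α' = r⁻¹ * bigS g η 0 / (1 + Y ^ (2 ^ s - 1) + θ0 * Y ^ 2 ^ s) := ⟨_, rfl⟩
  have hLα' : StepG.al (g.map L) (L r) (L θ0) i j (2 ^ s) (2 * m + 1) (L β) = L α' := by
    unfold StepG.al
    rw [hLη, hLY, hα', map_div₀, map_mul, map_inv₀, ← StepG.map_bigS L g η 0, map_zero, map_add,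
      map_add, map_one, map_mul, map_pow, map_pow]
  rw [hLα'] at hαne
  have hα'0 : α' ≠ 0 := fun h => hαne (by rw [h, map_zero])
  have h2 : (2 : A) = 0 := CharTwo.two_eq_zero
  set G : A[X] := g * (1 + Polynomial.C (η ^ 2) * X ^ 2) with hG
  have hfac : (1 + Polynomial.C (η ^ 2) * X ^ 2 : A[X]).natDegree = 2 := by
    rw [add_comm, natDegree_add_eq_left_of_natDegree_lt]
    · exact natDegree_C_mul_X_pow 2 _ (pow_ne_zero _ hη0)
    · rw [natDegree_C_mul_X_pow 2 _ (pow_ne_zero _ hη0), natDegree_one]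
      norm_num
  have hfac0 : (1 + Polynomial.C (η ^ 2) * X ^ 2 : A[X]) ≠ 0 := by
    intro h
    rw [h, natDegree_zero] at hfac
    exact absurd hfac (by norm_num)
  have hGd : X * derivative G = G := by
    have h3 : derivative (1 + Polynomial.C (η ^ 2) * X ^ 2 : A[X]) = 0 := by
      rw [derivative_add, derivative_one, zero_add, derivative_C_mul, derivative_X_pow]
      rw [Nat.cast_two, h2, C_0, zero_mul, mul_zero]
    rw [hG, derivative_mul, h3, mul_zero, add_zero, ← mul_assoc, hg]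
  refine ⟨G, α', ?_, hGd, hα'0, fun c hc => ?_⟩
  · rw [hG, natDegree_mul hg0 hfac0, hgn, hfac]
  · obtain ⟨T, hTcard, hT⟩ := hroots c hc hLβ
    have hcA : algebraMap K A c ≠ 0 := (_root_.map_ne_zero _).2 (hcc c hc)
    have hev2 : ∀ x : 𝕜, aeval x G = (g.map L).eval x *
        (1 + StepG.et (L r) i (2 ^ s) (L β) ^ 2 * x ^ 2) := by
      intro x
      rw [hG, hLη, map_mul, hL, eval_map_algebraMap]
      simp
    have hTA : ∀ x ∈ T, ∃ a : A, L a = x := by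
      intro x hx
      have h3 := hT x hx
      rw [← hev2, hLα'] at h3
      refine hA x (StepG.isSeparable_of_root
        (Polynomial.C (algebraMap K A c) * G - Polynomial.C α') x ?_ ?_)
      · rw [map_sub, map_mul, aeval_C, aeval_C, h3, sub_self]
      · rw [derivative_sub, derivative_C_mul, derivative_C, sub_zero, map_mul, aeval_C]
        refine mul_ne_zero ((map_ne_zero L).2 hcA) fun h0 => ?_
        have h4 := congrArg (aeval x) hGd
        rw [map_mul, h0, mul_zero] at h4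
        rw [← h4, mul_zero] at h3
        exact hαne h3.symm
    choose! f hf using hTA
    refine ⟨T.image f, ?_, ?_⟩
    · rw [Finset.card_image_of_injOn, hTcard]
      intro x hx y hy hxy
      rw [← hf x hx, ← hf y hy, hxy]
    · intro a ha
      obtain ⟨x, hx, rfl⟩ := Finset.mem_image.1 ha
      have h3 := hT x hx
      rw [← hev2, hLα'] at h3
      apply L.injective
      rw [map_mul, ← h3]
      congr 1
      have h4 := aeval_algebraMap_apply 𝕜 (f x) G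
      rw [← hL, hf x hx] at h4
      rw [h4, coe_aeval_eq_eval]

end Pool.Agent.BCX
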