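import Pool.Agent.BCX.DefsP

/-!
# Primitive BCH codes over fields of odd order: the polynomial `S(η, u)`
-/

namespace Pool.Agent.BCX

open Polynomial

/-- ROW Q3b (StepPb.lean): `g(b (1 + u)) = b ^ n (1 + u) ^ e S(1 / b, u)` in characteristic `p` -/
theorem eval_bigT {p : ℕ} [Fact p.Prime] {B : Type} [Field B] [CharP B p] (g : B[X])
    (hg : X * derivative g = (g.natDegree : B[X]) * g) {η : B} (hη : η ≠ 0) (u : B) :
    g.eval (η⁻¹ * (1 + u)) = η⁻¹ ^ g.natDegree * (1 + u) ^ (g.natDegree % p) *
      bigT p (g.natDegree % p) g η u := by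
  rw [eval_eq_sum_range, bigT, Finset.mul_sum]
  refine Finset.sum_congr rfl fun k hk => ?_
  have hk1 : k ≤ g.natDegree := Nat.lt_succ_iff.mp (Finset.mem_range.mp hk)
  by_cases hkn : (k : B) = (g.natDegree : B)
  · have h1 : k % p = g.natDegree % p := (CharP.natCast_eq_natCast B p).mp hkn
    rw [← h1]
    have h2 : (k - k % p) / p = k / p := by
      have h0 := Nat.mod_add_div k p
      have hp : 0 < p := (Fact.out : p.Prime).pos
      have h3 : k - k % p = p * (k / p) := by omega
      rw [h3, Nat.mul_div_cancel_left _ hp]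
    have h3 : (1 + u ^ p : B) = (1 + u) ^ p := by
      rw [add_pow_char, one_pow]
    have h4 : η⁻¹ ^ g.natDegree * η ^ (g.natDegree - k) = η⁻¹ ^ k := by
      obtain ⟨d, hd⟩ := Nat.exists_eq_add_of_le hk1
      rw [hd, Nat.add_sub_cancel_left, pow_add, mul_assoc, ← mul_pow, inv_mul_cancel₀ hη, one_pow,
        mul_one]
    have h5 : (1 + u) ^ (k % p) * ((1 + u) ^ p) ^ (k / p) = (1 + u) ^ k := by
      rw [← pow_mul, ← pow_add, Nat.mod_add_div]
    rw [h2, h3, mul_pow]
    calc g.coeff k * (η⁻¹ ^ k * (1 + u) ^ k) = g.coeff k * (η⁻¹ ^ k) * (1 + u) ^ k := by ring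
      _ = g.coeff k * (η⁻¹ ^ g.natDegree * η ^ (g.natDegree - k)) *
          ((1 + u) ^ (k % p) * ((1 + u) ^ p) ^ (k / p)) := by rw [h4, h5]
      _ = _ := by ring
  · have h0 : g.coeff k = 0 := by
      have h1 := congrArg (fun P => P.coeff k) hg
      have h2 : ((g.natDegree : B[X]) * g).coeff k = (g.natDegree : B) * g.coeff k := by
        rw [← C_eq_natCast, coeff_C_mul]
      have h3 : (X * derivative g).coeff k = (k : B) * g.coeff k := by
        rcases k with _ | k
        · simp
        · rw [coeff_X_mul, coeff_derivative]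
          push_cast
          ring
      rw [h2, h3] at h1
      by_contra h4
      exact hkn (mul_right_cancel₀ h4 h1)
    rw [h0]
    simp

end Pool.Agent.BCX
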