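import Pool.Agent.BCX.Inverse
import Pool.Agent.BCX.DefsP

/-!
# The new roots in odd characteristic
-/

namespace Pool.Agent.BCX

open Polynomial

open scoped Topology

namespace StepPc

section

variable {A : Type} [Field A] (p e : ℕ) (g : A[X])

/-- the variable `u` as a polynomial in `ν`, `ϖ`, `τ`, `σ`, `η` -/
noncomputable def uu : MvPolynomial (Fin 5) A :=
  MvPolynomial.X 2 + MvPolynomial.X 1 * MvPolynomial.X 0

/-- the polynomial `S(η, 0)` -/
noncomputable def S0 : MvPolynomial (Fin 5) A :=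
  ∑ k ∈ Finset.range (g.natDegree + 1),
    MvPolynomial.C (g.coeff k) * MvPolynomial.X 4 ^ (g.natDegree - k)

/-- the polynomial `(S(η, u) - S(η, 0)) / u ^ p` -/
noncomputable def S1 : MvPolynomial (Fin 5) A :=
  ∑ k ∈ Finset.range (g.natDegree + 1),
    MvPolynomial.C (g.coeff k) * MvPolynomial.X 4 ^ (g.natDegree - k) *
      ∑ i ∈ Finset.range ((k - e) / p), (1 + uu ^ p) ^ i

/-- the factor `σ + 2 τ ν + ϖ ν ^ 2` -/
noncomputable def RR : MvPolynomial (Fin 5) A :=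
  MvPolynomial.X 3 + 2 * MvPolynomial.X 2 * MvPolynomial.X 0 +
    MvPolynomial.X 1 * MvPolynomial.X 0 ^ 2

/-- the equation for `ν` -/
noncomputable def FF (V : A[X]) : MvPolynomial (Fin 5) A :=
  MvPolynomial.C (e : A) * (MvPolynomial.X 0 ^ p - MvPolynomial.X 0) * (1 + uu) ^ e *
    (S0 g + uu ^ p * S1 p e g) +
  RR * (aeval uu V * (S0 g + uu ^ p * S1 p e g) - uu ^ (p - 2) * S1 p e g)

/-- the five polynomials -/
noncomputable def ff (V : A[X]) : Fin 5 → MvPolynomial (Fin 5) A :=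
  ![FF p e g V, MvPolynomial.X 1, MvPolynomial.X 2, MvPolynomial.X 3, MvPolynomial.X 4]

/-- `(e u - 1) (1 + u) ^ e = - 1 + u ^ 2 V(u)` -/
lemma exists_V : ∃ V : A[X], (C (e : A) * X - 1) * (1 + X) ^ e + 1 = X ^ 2 * V := by
  have h : (X : A[X]) ^ 2 ∣ (C (e : A) * X - 1) * (1 + X) ^ e + 1 := by
    rw [X_pow_dvd_iff]
    intro d hd
    have h0 : ((1 + X : A[X]) ^ e).coeff 0 = 1 := by
      rw [coeff_one_add_X_pow]
      simp
    have h1 : ((1 + X : A[X]) ^ e).coeff 1 = e := by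
      rw [coeff_one_add_X_pow]
      simp
    interval_cases d
    · rw [coeff_add, sub_mul, coeff_sub, one_mul, mul_assoc, coeff_C_mul, coeff_X_mul_zero, h0]
      simp
    · rw [coeff_add, sub_mul, coeff_sub, one_mul, mul_assoc, coeff_C_mul, coeff_X_mul, h0, h1,
        coeff_one]
      simp
  exact h

end

section

variable {A 𝕜 : Type} [Field A] [NontriviallyNormedField 𝕜] [Algebra A 𝕜] (p e : ℕ) (g : A[X])

lemma aeval_uu (v : Fin 5 → 𝕜) :
    MvPolynomial.aeval v (uu : MvPolynomial (Fin 5) A) = v 2 + v 1 * v 0 := by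
  unfold uu
  simp only [map_add, map_mul, MvPolynomial.aeval_X]

lemma aeval_S0 (hp : 1 ≤ p) (v : Fin 5 → 𝕜) :
    MvPolynomial.aeval v (S0 g) = bigT p e (g.map (algebraMap A 𝕜)) (v 4) 0 := by
  unfold S0 bigT
  rw [map_sum, natDegree_map]
  refine Finset.sum_congr rfl fun k _ => ?_
  rw [coeff_map, map_mul, map_pow, MvPolynomial.aeval_C, MvPolynomial.aeval_X,
    zero_pow (by omega : p ≠ 0)]
  simp

lemma bigT_eq (v : Fin 5 → 𝕜) :
    bigT p e (g.map (algebraMap A 𝕜)) (v 4) (v 2 + v 1 * v 0) =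
      MvPolynomial.aeval v (S0 g) +
        (v 2 + v 1 * v 0) ^ p * MvPolynomial.aeval v (S1 p e g) := by
  unfold S0 S1 bigT
  rw [map_sum, map_sum, natDegree_map, Finset.mul_sum, ← Finset.sum_add_distrib]
  refine Finset.sum_congr rfl fun k _ => ?_
  rw [coeff_map, map_mul, map_pow, MvPolynomial.aeval_C, MvPolynomial.aeval_X, map_mul, map_mul,
    map_pow, MvPolynomial.aeval_C, MvPolynomial.aeval_X, map_sum]
  have h1 : ∑ i ∈ Finset.range ((k - e) / p),
      MvPolynomial.aeval v ((1 + (uu : MvPolynomial (Fin 5) A) ^ p) ^ i) =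
      ∑ i ∈ Finset.range ((k - e) / p), (1 + (v 2 + v 1 * v 0) ^ p) ^ i := by
    refine Finset.sum_congr rfl fun i _ => ?_
    rw [map_pow, map_add, map_one, map_pow, aeval_uu]
  have h2 := mul_geom_sum (1 + (v 2 + v 1 * v 0) ^ p) ((k - e) / p)
  rw [h1]
  linear_combination (-(algebraMap A 𝕜 (g.coeff k) * v 4 ^ (g.natDegree - k))) * h2

lemma aeval_aeval_uu (V : A[X]) (v : Fin 5 → 𝕜) :
    MvPolynomial.aeval v (aeval (uu : MvPolynomial (Fin 5) A) V) =
      aeval (v 2 + v 1 * v 0) V := by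
  rw [← Polynomial.aeval_algHom_apply, aeval_uu]

lemma aeval_FF (V : A[X]) (v : Fin 5 → 𝕜) :
    MvPolynomial.aeval v (FF p e g V) =
      (e : 𝕜) * (v 0 ^ p - v 0) * (1 + (v 2 + v 1 * v 0)) ^ e *
        (MvPolynomial.aeval v (S0 g) +
          (v 2 + v 1 * v 0) ^ p * MvPolynomial.aeval v (S1 p e g)) +
      (v 3 + 2 * v 2 * v 0 + v 1 * v 0 ^ 2) * (aeval (v 2 + v 1 * v 0) V *
        (MvPolynomial.aeval v (S0 g) +
          (v 2 + v 1 * v 0) ^ p * MvPolynomial.aeval v (S1 p e g)) -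
        (v 2 + v 1 * v 0) ^ (p - 2) * MvPolynomial.aeval v (S1 p e g)) := by
  unfold FF RR
  have h2 : MvPolynomial.aeval v (2 : MvPolynomial (Fin 5) A) = 2 := map_ofNat _ 2
  have he : MvPolynomial.aeval v (MvPolynomial.C (e : A)) = (e : 𝕜) := by
    rw [MvPolynomial.aeval_C, map_natCast]
  simp only [map_add, map_sub, map_mul, map_pow, map_one, MvPolynomial.aeval_X, he, h2,
    aeval_uu, aeval_aeval_uu]

/-- the point -/
noncomputable def pt (a : ℕ) : Fin 5 → 𝕜 := ![(a : 𝕜), 0, 0, 0, 0]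

lemma aeval_S0_pt (a : ℕ) :
    MvPolynomial.aeval (pt a : Fin 5 → 𝕜) (S0 g) = algebraMap A 𝕜 g.leadingCoeff := by
  unfold S0
  rw [map_sum, Finset.sum_eq_single g.natDegree]
  · rw [map_mul, MvPolynomial.aeval_C, Nat.sub_self, pow_zero, map_one, mul_one]
    rfl
  · intro k hk hne
    rw [map_mul, map_pow, MvPolynomial.aeval_X]
    have h1 : (pt a : Fin 5 → 𝕜) 4 = 0 := rfl
    have h2 : g.natDegree - k ≠ 0 := by
      rw [Finset.mem_range] at hk
      omega
    rw [h1, zero_pow h2, mul_zero]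
  · intro h
    exact absurd (Finset.mem_range.mpr (Nat.lt_succ_self _)) h

variable {p}

lemma pderiv_FF [Fact p.Prime] [CharP A p] (V : A[X]) (a : ℕ) :
    MvPolynomial.aeval (pt a : Fin 5 → 𝕜) (MvPolynomial.pderiv 0 (FF p e g V)) =
      -((e : 𝕜) * algebraMap A 𝕜 g.leadingCoeff) := by
  have hp := (Fact.out : p.Prime)
  have hch : CharP 𝕜 p := charP_of_injective_algebraMap (algebraMap A 𝕜).injective p
  have hp0 : (p : 𝕜) = 0 := CharP.cast_eq_zero 𝕜 p
  have e0 : (pt a : Fin 5 → 𝕜) 0 = a := rfl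
  have e1 : (pt a : Fin 5 → 𝕜) 1 = 0 := rfl
  have e2 : (pt a : Fin 5 → 𝕜) 2 = 0 := rfl
  have e3 : (pt a : Fin 5 → 𝕜) 3 = 0 := rfl
  have d1 : MvPolynomial.pderiv 0 (MvPolynomial.X 1 : MvPolynomial (Fin 5) A) = 0 :=
    MvPolynomial.pderiv_X_of_ne (by decide)
  have d2 : MvPolynomial.pderiv 0 (MvPolynomial.X 2 : MvPolynomial (Fin 5) A) = 0 :=
    MvPolynomial.pderiv_X_of_ne (by decide)
  have d3 : MvPolynomial.pderiv 0 (MvPolynomial.X 3 : MvPolynomial (Fin 5) A) = 0 :=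
    MvPolynomial.pderiv_X_of_ne (by decide)
  have d4 : MvPolynomial.pderiv 0 (MvPolynomial.X 4 : MvPolynomial (Fin 5) A) = 0 :=
    MvPolynomial.pderiv_X_of_ne (by decide)
  have hap : (a : 𝕜) ^ p = a := by
    have := ZMod.pow_card (p := p) (a : ZMod p)
    have h2 := congrArg (ZMod.castHom (dvd_refl p) 𝕜) this
    rw [map_pow, map_natCast] at h2
    exact h2
  -- the values of the parts
  have vu : MvPolynomial.aeval (pt a : Fin 5 → 𝕜) (uu : MvPolynomial (Fin 5) A) = 0 := by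
    rw [aeval_uu, e1, e2, zero_mul, add_zero]
  have du : MvPolynomial.aeval (pt a : Fin 5 → 𝕜)
      (MvPolynomial.pderiv 0 (uu : MvPolynomial (Fin 5) A)) = 0 := by
    unfold uu
    rw [map_add, d2, Derivation.leibniz, d1, MvPolynomial.pderiv_X_self]
    simp [e1]
  have vR : MvPolynomial.aeval (pt a : Fin 5 → 𝕜) (RR : MvPolynomial (Fin 5) A) = 0 := by
    unfold RR
    simp only [map_add, map_mul, map_pow, MvPolynomial.aeval_X, e1, e2, e3]
    ring
  have dR : MvPolynomial.aeval (pt a : Fin 5 → 𝕜)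
      (MvPolynomial.pderiv 0 (RR : MvPolynomial (Fin 5) A)) = 0 := by
    unfold RR
    simp only [map_add, Derivation.leibniz, Derivation.leibniz_pow, d1, d2, d3,
      MvPolynomial.pderiv_X_self, smul_eq_mul, map_mul, map_pow, MvPolynomial.aeval_X, e1, e2,
      mul_zero, zero_mul, add_zero, map_one, zero_add, map_nsmul]
  have dS : MvPolynomial.aeval (pt a : Fin 5 → 𝕜)
      (MvPolynomial.pderiv 0 (S0 g + uu ^ p * S1 p e g)) = 0 := by
    have h0 : MvPolynomial.pderiv 0 (S0 g) = 0 := by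
      unfold S0
      rw [map_sum]
      refine Finset.sum_eq_zero fun k _ => ?_
      rw [Derivation.leibniz, MvPolynomial.pderiv_C, Derivation.leibniz_pow, d4]
      simp
    rw [map_add, h0, zero_add, Derivation.leibniz, Derivation.leibniz_pow]
    simp only [map_add, smul_eq_mul, map_mul, map_pow, vu, map_nsmul, du,
      zero_pow hp.ne_zero, zero_mul, mul_zero, smul_zero, add_zero]
  have vS : MvPolynomial.aeval (pt a : Fin 5 → 𝕜) (S0 g + uu ^ p * S1 p e g) =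
      algebraMap A 𝕜 g.leadingCoeff := by
    rw [map_add, aeval_S0_pt, map_mul, map_pow, vu, zero_pow hp.ne_zero, zero_mul, add_zero]
  unfold FF
  generalize (S0 g + uu ^ p * S1 p e g) = Q at dS vS
  rw [map_add, map_add, Derivation.leibniz _ (RR : MvPolynomial (Fin 5) A),
    Derivation.leibniz _ (MvPolynomial.C (e : A) *
      (MvPolynomial.X 0 ^ p - MvPolynomial.X 0) * (1 + uu) ^ e),
    Derivation.leibniz _ (MvPolynomial.C (e : A) * (MvPolynomial.X 0 ^ p - MvPolynomial.X 0)),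
    Derivation.leibniz _ (MvPolynomial.C (e : A))]
  simp only [smul_eq_mul, map_add, map_mul, map_pow, map_sub, vR, dR, dS, vS, vu, du,
    zero_mul, mul_zero, add_zero, map_one, one_pow, MvPolynomial.pderiv_C,
    Derivation.leibniz_pow, MvPolynomial.pderiv_one, map_nsmul, smul_zero, zero_add,
    MvPolynomial.pderiv_X_self, mul_one, MvPolynomial.aeval_X, e0, hap, sub_self]
  have he : MvPolynomial.aeval (pt a : Fin 5 → 𝕜) (MvPolynomial.C (e : A)) = (e : 𝕜) := by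
    rw [MvPolynomial.aeval_C, map_natCast]
  rw [he, nsmul_eq_mul, hp0]
  ring

end

end StepPc

open StepPc in
/-- ROW Q3c: the new roots; the parameters `w` are `(ϖ, τ, σ, η)` -/
theorem new_rootP {p : ℕ} [Fact p.Prime] {A 𝕜 : Type} [Field A] [CharP A p]
    [NontriviallyNormedField 𝕜] [CompleteSpace 𝕜] [Algebra A 𝕜] (g : A[X]) (hg : g ≠ 0) {e : ℕ}
    (he : (e : A) ≠ 0) (a : ℕ) {U : Set 𝕜} (hU : U ∈ 𝓝 (a : 𝕜)) :
    ∀ᶠ w : 𝕜 × 𝕜 × 𝕜 × 𝕜 in 𝓝 (0, 0, 0, 0), w.2.1 ^ 2 = w.1 * w.2.2.1 →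
      ∃ ν ∈ U, ‖w.2.1 + w.1 * ν‖ < 1 / 2 ∧
        (e * (w.2.1 + w.1 * ν) - 1 + e * w.1 * (ν ^ p - ν)) * (1 + (w.2.1 + w.1 * ν)) ^ e *
          bigT p e (g.map (algebraMap A 𝕜)) w.2.2.2 (w.2.1 + w.1 * ν) +
          bigT p e (g.map (algebraMap A 𝕜)) w.2.2.2 0 = 0 := by
  have hp := (Fact.out : p.Prime)
  have hch : CharP 𝕜 p := charP_of_injective_algebraMap (algebraMap A 𝕜).injective p
  have hl : algebraMap A 𝕜 g.leadingCoeff ≠ 0 := by
    rw [Ne, map_eq_zero, leadingCoeff_eq_zero]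
    exact hg
  have hek : (e : 𝕜) ≠ 0 := by
    have : algebraMap A 𝕜 (e : A) ≠ 0 := (_root_.map_ne_zero _).2 he
    rwa [map_natCast] at this
  have hap : (a : 𝕜) ^ p = a := by
    have := ZMod.pow_card (p := p) (a : ZMod p)
    have h2 := congrArg (ZMod.castHom (dvd_refl p) 𝕜) this
    rw [map_pow, map_natCast] at h2
    exact h2
  obtain ⟨V, hV⟩ := exists_V (A := A) e
  have hval : (fun i => MvPolynomial.aeval (pt a : Fin 5 → 𝕜) (ff p e g V i)) =
      ![0, 0, 0, 0, 0] := by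
    funext i
    fin_cases i
    · show MvPolynomial.aeval (pt a : Fin 5 → 𝕜) (FF p e g V) = 0
      rw [aeval_FF]
      have e0 : (pt a : Fin 5 → 𝕜) 0 = a := rfl
      have e1 : (pt a : Fin 5 → 𝕜) 1 = 0 := rfl
      have e2 : (pt a : Fin 5 → 𝕜) 2 = 0 := rfl
      have e3 : (pt a : Fin 5 → 𝕜) 3 = 0 := rfl
      rw [e0, e1, e2, e3, hap]
      ring
    · simp [ff, pt]
    · simp [ff, pt]
    · simp [ff, pt]
    · simp [ff, pt]
  have hJ : (Matrix.of fun i j => MvPolynomial.aeval (pt a : Fin 5 → 𝕜)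
      (MvPolynomial.pderiv j (ff p e g V i))).det ≠ 0 := by
    have hM : (Matrix.of fun i j => MvPolynomial.aeval (pt a : Fin 5 → 𝕜)
        (MvPolynomial.pderiv j (ff p e g V i))).BlockTriangular id := by
      intro i j hij
      fin_cases i
      · exact absurd hij (by simp)
      all_goals
        fin_cases j <;> first
          | (exact absurd hij (by decide))
          | simp [ff, MvPolynomial.pderiv_X]
    rw [Matrix.det_of_isUpperTriangular hM]
    rw [Fin.prod_univ_five]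
    have h0 : MvPolynomial.aeval (pt a : Fin 5 → 𝕜) (MvPolynomial.pderiv 0 (ff p e g V 0)) =
        -((e : 𝕜) * algebraMap A 𝕜 g.leadingCoeff) := pderiv_FF e g V a
    simp only [Matrix.of_apply, h0]
    simp [ff, hek, hg]
  have hU' : {v : Fin 5 → 𝕜 | v 0 ∈ U ∧ ‖v 2 + v 1 * v 0‖ < 1 / 2} ∈
      𝓝 (pt a : Fin 5 → 𝕜) := by
    have c0 : Filter.Tendsto (fun v : Fin 5 → 𝕜 => v 0) (𝓝 (pt a)) (𝓝 (a : 𝕜)) :=
      (continuous_apply 0).tendsto _
    have hc : Continuous fun v : Fin 5 → 𝕜 => ‖v 2 + v 1 * v 0‖ := by fun_prop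
    have c1 := hc.tendsto (pt a : Fin 5 → 𝕜)
    have e1 : ‖(pt a : Fin 5 → 𝕜) 2 + (pt a : Fin 5 → 𝕜) 1 * (pt a : Fin 5 → 𝕜) 0‖ = 0 := by
      simp [pt]
    rw [e1] at c1
    exact Filter.inter_mem (c0 hU) (c1.eventually (gt_mem_nhds (by norm_num)))
  have hmain := poly_inverse (ff p e g V) (pt a : Fin 5 → 𝕜) hJ hU'
  rw [hval] at hmain
  have hcont : Filter.Tendsto
      (fun w : 𝕜 × 𝕜 × 𝕜 × 𝕜 => (![0, w.1, w.2.1, w.2.2.1, w.2.2.2] : Fin 5 → 𝕜))
      (𝓝 (0, 0, 0, 0)) (𝓝 ![0, 0, 0, 0, 0]) := by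
    have hc : Continuous
        (fun w : 𝕜 × 𝕜 × 𝕜 × 𝕜 => (![0, w.1, w.2.1, w.2.2.1, w.2.2.2] : Fin 5 → 𝕜)) := by
      refine continuous_pi fun i => ?_
      fin_cases i
      · exact continuous_const
      · exact continuous_fst
      · exact continuous_fst.comp continuous_snd
      · exact continuous_fst.comp (continuous_snd.comp continuous_snd)
      · exact continuous_snd.comp (continuous_snd.comp continuous_snd)
    exact hc.tendsto' _ _ rfl
  filter_upwards [hcont.eventually hmain] with w hw hτ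
  obtain ⟨v, ⟨hv0, hv1⟩, hv⟩ := hw
  have r0 : MvPolynomial.aeval v (FF p e g V) = 0 := hv 0
  have r1 : v 1 = w.1 := by
    have := hv 1
    simpa [ff] using this
  have r2 : v 2 = w.2.1 := by
    have := hv 2
    simpa [ff] using this
  have r3 : v 3 = w.2.2.1 := by
    have := hv 3
    simpa [ff] using this
  have r4 : v 4 = w.2.2.2 := by
    have := hv 4
    simpa [ff] using this
  rw [← r1, ← r2, ← r3] at hτ
  refine ⟨v 0, hv0, by rw [← r1, ← r2]; exact hv1, ?_⟩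
  rw [← r1, ← r2, ← r4, bigT_eq p e g, ← aeval_S0 p e g hp.one_le]
  rw [aeval_FF] at r0
  have hV' : ((e : 𝕜) * (v 2 + v 1 * v 0) - 1) * (1 + (v 2 + v 1 * v 0)) ^ e + 1 =
      (v 2 + v 1 * v 0) ^ 2 * aeval (v 2 + v 1 * v 0) V := by
    have h := congrArg (aeval (v 2 + v 1 * v 0)) hV
    simpa using h
  have hup : (v 2 + v 1 * v 0) ^ p = (v 2 + v 1 * v 0) ^ 2 * (v 2 + v 1 * v 0) ^ (p - 2) := by
    rw [← pow_add, Nat.add_sub_cancel' hp.two_le]
  have hu2 : (v 2 + v 1 * v 0) ^ 2 = v 1 * (v 3 + 2 * v 2 * v 0 + v 1 * v 0 ^ 2) := by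
    linear_combination hτ
  rw [hup] at r0 ⊢
  generalize aeval (v 2 + v 1 * v 0) V = VV at r0 hV'
  generalize MvPolynomial.aeval v (S0 g) = s0 at r0 ⊢
  generalize MvPolynomial.aeval v (S1 p e g) = s1 at r0 ⊢
  generalize (v 2 + v 1 * v 0) ^ (p - 2) = up at r0 ⊢
  generalize hPP : (1 + (v 2 + v 1 * v 0)) ^ e = PP at r0 hV' ⊢
  generalize hFr : v 0 ^ p = Fr at r0 ⊢
  generalize v 2 + v 1 * v 0 = u at r0 hV' hu2 ⊢
  linear_combination v 1 * r0 + (s0 + u ^ 2 * up * s1) * hV' +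
    (VV * (s0 + u ^ 2 * up * s1) - up * s1) * hu2

end Pool.Agent.BCX
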