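import Pool.Agent.BCX.Step
import Pool.Agent.BCX.StepG
import Pool.Agent.BCX.StepPa
import Pool.Agent.BCX.StepPb
import Pool.Agent.BCX.StepPc
import Pool.Agent.BCX.ParP

/-!
# The step `n → n + p` in odd characteristic
-/

namespace Pool.Agent.BCX

open Polynomial

open scoped Topology

namespace StepP

section Eq

variable {𝕜 : Type} [Field 𝕜]

/-- `y` as a function of the parameter -/
noncomputable def yy (Y : 𝕜) (j n : ℕ) (β : 𝕜) : 𝕜 := (Y ^ j)⁻¹ * β ^ n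

/-- `η` as a function of the parameter -/
noncomputable def ee (p : ℕ) (B Y : 𝕜) (i q : ℕ) (β : 𝕜) : 𝕜 :=
  B⁻¹ * ((Y ^ i)⁻¹ * β ^ q) ^ (p - 1)

/-- `α'` as a function of the parameter -/
noncomputable def aa (p : ℕ) (g : 𝕜[X]) (B Y : 𝕜) (i j q n : ℕ) (β : 𝕜) : 𝕜 :=
  (n : 𝕜)⁻¹ * (B ^ n * Y ^ (p - 1)) * bigT p (n % p) g (ee p B Y i q β) 0 /
    (1 - yy Y j n β ^ (q - 1)) ^ (p - 1)

theorem ee_pow {p : ℕ} {B Y : 𝕜} (hY : Y ≠ 0) {i j q n : ℕ} (hij : n * i = 1 + j * q) (β : 𝕜) :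
    ee p B Y i q β ^ n * (B ^ n * Y ^ (p - 1)) = (B⁻¹ * B) ^ n * (yy Y j n β ^ q) ^ (p - 1) := by
  unfold ee yy
  have h1 : ((Y ^ i)⁻¹ * β ^ q) ^ n * Y = ((Y ^ j)⁻¹ * β ^ n) ^ q := by
    have h2 : ((Y ^ i)⁻¹) ^ n = (Y ^ (n * i))⁻¹ := by
      rw [inv_pow, ← pow_mul, mul_comm i n]
    have h3 : ((Y ^ j)⁻¹) ^ q = (Y ^ (j * q))⁻¹ := by
      rw [inv_pow, ← pow_mul]
    rw [mul_pow, mul_pow, h2, h3, hij, pow_add, pow_one, mul_inv, ← pow_mul, ← pow_mul,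
      mul_comm q n]
    field_simp
  rw [← h1]
  ring

theorem ee_inv_pow {p : ℕ} {B Y : 𝕜} (hB : B ≠ 0) (hY : Y ≠ 0) {i j q n : ℕ}
    (hij : n * i = 1 + j * q) {β : 𝕜} (hβ : β ≠ 0) :
    (ee p B Y i q β)⁻¹ ^ n = B ^ n * Y ^ (p - 1) * (yy Y j n β)⁻¹ ^ (q * (p - 1)) := by
  have h := ee_pow (p := p) (B := B) hY hij β
  rw [inv_mul_cancel₀ hB, one_pow, one_mul] at h
  have hη : ee p B Y i q β ≠ 0 :=
    mul_ne_zero (inv_ne_zero hB) (pow_ne_zero _ (mul_ne_zero (inv_ne_zero (pow_ne_zero _ hY))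
      (pow_ne_zero _ hβ)))
  have hy : yy Y j n β ≠ 0 := mul_ne_zero (inv_ne_zero (pow_ne_zero _ hY)) (pow_ne_zero _ hβ)
  rw [inv_pow, inv_pow, pow_mul, ← h]
  have h1 : ee p B Y i q β ^ n ≠ 0 := pow_ne_zero _ hη
  have h2 : B ^ n * Y ^ (p - 1) ≠ 0 := mul_ne_zero (pow_ne_zero _ hB) (pow_ne_zero _ hY)
  rw [mul_inv, mul_comm (ee p B Y i q β ^ n)⁻¹, ← mul_assoc, mul_inv_cancel₀ h2, one_mul]

/-- `D` -/
theorem dd_eq {y : 𝕜} (hy : y ≠ 0) {q : ℕ} (hq : 1 ≤ q) :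
    y⁻¹ ^ q - y⁻¹ = y⁻¹ ^ q * (1 - y ^ (q - 1)) := by
  have h5 : y⁻¹ ^ q * y ^ q = 1 := by
    rw [← mul_pow, inv_mul_cancel₀ hy, one_pow]
  have h6 : y ^ q = y ^ (q - 1) * y := by
    rw [← pow_succ, Nat.sub_add_cancel hq]
  have h7 : y⁻¹ ^ q * y ^ (q - 1) = y⁻¹ := by
    have h8 : y⁻¹ ^ q * y ^ (q - 1) * y = 1 := by rw [mul_assoc, ← h6, h5]
    exact eq_inv_of_mul_eq_one_left h8
  linear_combination h7

/-- the equation at the new points -/
theorem new_point {p : ℕ} [Fact p.Prime] [CharP 𝕜 p] {g : 𝕜[X]} {n : ℕ} (hgn : g.natDegree = n)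
    (hg : X * derivative g = (n : 𝕜[X]) * g) {q : ℕ} (hq1 : 1 ≤ q)
    {c BY y η u ϖ ν : 𝕜} (hn : (n : 𝕜) ≠ 0) (hη : η ≠ 0) (hy : y ≠ 0)
    (hq : 1 - y ^ (q - 1) ≠ 0) (hηy : η⁻¹ ^ n = BY * y⁻¹ ^ (q * (p - 1)))
    (hrel : c * (n * (y⁻¹ ^ q - y⁻¹) ^ (p - 1)) * u ^ p = n * u - 1 + n * ϖ * (ν ^ p - ν))
    (h : (n * u - 1 + n * ϖ * (ν ^ p - ν)) * (1 + u) ^ (n % p) * bigT p (n % p) g η u +
      bigT p (n % p) g η 0 = 0) :
    c * (g.eval (η⁻¹ * (1 + u)) * (1 - η ^ p * (η⁻¹ * (1 + u)) ^ p)) =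
      (n : 𝕜)⁻¹ * BY * bigT p (n % p) g η 0 / (1 - y ^ (q - 1)) ^ (p - 1) := by
  have h1 : 1 - η ^ p * (η⁻¹ * (1 + u)) ^ p = -u ^ p := by
    rw [mul_pow, ← mul_assoc, ← mul_pow, mul_inv_cancel₀ hη, one_pow, one_mul,
      add_pow_char, one_pow]
    ring
  have h0 : g.eval (η⁻¹ * (1 + u)) = η⁻¹ ^ n * (1 + u) ^ (n % p) * bigT p (n % p) g η u := by
    have := eval_bigT g (by rw [hgn]; exact hg) hη u
    rwa [hgn] at this
  rw [h1, h0]
  rw [← hrel] at h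
  have hE : (1 - y ^ (q - 1)) ^ (p - 1) ≠ 0 := pow_ne_zero _ hq
  have hyq : y⁻¹ ^ (q * (p - 1)) ≠ 0 := pow_ne_zero _ (inv_ne_zero hy)
  rw [dd_eq hy hq1, mul_pow, ← pow_mul] at h
  rw [eq_div_iff hE]
  have h3 : (n : 𝕜) * y⁻¹ ^ (q * (p - 1)) ≠ 0 := mul_ne_zero hn hyq
  apply mul_left_cancel₀ h3
  have h4 : (n : 𝕜) * y⁻¹ ^ (q * (p - 1)) * ((n : 𝕜)⁻¹ * BY * bigT p (n % p) g η 0) =
      η⁻¹ ^ n * bigT p (n % p) g η 0 := by
    rw [hηy]
    field_simp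
  rw [h4]
  linear_combination (-η⁻¹ ^ n) * h

end Eq

section Ev

variable {𝕜 : Type} [NontriviallyNormedField 𝕜]

theorem continuous_bigT (p e : ℕ) (g : 𝕜[X]) : Continuous (fun η : 𝕜 => bigT p e g η 0) := by
  unfold bigT
  fun_prop

theorem bigT_zero (p e : ℕ) (hp : p ≠ 0) (g : 𝕜[X]) : bigT p e g 0 0 = g.leadingCoeff := by
  unfold bigT
  rw [Finset.sum_eq_single g.natDegree]
  · simp [hp]
  · intro k hk hk'
    have : g.natDegree - k ≠ 0 := by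
      have := Finset.mem_range.1 hk
      omega
    rw [zero_pow this]
    simp
  · simp

theorem yy_tendsto (Y : 𝕜) (j : ℕ) {n : ℕ} (hn : n ≠ 0) :
    Filter.Tendsto (yy Y j n) (𝓝 0) (𝓝 0) := by
  have h : Continuous (yy Y j n) := by
    unfold yy
    fun_prop
  have h2 := h.tendsto 0
  have h3 : yy Y j n 0 = 0 := by
    unfold yy
    rw [zero_pow hn, mul_zero]
  rwa [h3] at h2

theorem yy_ne {Y : 𝕜} (hY : Y ≠ 0) (j n : ℕ) {β : 𝕜} (hβ : β ≠ 0) : yy Y j n β ≠ 0 :=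
  mul_ne_zero (inv_ne_zero (pow_ne_zero _ hY)) (pow_ne_zero _ hβ)

theorem yy_tendsto' {Y : 𝕜} (hY : Y ≠ 0) (j : ℕ) {n : ℕ} (hn : n ≠ 0) :
    Filter.Tendsto (yy Y j n) (𝓝[≠] 0) (𝓝[≠] 0) := by
  rw [tendsto_nhdsWithin_iff]
  refine ⟨(yy_tendsto Y j hn).mono_left nhdsWithin_le_nhds, ?_⟩
  filter_upwards [self_mem_nhdsWithin] with β hβ
  exact yy_ne hY j n hβ

theorem ee_ne {p : ℕ} {B Y : 𝕜} (hB : B ≠ 0) (hY : Y ≠ 0) (i q : ℕ) {β : 𝕜} (hβ : β ≠ 0) :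
    ee p B Y i q β ≠ 0 :=
  mul_ne_zero (inv_ne_zero hB) (pow_ne_zero _ (mul_ne_zero (inv_ne_zero (pow_ne_zero _ hY))
    (pow_ne_zero _ hβ)))

theorem ee_tendsto {p : ℕ} (hp : 2 ≤ p) (B Y : 𝕜) (i : ℕ) {q : ℕ} (hq : q ≠ 0) :
    Filter.Tendsto (ee p B Y i q) (𝓝 0) (𝓝 0) := by
  have h : Continuous (ee p B Y i q) := by
    unfold ee
    fun_prop
  have h2 := h.tendsto 0
  have h3 : ee p B Y i q 0 = 0 := by
    unfold ee
    rw [zero_pow hq, mul_zero, zero_pow (by omega), mul_zero]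
  rwa [h3] at h2

theorem den_tendsto (p : ℕ) (Y : 𝕜) (j : ℕ) {q n : ℕ} (hq : 2 ≤ q) (hn : n ≠ 0) :
    Filter.Tendsto (fun β => 1 - yy Y j n β ^ (q - 1)) (𝓝 0) (𝓝 1) := by
  have h2 : Filter.Tendsto (fun β => 1 - yy Y j n β ^ (q - 1)) (𝓝 0)
      (𝓝 (1 - (0 : 𝕜) ^ (q - 1))) := ((yy_tendsto Y j hn).pow (q - 1)).const_sub 1
  rwa [zero_pow (by omega : q - 1 ≠ 0), sub_zero] at h2

theorem aa_tendsto {p : ℕ} (hp : 2 ≤ p) (g : 𝕜[X]) (B Y : 𝕜) (i j : ℕ) {q n : ℕ} (hq : 2 ≤ q)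
    (hn : n ≠ 0) : Filter.Tendsto (aa p g B Y i j q n) (𝓝 0)
      (𝓝 ((n : 𝕜)⁻¹ * (B ^ n * Y ^ (p - 1)) * g.leadingCoeff)) := by
  have h1 : Filter.Tendsto (fun β => (n : 𝕜)⁻¹ * (B ^ n * Y ^ (p - 1)) *
      bigT p (n % p) g (ee p B Y i q β) 0) (𝓝 0)
      (𝓝 ((n : 𝕜)⁻¹ * (B ^ n * Y ^ (p - 1)) * bigT p (n % p) g 0 0)) :=
    (((continuous_bigT p (n % p) g).tendsto 0).comp (ee_tendsto hp B Y i (by omega))).const_mul _
  rw [bigT_zero p _ (by omega)] at h1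
  have h2 := (den_tendsto p Y j hq hn).pow (p - 1)
  rw [one_pow] at h2
  have h3 := h1.div h2 one_ne_zero
  rw [div_one] at h3
  exact h3

end Ev

section Main

variable {p : ℕ} [Fact p.Prime] {A 𝕜 : Type} [Field A] [CharP A p] [NontriviallyNormedField 𝕜]
  [CompleteSpace 𝕜] [Algebra A 𝕜]

/-- all roots, for small parameters -/
theorem eventually_roots (hp3 : 3 ≤ p) {s : ℕ} (hs : 1 ≤ s) (g : A[X]) {n : ℕ}
    (hgn : g.natDegree = n) (hg : X * derivative g = (n : A[X]) * g) (hn : ¬ p ∣ n)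
    {d c α B Y : A} (hd : d ≠ 0) (hdc : d ^ (p - 1) = c) (hdq : d ^ p ^ s = d) (hα : α ≠ 0)
    (hB : B ≠ 0) (hY : Y ≠ 0) (hinv : (n : A) * α = g.leadingCoeff * (B ^ n * Y ^ (p - 1)))
    {i j : ℕ} (hij : n * i = 1 + j * p ^ s) (S : Finset A) (hS : S.card = n)
    (hSx : ∀ x ∈ S, c * g.eval x = α) :
    ∀ᶠ β in 𝓝[≠] (0 : 𝕜), ∃ T : Finset 𝕜, T.card = n + p ∧ ∀ x ∈ T,
      algebraMap A 𝕜 c * ((g.map (algebraMap A 𝕜)).eval x *
        (1 - ee p (algebraMap A 𝕜 B) (algebraMap A 𝕜 Y) i (p ^ s) β ^ p * x ^ p)) =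
      aa p (g.map (algebraMap A 𝕜)) (algebraMap A 𝕜 B) (algebraMap A 𝕜 Y) i j (p ^ s) n β := by
  classical
  set L := algebraMap A 𝕜 with hL
  have hLinj : Function.Injective L := L.injective
  have hch : CharP 𝕜 p := charP_of_injective_algebraMap hLinj p
  set gk := g.map L with hgk
  have hgk' : X * derivative gk = (n : 𝕜[X]) * gk := by
    have := congrArg (Polynomial.map L) hg
    rw [Polynomial.map_mul, Polynomial.map_mul, Polynomial.map_X, Polynomial.map_natCast] at this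
    rw [hgk, derivative_map]
    exact this
  have hgkn : gk.natDegree = n := by
    rw [hgk, natDegree_map_eq_of_injective hLinj, hgn]
  have hgkl : gk.leadingCoeff = L g.leadingCoeff := leadingCoeff_map_of_injective hLinj g
  have hn0 : n ≠ 0 := by
    rintro rfl
    exact hn (dvd_zero p)
  have hg0 : g ≠ 0 := by
    rintro rfl
    simp at hgn
    exact hn0 hgn.symm
  have hnA : (n : A) ≠ 0 := fun h => hn ((CharP.cast_eq_zero_iff A p n).1 h)
  have hnk : (n : 𝕜) ≠ 0 := fun h => hn ((CharP.cast_eq_zero_iff 𝕜 p n).1 h)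
  have hmodA : (n : A) = ((n % p : ℕ) : A) := CharP.cast_eq_mod A p n
  have hmodk : (n : 𝕜) = ((n % p : ℕ) : 𝕜) := CharP.cast_eq_mod 𝕜 p n
  have hc0 : c ≠ 0 := by
    rw [← hdc]
    exact pow_ne_zero _ hd
  have hLc : L c ≠ 0 := (map_ne_zero L).2 hc0
  have hLd : L d ≠ 0 := (map_ne_zero L).2 hd
  have hLB : L B ≠ 0 := (map_ne_zero L).2 hB
  have hLY : L Y ≠ 0 := (map_ne_zero L).2 hY
  have hLα : L α ≠ 0 := (map_ne_zero L).2 hα
  have hq2 : 2 ≤ p ^ s := by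
    calc 2 ≤ p := by omega
      _ = p ^ 1 := (pow_one p).symm
      _ ≤ p ^ s := Nat.pow_le_pow_right (by omega) hs
  have hal := aa_tendsto (p := p) (by omega) gk (L B) (L Y) i j hq2 hn0
  have hrl : (n : 𝕜)⁻¹ * (L B ^ n * L Y ^ (p - 1)) * gk.leadingCoeff = L α := by
    have h1 := congrArg L hinv
    rw [map_mul, map_mul, map_mul, map_pow, map_pow, map_natCast] at h1
    rw [hgkl]
    field_simp
    rw [h1]
    ring
  rw [hrl] at hal
  -- the derivative at the old roots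
  have hder : ∀ x ∈ S, (derivative g).eval x ≠ 0 := by
    intro x hx h0
    have h1 := congrArg (eval x) hg
    rw [eval_mul, h0, mul_zero, eval_mul, eval_natCast] at h1
    have h2 := hSx x hx
    have h3 : g.eval x = 0 := (mul_eq_zero.1 h1.symm).resolve_left hnA
    rw [h3, mul_zero] at h2
    exact hα h2.symm
  -- neighbourhoods
  obtain ⟨U, hU1, hU2⟩ := (S.image L).finite_toSet.t2_separation
  set R : ℝ := ∑ x ∈ S, (‖L x‖ + 1) with hR
  have hRx : ∀ x ∈ S, ‖L x‖ < R := by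
    intro x hx
    have : ‖L x‖ + 1 ≤ R := Finset.single_le_sum (f := fun x => ‖L x‖ + 1)
      (fun y _ => by positivity) hx
    linarith
  have hnb : ∀ x ∈ S, U (L x) ∩ {z | ‖z‖ < R} ∈ 𝓝 (L x) := by
    intro x hx
    refine Filter.inter_mem ((hU1 _).2.mem_nhds (hU1 _).1) ?_
    exact (isOpen_lt continuous_norm continuous_const).mem_nhds (hRx x hx)
  have hold : ∀ x ∈ S, ∀ᶠ β in 𝓝[≠] (0 : 𝕜), ∃ z ∈ U (L x) ∩ {z | ‖z‖ < R},
      aeval z g * (1 - ee p (L B) (L Y) i (p ^ s) β ^ p * z ^ p) =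
        (L c)⁻¹ * aa p gk (L B) (L Y) i j (p ^ s) n β := by
    intro x hx
    have h1 := old_rootP g x (hder x hx) p (by omega) (hnb x hx)
    have h2 : L (g.eval x) = (L c)⁻¹ * L α := by
      rw [← hSx x hx, map_mul, ← mul_assoc, inv_mul_cancel₀ hLc, one_mul]
    rw [← hL, h2] at h1
    have h3 : Filter.Tendsto (fun β => (ee p (L B) (L Y) i (p ^ s) β,
        (L c)⁻¹ * aa p gk (L B) (L Y) i j (p ^ s) n β)) (𝓝 0)
        (𝓝 (0, (L c)⁻¹ * L α)) :=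
      (ee_tendsto (by omega) (L B) (L Y) i (by omega)).prodMk_nhds (hal.const_mul _)
    exact (h3.mono_left nhdsWithin_le_nhds).eventually h1
  have hold' := (Finset.eventually_all S).2 hold
  -- the new roots
  obtain ⟨V, hV1, hV2⟩ :=
    ((Finset.range p).image (fun a : ℕ => (a : 𝕜))).finite_toSet.t2_separation
  have hW : Filter.Tendsto (fun β => (vpi (p ^ s) (L d) (yy (L Y) j n β),
      vpi (p ^ s) (L d) (yy (L Y) j n β) * xi p s n (L d) (yy (L Y) j n β),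
      vpi (p ^ s) (L d) (yy (L Y) j n β) * xi p s n (L d) (yy (L Y) j n β) ^ 2,
      ee p (L B) (L Y) i (p ^ s) β)) (𝓝[≠] 0) (𝓝 (0, 0, 0, 0)) := by
    have h1 := (vpi_tendsto hp3 (n := n) hs hLd).comp (yy_tendsto' hLY j hn0)
    have h2 := (ee_tendsto (p := p) (by omega) (L B) (L Y) i
      (by omega : p ^ s ≠ 0)).mono_left (nhdsWithin_le_nhds (s := {0}ᶜ))
    have h3 := h1.fst_nhds
    have h4 := h1.snd_nhds.fst_nhds
    have h5 := h1.snd_nhds.snd_nhds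
    exact h3.prodMk_nhds (h4.prodMk_nhds (h5.prodMk_nhds h2))
  have hnew : ∀ a ∈ Finset.range p, ∀ᶠ β in 𝓝[≠] (0 : 𝕜), ∃ ν ∈ V (a : 𝕜),
      ‖vpi (p ^ s) (L d) (yy (L Y) j n β) * xi p s n (L d) (yy (L Y) j n β) +
        vpi (p ^ s) (L d) (yy (L Y) j n β) * ν‖ < 1 / 2 ∧
      (n * (vpi (p ^ s) (L d) (yy (L Y) j n β) * xi p s n (L d) (yy (L Y) j n β) +
        vpi (p ^ s) (L d) (yy (L Y) j n β) * ν) - 1 +
        n * vpi (p ^ s) (L d) (yy (L Y) j n β) * (ν ^ p - ν)) *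
        (1 + (vpi (p ^ s) (L d) (yy (L Y) j n β) * xi p s n (L d) (yy (L Y) j n β) +
        vpi (p ^ s) (L d) (yy (L Y) j n β) * ν)) ^ (n % p) *
        bigT p (n % p) gk (ee p (L B) (L Y) i (p ^ s) β)
          (vpi (p ^ s) (L d) (yy (L Y) j n β) * xi p s n (L d) (yy (L Y) j n β) +
            vpi (p ^ s) (L d) (yy (L Y) j n β) * ν) +
        bigT p (n % p) gk (ee p (L B) (L Y) i (p ^ s) β) 0 = 0 := by
    intro a _
    have h1 := hW.eventually (new_rootP (𝕜 := 𝕜) g hg0 (e := n % p) (by rwa [← hmodA]) a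
      ((hV1 (a : 𝕜)).2.mem_nhds (hV1 (a : 𝕜)).1))
    filter_upwards [h1] with β hβ
    obtain ⟨ν, hν1, hν2, hν3⟩ := hβ (by ring)
    refine ⟨ν, hν1, hν2, ?_⟩
    rw [← hmodk] at hν3
    exact hν3
  have hnew' := (Finset.eventually_all (Finset.range p)).2 hnew
  have hsm : ∀ᶠ β in 𝓝 (0 : 𝕜), ‖ee p (L B) (L Y) i (p ^ s) β‖ * (2 * R) < 1 := by
    have h1 : Filter.Tendsto (fun β => ‖ee p (L B) (L Y) i (p ^ s) β‖ * (2 * R)) (𝓝 0)
        (𝓝 (‖(0 : 𝕜)‖ * (2 * R))) :=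
      ((ee_tendsto (by omega) (L B) (L Y) i (by omega)).norm).mul_const _
    rw [norm_zero, zero_mul] at h1
    exact h1.eventually (gt_mem_nhds one_pos)
  have hden : ∀ᶠ β in 𝓝 (0 : 𝕜), 1 - yy (L Y) j n β ^ (p ^ s - 1) ≠ 0 :=
    (den_tendsto p (L Y) j hq2 hn0).eventually_ne one_ne_zero
  filter_upwards [hold', hnew', hsm.filter_mono nhdsWithin_le_nhds,
    hden.filter_mono nhdsWithin_le_nhds, self_mem_nhdsWithin] with β h1 h2 h4 h5 hβ
  have hβ0 : β ≠ 0 := hβ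
  have hη := ee_ne (p := p) hLB hLY i (p ^ s) hβ0
  have hy := yy_ne hLY j n hβ0
  have hηy := ee_inv_pow (p := p) hLB hLY hij hβ0
  set η := ee p (L B) (L Y) i (p ^ s) β with hηdef
  set y := yy (L Y) j n β with hydef
  have hD : y⁻¹ ^ p ^ s - y⁻¹ ≠ 0 := by
    rw [dd_eq hy (by omega)]
    exact mul_ne_zero (pow_ne_zero _ (inv_ne_zero hy)) h5
  have hϖ : vpi (p ^ s) (L d) y ≠ 0 := by
    unfold vpi
    exact inv_ne_zero (mul_ne_zero hLd hD)
  have hdq' : (L d) ^ p ^ s = L d := by rw [← map_pow, hdq]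
  have hdc' : (L d) ^ (p - 1) = L c := by rw [← map_pow, hdc]
  choose! ν hν1 hν2 hν3 using h2
  choose! z hz using h1
  set u : ℕ → 𝕜 := fun a => vpi (p ^ s) (L d) y * xi p s n (L d) y + vpi (p ^ s) (L d) y * ν a
    with hu
  have hpt : ∀ a ∈ Finset.range p, L c * (gk.eval (η⁻¹ * (1 + u a)) *
      (1 - η ^ p * (η⁻¹ * (1 + u a)) ^ p)) =
      aa p gk (L B) (L Y) i j (p ^ s) n β := by
    intro a ha
    have h7 := vpi_rel (p := p) hnk hLd hdq' hD (ν a)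
    rw [hdc'] at h7
    exact new_point hgkn hgk' (by omega) hnk hη hy h5 hηy h7 (hν3 a ha)
  have hbig : ∀ u : 𝕜, ‖u‖ < 1 / 2 → R ≤ ‖η⁻¹ * (1 + u)‖ := by
    intro u hu
    have h7 : 1 / 2 ≤ ‖1 + u‖ := by
      have := norm_sub_norm_le (1 : 𝕜) (-u)
      rw [norm_neg, norm_one, sub_neg_eq_add] at this
      linarith
    rw [norm_mul, norm_inv]
    have h8 : 0 < ‖η‖ := norm_pos_iff.2 hη
    rw [le_inv_mul_iff₀ h8]
    nlinarith
  have hzinj : Set.InjOn z (S : Set A) := by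
    intro x hx y hy hxy
    by_contra hne
    have h7 := hU2 (Finset.mem_coe.2 (Finset.mem_image_of_mem L hx))
      (Finset.mem_coe.2 (Finset.mem_image_of_mem L hy)) (fun h => hne (hLinj h))
    have h8 := (hz x hx).1.1
    have h9 := (hz y hy).1.1
    rw [← hxy] at h9
    exact Set.disjoint_left.1 h7 h8 h9
  have hinj : Set.InjOn (fun a : ℕ => η⁻¹ * (1 + u a)) (Finset.range p : Set ℕ) := by
    intro a ha b hb hab
    have h7 : u a = u b := add_left_cancel (mul_left_cancel₀ (inv_ne_zero hη) hab)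
    have h8 : ν a = ν b := mul_left_cancel₀ hϖ (add_left_cancel h7)
    have h9 : (a : 𝕜) = (b : 𝕜) := by
      by_contra hne
      have h10 := hV2 (Finset.mem_coe.2 (Finset.mem_image_of_mem _ (Finset.mem_coe.1 ha)))
        (Finset.mem_coe.2 (Finset.mem_image_of_mem _ (Finset.mem_coe.1 hb))) hne
      have h11 := hν1 a (Finset.mem_coe.1 ha)
      rw [h8] at h11
      exact Set.disjoint_left.1 h10 h11 (hν1 b (Finset.mem_coe.1 hb))
    have h10 := (CharP.natCast_eq_natCast 𝕜 p).1 h9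
    exact Nat.ModEq.eq_of_lt_of_lt h10 (Finset.mem_range.1 (Finset.mem_coe.1 ha))
      (Finset.mem_range.1 (Finset.mem_coe.1 hb))
  refine ⟨S.image z ∪ (Finset.range p).image (fun a : ℕ => η⁻¹ * (1 + u a)), ?_, ?_⟩
  · rw [Finset.card_union_of_disjoint, Finset.card_image_of_injOn hzinj, hS,
      Finset.card_image_of_injOn hinj, Finset.card_range]
    rw [Finset.disjoint_left]
    intro x hx hx'
    obtain ⟨y, hy, rfl⟩ := Finset.mem_image.1 hx
    have h7 : ‖z y‖ < R := (hz y hy).1.2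
    obtain ⟨a, ha, h⟩ := Finset.mem_image.1 hx'
    rw [← h] at h7
    exact absurd (hbig (u a) (hν2 a ha)) (not_le.2 h7)
  · intro x hx
    rcases Finset.mem_union.1 hx with h | h
    · obtain ⟨y, hy, rfl⟩ := Finset.mem_image.1 h
      have h7 := (hz y hy).2
      have h8 : gk.eval (z y) = aeval (z y) g := by
        rw [hgk, eval_map_algebraMap]
      rw [h8, h7, ← mul_assoc, mul_inv_cancel₀ hLc, one_mul]
    · obtain ⟨a, ha, rfl⟩ := Finset.mem_image.1 h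
      exact hpt a ha

end Main

theorem map_bigT {A E : Type} [Field A] [Field E] (L : A →+* E) (p e : ℕ) (g : A[X]) (η u : A) :
    bigT p e (g.map L) (L η) (L u) = L (bigT p e g η u) := by
  unfold bigT
  rw [natDegree_map_eq_of_injective L.injective, map_sum]
  refine Finset.sum_congr rfl fun k _ => ?_
  simp only [coeff_map, map_mul, map_pow, map_add, map_one]

theorem exists_bezout {p : ℕ} (hp : p.Prime) {n : ℕ} (hn : ¬ p ∣ n) (s : ℕ) :
    ∃ i j : ℕ, n * i = 1 + j * p ^ s := by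
  rcases Nat.eq_zero_or_pos s with rfl | hs
  · refine ⟨1, n - 1, ?_⟩
    have hn0 : n ≠ 0 := by
      rintro rfl
      exact hn (dvd_zero p)
    rw [pow_zero]
    omega
  · have hco : Nat.Coprime n (p ^ s) :=
      Nat.Coprime.pow_right _ ((Nat.Prime.coprime_iff_not_dvd hp).2 hn).symm
    have h1 : 1 < p ^ s := Nat.one_lt_pow hs.ne' hp.one_lt
    obtain ⟨i, -, hi⟩ := Nat.exists_mul_mod_eq_one_of_coprime hco h1
    refine ⟨i, n * i / p ^ s, ?_⟩
    have := Nat.mod_add_div (n * i) (p ^ s)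
    rw [hi] at this
    rw [mul_comm _ (p ^ s)]
    exact this.symm

end StepP

/-- ROW Q3d (StepP.lean, as StepG.lean): the step -/
theorem SplitP.step {p : ℕ} [Fact p.Prime] (hp3 : 3 ≤ p) {K A 𝕜 : Type} [Field K] [CharP K p]
    {s : ℕ} (hs : 1 ≤ s) [Field A] [Algebra K A] [NontriviallyNormedField 𝕜]
    [CompleteSpace 𝕜] [Algebra K 𝕜] [Algebra A 𝕜] [IsScalarTower K A 𝕜]
    (hA : ∀ x : 𝕜, IsSeparable A x → ∃ a : A, algebraMap A 𝕜 a = x)
    (hsmall : ∀ ε : ℝ, 0 < ε → ∃ β : A, β ≠ 0 ∧ ‖algebraMap A 𝕜 β‖ < ε)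
    (hι : ∃ ι : A, ι ^ (p - 1) = -1)
    {C : Finset K} (hC : ∀ c ∈ C, ∃ d : K, d ≠ 0 ∧ d ^ (p - 1) = c ∧ d ^ p ^ s = d) {n : ℕ}
    (hn : ¬ p ∣ n) (h : SplitP p C A n) : SplitP p C A (n + p) := by
  classical
  obtain ⟨g, α, B, Y, hgn, hg, hα, hB, hY, hinv, hS⟩ := h
  obtain ⟨ι, hι⟩ := hι
  have hch : CharP A p := charP_of_injective_algebraMap (algebraMap K A).injective p
  have hchk : CharP 𝕜 p := charP_of_injective_algebraMap (algebraMap A 𝕜).injective p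
  let _ : Algebra (ZMod p) A := ZMod.algebra A p
  let _ : Algebra (ZMod p) 𝕜 := ZMod.algebra 𝕜 p
  set L := algebraMap A 𝕜 with hL
  have hp := (Fact.out : p.Prime)
  have hn0 : n ≠ 0 := by
    rintro rfl
    exact hn (dvd_zero p)
  have hg0 : g ≠ 0 := by
    rintro rfl
    simp at hgn
    exact hn0 hgn.symm
  have hl : g.leadingCoeff ≠ 0 := leadingCoeff_ne_zero.2 hg0
  obtain ⟨i, j, hij⟩ := StepP.exists_bezout hp hn s
  have hLB : L B ≠ 0 := (map_ne_zero L).2 hB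
  have hLY : L Y ≠ 0 := (map_ne_zero L).2 hY
  have hnA : (n : A) ≠ 0 := fun h => hn ((CharP.cast_eq_zero_iff A p n).1 h)
  have hnk : (n : 𝕜) ≠ 0 := fun h => hn ((CharP.cast_eq_zero_iff 𝕜 p n).1 h)
  have hq2 : 2 ≤ p ^ s := by
    calc 2 ≤ p := by omega
      _ = p ^ 1 := (pow_one p).symm
      _ ≤ p ^ s := Nat.pow_le_pow_right (by omega) hs
  have hcc : ∀ c ∈ C, c ≠ 0 := by
    intro c hc
    obtain ⟨d, hd, rfl, -⟩ := hC c hc
    exact pow_ne_zero _ hd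
  have hev : ∀ c ∈ C, ∀ᶠ β in 𝓝[≠] (0 : 𝕜), ∃ T : Finset 𝕜, T.card = n + p ∧
      ∀ x ∈ T, L (algebraMap K A c) * ((g.map L).eval x *
        (1 - StepP.ee p (L B) (L Y) i (p ^ s) β ^ p * x ^ p)) =
      StepP.aa p (g.map L) (L B) (L Y) i j (p ^ s) n β := by
    intro c hc
    obtain ⟨d, hd, hdc, hdq⟩ := hC c hc
    obtain ⟨S, hScard, hSx⟩ := hS c hc
    refine StepP.eventually_roots hp3 hs g hgn hg hn (d := algebraMap K A d)
      ((_root_.map_ne_zero _).2 hd) ?_ ?_ hα hB hY hinv hij S hScard hSx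
    · rw [← map_pow, hdc]
    · rw [← map_pow, hdq]
  have hal := StepP.aa_tendsto (p := p) (by omega) (g.map L) (L B) (L Y) i j hq2 hn0
  have hlc : (g.map L).leadingCoeff = L g.leadingCoeff :=
    leadingCoeff_map_of_injective L.injective g
  have hrl : (n : 𝕜)⁻¹ * (L B ^ n * L Y ^ (p - 1)) * (g.map L).leadingCoeff = L α := by
    have h1 := congrArg L hinv
    rw [map_mul, map_mul, map_mul, map_pow, map_pow, map_natCast] at h1
    rw [hlc]
    field_simp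
    rw [h1]
    ring
  rw [hrl] at hal
  have hal0 := (hal.eventually_ne ((map_ne_zero L).2 hα)).filter_mono
    (nhdsWithin_le_nhds (s := {0}ᶜ))
  have hden : ∀ᶠ β in 𝓝[≠] (0 : 𝕜), 1 - StepP.yy (L Y) j n β ^ (p ^ s - 1) ≠ 0 :=
    ((StepP.den_tendsto p (L Y) j hq2 hn0).eventually_ne one_ne_zero).filter_mono
      nhdsWithin_le_nhds
  have hw : ∀ᶠ β in 𝓝[≠] (0 : 𝕜), ∃ w : 𝕜, w ^ (p - 1) =
      bigT p (n % p) (g.map L) (StepP.ee p (L B) (L Y) i (p ^ s) β) 0 * (L g.leadingCoeff)⁻¹ := by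
    have h1 : Filter.Tendsto (fun β => bigT p (n % p) (g.map L)
        (StepP.ee p (L B) (L Y) i (p ^ s) β) 0 * (L g.leadingCoeff)⁻¹) (𝓝 0)
        (𝓝 (bigT p (n % p) (g.map L) 0 0 * (L g.leadingCoeff)⁻¹)) :=
      (((StepP.continuous_bigT p (n % p) (g.map L)).tendsto 0).comp
        (StepP.ee_tendsto (by omega) (L B) (L Y) i (by omega))).mul_const _
    rw [StepP.bigT_zero p _ (by omega), hlc, mul_inv_cancel₀ ((map_ne_zero L).2 hl)] at h1
    exact (h1.eventually (eventually_root (p := p))).filter_mono nhdsWithin_le_nhds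
  have hall := (((Finset.eventually_all C).2 hev).and (hal0.and (hden.and hw)))
  rw [eventually_nhdsWithin_iff] at hall
  obtain ⟨ε, hε, hball⟩ := Metric.eventually_nhds_iff.1 hall
  obtain ⟨β, hβ0, hβ⟩ := hsmall ε hε
  have hLβ : L β ≠ 0 := (map_ne_zero L).2 hβ0
  obtain ⟨hroots, hαne, hdne, w, hw⟩ := hball (y := L β) (by rwa [dist_zero_right]) hLβ
  obtain ⟨η, hη⟩ : ∃ η : A, η = StepP.ee p B Y i (p ^ s) β := ⟨_, rfl⟩
  obtain ⟨y, hy⟩ : ∃ y : A, y = StepP.yy Y j n β := ⟨_, rfl⟩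
  have hη0 : η ≠ 0 := by
    rw [hη]
    exact mul_ne_zero (inv_ne_zero hB) (pow_ne_zero _ (mul_ne_zero (inv_ne_zero
      (pow_ne_zero _ hY)) (pow_ne_zero _ hβ0)))
  have hy0 : y ≠ 0 := by
    rw [hy]
    exact mul_ne_zero (inv_ne_zero (pow_ne_zero _ hY)) (pow_ne_zero _ hβ0)
  have hLη : StepP.ee p (L B) (L Y) i (p ^ s) (L β) = L η := by
    rw [hη]
    unfold StepP.ee
    simp only [map_mul, map_inv₀, map_pow]
  have hLy : StepP.yy (L Y) j n (L β) = L y := by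
    rw [hy]
    unfold StepP.yy
    simp only [map_mul, map_inv₀, map_pow]
  rw [hLy] at hdne
  have hdA : 1 - y ^ (p ^ s - 1) ≠ 0 := by
    intro h
    apply hdne
    rw [← map_pow, ← map_one L, ← map_sub, h, map_zero]
  obtain ⟨α', hα'⟩ : ∃ α' : A,
      α' = (n : A)⁻¹ * (B ^ n * Y ^ (p - 1)) * bigT p (n % p) g η 0 /
        (1 - y ^ (p ^ s - 1)) ^ (p - 1) := ⟨_, rfl⟩
  have hLα' : StepP.aa p (g.map L) (L B) (L Y) i j (p ^ s) n (L β) = L α' := by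
    unfold StepP.aa
    rw [hLη, hLy, hα', map_div₀, map_mul, map_mul, map_inv₀, map_natCast, map_mul, map_pow,
      map_pow, ← StepP.map_bigT L p _ g η 0, map_zero, map_pow, map_sub, map_one, map_pow]
  rw [hLα'] at hαne
  have hα'0 : α' ≠ 0 := fun h => hαne (by rw [h, map_zero])
  -- the root `w`
  have hbT : bigT p (n % p) g η 0 ≠ 0 := by
    intro h
    apply hα'0
    rw [hα', h, mul_zero, zero_div]
  rw [hLη] at hw
  have hw' : w ^ (p - 1) = L (bigT p (n % p) g η 0 * (g.leadingCoeff)⁻¹) := by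
    rw [hw, map_mul, map_inv₀, ← StepP.map_bigT L p _ g η 0, map_zero]
  have hu0 : bigT p (n % p) g η 0 * (g.leadingCoeff)⁻¹ ≠ 0 :=
    mul_ne_zero hbT (inv_ne_zero hl)
  obtain ⟨w1, hw1⟩ := hA w (separable_root hu0 hw')
  have hw2 : w1 ^ (p - 1) = bigT p (n % p) g η 0 * (g.leadingCoeff)⁻¹ := by
    apply L.injective
    rw [← hw', ← hw1, map_pow]
  have hw10 : w1 ≠ 0 := by
    rintro rfl
    rw [zero_pow (by omega)] at hw2
    exact hu0 hw2.symm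
  have hι0 : ι ≠ 0 := by
    rintro rfl
    rw [zero_pow (by omega)] at hι
    exact one_ne_zero (neg_eq_zero.1 hι.symm)
  have hηy : η⁻¹ ^ n = B ^ n * Y ^ (p - 1) * y⁻¹ ^ (p ^ s * (p - 1)) := by
    rw [hη, hy]
    exact StepP.ee_inv_pow hB hY hij hβ0
  set G : A[X] := g * (1 - Polynomial.C (η ^ p) * X ^ p) with hG
  have hfac : (1 - Polynomial.C (η ^ p) * X ^ p : A[X]).natDegree = p := by
    rw [natDegree_sub_eq_right_of_natDegree_lt]
    · exact natDegree_C_mul_X_pow p _ (pow_ne_zero _ hη0)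
    · rw [natDegree_C_mul_X_pow p _ (pow_ne_zero _ hη0), natDegree_one]
      omega
  have hfac0 : (1 - Polynomial.C (η ^ p) * X ^ p : A[X]) ≠ 0 := by
    intro h
    rw [h, natDegree_zero] at hfac
    omega
  have hfacl : (1 - Polynomial.C (η ^ p) * X ^ p : A[X]).leadingCoeff = -η ^ p := by
    rw [leadingCoeff, hfac, coeff_sub, coeff_C_mul_X_pow, if_pos rfl, coeff_one,
      if_neg (by omega), zero_sub]
  have hnp : ((n + p : ℕ) : A[X]) = (n : A[X]) := by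
    push_cast
    rw [CharP.cast_eq_zero A[X] p, add_zero]
  have hGd : X * derivative G = ((n + p : ℕ) : A[X]) * G := by
    have h3 : derivative (1 - Polynomial.C (η ^ p) * X ^ p : A[X]) = 0 := by
      rw [derivative_sub, derivative_one, zero_sub, derivative_C_mul, derivative_X_pow]
      rw [CharP.cast_eq_zero A p, C_0, zero_mul, mul_zero, neg_zero]
    rw [hnp, hG, derivative_mul, h3, mul_zero, add_zero, ← mul_assoc, hg, mul_assoc]
  have hGl : G.leadingCoeff = g.leadingCoeff * (-η ^ p) := by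
    rw [hG, leadingCoeff_mul, hfacl]
  refine ⟨G, α', η⁻¹, ι * y ^ p ^ s * w1 / (1 - y ^ (p ^ s - 1)), ?_, hGd, hα'0,
    inv_ne_zero hη0, ?_, ?_, fun c hc => ?_⟩
  · rw [hG, natDegree_mul hg0 hfac0, hgn, hfac]
  · exact div_ne_zero (mul_ne_zero (mul_ne_zero hι0 (pow_ne_zero _ hy0)) hw10) hdA
  · have h1 : ((n + p : ℕ) : A) = (n : A) := by
      push_cast
      rw [CharP.cast_eq_zero A p, add_zero]
    rw [h1, hGl, hα', div_pow, mul_pow, mul_pow, hι, hw2, pow_add, hηy, ← pow_mul]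
    have h2 : y⁻¹ ^ (p ^ s * (p - 1)) * y ^ (p ^ s * (p - 1)) = 1 := by
      rw [← mul_pow, inv_mul_cancel₀ hy0, one_pow]
    have h3 : η⁻¹ ^ p * η ^ p = 1 := by
      rw [← mul_pow, inv_mul_cancel₀ hη0, one_pow]
    have hE : (1 - y ^ (p ^ s - 1)) ^ (p - 1) ≠ 0 := pow_ne_zero _ hdA
    have h4 : (n : A) * ((n : A)⁻¹ * (B ^ n * Y ^ (p - 1)) * bigT p (n % p) g η 0 /
        (1 - y ^ (p ^ s - 1)) ^ (p - 1)) =
        (B ^ n * Y ^ (p - 1)) * bigT p (n % p) g η 0 / (1 - y ^ (p ^ s - 1)) ^ (p - 1) := by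
      field_simp
    rw [h4]
    have h5 : g.leadingCoeff * -η ^ p * (B ^ n * Y ^ (p - 1) * y⁻¹ ^ (p ^ s * (p - 1)) *
        η⁻¹ ^ p * (-1 * y ^ (p ^ s * (p - 1)) * (bigT p (n % p) g η 0 * g.leadingCoeff⁻¹) /
          (1 - y ^ (p ^ s - 1)) ^ (p - 1))) =
        (η⁻¹ ^ p * η ^ p) * (y⁻¹ ^ (p ^ s * (p - 1)) * y ^ (p ^ s * (p - 1))) *
        (g.leadingCoeff * g.leadingCoeff⁻¹) *
        ((B ^ n * Y ^ (p - 1)) * bigT p (n % p) g η 0 / (1 - y ^ (p ^ s - 1)) ^ (p - 1)) := by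
      ring
    rw [h5, h2, h3, mul_inv_cancel₀ hl, one_mul, one_mul, one_mul]
  · obtain ⟨T, hTcard, hT⟩ := hroots c hc
    have hcA : algebraMap K A c ≠ 0 := (_root_.map_ne_zero _).2 (hcc c hc)
    have hev2 : ∀ x : 𝕜, aeval x G = (g.map L).eval x *
        (1 - StepP.ee p (L B) (L Y) i (p ^ s) (L β) ^ p * x ^ p) := by
      intro x
      rw [hG, hLη, map_mul, hL, eval_map_algebraMap]
      simp
    have hTA : ∀ x ∈ T, ∃ a : A, L a = x := by
      intro x hx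
      have h3 := hT x hx
      rw [← hev2, hLα'] at h3
      refine hA x (StepG.isSeparable_of_root
        (Polynomial.C (algebraMap K A c) * G - Polynomial.C α') x ?_ ?_)
      · rw [map_sub, map_mul, aeval_C, aeval_C, h3, sub_self]
      · rw [derivative_sub, derivative_C_mul, derivative_C, sub_zero, map_mul, aeval_C]
        refine mul_ne_zero ((map_ne_zero L).2 hcA) fun h0 => ?_
        have h4 := congrArg (aeval x) hGd
        rw [hnp, map_mul, h0, mul_zero, map_mul, map_natCast] at h4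
        have h5 : aeval x G = 0 := (mul_eq_zero.1 h4.symm).resolve_left hnk
        rw [h5, mul_zero] at h3
        exact hαne h3.symm
    choose! f hf using hTA
    refine ⟨T.image f, ?_, ?_⟩
    · rw [Finset.card_image_of_injOn, hTcard]
      intro x hx y hy hxy
      rw [← hf x hx, ← hf y hy, hxy]
    · intro a ha
      obtain ⟨x, hx, rfl⟩ := Finset.mem_image.1 ha
      have h3 := hT x hx
      rw [← hev2, hLα'] at h3
      apply L.injective
      rw [map_mul, ← h3]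
      congr 1
      have h4 := aeval_algebraMap_apply 𝕜 (f x) G
      rw [← hL, hf x hx] at h4
      rw [h4, coe_aeval_eq_eval]

end Pool.Agent.BCX
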