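import Pool.Agent.BCX.Defs

/-!
# The power sums of the word with a cluster (row A3)
-/

namespace Pool.Agent.BCX

section A3

variable {p : ℕ} [Fact p.Prime] {K : Type} [Field K] [Algebra (ZMod p) K]

/-- the old power sums and the power sums of the new word -/
noncomputable def psum {ι : Type} [Fintype ι] (x : ι → K) (c : ι → ZMod p) (cb : ZMod p)
    (b θ : K) (z : Fin (p - 1) → K) (l : ℕ) : K :=
  ∑ i, algebraMap (ZMod p) K (c i) * x i ^ l +
    algebraMap (ZMod p) K cb * (b ^ l + ∑ a, (b * (1 + θ * z a)) ^ l)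

/-- the equations of the cluster -/
structure Eqs {ι : Type} [Fintype ι] (d : ℕ) (x : ι → K) (c : ι → ZMod p) (cb : ZMod p)
    (b θ lam : K) (z : Fin (p - 1) → K) (q : ℕ → K) : Prop where
  hb : b ≠ 0
  hlam : lam ≠ 0
  hrel : algebraMap (ZMod p) K cb * b ^ d * θ ^ (p - 1) = lam
  h0 : ∑ i, algebraMap (ZMod p) K (c i) = 0
  hI : ∀ l, 1 ≤ l → l < d → ¬ p ∣ l →
    ∑ i, algebraMap (ZMod p) K (c i) * x i ^ l * (1 - (x i / b) ^ p) -
      algebraMap (ZMod p) K cb * b ^ l * θ ^ p * ∑ a, (1 + θ * z a) ^ l * z a ^ p = 0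
  hII : ∀ k, 1 ≤ k → k ≤ p - 1 → ∑ a, z a ^ k = θ ^ (p - 1 - k) * q k
  hIII : ∀ r, 1 ≤ r → r ≤ p - 1 →
    ∑ j ∈ Finset.range (p - r), (d.choose j : K) * q (j + r) +
      ∑ j ∈ Finset.Ico (p - r) (d + 1), (d.choose j : K) * θ ^ (j + r - (p - 1)) *
        ∑ a, z a ^ (j + r) +
      lam⁻¹ * ∑ i, algebraMap (ZMod p) K (c i) * x i ^ d * (x i / b - 1) ^ r = 0

/-- the sum of a function over the letters of the new word -/
noncomputable def phi {ι : Type} [Fintype ι] (x : ι → K) (c : ι → ZMod p) (cb : ZMod p)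
    (b θ : K) (z : Fin (p - 1) → K) (g : K → K) : K :=
  ∑ i, algebraMap (ZMod p) K (c i) * g (x i) +
    algebraMap (ZMod p) K cb * (g b + ∑ a, g (b * (1 + θ * z a)))

variable {ι : Type} [Fintype ι] {d : ℕ} {x : ι → K} {c : ι → ZMod p} {cb : ZMod p}
  {b θ lam : K} {z : Fin (p - 1) → K} {q : ℕ → K}

theorem psum_eq_phi (l : ℕ) : psum x c cb b θ z l = phi x c cb b θ z (fun t => t ^ l) := rfl

theorem phi_add (g h : K → K) :
    phi x c cb b θ z (fun t => g t + h t) = phi x c cb b θ z g + phi x c cb b θ z h := by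
  simp only [phi, mul_add, Finset.sum_add_distrib]
  ring

theorem phi_mul (k : K) (g : K → K) :
    phi x c cb b θ z (fun t => k * g t) = k * phi x c cb b θ z g := by
  simp only [phi, mul_add, Finset.mul_sum]
  congr 1
  · exact Finset.sum_congr rfl fun i _ => by ring
  · congr 1
    · ring
    · exact Finset.sum_congr rfl fun i _ => by ring

theorem phi_sum {κ : Type} (s : Finset κ) (g : κ → K → K) :
    phi x c cb b θ z (fun t => ∑ k ∈ s, g k t) = ∑ k ∈ s, phi x c cb b θ z (g k) := by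
  classical
  induction s using Finset.induction_on with
  | empty => simp [phi]
  | insert a s ha ih =>
    rw [Finset.sum_insert ha, ← ih, ← phi_add]
    congr 1
    funext t
    rw [Finset.sum_insert ha]

theorem charP_K (p : ℕ) [Fact p.Prime] (K : Type) [Field K] [Algebra (ZMod p) K] : CharP K p :=
  charP_of_injective_algebraMap (algebraMap (ZMod p) K).injective p

/-- `t ^ l (1 - (t / b) ^ p)` -/
theorem Eqs.phiI (h : Eqs d x c cb b θ lam z q) {l : ℕ} (hl : 1 ≤ l) (hld : l < d)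
    (hpl : ¬ p ∣ l) :
    phi x c cb b θ z (fun t => t ^ l * (1 - (t / b) ^ p)) = 0 := by
  have := charP_K p K
  have hb := h.hb
  have h1 := h.hI l hl hld hpl
  rw [← h1]
  unfold phi
  dsimp only
  have e1 : ∀ a : Fin (p - 1), (b * (1 + θ * z a)) ^ l * (1 - (b * (1 + θ * z a) / b) ^ p) =
      - (b ^ l * θ ^ p * ((1 + θ * z a) ^ l * z a ^ p)) := by
    intro a
    rw [mul_div_cancel_left₀ _ hb, add_pow_char, one_pow, mul_pow, mul_pow]
    ring
  rw [Finset.sum_congr rfl fun a _ => e1 a, div_self hb, one_pow, sub_self, mul_zero, zero_add,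
    Finset.sum_neg_distrib, ← Finset.mul_sum]
  rw [Finset.sum_congr rfl fun i _ => (mul_assoc _ _ _)]
  ring

/-- the binomial expansion of the cluster -/
theorem Eqs.expand (h : Eqs d x c cb b θ lam z q) {r : ℕ} (hr1 : 1 ≤ r) (hr : r ≤ p - 1) :
    θ ^ r * ∑ a, (1 + θ * z a) ^ d * z a ^ r =
      θ ^ (p - 1) * (∑ j ∈ Finset.range (p - r), (d.choose j : K) * q (j + r) +
        ∑ j ∈ Finset.Ico (p - r) (d + 1), (d.choose j : K) * θ ^ (j + r - (p - 1)) *
        ∑ a, z a ^ (j + r)) := by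
  have e0 : ∀ N, d < N → ∑ a, (1 + θ * z a) ^ d * z a ^ r =
      ∑ j ∈ Finset.range N, (d.choose j : K) * θ ^ j * ∑ a, z a ^ (j + r) := by
    intro N hN
    have : ∀ a, (1 + θ * z a) ^ d * z a ^ r =
        ∑ j ∈ Finset.range N, (d.choose j : K) * θ ^ j * z a ^ (j + r) := by
      intro a
      rw [add_comm, add_pow, Finset.sum_mul]
      have hsub : Finset.range (d + 1) ⊆ Finset.range N := Finset.range_subset_range.2 hN
      refine (Finset.sum_congr rfl fun j _ => ?_).trans (Finset.sum_subset hsub ?_)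
      · rw [one_pow, mul_pow, pow_add]
        ring
      · intro j _ hj
        rw [Nat.choose_eq_zero_of_lt (by simpa using hj)]
        simp
    rw [Finset.sum_congr rfl fun a _ => this a, Finset.sum_comm]
    exact Finset.sum_congr rfl fun j _ => by rw [Finset.mul_sum]
  have hN : d < max (d + 1) (p - r) := lt_of_lt_of_le (Nat.lt_succ_self d) (le_max_left _ _)
  rw [e0 _ hN]
  have hs : ∑ j ∈ Finset.range (max (d + 1) (p - r)), (d.choose j : K) * θ ^ j *
      ∑ a, z a ^ (j + r) = ∑ j ∈ Finset.range (p - r), (d.choose j : K) * θ ^ j *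
      ∑ a, z a ^ (j + r) + ∑ j ∈ Finset.Ico (p - r) (d + 1), (d.choose j : K) * θ ^ j *
      ∑ a, z a ^ (j + r) := by
    rw [← Finset.sum_range_add_sum_Ico _ (le_max_right (d + 1) (p - r))]
    congr 1
    symm
    refine Finset.sum_subset (Finset.Ico_subset_Ico_right (le_max_left _ _)) ?_
    intro j hj hj'
    rw [Finset.mem_Ico] at hj hj'
    rw [Nat.choose_eq_zero_of_lt (by omega)]
    simp
  rw [hs, mul_add, mul_add, Finset.mul_sum, Finset.mul_sum, Finset.mul_sum, Finset.mul_sum]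
  congr 1
  · refine Finset.sum_congr rfl fun j hj => ?_
    rw [Finset.mem_range] at hj
    rw [h.hII (j + r) (by omega) (by omega)]
    have : θ ^ (p - 1) = θ ^ r * θ ^ j * θ ^ (p - 1 - (j + r)) := by
      rw [← pow_add, ← pow_add]
      congr 1
      omega
    rw [this]
    ring
  · refine Finset.sum_congr rfl fun j hj => ?_
    rw [Finset.mem_Ico] at hj
    have : θ ^ r * θ ^ j = θ ^ (p - 1) * θ ^ (j + r - (p - 1)) := by
      rw [← pow_add, ← pow_add]
      congr 1
      omega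
    calc θ ^ r * ((d.choose j : K) * θ ^ j * ∑ a, z a ^ (j + r)) =
        (θ ^ r * θ ^ j) * ((d.choose j : K) * ∑ a, z a ^ (j + r)) := by ring
      _ = _ := by rw [this]; ring

/-- `t ^ d (t / b - 1) ^ r` for every `r ≥ 1` -/
theorem Eqs.phi_sub (h : Eqs d x c cb b θ lam z q) {r : ℕ} (hr1 : 1 ≤ r) :
    phi x c cb b θ z (fun t => t ^ d * (t / b - 1) ^ r) =
      ∑ i, algebraMap (ZMod p) K (c i) * x i ^ d * (x i / b - 1) ^ r +
      algebraMap (ZMod p) K cb * b ^ d * (θ ^ r * ∑ a, (1 + θ * z a) ^ d * z a ^ r) := by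
  have hb := h.hb
  unfold phi
  dsimp only
  have e1 : ∀ a : Fin (p - 1), (b * (1 + θ * z a)) ^ d * (b * (1 + θ * z a) / b - 1) ^ r =
      b ^ d * θ ^ r * ((1 + θ * z a) ^ d * z a ^ r) := by
    intro a
    rw [mul_div_cancel_left₀ _ hb, add_sub_cancel_left, mul_pow, mul_pow]
    ring
  rw [Finset.sum_congr rfl fun a _ => e1 a, div_self hb, sub_self, zero_pow (by omega), mul_zero,
    zero_add, ← Finset.mul_sum]
  rw [Finset.sum_congr rfl fun i _ => (mul_assoc _ _ _).symm]
  ring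

theorem Eqs.phiIII (h : Eqs d x c cb b θ lam z q) {r : ℕ} (hr1 : 1 ≤ r) (hr : r ≤ p - 1) :
    phi x c cb b θ z (fun t => t ^ d * (t / b - 1) ^ r) = 0 := by
  rw [h.phi_sub hr1, h.expand hr1 hr, ← mul_assoc, h.hrel]
  have h3 := h.hIII r hr1 hr
  have h4 := congrArg (fun t => lam * t) h3
  simp only [mul_add, mul_zero] at h4
  rw [← mul_assoc lam lam⁻¹, mul_inv_cancel₀ h.hlam, one_mul] at h4
  rw [← h4]
  ring

/-- `psum (d + i) = b ^ i * psum d` for `i ≤ p - 1` -/
theorem Eqs.psum_add (h : Eqs d x c cb b θ lam z q) {i : ℕ} (hi : i ≤ p - 1) :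
    psum x c cb b θ z (d + i) = b ^ i * psum x c cb b θ z d := by
  have hb := h.hb
  have e : (fun t : K => t ^ (d + i)) = fun t => b ^ i * ∑ r ∈ Finset.range (i + 1),
      (i.choose r : K) * (t ^ d * (t / b - 1) ^ r) := by
    funext t
    have : t = b * (t / b - 1 + 1) := by field_simp; ring
    have h2 : t ^ i = b ^ i * ∑ r ∈ Finset.range (i + 1), (t / b - 1) ^ r * (i.choose r : K) := by
      conv_lhs => rw [this]
      rw [mul_pow, add_pow]
      simp only [one_pow, mul_one]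
    rw [pow_add, h2, ← mul_assoc, mul_comm (t ^ d), mul_assoc, Finset.mul_sum]
    congr 1
    exact Finset.sum_congr rfl fun r _ => by ring
  rw [psum_eq_phi, e, phi_mul, phi_sum]
  congr 1
  rw [Finset.sum_range_succ']
  rw [Finset.sum_eq_zero]
  · rw [phi_mul]
    simp only [Nat.choose_zero_right, Nat.cast_one, pow_zero, mul_one, one_mul, zero_add]
    rfl
  · intro r hr
    rw [Finset.mem_range] at hr
    rw [phi_mul, h.phiIII (by omega) (by omega), mul_zero]

/-- the descending recursion -/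
theorem Eqs.psum_rec (h : Eqs d x c cb b θ lam z q) {l : ℕ} (hl : 1 ≤ l) (hld : l < d)
    (hpl : ¬ p ∣ l) : psum x c cb b θ z l * b ^ p = psum x c cb b θ z (l + p) := by
  have hb := h.hb
  have h1 := h.phiI hl hld hpl
  have e : (fun t : K => t ^ l * (1 - (t / b) ^ p)) =
      fun t => t ^ l + (- (b ^ p)⁻¹) * t ^ (l + p) := by
    funext t
    rw [div_pow, pow_add]
    field_simp
    ring
  rw [e, phi_add (fun t => t ^ l), phi_mul] at h1
  rw [psum_eq_phi, psum_eq_phi]
  have hbp : b ^ p ≠ 0 := pow_ne_zero _ hb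
  have h2 : phi x c cb b θ z (fun t => t ^ l) =
      (b ^ p)⁻¹ * phi x c cb b θ z (fun t => t ^ (l + p)) := by
    linear_combination h1
  rw [h2]
  field_simp

/-- `psum l * b ^ d = b ^ l * psum d` for `1 ≤ l < d + p`, `p ∤ l` or `d ≤ l` -/
theorem Eqs.psum_mul (h : Eqs d x c cb b θ lam z q) {l : ℕ} (hl : 1 ≤ l) (hldp : l < d + p)
    (hpl : ¬ p ∣ l ∨ d ≤ l) :
    psum x c cb b θ z l * b ^ d = b ^ l * psum x c cb b θ z d := by
  have hp : 2 ≤ p := (Fact.out : p.Prime).two_le
  have hb := h.hb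
  have key : ∀ n l : ℕ, d + p - l = n → 1 ≤ l → l < d + p → (¬ p ∣ l ∨ d ≤ l) →
      psum x c cb b θ z l * b ^ d = b ^ l * psum x c cb b θ z d := by
    intro n
    induction n using Nat.strong_induction_on with
    | _ n ih =>
      intro l hn hl hldp hpl
      by_cases hd : d ≤ l
      · obtain ⟨i, rfl⟩ := Nat.exists_eq_add_of_le hd
        rw [h.psum_add (by omega), pow_add]
        ring
      · push Not at hd
        have hpl' : ¬ p ∣ l := by
          rcases hpl with h' | h'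
          · exact h'
          · omega
        have h1 := h.psum_rec hl hd hpl'
        have h2 := ih (d + p - (l + p)) (by omega) (l + p) rfl (by omega) (by omega)
          (Or.inl fun h' => hpl' ((Nat.dvd_add_left (dvd_refl p)).1 h'))
        have hbp : b ^ p ≠ 0 := pow_ne_zero _ hb
        apply mul_right_cancel₀ hbp
        calc psum x c cb b θ z l * b ^ d * b ^ p = psum x c cb b θ z (l + p) * b ^ d := by
              rw [← h1]; ring
          _ = b ^ (l + p) * psum x c cb b θ z d := h2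
          _ = _ := by rw [pow_add]; ring
  exact key _ l rfl hl hldp hpl

/-- Frobenius -/
theorem psum_mul_p (x : ι → K) (c : ι → ZMod p) (cb : ZMod p) (b θ : K) (z : Fin (p - 1) → K)
    (l : ℕ) : psum x c cb b θ z (l * p) = psum x c cb b θ z l ^ p := by
  have := charP_K p K
  have hfix : ∀ u : ZMod p, algebraMap (ZMod p) K u ^ p = algebraMap (ZMod p) K u := by
    intro u
    rw [← map_pow, ZMod.pow_card]
  unfold psum
  rw [add_pow_char, mul_pow, add_pow_char, sum_pow_char, sum_pow_char, hfix]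
  congr 1
  · exact Finset.sum_congr rfl fun i _ => by rw [mul_pow, hfix, pow_mul]
  · congr 1
    congr 1
    · rw [pow_mul]
    · exact Finset.sum_congr rfl fun i _ => by rw [pow_mul]

theorem psum_mul_pow (x : ι → K) (c : ι → ZMod p) (cb : ZMod p) (b θ : K) (z : Fin (p - 1) → K)
    (l k : ℕ) : psum x c cb b θ z (l * p ^ k) = psum x c cb b θ z l ^ (p ^ k) := by
  induction k with
  | zero => simp
  | succ k ih => rw [pow_succ, ← mul_assoc, psum_mul_p, ih, ← pow_mul]

/-- ROW A3a -/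
theorem Eqs.tau_pow {ι : Type} [Fintype ι] {d : ℕ} (hd : 1 ≤ d) (hpd : ¬ p ∣ d) {x : ι → K}
    {c : ι → ZMod p} {cb : ZMod p} {b θ lam : K} {z : Fin (p - 1) → K} {q : ℕ → K}
    (h : Eqs d x c cb b θ lam z q) :
    ∃ P, 2 ≤ P ∧ psum x c cb b θ z d ^ P = b ^ (d * (P - 1)) * psum x c cb b θ z d := by
  have hp : p.Prime := Fact.out
  have hb := h.hb
  -- the multiple of `p` in `[d, d + p - 1]`
  obtain ⟨m, hdm, hmd, hpm⟩ : ∃ m, d ≤ m ∧ m < d + p ∧ p ∣ m := by
    refine ⟨p * (d / p) + p, ?_, ?_, ?_⟩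
    · have := Nat.mod_lt d hp.pos
      have := Nat.div_add_mod d p
      omega
    · have h1 : 0 < d % p := Nat.pos_of_ne_zero fun h' => hpd (Nat.dvd_of_mod_eq_zero h')
      have := Nat.div_add_mod d p
      omega
    · exact Dvd.dvd.add (Dvd.intro _ rfl) (dvd_refl p)
  have hm0 : m ≠ 0 := by omega
  obtain ⟨ν, k, hk, hmk⟩ := Nat.exists_eq_pow_mul_and_not_dvd hm0 p hp.ne_one
  have hν : 1 ≤ ν := by
    by_contra h'
    have : ν = 0 := by omega
    subst this
    rw [pow_zero, one_mul] at hmk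
    exact hk (hmk ▸ hpm)
  have hk1 : 1 ≤ k := Nat.pos_of_ne_zero fun h' => hk (h' ▸ dvd_zero p)
  have hkm : k ≤ m := by
    rw [hmk]
    exact Nat.le_mul_of_pos_left _ (pow_pos hp.pos _)
  have hP2 : 2 ≤ p ^ ν := hp.two_le.trans (by
    calc p = p ^ 1 := (pow_one p).symm
      _ ≤ p ^ ν := Nat.pow_le_pow_right hp.pos hν)
  refine ⟨p ^ ν, hP2, ?_⟩
  set τ := psum x c cb b θ z d with hτ
  have h1 : psum x c cb b θ z m * b ^ d = b ^ m * τ := h.psum_mul (by omega) hmd (Or.inr hdm)
  have h2 : psum x c cb b θ z k * b ^ d = b ^ k * τ :=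
    h.psum_mul hk1 (by omega) (Or.inl hk)
  have h3 : psum x c cb b θ z m = psum x c cb b θ z k ^ (p ^ ν) := by
    rw [hmk, mul_comm, psum_mul_pow]
  have h4 : psum x c cb b θ z m * b ^ (d * p ^ ν) = b ^ m * τ ^ (p ^ ν) := by
    rw [h3, pow_mul, ← mul_pow, h2, mul_pow, ← pow_mul]
    congr 2
    rw [hmk, mul_comm]
  have h5 : b ^ (d * p ^ ν) = b ^ d * b ^ (d * (p ^ ν - 1)) := by
    rw [← pow_add]
    congr 1
    obtain ⟨s, hs⟩ : ∃ s, p ^ ν = s + 1 := ⟨p ^ ν - 1, by omega⟩
    rw [hs, Nat.add_sub_cancel]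
    ring
  have hbm : b ^ m ≠ 0 := pow_ne_zero _ hb
  apply mul_left_cancel₀ hbm
  rw [← h4, h5, ← mul_assoc, h1]
  ring

/-- ROW A3b -/
theorem Eqs.psum_eq_zero {ι : Type} [Fintype ι] {d : ℕ} (hd : 1 ≤ d) (hpd : ¬ p ∣ d) {x : ι → K}
    {c : ι → ZMod p} {cb : ZMod p} {b θ lam : K} {z : Fin (p - 1) → K} {q : ℕ → K}
    (h : Eqs d x c cb b θ lam z q) (hτ : psum x c cb b θ z d = 0) {l : ℕ} (hl : l < d + p) :
    psum x c cb b θ z l = 0 := by
  have := charP_K p K
  have hp : p.Prime := Fact.out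
  have hb := h.hb
  induction l using Nat.strong_induction_on with
  | _ l ih =>
    rcases Nat.eq_zero_or_pos l with rfl | hl0
    · unfold psum
      simp only [pow_zero, mul_one, Finset.sum_const, Finset.card_univ, Fintype.card_fin,
        nsmul_eq_mul, h.h0, zero_add]
      have : (1 : K) + ((p - 1 : ℕ) : K) = 0 := by
        rw [Nat.cast_sub hp.one_le, CharP.cast_eq_zero]
        simp
      rw [this, mul_zero]
    · by_cases hpl : p ∣ l
      · obtain ⟨k, rfl⟩ := hpl
        have hk : 0 < k := Nat.pos_of_mul_pos_left hl0 |> fun h' => by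
          rcases Nat.eq_zero_or_pos k with rfl | h''
          · simp at hl0
          · exact h''
        have hklt : k < p * k := by
          have := hp.two_le
          nlinarith
        rw [mul_comm, psum_mul_p, ih k hklt (by omega), zero_pow hp.ne_zero]
      · have h1 := h.psum_mul hl0 hl (Or.inl hpl)
        rw [hτ, mul_zero] at h1
        exact (mul_eq_zero.1 h1).resolve_right (pow_ne_zero _ hb)

/-- ROW A3c -/
theorem Eqs.tau_eq {ι : Type} [Fintype ι] {d : ℕ} {x : ι → K}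
    {c : ι → ZMod p} {cb : ZMod p} {b θ lam : K} {z : Fin (p - 1) → K} {q : ℕ → K}
    (h : Eqs d x c cb b θ lam z q) :
    psum x c cb b θ z d = ∑ i, algebraMap (ZMod p) K (c i) * x i ^ d +
      lam * (∑ j ∈ Finset.Ico 1 p, (d.choose j : K) * q j +
        ∑ j ∈ Finset.Ico p (d + 1), (d.choose j : K) * θ ^ (j - (p - 1)) * ∑ a, z a ^ j) := by
  have := charP_K p K
  have hp : p.Prime := Fact.out
  have hp1 := hp.one_le
  unfold psum
  congr 1
  have e0 : b ^ d + ∑ a, (b * (1 + θ * z a)) ^ d = b ^ d * (1 + ∑ a, (1 + θ * z a) ^ d) := by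
    rw [mul_add, mul_one, Finset.mul_sum]
    congr 1
    exact Finset.sum_congr rfl fun a _ => by rw [mul_pow]
  have e1 : ∑ a, (1 + θ * z a) ^ d =
      ∑ j ∈ Finset.range (max (d + 1) p), (d.choose j : K) * θ ^ j * ∑ a, z a ^ j := by
    have : ∀ a, (1 + θ * z a) ^ d =
        ∑ j ∈ Finset.range (max (d + 1) p), (d.choose j : K) * θ ^ j * z a ^ j := by
      intro a
      rw [add_comm, add_pow]
      refine (Finset.sum_congr rfl fun j _ => ?_).trans
        (Finset.sum_subset (Finset.range_subset_range.2 (le_max_left _ _)) ?_)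
      · rw [one_pow, mul_pow]
        ring
      · intro j _ hj
        rw [Nat.choose_eq_zero_of_lt (by simpa using hj)]
        simp
    rw [Finset.sum_congr rfl fun a _ => this a, Finset.sum_comm]
    exact Finset.sum_congr rfl fun j _ => by rw [Finset.mul_sum]
  have e2 : ∑ j ∈ Finset.range (max (d + 1) p), (d.choose j : K) * θ ^ j * ∑ a, z a ^ j =
      ∑ j ∈ Finset.range p, (d.choose j : K) * θ ^ j * ∑ a, z a ^ j +
      ∑ j ∈ Finset.Ico p (d + 1), (d.choose j : K) * θ ^ j * ∑ a, z a ^ j := by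
    rw [← Finset.sum_range_add_sum_Ico _ (le_max_right (d + 1) p)]
    congr 1
    symm
    refine Finset.sum_subset (Finset.Ico_subset_Ico_right (le_max_left _ _)) ?_
    intro j hj hj'
    rw [Finset.mem_Ico] at hj hj'
    rw [Nat.choose_eq_zero_of_lt (by omega)]
    simp
  have e3 : ∑ j ∈ Finset.range p, (d.choose j : K) * θ ^ j * ∑ a, z a ^ j =
      ((p - 1 : ℕ) : K) + ∑ j ∈ Finset.Ico 1 p, (d.choose j : K) * θ ^ j * ∑ a, z a ^ j := by
    rw [← Finset.sum_range_add_sum_Ico _ hp1]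
    congr 1
    simp
  have e4 : (1 : K) + ((p - 1 : ℕ) : K) = 0 := by
    rw [Nat.cast_sub hp.one_le, CharP.cast_eq_zero]
    simp
  rw [e0, e1, e2, e3, add_assoc, ← add_assoc (1 : K), e4, zero_add, ← h.hrel]
  rw [← mul_assoc, mul_add, mul_add, Finset.mul_sum, Finset.mul_sum, Finset.mul_sum,
    Finset.mul_sum]
  congr 1
  · refine Finset.sum_congr rfl fun j hj => ?_
    rw [Finset.mem_Ico] at hj
    rw [h.hII j (by omega) (by omega)]
    have : θ ^ (p - 1) = θ ^ j * θ ^ (p - 1 - j) := by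
      rw [← pow_add]
      congr 1
      omega
    rw [this]
    ring
  · refine Finset.sum_congr rfl fun j hj => ?_
    rw [Finset.mem_Ico] at hj
    have : θ ^ j = θ ^ (p - 1) * θ ^ (j - (p - 1)) := by
      rw [← pow_add]
      congr 1
      omega
    rw [this]
    ring

/-- ROW A3d -/
theorem Eqs.top_eq {ι : Type} [Fintype ι] {d : ℕ} {x : ι → K}
    {c : ι → ZMod p} {cb : ZMod p} {b θ lam : K} {z : Fin (p - 1) → K} {q : ℕ → K}
    (h : Eqs d x c cb b θ lam z q) (hτ : psum x c cb b θ z d = 0) :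
    psum x c cb b θ z (d + p) = b ^ p *
      (∑ i, algebraMap (ZMod p) K (c i) * x i ^ d * (x i / b - 1) ^ p +
        lam * θ * ∑ a, (1 + θ * z a) ^ d * z a ^ p) := by
  have := charP_K p K
  have hp : p.Prime := Fact.out
  have hb := h.hb
  have e : (fun t : K => t ^ (d + p)) = fun t => b ^ p * (t ^ d + t ^ d * (t / b - 1) ^ p) := by
    funext t
    rw [sub_pow_char, one_pow, div_pow, pow_add]
    field_simp
    ring
  rw [psum_eq_phi, e, phi_mul, phi_add (fun t => t ^ d), h.phi_sub hp.one_le, ← psum_eq_phi, hτ,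
    zero_add]
  congr 2
  have : θ ^ p = θ ^ (p - 1) * θ := by
    rw [← pow_succ]
    congr 1
    have := hp.one_le
    omega
  rw [this, ← h.hrel]
  ring

end A3

end Pool.Agent.BCX
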