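import Pool.Agent.BCX.Defs

/-!
# The weight filtration of the coordinate ring of a plane curve (row S2)
-/

namespace Pool.Agent.BCX

open Polynomial

section S2

theorem mem_M {D B N : ℕ} {ij : ℕ × ℕ} : ij ∈ M D B N ↔ ij.2 < D ∧ ij.1 + B * ij.2 ≤ N := by
  simp only [M, Finset.mem_filter, Finset.mem_product, Finset.mem_range]
  constructor
  · rintro ⟨⟨_, h2⟩, h3⟩
    exact ⟨h2, h3⟩
  · rintro ⟨h2, h3⟩
    exact ⟨⟨by omega, h2⟩, h3⟩

theorem card_M (D B N : ℕ) : (M D B N).card = ∑ j ∈ Finset.range D, (N + 1 - B * j) := by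
  have h : (M D B N).card = ∑ j ∈ Finset.range D, ((M D B N).filter fun ij => ij.2 = j).card :=
    Finset.card_eq_sum_card_fiberwise fun ij hij => by
      simpa using (mem_M.1 hij).1
  rw [h]
  refine Finset.sum_congr rfl fun j hj => ?_
  rw [Finset.mem_range] at hj
  have : ((M D B N).filter fun ij => ij.2 = j) =
      (Finset.range (N + 1 - B * j)).image fun i => (i, j) := by
    ext ⟨i, k⟩
    simp only [Finset.mem_filter, mem_M, Finset.mem_image, Finset.mem_range, Prod.mk.injEq]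
    constructor
    · rintro ⟨⟨_, h2⟩, rfl⟩
      exact ⟨i, by omega, rfl, rfl⟩
    · rintro ⟨i', h1, rfl, rfl⟩
      exact ⟨⟨hj, by omega⟩, rfl⟩
  rw [this, Finset.card_image_of_injective _ (fun a b hab => by simpa using hab),
    Finset.card_range]

theorem card_M_le (D B N : ℕ) : (M D B N).card ≤ D * (N + 1) := by
  rw [card_M]
  refine (Finset.sum_le_sum fun j _ => Nat.sub_le (N + 1) (B * j)).trans ?_
  simp

theorem le_card_M (D B N : ℕ) : D * (N - B * D) ≤ (M D B N).card := by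
  rw [card_M]
  calc D * (N - B * D) = ∑ _j ∈ Finset.range D, (N - B * D) := by simp
    _ ≤ _ := Finset.sum_le_sum fun j hj => by
        rw [Finset.mem_range] at hj
        have : B * j ≤ B * D := Nat.mul_le_mul_left _ hj.le
        omega

theorem card_M_add (D B N N' : ℕ) : (M D B (N' + N)).card ≤ (M D B N').card + D * N := by
  rw [card_M, card_M]
  calc ∑ j ∈ Finset.range D, (N' + N + 1 - B * j) ≤
      ∑ j ∈ Finset.range D, ((N' + 1 - B * j) + N) := Finset.sum_le_sum fun j _ => by omega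
    _ = _ := by rw [Finset.sum_add_distrib]; simp

variable {F Ω R : Type} [Field F] [Field Ω] [CommRing R] [Algebra F Ω] [Algebra Ω R]
    [Algebra F R] [IsScalarTower F Ω R]

theorem Curve.mon_mem {S : Type} [CommRing S] [Algebra S R] (c : Curve F Ω R) {N : ℕ}
    {ij : ℕ × ℕ} (h : ij ∈ M c.D c.B N) : c.mon ij ∈ Submodule.span S (c.mons N) :=
  Submodule.subset_span ⟨ij, h, rfl⟩

/-- ROW S2: the weight filtration -/
theorem Curve.pow_mem (c : Curve F Ω R) {N i j : ℕ} (h : i + c.B * j ≤ N) :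
    c.x ^ i * c.y ^ j ∈ Submodule.span F (c.mons N) := by
  induction j using Nat.strong_induction_on generalizing i with
  | _ j ih =>
    by_cases hj : j < c.D
    · exact c.mon_mem (ij := (i, j)) (mem_M.2 ⟨hj, h⟩)
    · push Not at hj
      obtain ⟨k, rfl⟩ := Nat.exists_eq_add_of_le hj
      rw [pow_add, c.rel, Finset.sum_mul, Finset.mul_sum]
      refine Submodule.sum_mem _ fun t ht => ?_
      rw [Finset.mem_range] at ht
      rw [Polynomial.aeval_eq_sum_range, Finset.sum_mul, Finset.sum_mul, Finset.mul_sum]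
      refine Submodule.sum_mem _ fun s hs => ?_
      rw [Finset.mem_range] at hs
      have hdeg := c.deg t ht
      have h1 : c.x ^ i * ((c.a t).coeff s • c.x ^ s * c.y ^ t * c.y ^ k) =
          (c.a t).coeff s • (c.x ^ (i + s) * c.y ^ (t + k)) := by
        rw [pow_add, pow_add, smul_mul_assoc, smul_mul_assoc, mul_smul_comm]
        congr 1
        ring
      rw [h1]
      refine Submodule.smul_mem _ _ (ih (t + k) (by omega) ?_)
      have h2 : c.B * (t + k) + c.B ≤ c.B * (c.D + k) := by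
        rw [← Nat.mul_succ]
        exact Nat.mul_le_mul_left _ (by omega)
      omega

/-- products, for the span over any intermediate ring of scalars -/
theorem Curve.mul_mem {S : Type} [CommRing S] [Algebra S R] [Algebra F S] [IsScalarTower F S R]
    (c : Curve F Ω R) {N N' : ℕ} {a b : R} (ha : a ∈ Submodule.span S (c.mons N))
    (hb : b ∈ Submodule.span S (c.mons N')) : a * b ∈ Submodule.span S (c.mons (N + N')) := by
  have h1 := Submodule.mul_mem_mul ha hb
  rw [Submodule.span_mul_span] at h1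
  refine (Submodule.span_le.2 ?_) h1
  rintro _ ⟨_, ⟨ij, hij, rfl⟩, _, ⟨kl, hkl, rfl⟩, rfl⟩
  have h2 := (mem_M.1 (Finset.mem_coe.1 hij)).2
  have h3 := (mem_M.1 (Finset.mem_coe.1 hkl)).2
  have h4 : c.mon ij * c.mon kl = c.x ^ (ij.1 + kl.1) * c.y ^ (ij.2 + kl.2) := by
    simp only [Curve.mon, pow_add]
    ring
  simp only [h4]
  refine Submodule.span_subset_span F S _ (c.pow_mem ?_)
  rw [mul_add]
  omega

theorem Curve.one_mem {S : Type} [CommRing S] [Algebra S R] (c : Curve F Ω R) (N : ℕ) :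
    (1 : R) ∈ Submodule.span S (c.mons N) := by
  have h := c.mon_mem (S := S) (N := N) (ij := (0, 0)) (mem_M.2 ⟨c.hD, by simp⟩)
  simpa [Curve.mon] using h

theorem Curve.pow_mem' {S : Type} [CommRing S] [Algebra S R] [Algebra F S] [IsScalarTower F S R]
    (c : Curve F Ω R) {N : ℕ} {a : R} (ha : a ∈ Submodule.span S (c.mons N)) (k : ℕ) :
    a ^ k ∈ Submodule.span S (c.mons (k * N)) := by
  induction k with
  | zero => simpa using c.one_mem 0
  | succ k ih =>
    rw [pow_succ, Nat.succ_mul]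
    exact c.mul_mem ih ha

theorem M_mono {D B N N' : ℕ} (h : N ≤ N') : M D B N ⊆ M D B N' := fun _ hij =>
  mem_M.2 ⟨(mem_M.1 hij).1, (mem_M.1 hij).2.trans h⟩

theorem Curve.mono {S : Type} [CommRing S] [Algebra S R] (c : Curve F Ω R) {N N' : ℕ}
    (h : N ≤ N') : Submodule.span S (c.mons N) ≤ Submodule.span S (c.mons N') :=
  Submodule.span_mono (Set.image_mono (Finset.coe_subset.2 (M_mono h)))

theorem Curve.exists_mem (c : Curve F Ω R) (a : R) : ∃ N, a ∈ Submodule.span Ω (c.mons N) := by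
  have ha : a ∈ Submodule.span Ω (Set.range fun ij : ℕ × Fin c.D =>
      c.x ^ ij.1 * c.y ^ (ij.2 : ℕ)) := c.span Submodule.mem_top
  induction ha using Submodule.span_induction with
  | mem a h =>
    obtain ⟨ij, rfl⟩ := h
    exact ⟨ij.1 + c.B * ij.2, c.mon_mem (ij := (ij.1, (ij.2 : ℕ))) (mem_M.2 ⟨ij.2.2, le_rfl⟩)⟩
  | zero => exact ⟨0, Submodule.zero_mem _⟩
  | add a b _ _ ha hb =>
    obtain ⟨N, hN⟩ := ha
    obtain ⟨N', hN'⟩ := hb
    exact ⟨max N N', Submodule.add_mem _ (c.mono (le_max_left _ _) hN)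
      (c.mono (le_max_right _ _) hN')⟩
  | smul w a _ ha =>
    obtain ⟨N, hN⟩ := ha
    exact ⟨N, Submodule.smul_mem _ _ hN⟩

theorem Curve.li_M (c : Curve F Ω R) (N : ℕ) :
    LinearIndependent Ω (fun ij : M c.D c.B N => c.mon ij.1) := by
  have h := c.li.comp (fun ij : M c.D c.B N => (ij.1.1, (⟨ij.1.2, (mem_M.1 ij.2).1⟩ : Fin c.D)))
    (by
      rintro ⟨⟨i, j⟩, hij⟩ ⟨⟨k, l⟩, hkl⟩ h
      simp only [Prod.mk.injEq, Fin.mk.injEq] at h
      simp only [Subtype.mk.injEq, Prod.mk.injEq]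
      exact h)
  exact h

theorem Curve.range_M (c : Curve F Ω R) (N : ℕ) :
    Set.range (fun ij : M c.D c.B N => c.mon ij.1) = c.mons N := by
  ext a
  constructor
  · rintro ⟨ij, rfl⟩
    exact ⟨ij.1, ij.2, rfl⟩
  · rintro ⟨ij, hij, rfl⟩
    exact ⟨⟨ij, hij⟩, rfl⟩

theorem Curve.finrank (c : Curve F Ω R) (N : ℕ) :
    Module.finrank Ω (Submodule.span Ω (c.mons N)) = (M c.D c.B N).card := by
  rw [← c.range_M N, finrank_span_eq_card (c.li_M N), Fintype.card_coe]

/-- coefficients vanish -/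
theorem Curve.coeff_eq_zero (c : Curve F Ω R) (N : ℕ) (g : ℕ × ℕ → Ω)
    (h : ∑ ij ∈ M c.D c.B N, algebraMap Ω R (g ij) * c.mon ij = 0) :
    ∀ ij ∈ M c.D c.B N, g ij = 0 := by
  intro ij hij
  have h0 : ∑ ij : M c.D c.B N, g ij.1 • c.mon ij.1 = 0 := by
    rw [← h, ← Finset.sum_coe_sort (M c.D c.B N) fun ij => algebraMap Ω R (g ij) * c.mon ij]
    exact Finset.sum_congr rfl fun ij _ => Algebra.smul_def (g ij.1) (c.mon ij.1)
  exact Fintype.linearIndependent_iff.1 (c.li_M N) (fun ij => g ij.1) h0 ⟨ij, hij⟩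

end S2

end Pool.Agent.BCX
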