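import Pool.Agent.BCX.Weight

/-!
# The number of zeros of a function of given weight (row S3)
-/

namespace Pool.Agent.BCX

open Polynomial

section S3

variable {F Ω R : Type} [Field F] [Field Ω] [CommRing R] [Algebra F Ω] [Algebra Ω R]
    [Algebra F R] [IsScalarTower F Ω R]

/-- separation of points -/
theorem exists_separate (Z : Finset (R →ₐ[Ω] Ω)) (φ : R →ₐ[Ω] Ω) :
    ∃ a : R, φ a = 1 ∧ ∀ φ' ∈ Z, φ' ≠ φ → φ' a = 0 := by
  classical
  induction Z using Finset.induction_on with
  | empty => exact ⟨1, map_one φ, fun φ' h => absurd h (Finset.notMem_empty _)⟩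
  | insert φ₁ Z h₁ ih =>
    obtain ⟨a, ha, ha'⟩ := ih
    by_cases h : φ₁ = φ
    · refine ⟨a, ha, fun φ' hφ' hne => ?_⟩
      rcases Finset.mem_insert.1 hφ' with rfl | h2
      · exact absurd h hne
      · exact ha' φ' h2 hne
    · obtain ⟨b, hb⟩ : ∃ b, φ₁ b ≠ φ b := by
        by_contra hcon
        push Not at hcon
        exact h (AlgHom.ext hcon)
      have hb' : φ b - φ₁ b ≠ 0 := sub_ne_zero.2 fun h' => hb h'.symm
      refine ⟨a * ((φ b - φ₁ b)⁻¹ • (b - algebraMap Ω R (φ₁ b))), ?_, ?_⟩
      · rw [map_mul, ha, one_mul, map_smul, map_sub, AlgHom.commutes, Algebra.algebraMap_self,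
          RingHom.id_apply, smul_eq_mul, inv_mul_cancel₀ hb']
      · intro φ' hφ' hne
        rcases Finset.mem_insert.1 hφ' with rfl | h2
        · rw [map_mul, map_smul, map_sub, AlgHom.commutes, Algebra.algebraMap_self,
            RingHom.id_apply, sub_self, smul_zero, mul_zero]
        · rw [map_mul, ha' φ' h2 hne, zero_mul]

/-- ROW S3: a nonzero function of weight `N` has at most `D * N` zeros -/
theorem Curve.card_zeros [IsDomain R] (c : Curve F Ω R) {N : ℕ} {h : R}
    (hh : h ∈ Submodule.span Ω (c.mons N)) (h0 : h ≠ 0) (Z : Finset (R →ₐ[Ω] Ω))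
    (hZ : ∀ φ ∈ Z, φ h = 0) : Z.card ≤ c.D * N := by
  classical
  -- a large weight
  choose a ha ha' using fun φ : R →ₐ[Ω] Ω => exists_separate Z φ
  choose n hn using fun φ : R →ₐ[Ω] Ω => c.exists_mem (a φ)
  obtain ⟨N', hN'⟩ : ∃ N', ∀ φ ∈ Z, a φ ∈ Submodule.span Ω (c.mons N') :=
    ⟨Z.sup n, fun φ hφ => c.mono (Finset.le_sup hφ) (hn φ)⟩
  have hfin : ∀ m, FiniteDimensional Ω (Submodule.span Ω (c.mons m)) := fun m =>
    FiniteDimensional.span_of_finite Ω ((M c.D c.B m).finite_toSet.image _)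
  have := hfin (N' + N)
  have := hfin N'
  -- evaluation
  let ev : R →ₗ[Ω] (Z → Ω) := LinearMap.pi fun φ => φ.1.toLinearMap
  let g : Submodule.span Ω (c.mons (N' + N)) →ₗ[Ω] (Z → Ω) := ev ∘ₗ Submodule.subtype _
  have hsurj : Function.Surjective g := by
    intro w
    have hmem : ∑ φ ∈ Z.attach, w φ • a φ.1 ∈ Submodule.span Ω (c.mons (N' + N)) :=
      Submodule.sum_mem _ fun φ _ => Submodule.smul_mem _ _
        (c.mono (Nat.le_add_right _ _) (hN' φ.1 φ.2))
    refine ⟨⟨_, hmem⟩, ?_⟩
    funext ψ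
    change ψ.1 (∑ φ ∈ Z.attach, w φ • a φ.1) = w ψ
    rw [map_sum, Finset.sum_eq_single ψ]
    · rw [map_smul, ha, smul_eq_mul, mul_one]
    · intro φ _ hne
      rw [map_smul, ha' φ.1 ψ.1 ψ.2 (fun h' => hne (Subtype.ext h'.symm)), smul_zero]
    · intro h'
      exact absurd (Finset.mem_attach _ _) h'
  have h1 := LinearMap.finrank_range_add_finrank_ker g
  rw [LinearMap.range_eq_top.2 hsurj, finrank_top, Module.finrank_fintype_fun_eq_card,
    Fintype.card_coe, c.finrank] at h1
  -- multiplication by `h`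
  have hmul : ∀ b : Submodule.span Ω (c.mons N'), (b : R) * h ∈
      Submodule.span Ω (c.mons (N' + N)) := fun b => c.mul_mem b.2 hh
  let m : Submodule.span Ω (c.mons N') →ₗ[Ω] LinearMap.ker g :=
    { toFun := fun b => ⟨⟨(b : R) * h, hmul b⟩, by
        rw [LinearMap.mem_ker]
        funext ψ
        change ψ.1 ((b : R) * h) = 0
        rw [map_mul, hZ ψ.1 ψ.2, mul_zero]⟩
      map_add' := fun b b' => by
        apply Subtype.ext
        apply Subtype.ext
        change ((b : R) + (b' : R)) * h = (b : R) * h + (b' : R) * h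
        ring
      map_smul' := fun w b => by
        apply Subtype.ext
        apply Subtype.ext
        change (w • (b : R)) * h = w • ((b : R) * h)
        rw [smul_mul_assoc] }
  have hinj : Function.Injective m := by
    intro b b' hbb
    have h2 : (b : R) * h = (b' : R) * h :=
      congrArg (fun t : LinearMap.ker g => ((t : Submodule.span Ω (c.mons (N' + N))) : R)) hbb
    exact Subtype.ext (mul_right_cancel₀ h0 h2)
  have h2 := LinearMap.finrank_le_finrank_of_injective hinj
  rw [c.finrank] at h2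
  have h3 := card_M_add c.D c.B N N'
  omega

end S3

end Pool.Agent.BCX
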